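import Mathlib

set_option autoImplicit false

open scoped ContDiff
open Set

namespace Pool.Agent.H253Z.Bi

variable {E : Type} [NormedAddCommGroup E] [NormedSpace ℝ E]

/-- `g` is a smooth Riemannian metric on the vector space `E`. -/
structure IsMetric (g : E → E →L[ℝ] E →L[ℝ] ℝ) : Prop where
  smooth : ContDiff ℝ ∞ g
  symm : ∀ z v w, g z v w = g z w v
  pos : ∀ z v, v ≠ 0 → 0 < g z v v

/-- The length of the curve `γ` on `[a, b]`. -/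
noncomputable def len (g : E → E →L[ℝ] E →L[ℝ] ℝ) (γ : ℝ → E) (a b : ℝ) : ℝ :=
  ∫ t in a..b, √(g (γ t) (deriv γ t) (deriv γ t))

/-- The Riemannian distance: the infimum of the lengths of the `C^1` curves from `x` to `y`. -/
noncomputable def rdist (g : E → E →L[ℝ] E →L[ℝ] ℝ) (x y : E) : ℝ :=
  sInf {L | ∃ (γ : ℝ → E) (a b : ℝ), ContDiff ℝ 1 γ ∧ a ≤ b ∧ γ a = x ∧ γ b = y ∧ L = len g γ a b}

/-- Christoffel symbols of the first kind: `g(∇_a b, c)` at `y` for constant vector fields. -/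
noncomputable def koszul (g : E → E →L[ℝ] E →L[ℝ] ℝ) (y a b c : E) : ℝ :=
  (fderiv ℝ (fun z => g z b c) y a + fderiv ℝ (fun z => g z a c) y b
    - fderiv ℝ (fun z => g z a b) y c) / 2

/-- The smooth curve `γ` satisfies the geodesic equation `γ'' + Γ(γ', γ') = 0` (paired with an
arbitrary vector `c`) at all times in `I`. -/
def IsGeodOn (g : E → E →L[ℝ] E →L[ℝ] ℝ) (γ : ℝ → E) (I : Set ℝ) : Prop :=
  ContDiff ℝ ∞ γ ∧ ∀ t ∈ I, ∀ c,
    g (γ t) (deriv (deriv γ) t) c + koszul g (γ t) (deriv γ t) (deriv γ t) c = 0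

/-- `γ` is the geodesic `γ_v(t) = exp_p(t v)`, `t ≥ 0`, of the unit vector `v` at `p`, and its cut
time `sup {t : d(p, γ(t)) = t}` is finite and equal to `ρ`. -/
def IsCut (g : E → E →L[ℝ] E →L[ℝ] ℝ) (p v : E) (γ : ℝ → E) (ρ : ℝ) : Prop :=
  g p v v = 1 ∧ IsGeodOn g γ (Ici 0) ∧ γ 0 = p ∧ deriv γ 0 = v ∧
    IsLUB {t | 0 ≤ t ∧ rdist g p (γ t) = t} ρ

/-- `γ` on `[0, l]` is a segment from `p` to `x`: a unit-speed geodesic of length `d(p, x)`. -/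
def IsSegment (g : E → E →L[ℝ] E →L[ℝ] ℝ) (p x : E) (γ : ℝ → E) (l : ℝ) : Prop :=
  0 ≤ l ∧ IsGeodOn g γ (Icc 0 l) ∧ γ 0 = p ∧ γ l = x ∧
    (∀ t ∈ Icc 0 l, g (γ t) (deriv γ t) (deriv γ t) = 1) ∧ rdist g p x = l

/-- The separating set of `p`: the points joined to `p` by two distinct segments. -/
def Sep (g : E → E →L[ℝ] E →L[ℝ] ℝ) (p : E) : Set E :=
  {x | ∃ (γ η : ℝ → E) (l : ℝ), IsSegment g p x γ l ∧ IsSegment g p x η l ∧
    ∃ t ∈ Icc 0 l, γ t ≠ η t}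

/-- The cut locus of `p`. -/
def Cut (g : E → E →L[ℝ] E →L[ℝ] ℝ) (p : E) : Set E :=
  {x | ∃ (v : E) (γ : ℝ → E) (ρ : ℝ), IsCut g p v γ ρ ∧ x = γ ρ}

/-- The tangent cut locus of `p`. -/
def TCut (g : E → E →L[ℝ] E →L[ℝ] ℝ) (p : E) : Set E :=
  {u | ∃ (v : E) (γ : ℝ → E) (ρ : ℝ), IsCut g p v γ ρ ∧ u = ρ • v}

/-- The vectors of the tangent cut locus whose exponential lies in the separating set. -/
def TSep (g : E → E →L[ℝ] E →L[ℝ] ℝ) (p : E) : Set E :=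
  {u | ∃ (v : E) (γ : ℝ → E) (ρ : ℝ), IsCut g p v γ ρ ∧ u = ρ • v ∧ γ ρ ∈ Sep g p}

end Pool.Agent.H253Z.Bi
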