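import Mathlib
import Pool.Agent.H253Z.BiDefs

set_option autoImplicit false
set_option linter.unusedSectionVars false
set_option maxHeartbeats 400000
set_option maxSynthPendingDepth 3

open scoped ContDiff Topology
open Set Filter MeasureTheory

namespace Pool.Agent.H253Z.Bi

variable {E : Type} [NormedAddCommGroup E] [NormedSpace ℝ E] {g : E → E →L[ℝ] E →L[ℝ] ℝ}

theorem IsMetric.nonneg (hg : IsMetric g) (z v : E) : 0 ≤ g z v v := by
  by_cases h : v = 0
  · simp [h]
  · exact (hg.pos z v h).le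

theorem continuous_speed (hg : IsMetric g) {γ : ℝ → E} (hγ : ContDiff ℝ 1 γ) :
    Continuous fun t => √(g (γ t) (deriv γ t) (deriv γ t)) := by
  have h1 : Continuous (deriv γ) := hγ.continuous_deriv le_rfl
  exact (((hg.smooth.continuous.comp hγ.continuous).clm_apply h1).clm_apply h1).sqrt

theorem len_nonneg (γ : ℝ → E) {a b : ℝ} (h : a ≤ b) : 0 ≤ len g γ a b :=
  intervalIntegral.integral_nonneg h fun _ _ => Real.sqrt_nonneg _

theorem len_add (hg : IsMetric g) {γ : ℝ → E} (hγ : ContDiff ℝ 1 γ) (a b c : ℝ) :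
    len g γ a b + len g γ b c = len g γ a c :=
  intervalIntegral.integral_add_adjacent_intervals
    ((continuous_speed hg hγ).intervalIntegrable _ _)
    ((continuous_speed hg hγ).intervalIntegrable _ _)

theorem len_of_speed {γ : ℝ → E} {a b s : ℝ} (h : a ≤ b) (hs : 0 ≤ s)
    (h1 : ∀ t ∈ Icc a b, g (γ t) (deriv γ t) (deriv γ t) = s ^ 2) : len g γ a b = (b - a) * s := by
  rw [len, intervalIntegral.integral_congr (g := fun _ => s)]
  · simp
  · intro t ht
    rw [uIcc_of_le h] at ht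
    simp only
    rw [h1 t ht, Real.sqrt_sq hs]

theorem len_of_unit {γ : ℝ → E} {a b : ℝ} (h : a ≤ b)
    (h1 : ∀ t ∈ Icc a b, g (γ t) (deriv γ t) (deriv γ t) = 1) : len g γ a b = b - a := by
  rw [len_of_speed h zero_le_one (by simpa using h1), mul_one]

theorem rdist_le_len {γ : ℝ → E} (hγ : ContDiff ℝ 1 γ) {a b : ℝ} (h : a ≤ b) :
    rdist g (γ a) (γ b) ≤ len g γ a b := by
  refine csInf_le ⟨0, ?_⟩ ⟨γ, a, b, hγ, h, rfl, rfl, rfl⟩
  rintro L ⟨η, c, d, -, h2, -, -, rfl⟩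
  exact len_nonneg η h2

theorem le_rdist {x y : E} {r : ℝ}
    (h : ∀ (γ : ℝ → E) (a b : ℝ), ContDiff ℝ 1 γ → a ≤ b → γ a = x → γ b = y → r ≤ len g γ a b) :
    r ≤ rdist g x y := by
  refine le_csInf ⟨_, fun t => x + t • (y - x), 0, 1, by fun_prop, zero_le_one, by simp, by simp,
    rfl⟩ ?_
  rintro L ⟨γ, a, b, h1, h2, h3, h4, rfl⟩
  exact h γ a b h1 h2 h3 h4

theorem rdist_self (x : E) : rdist g x x = 0 := by
  apply le_antisymm
  · have := rdist_le_len (g := g) (γ := fun _ => x) contDiff_const (le_refl (0 : ℝ))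
    simpa [len] using this
  · exact le_rdist fun γ a b _ h _ _ => len_nonneg γ h

theorem len_comp (hg : IsMetric g) {γ : ℝ → E} (hγ : ContDiff ℝ 1 γ) {f : ℝ → ℝ}
    (hf : ContDiff ℝ 1 f) (h0 : ∀ t, 0 ≤ deriv f t) (a b : ℝ) :
    len g (γ ∘ f) a b = len g γ (f a) (f b) := by
  have hd := hf.differentiable one_ne_zero
  rw [len, len, ← intervalIntegral.integral_comp_mul_deriv (f' := deriv f)
    (fun x _ => (hd x).hasDerivAt) (hf.continuous_deriv le_rfl).continuousOn
    (continuous_speed hg hγ)]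
  congr 1
  funext t
  have h1 : deriv (γ ∘ f) t = deriv f t • deriv γ (f t) :=
    deriv.scomp t (hγ.differentiable one_ne_zero _) (hd t)
  simp only [h1, map_smul, smul_apply, smul_eq_mul, Function.comp_apply]
  rw [← mul_assoc, Real.sqrt_mul (mul_self_nonneg _), Real.sqrt_mul_self (h0 t), mul_comm]

theorem len_congr {γ η : ℝ → E} {a b : ℝ} (hab : a ≤ b) (h : EqOn γ η (Ioo a b)) :
    len g γ a b = len g η a b := by
  rw [len, len, intervalIntegral.integral_of_le hab, intervalIntegral.integral_of_le hab,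
    integral_Ioc_eq_integral_Ioo, integral_Ioc_eq_integral_Ioo]
  refine setIntegral_congr_fun measurableSet_Ioo fun t ht => ?_
  have h1 : γ =ᶠ[𝓝 t] η := by
    filter_upwards [isOpen_Ioo.mem_nhds ht] with s hs using h hs
  rw [h1.deriv_eq, h ht]

theorem deriv_sT_nonneg (t : ℝ) : 0 ≤ deriv Real.smoothTransition t :=
  Real.smoothTransition.monotone.deriv_nonneg

theorem rdist_le_add (hg : IsMetric g) {γ η : ℝ → E} (hγ : ContDiff ℝ 1 γ) (hη : ContDiff ℝ 1 η)
    {a b c d : ℝ} (hab : a ≤ b) (hcd : c ≤ d) (h : γ b = η c) :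
    rdist g (γ a) (η d) ≤ len g γ a b + len g η c d := by
  have hS : ContDiff ℝ 1 Real.smoothTransition := Real.smoothTransition.contDiff
  let f₁ : ℝ → ℝ := fun t => a + (b - a) * Real.smoothTransition t
  let f₂ : ℝ → ℝ := fun t => c + (d - c) * Real.smoothTransition (t - 1)
  have h1 : ContDiff ℝ 1 f₁ := contDiff_const.add (contDiff_const.mul hS)
  have h2 : ContDiff ℝ 1 f₂ :=
    contDiff_const.add (contDiff_const.mul (hS.comp (contDiff_id.sub contDiff_const)))
  have m1 : Monotone f₁ := fun s t hst => by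
    have := Real.smoothTransition.monotone hst
    simp only [f₁]
    nlinarith
  have m2 : Monotone f₂ := fun s t hst => by
    have := Real.smoothTransition.monotone (show s - 1 ≤ t - 1 by linarith)
    simp only [f₂]
    nlinarith
  let σ : ℝ → E := fun t => γ (f₁ t) + η (f₂ t) - η c
  have hσ : ContDiff ℝ 1 σ := ((hγ.comp h1).add (hη.comp h2)).sub contDiff_const
  have e1 : ∀ t ≤ 1, σ t = (γ ∘ f₁) t := fun t ht => by
    simp [σ, f₂, Real.smoothTransition.zero_of_nonpos (show t - 1 ≤ 0 by linarith)]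
  have e2 : ∀ t, 1 ≤ t → σ t = (η ∘ f₂) t := fun t ht => by
    simp [σ, f₁, Real.smoothTransition.one_of_one_le ht, h]
  have h3 := rdist_le_len (g := g) hσ (a := 0) (b := 2) (by norm_num)
  rw [← len_add hg hσ 0 1 2, len_congr zero_le_one (fun t ht => e1 t ht.2.le),
    len_congr (a := 1) (b := 2) (by norm_num) (fun t ht => e2 t ht.1.le),
    len_comp hg hγ h1 (fun t => m1.deriv_nonneg), len_comp hg hη h2 (fun t => m2.deriv_nonneg),
    e1 0 zero_le_one, e2 2 (by norm_num)] at h3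
  have a1 : f₁ 0 = a := by simp [f₁]
  have a2 : f₁ 1 = b := by simp [f₁]
  have a3 : f₂ 1 = c := by simp [f₂]
  have a4 : f₂ 2 = d := by norm_num [f₂]
  simpa only [Function.comp_apply, a1, a2, a3, a4] using h3

theorem rdist_triangle (hg : IsMetric g) (x y z : E) :
    rdist g x z ≤ rdist g x y + rdist g y z := by
  have h1 : ∀ (η : ℝ → E) (c d : ℝ), ContDiff ℝ 1 η → c ≤ d → η c = y → η d = z →
      rdist g x z - len g η c d ≤ rdist g x y := by
    intro η c d h2 h3 h4 h5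
    refine le_rdist fun γ a b h6 h7 h8 h9 => ?_
    have := rdist_le_add hg h6 h2 h7 h3 (h9.trans h4.symm)
    rw [h8, h5] at this
    linarith
  have h2 : rdist g x z - rdist g x y ≤ rdist g y z :=
    le_rdist fun η c d h2 h3 h4 h5 => by linarith [h1 η c d h2 h3 h4 h5]
  linarith

/-- calibration inequality -/
theorem sub_le_len (hg : IsMetric g) {γ : ℝ → E} (hγ : ContDiff ℝ 1 γ) {a b : ℝ} (hab : a ≤ b)
    {u : ℝ → ℝ} (hu : ContinuousOn u (Icc a b))
    (h : ∀ t ∈ Ioo a b, ∃ r, HasDerivWithinAt u r (Ioi t) t ∧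
      r ^ 2 ≤ g (γ t) (deriv γ t) (deriv γ t)) :
    u b - u a ≤ len g γ a b := by
  choose! r h1 h2 using h
  exact intervalIntegral.sub_le_integral_of_hasDeriv_right_of_le hab hu h1
    (continuous_speed hg hγ).integrableOn_Icc fun t ht => Real.le_sqrt_of_sq_le (h2 t ht)

theorem fderiv_g (hg : IsMetric g) (y a b c : E) :
    fderiv ℝ (fun z => g z b c) y a = fderiv ℝ g y a b c := by
  have h1 := (hg.smooth.differentiable (by simp) y).hasFDerivAt
  have h2 := (h1.clm_apply (hasFDerivAt_const b y)).clm_apply (hasFDerivAt_const c y)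
  rw [h2.fderiv]
  simp

theorem fderiv_g_symm (hg : IsMetric g) (y a b c : E) :
    fderiv ℝ g y a b c = fderiv ℝ g y a c b := by
  rw [← fderiv_g hg, ← fderiv_g hg]
  congr 2
  funext z
  exact hg.symm z b c

theorem koszul_eq (hg : IsMetric g) (y v c : E) :
    koszul g y v v c = fderiv ℝ g y v v c - fderiv ℝ g y c v v / 2 := by
  rw [koszul, fderiv_g hg, fderiv_g hg]; ring

theorem eq_of_calib (hg : IsMetric g) {z : E} {L : E →L[ℝ] ℝ} (h : ∀ v, (L v) ^ 2 ≤ g z v v)
    {v : E} (h1 : g z v v = 1) (h2 : L v = 1) (c : E) : g z v c = L c := by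
  have h3 : ∀ s : ℝ, 0 ≤ (g z c c - L c ^ 2) * (s * s) + (2 * (g z v c - L c)) * s + 0 := by
    intro s
    have h4 := h (v + s • c)
    simp only [map_add, map_smul, add_apply, smul_apply,
      smul_eq_mul, h1, h2, hg.symm z c v] at h4
    nlinarith
  have h5 := discrim_le_zero h3
  rw [discrim] at h5
  have h6 : (g z v c - L c) ^ 2 ≤ 0 := by nlinarith
  exact sub_eq_zero.1 (pow_eq_zero_iff two_ne_zero |>.1 (le_antisymm h6 (sq_nonneg _)))

theorem eq_of_calib' (hg : IsMetric g) {z : E} {L : E →L[ℝ] ℝ} (h : ∀ v, (L v) ^ 2 ≤ g z v v)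
    {v w : E} (h1 : g z v v = 1) (h2 : L v = 1) (h3 : g z w w = 1) (h4 : L w = 1) : v = w := by
  by_contra hne
  have h5 := hg.pos z (v - w) (sub_ne_zero.2 hne)
  have h6 := eq_of_calib hg h h1 h2 w
  simp only [map_sub, sub_apply, h1, h3, hg.symm z w v, h6, h4] at h5
  norm_num at h5

/-- a calibrated curve is a geodesic -/
theorem geod_of_calib (hg : IsMetric g) {γ : ℝ → E} (hγ : ContDiff ℝ ∞ γ) {t : ℝ} {U : E → ℝ}
    (hU : ContDiffAt ℝ 2 U (γ t))
    (h1 : ∀ᶠ z in 𝓝 (γ t), ∀ v, (fderiv ℝ U z v) ^ 2 ≤ g z v v)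
    (h2 : ∀ᶠ s in 𝓝 t, g (γ s) (deriv γ s) (deriv γ s) = 1 ∧ fderiv ℝ U (γ s) (deriv γ s) = 1)
    (c : E) :
    g (γ t) (deriv (deriv γ) t) c + koszul g (γ t) (deriv γ t) (deriv γ t) c = 0 := by
  have hd : HasDerivAt γ (deriv γ t) t := (hγ.differentiable (by simp) t).hasDerivAt
  have hdd : HasDerivAt (deriv γ) (deriv (deriv γ) t) t :=
    ((hγ.deriv' (n := ∞)).differentiable (by simp) t).hasDerivAt
  have hg' := (hg.smooth.differentiable (by simp) (γ t)).hasFDerivAt
  have hU' : HasFDerivAt (fderiv ℝ U) (fderiv ℝ (fderiv ℝ U) (γ t)) (γ t) :=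
    ((hU.fderiv_right (m := 1) (by norm_num)).differentiableAt one_ne_zero).hasFDerivAt
  have hsym : fderiv ℝ (fderiv ℝ U) (γ t) (deriv γ t) c
      = fderiv ℝ (fderiv ℝ U) (γ t) c (deriv γ t) :=
    (hU.isSymmSndFDerivAt (by simp)).eq _ _
  set v := deriv γ t with hv
  have e1 : (fun s => g (γ s) (deriv γ s) c) =ᶠ[𝓝 t] fun s => fderiv ℝ U (γ s) c := by
    filter_upwards [h2, hγ.continuous.continuousAt.eventually h1] with s hs hs'
    exact eq_of_calib hg hs' hs.1 hs.2 c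
  have d1 : HasDerivAt (fun s => g (γ s) (deriv γ s) c)
      (fderiv ℝ g (γ t) v v c + g (γ t) (deriv (deriv γ) t) c) t := by
    have := ((hg'.comp_hasDerivAt t hd).clm_apply hdd).clm_apply (hasDerivAt_const t c)
    simpa using this
  have d2 : HasDerivAt (fun s => fderiv ℝ U (γ s) c) (fderiv ℝ (fderiv ℝ U) (γ t) v c) t := by
    have := (hU'.comp_hasDerivAt t hd).clm_apply (hasDerivAt_const t c)
    simpa using this
  have e2 := d1.unique (d2.congr_of_eventuallyEq e1)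
  have hmin : IsLocalMin (fun z => g z v v - (fderiv ℝ U z v) ^ 2) (γ t) := by
    filter_upwards [h1] with z hz
    have := h2.self_of_nhds
    rw [this.1, this.2]
    linarith [hz v]
  have d3 : HasFDerivAt (fun z => g z v v - (fderiv ℝ U z v) ^ 2) _ (γ t) :=
    ((hg'.clm_apply (hasFDerivAt_const v _)).clm_apply (hasFDerivAt_const v _)).sub
      ((hU'.clm_apply (hasFDerivAt_const v _)).pow 2)
  have e3 := congrArg (fun L : E →L[ℝ] ℝ => L c) (hmin.hasFDerivAt_eq_zero d3)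
  have e4 := h2.self_of_nhds.2
  rw [← hv] at e4
  simp [e4] at e3
  rw [koszul_eq hg]
  linarith

theorem geod_ode [FiniteDimensional ℝ E] (hg : IsMetric g) :
    ∃ F : E × E → E × E, ContDiff ℝ 1 F ∧ ∀ (σ : ℝ → E) (I : Set ℝ), IsGeodOn g σ I → ∀ t ∈ I,
      HasDerivAt (fun s => (σ s, deriv σ s)) (F (σ t, deriv σ t)) t := by
  have hinv : ∀ z, ∃ e : E ≃L[ℝ] (E →L[ℝ] ℝ), (e : E →L[ℝ] E →L[ℝ] ℝ) = g z := by
    intro z
    have hi : Function.Injective (g z).toLinearMap := by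
      rw [injective_iff_map_eq_zero]
      intro v hv
      by_contra hne
      have h2 := hg.pos z v hne
      have h3 : g z v = 0 := hv
      rw [h3] at h2
      simp at h2
    have hf : Module.finrank ℝ E = Module.finrank ℝ (E →L[ℝ] ℝ) := by
      rw [← (LinearMap.toContinuousLinearMap (𝕜 := ℝ) (E := E) (F' := ℝ)).finrank_eq]
      exact Subspace.dual_finrank_eq.symm
    exact ⟨((g z).toLinearMap.linearEquivOfInjective hi hf).toContinuousLinearEquiv, by
      ext v w; rfl⟩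
  let K : E × E → E →L[ℝ] ℝ := fun q => fderiv ℝ g q.1 q.2 q.2 - (1 / 2 : ℝ) •
    (ContinuousLinearMap.apply ℝ ℝ q.2 ∘L
      (ContinuousLinearMap.apply ℝ (E →L[ℝ] ℝ) q.2 ∘L fderiv ℝ g q.1))
  let F : E × E → E × E := fun q => (q.2, -((g q.1).inverse (K q)))
  have hDg : ContDiff ℝ 1 (fun q : E × E => fderiv ℝ g q.1) :=
    (hg.smooth.fderiv_right (m := 1) (by norm_cast)).comp contDiff_fst
  have hK : ContDiff ℝ 1 K := by
    refine ((hDg.clm_apply contDiff_snd).clm_apply contDiff_snd).sub (ContDiff.const_smul _ ?_)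
    exact ((ContinuousLinearMap.apply ℝ ℝ).contDiff.comp contDiff_snd).clm_comp
      (((ContinuousLinearMap.apply ℝ (E →L[ℝ] ℝ)).contDiff.comp contDiff_snd).clm_comp hDg)
  have hI : ContDiff ℝ 1 (fun q : E × E => (g q.1).inverse) := by
    rw [contDiff_iff_contDiffAt]
    intro q
    obtain ⟨e, he⟩ := hinv q.1
    have h2 := contDiffAt_map_inverse (n := 1) e
    rw [he] at h2
    exact h2.comp q ((hg.smooth.of_le (by norm_cast)).comp contDiff_fst).contDiffAt
  have hF : ContDiff ℝ 1 F := contDiff_snd.prodMk (hI.clm_apply hK).neg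
  refine ⟨F, hF, ?_⟩
  intro σ I hσ t ht
  have hd : HasDerivAt σ (deriv σ t) t := (hσ.1.differentiable (by simp) t).hasDerivAt
  have hdd : HasDerivAt (deriv σ) (deriv (deriv σ) t) t :=
    ((hσ.1.deriv' (n := ∞)).differentiable (by simp) t).hasDerivAt
  have h2 : deriv (deriv σ) t = -((g (σ t)).inverse (K (σ t, deriv σ t))) := by
    obtain ⟨e, he⟩ := hinv (σ t)
    have h3 : K (σ t, deriv σ t) = e (-deriv (deriv σ) t) := by
      ext c
      have h4 := hσ.2 t ht c
      rw [koszul_eq hg] at h4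
      have h5 : e (-deriv (deriv σ) t) = g (σ t) (-deriv (deriv σ) t) := by rw [← he]; rfl
      rw [h5]
      simp [K]
      linarith
    rw [h3, ← he, ContinuousLinearMap.inverse_equiv]
    simp
  have h3 := hd.prodMk hdd
  rw [h2] at h3
  exact h3

theorem geod_unique_aux [FiniteDimensional ℝ E] (hg : IsMetric g) {γ η : ℝ → E} {a b : ℝ}
    (hγ : IsGeodOn g γ (Icc a b)) (hη : IsGeodOn g η (Icc a b))
    (h : (γ a = η a ∧ deriv γ a = deriv η a) ∨ (γ b = η b ∧ deriv γ b = deriv η b)) :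
    EqOn γ η (Icc a b) := by
  obtain ⟨F, hF, hode⟩ := geod_ode hg
  have hc : ∀ σ : ℝ → E, IsGeodOn g σ (Icc a b) → Continuous fun s => (σ s, deriv σ s) :=
    fun σ hσ => hσ.1.continuous.prodMk (hσ.1.continuous_deriv (by norm_cast))
  have hS : IsCompact ((fun s => (γ s, deriv γ s)) '' Icc a b ∪
      (fun s => (η s, deriv η s)) '' Icc a b) :=
    (isCompact_Icc.image (hc γ hγ)).union (isCompact_Icc.image (hc η hη))
  obtain ⟨L, hL⟩ := (hF.locallyLipschitz.locallyLipschitzOn).exists_lipschitzOnWith_of_compact hS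
  rcases h with ⟨h0, h1⟩ | ⟨h0, h1⟩
  · have h4 := ODE_solution_unique_of_mem_Icc_right (v := fun _ => F) (a := a) (b := b)
      (fun _ _ => hL) (hc γ hγ).continuousOn
      (fun t ht => (hode γ _ hγ t (Ico_subset_Icc_self ht)).hasDerivWithinAt)
      (fun t ht => Or.inl ⟨t, Ico_subset_Icc_self ht, rfl⟩) (hc η hη).continuousOn
      (fun t ht => (hode η _ hη t (Ico_subset_Icc_self ht)).hasDerivWithinAt)
      (fun t ht => Or.inr ⟨t, Ico_subset_Icc_self ht, rfl⟩) (by simp only [h0, h1])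
    exact fun t ht => congrArg Prod.fst (h4 ht)
  · have h4 := ODE_solution_unique_of_mem_Icc_left (v := fun _ => F) (a := a) (b := b)
      (fun _ _ => hL) (hc γ hγ).continuousOn
      (fun t ht => (hode γ _ hγ t (Ioc_subset_Icc_self ht)).hasDerivWithinAt)
      (fun t ht => Or.inl ⟨t, Ioc_subset_Icc_self ht, rfl⟩) (hc η hη).continuousOn
      (fun t ht => (hode η _ hη t (Ioc_subset_Icc_self ht)).hasDerivWithinAt)
      (fun t ht => Or.inr ⟨t, Ioc_subset_Icc_self ht, rfl⟩) (by simp only [h0, h1])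
    exact fun t ht => congrArg Prod.fst (h4 ht)

theorem IsGeodOn.mono {γ : ℝ → E} {I J : Set ℝ} (h : IsGeodOn g γ I) (hJ : J ⊆ I) :
    IsGeodOn g γ J := ⟨h.1, fun t ht => h.2 t (hJ ht)⟩

theorem geod_unique [FiniteDimensional ℝ E] (hg : IsMetric g) {γ η : ℝ → E}
    (hγ : IsGeodOn g γ (Ici 0)) (hη : IsGeodOn g η (Ici 0)) (h0 : γ 0 = η 0)
    (h1 : deriv γ 0 = deriv η 0) {T : ℝ} (hT : 0 ≤ T) : γ T = η T :=
  geod_unique_aux hg (hγ.mono Icc_subset_Ici_self) (hη.mono Icc_subset_Ici_self)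
    (Or.inl ⟨h0, h1⟩) ⟨hT, le_rfl⟩

/-- the last time in a closed set -/
theorem last_time {σ : ℝ → E} (hσ : Continuous σ) {K : Set E} (hK : IsClosed K) {a b : ℝ}
    (hab : a ≤ b) (ha : σ a ∈ K) : ∃ t ∈ Icc a b, σ t ∈ K ∧ ∀ s ∈ Ioc t b, σ s ∉ K := by
  have hc : IsCompact (Icc a b ∩ σ ⁻¹' K) := isCompact_Icc.inter_right (hK.preimage hσ)
  obtain ⟨t, ht, h⟩ := hc.exists_isGreatest ⟨a, ⟨le_rfl, hab⟩, ha⟩
  exact ⟨t, ht.1, ht.2, fun s hs hk => absurd (h ⟨⟨ht.1.1.trans hs.1.le, hs.2⟩, hk⟩)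
    (not_le.2 hs.1)⟩

/-- equality in the calibration inequality -/
theorem eq_of_len_eq {γ : ℝ → E} (hγ : ContDiff ℝ 1 γ) {a b : ℝ} (hab : a < b)
    {L : E →L[ℝ] ℝ} (h : ∀ t ∈ Icc a b, L (deriv γ t) ≤ 1) (h2 : L (γ b) - L (γ a) = b - a) :
    L (deriv γ b) = 1 := by
  have hd : ∀ t, HasDerivAt (fun t => t - L (γ t)) (1 - L (deriv γ t)) t := fun t =>
    (hasDerivAt_id t).sub (L.hasFDerivAt.comp_hasDerivAt t
      (hγ.differentiable one_ne_zero t).hasDerivAt)
  have hm : MonotoneOn (fun t => t - L (γ t)) (Icc a b) := by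
    refine monotoneOn_of_deriv_nonneg (convex_Icc a b)
      (fun t _ => (hd t).continuousAt.continuousWithinAt)
      (fun t _ => (hd t).differentiableAt.differentiableWithinAt) fun t ht => ?_
    rw [(hd t).deriv]
    linarith [h t (interior_subset ht)]
  have h3 : ∀ t ∈ Icc a b, t - L (γ t) = b - L (γ b) := by
    intro t ht
    have h4 := hm ⟨le_rfl, hab.le⟩ ht ht.1
    have h5 := hm ht ⟨hab.le, le_rfl⟩ ht.2
    simp only at h4 h5
    linarith
  have h6 : HasDerivWithinAt (fun t => t - L (γ t)) 0 (Icc a b) b :=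
    (hasDerivWithinAt_const b (Icc a b) (b - L (γ b))).congr h3 rfl
  have h7 := (uniqueDiffOn_Icc hab b ⟨hab.le, le_rfl⟩).eq_deriv _ (hd b).hasDerivWithinAt h6
  linarith

end Pool.Agent.H253Z.Bi
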