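import Mathlib

set_option autoImplicit false
set_option maxHeartbeats 400000

open scoped ContDiff Topology NNReal
open Set Filter Real

namespace Pool.Agent.H253Z.Bi

/-- the basic bump profile -/
noncomputable def EE (u : ℝ) : ℝ := exp 2 / 4 * expNegInvGlue (1 / 2 - u)

theorem EE_nonneg (u : ℝ) : 0 ≤ EE u := mul_nonneg (by positivity) (expNegInvGlue.nonneg _)

theorem EE_of_le {u : ℝ} (h : 1 / 2 ≤ u) : EE u = 0 := by
  rw [EE, expNegInvGlue.zero_of_nonpos (by linarith), mul_zero]

theorem EE_of_lt {u : ℝ} (h : u < 1 / 2) : EE u = exp (2 - (1 / 2 - u)⁻¹) / 4 := by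
  rw [EE, expNegInvGlue, if_neg (by linarith), sub_eq_add_neg 2, exp_add]; ring

theorem EE_zero : EE 0 = 1 / 4 := by
  rw [EE_of_lt (by norm_num)]; norm_num

theorem contDiff_EE : ContDiff ℝ ∞ EE :=
  contDiff_const.mul (expNegInvGlue.contDiff.comp (contDiff_const.sub contDiff_id))

theorem EE_add_gt {u : ℝ} (h : 0 < u) : 1 / 4 < EE u + u := by
  rcases lt_or_ge (1 / 4) u with h1 | h1
  · linarith [EE_nonneg u]
  rcases h1.eq_or_lt with h1 | h1
  · rw [EE_of_lt (by linarith)]
    have := exp_pos (2 - (1 / 2 - u)⁻¹)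
    linarith
  rw [EE_of_lt (by linarith)]
  have hv : 0 < 1 / 2 - u := by linarith
  set y := (1 / 2 - u)⁻¹ - 2 with hy
  have hy0 : 0 < y := by
    rw [hy, sub_pos, lt_inv_comm₀ (by norm_num) hv]; linarith
  have hy2 : y < 2 := by
    rw [hy, sub_lt_iff_lt_add, inv_lt_comm₀ hv (by norm_num)]; linarith
  have h2 := exp_lt_two_add_div_two_sub hy0 hy2
  have h3 : (2 - y) / (2 + y) < exp (-y) := by
    rw [exp_neg, lt_inv_comm₀ (div_pos (by linarith) (by linarith)) (exp_pos y), inv_div]
    exact h2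
  have h4 : (2 - y) / (2 + y) = 1 - 4 * u := by
    have h6 : (2 + y) * (1 / 2 - u) = 1 := by
      rw [hy, add_sub_cancel, inv_mul_cancel₀ hv.ne']
    rw [div_eq_iff (by linarith)]
    linarith
  have h5 : 2 - (1 / 2 - u)⁻¹ = -y := by rw [hy]; ring
  rw [h5]
  linarith

theorem hasDerivAt_EE : HasDerivAt EE (-1) 0 := by
  have h1 : HasDerivAt (fun u : ℝ => 1 / 2 - u) (-1) 0 :=
    (hasDerivAt_id (0 : ℝ)).const_sub (1 / 2)
  have h2 := (((h1.inv (by norm_num)).const_sub 2).exp).div_const 4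
  have h3 : EE =ᶠ[𝓝 0] fun u => exp (2 - (1 / 2 - u)⁻¹) / 4 := by
    filter_upwards [Iio_mem_nhds (show (0 : ℝ) < 1 / 2 by norm_num)] with u hu using EE_of_lt hu
  refine HasDerivAt.congr_of_eventuallyEq ?_ h3
  exact HasDerivAt.congr_deriv h2 (by norm_num)

theorem EE_small {σ : ℝ} (hσ : 0 < σ) : ∀ᶠ u in 𝓝[>] (0 : ℝ), EE u + u < 1 / 4 + σ * u := by
  have h1 := hasDerivAt_EE.tendsto_slope_zero_right
  filter_upwards [h1.eventually (gt_mem_nhds (show (-1 : ℝ) < -1 + σ by linarith)),
    self_mem_nhdsWithin] with u hu hu0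
  have hu1 : 0 < u := hu0
  rw [zero_add, EE_zero, smul_eq_mul, inv_mul_lt_iff₀ hu1] at hu
  linarith

theorem cos_le_cos_aux {w t : ℝ} (h0 : 0 ≤ w) (h1 : w ≤ 1) (h2 : w ≤ |t|) (h3 : |t| ≤ π + 1) :
    cos t ≤ cos w := by
  rw [← cos_abs t]
  rcases le_total |t| π with h | h
  · exact cos_le_cos_of_nonneg_of_le_pi h0 h h2
  · have h4 : cos |t| ≤ 0 :=
      cos_nonpos_of_pi_div_two_le_of_le (by linarith [pi_pos]) (by linarith [two_le_pi])
    exact h4.trans (cos_nonneg_of_mem_Icc ⟨by linarith [pi_pos], by linarith [two_le_pi]⟩)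

/-- the directions -/
noncomputable def th (k : ℕ) : ℝ := (1 / 2) ^ k / 4

/-- the widths -/
noncomputable def dl (k : ℕ) : ℝ := 2 * (1 - cos (th k / 8))

/-- the bumps -/
noncomputable def bump (k : ℕ) (t : ℝ) : ℝ := dl k * EE ((1 - cos (t - th k)) / dl k)

theorem th_pos (k : ℕ) : 0 < th k := by unfold th; positivity

theorem th_le (k : ℕ) : th k ≤ 1 / 4 := by
  have : (1 / 2 : ℝ) ^ k ≤ 1 := pow_le_one₀ (by norm_num) (by norm_num)
  unfold th; linarith

theorem th_succ_le {j k : ℕ} (h : k < j) : th j ≤ th k / 2 := by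
  have : (1 / 2 : ℝ) ^ j ≤ (1 / 2) ^ (k + 1) := pow_le_pow_of_le_one (by norm_num) (by norm_num) h
  rw [pow_succ] at this
  unfold th; linarith

theorem cos_lt_one_of {t : ℝ} (h0 : 0 < t) (h1 : t ≤ 1) : cos t < 1 := by
  have := cos_lt_cos_of_nonneg_of_le_pi le_rfl (by linarith [two_le_pi]) h0
  rwa [cos_zero] at this

theorem dl_pos (k : ℕ) : 0 < dl k := by
  have := cos_lt_one_of (t := th k / 8) (by linarith [th_pos k]) (by linarith [th_le k])
  unfold dl; linarith

theorem bump_nonneg (k : ℕ) (t : ℝ) : 0 ≤ bump k t := mul_nonneg (dl_pos k).le (EE_nonneg _)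

theorem contDiff_bump (k : ℕ) : ContDiff ℝ ∞ (bump k) :=
  contDiff_const.mul (contDiff_EE.comp (by fun_prop))

theorem bump_zero {k : ℕ} {t : ℝ} (h2 : th k / 8 ≤ |t - th k|) (h3 : |t - th k| ≤ π + 1) :
    bump k t = 0 := by
  have h := cos_le_cos_aux (by linarith [th_pos k]) (by linarith [th_le k]) h2 h3
  rw [bump, EE_of_le, mul_zero]
  rw [le_div_iff₀ (dl_pos k), dl]
  linarith

theorem bump_other {j k : ℕ} (h : j ≠ k) {t : ℝ} (ht : |t - th k| ≤ th k / 8) : bump j t = 0 := by
  have h1 := th_pos j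
  have h2 := th_pos k
  have h3 := th_le j
  have h4 := th_le k
  rw [abs_le] at ht
  apply bump_zero
  · rcases lt_or_gt_of_ne h with h | h
    · have := th_succ_le h
      rw [le_abs]; right; linarith
    · have := th_succ_le h
      rw [le_abs]; left; linarith
  · rw [abs_le]; constructor <;> linarith [pi_pos]

theorem bump_bdd (k i : ℕ) : ∃ R, ∀ x, ‖iteratedFDeriv ℝ i (bump k) x‖ ≤ R := by
  have hp : Function.Periodic (iteratedFDeriv ℝ i (bump k)) (2 * π) := by
    intro x
    rw [← iteratedFDeriv_comp_add_right]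
    congr 1
    funext y
    simp only [bump]
    rw [show y + 2 * π - th k = y - th k + 2 * π by ring, cos_add_two_pi]
  have hb := hp.isBounded_of_continuous (by positivity)
    ((contDiff_bump k).continuous_iteratedFDeriv (mod_cast le_top))
  obtain ⟨R, hR⟩ := hb.exists_norm_le
  exact ⟨R, fun x => hR _ (mem_range_self x)⟩

/-- the properties of the perturbation -/
structure Fam (φ : ℝ → ℝ) (ε : ℕ → ℝ) : Prop where
  smooth : ContDiff ℝ ∞ φ
  nonneg : ∀ t, 0 ≤ φ t
  zero : ∀ t, |t| ≤ π → (t ≤ 0 ∨ 1 / 2 ≤ t) → φ t = 0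
  pos : ∀ k, 0 < ε k
  lim : Tendsto ε atTop (𝓝 0)
  min : ∀ k t, cos (t - th k) ≠ 1 → φ (th k) - ε k < φ t - ε k * cos (t - th k)
  deg : ∀ k s, 0 < s → ∃ t ∈ Ioo (0 : ℝ) (1 / 2),
    φ t - ε k * cos (t - th k) + s * cos (t - th k) < φ (th k) - ε k + s

theorem Fam.smul {φ : ℝ → ℝ} {ε : ℕ → ℝ} (h : Fam φ ε) {η : ℝ} (hη : 0 < η) :
    Fam (fun t => η * φ t) (fun k => η * ε k) where
  smooth := contDiff_const.mul h.smooth
  nonneg t := mul_nonneg hη.le (h.nonneg t)
  zero t h1 h2 := by rw [h.zero t h1 h2, mul_zero]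
  pos k := mul_pos hη (h.pos k)
  lim := by simpa using h.lim.const_mul η
  min k t ht := by have := h.min k t ht; nlinarith
  deg k s hs := by
    obtain ⟨t, ht, h1⟩ := h.deg k (s / η) (by positivity)
    refine ⟨t, ht, ?_⟩
    have h2 := mul_lt_mul_of_pos_left h1 hη
    have h3 : η * (s / η) = s := by field_simp
    have h4 : η * (s / η * cos (t - th k)) = s * cos (t - th k) := by field_simp
    rw [mul_add, mul_add, h3, h4] at h2
    linarith

theorem exists_fam : ∃ φ ε, Fam φ ε := by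
  obtain ⟨δ, δpos, c, δc, -⟩ :
      ∃ δ : ℕ → ℝ≥0, (∀ i : ℕ, 0 < δ i) ∧ ∃ c : NNReal, HasSum δ c ∧ c < 1 :=
    NNReal.exists_pos_sum_of_countable one_ne_zero ℕ
  have : ∀ n : ℕ, ∃ r : ℝ, 0 < r ∧ r ≤ δ n ∧
      ∀ i ≤ n, ∀ x, ‖iteratedFDeriv ℝ i (r • bump n) x‖ ≤ δ n := by
    intro n
    choose R hR using bump_bdd n
    let M := max (((Finset.range (n + 1)).image R).max' (by simp)) 1
    have δnpos : 0 < δ n := δpos n
    have hM : 1 ≤ M := le_max_right _ _
    have IR : ∀ i ≤ n, R i ≤ M := by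
      intro i hi
      refine le_trans ?_ (le_max_left _ _)
      apply Finset.le_max'
      apply Finset.mem_image_of_mem
      simp only [Finset.mem_range]
      omega
    refine ⟨M⁻¹ * δ n, by positivity,
      mul_le_of_le_one_left (by positivity) (inv_le_one_of_one_le₀ hM), fun i hi x => ?_⟩
    calc
      ‖iteratedFDeriv ℝ i ((M⁻¹ * δ n) • bump n) x‖
          = ‖(M⁻¹ * δ n) • iteratedFDeriv ℝ i (bump n) x‖ := by
        rw [iteratedFDeriv_const_smul_apply]
        exact (contDiff_bump n).contDiffAt.of_le (mod_cast le_top)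
      _ = M⁻¹ * δ n * ‖iteratedFDeriv ℝ i (bump n) x‖ := by
        rw [norm_smul _ (iteratedFDeriv ℝ i (bump n) x), Real.norm_of_nonneg]; positivity
      _ ≤ M⁻¹ * δ n * M := by gcongr; exact (hR i x).trans (IR i hi)
      _ = δ n := by field_simp
  choose r rpos rle hr using this
  have S : ∀ x, Summable fun n => (r n • bump n) x := fun x ↦ by
    refine .of_nnnorm_bounded δc.summable fun n => ?_
    rw [← NNReal.coe_le_coe, coe_nnnorm]
    simpa only [norm_iteratedFDeriv_zero] using! hr n 0 zero_le x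
  have hn : ∀ n x, 0 ≤ (r n • bump n) x := fun n x => mul_nonneg (rpos n).le (bump_nonneg n x)
  have hloc : ∀ k t, |t - th k| ≤ th k / 8 → ∑' n, (r n • bump n) t = r k * bump k t := by
    intro k t ht
    rw [tsum_eq_single k]
    · rfl
    · intro j hj
      simp [bump_other hj ht]
  have hk : ∀ k, ∑' n, (r n • bump n) (th k) = r k * (dl k / 4) := by
    intro k
    rw [hloc k _ (by simp; linarith [th_pos k]), bump]
    simp [EE_zero]
    left; ring
  refine ⟨fun x => ∑' n, (r n • bump n) x, r, ?_, fun t => tsum_nonneg (hn · t), ?_, rpos, ?_,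
    ?_, ?_⟩
  · refine contDiff_tsum_of_eventually (fun k => (contDiff_bump k).const_smul (r k))
        (fun k _ => (NNReal.hasSum_coe.2 δc).summable) ?_
    intro i _
    simp only [Nat.cofinite_eq_atTop, Filter.eventually_atTop]
    exact ⟨i, fun n hn x => hr _ _ hn _⟩
  · intro t h1 h2
    have : ∀ n, (r n • bump n) t = 0 := by
      intro n
      have h3 := th_pos n
      have h4 := th_le n
      rw [abs_le] at h1
      rw [Pi.smul_apply, bump_zero, smul_zero]
      · rcases h2 with h2 | h2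
        · rw [le_abs]; right; linarith
        · rw [le_abs]; left; linarith
      · rw [abs_le]; constructor <;> linarith
    simp only [this, tsum_zero]
  · exact squeeze_zero (fun n => (rpos n).le) rle
      (NNReal.hasSum_coe.2 δc).summable.tendsto_atTop_zero
  · intro k t ht
    have h1 : r k * bump k t ≤ ∑' n, (r n • bump n) t := (S t).le_tsum k fun j _ => hn j t
    have h2 : 0 < 1 - cos (t - th k) := sub_pos.2 (lt_of_le_of_ne (cos_le_one _) ht)
    have h3 := EE_add_gt (div_pos h2 (dl_pos k))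
    have h4 := mul_lt_mul_of_pos_left h3 (dl_pos k)
    rw [mul_add, mul_div_cancel₀ _ (dl_pos k).ne'] at h4
    simp only [hk]
    rw [bump] at h1
    nlinarith [rpos k]
  · intro k s hs
    have h1 : Tendsto (fun t => (1 - cos (t - th k)) / dl k) (𝓝[>] (th k)) (𝓝[>] 0) := by
      refine tendsto_nhdsWithin_iff.2 ⟨?_, ?_⟩
      · have : Continuous fun t => (1 - cos (t - th k)) / dl k := by fun_prop
        have h2 := (this.tendsto (th k)).mono_left (nhdsWithin_le_nhds (s := Ioi (th k)))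
        simpa using h2
      · filter_upwards [Ioo_mem_nhdsGT (show th k < th k + 1 by linarith)] with t ht
        have := cos_lt_one_of (t := t - th k) (by linarith [ht.1]) (by linarith [ht.2])
        exact div_pos (by linarith) (dl_pos k)
    have h2 := h1.eventually (EE_small (σ := s / r k) (div_pos hs (rpos k)))
    obtain ⟨t, h3, h4⟩ := (h2.and (Ioo_mem_nhdsGT
      (show th k < th k + th k / 8 by linarith [th_pos k]))).exists
    have h5 := th_pos k
    have h6 := th_le k
    refine ⟨t, ⟨by linarith [h4.1], by linarith [h4.2]⟩, ?_⟩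
    simp only [hk]
    rw [hloc k t (by rw [abs_le]; constructor <;> linarith [h4.1, h4.2]), bump]
    have h7 := mul_lt_mul_of_pos_left h3 (mul_pos (rpos k) (dl_pos k))
    have h8 : r k * dl k * ((1 - cos (t - th k)) / dl k) = r k * (1 - cos (t - th k)) := by
      have := (dl_pos k).ne'
      field_simp
    have h9 : r k * dl k * (s / r k * ((1 - cos (t - th k)) / dl k))
        = s * (1 - cos (t - th k)) := by
      have := (dl_pos k).ne'
      have := (rpos k).ne'
      field_simp
    rw [mul_add, mul_add, h8, h9] at h7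
    linarith

theorem th_lim : Tendsto th atTop (𝓝 0) := by
  have := (tendsto_pow_atTop_nhds_zero_of_lt_one (r := (1 / 2 : ℝ)) (by norm_num)
    (by norm_num)).div_const 4
  rw [zero_div] at this
  exact this

end Pool.Agent.H253Z.Bi
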