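import Mathlib
import Pool.Agent.H253Z.BiA
import Pool.Agent.H253Z.BiB

set_option autoImplicit false
set_option maxHeartbeats 400000
set_option maxSynthPendingDepth 3

open scoped ContDiff Topology
open Set Filter Real

namespace Pool.Agent.H253Z.Bi

/-- a smooth implicit function -/
theorem exists_inv {Y : ℝ × ℝ → ℝ} (hY : ContDiff ℝ ∞ Y) {O : Set ℝ} (hO : IsOpen O)
    (h : ∀ s ∈ O, ∀ τ, ∃ d, 1 / 2 ≤ d ∧ HasDerivAt (fun x => Y (s, x)) d τ) :
    ∃ T : ℝ × ℝ → ℝ, ∀ z, z.1 ∈ O →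
      ContDiffAt ℝ ∞ T z ∧ Y (z.1, T z) = z.2 ∧ ∀ τ, Y (z.1, τ) = z.2 → T z = τ := by
  have hgrow : ∀ s ∈ O, ∀ x y, x ≤ y → 1 / 2 * (y - x) ≤ Y (s, y) - Y (s, x) := by
    intro s hs x y hxy
    refine mul_sub_le_image_sub_of_le_deriv (f := fun x => Y (s, x)) (fun τ => ?_) (fun τ => ?_) hxy
    · obtain ⟨d, -, h1⟩ := h s hs τ
      exact h1.differentiableAt
    · obtain ⟨d, h0, h1⟩ := h s hs τ
      rwa [h1.deriv]
  have hinj : ∀ s ∈ O, ∀ x y, Y (s, x) = Y (s, y) → x = y := by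
    intro s hs x y hxy
    rcases le_total x y with h1 | h1
    · have := hgrow s hs x y h1; linarith
    · have := hgrow s hs y x h1; linarith
  have hsur : ∀ z : ℝ × ℝ, ∃ τ, z.1 ∈ O → Y (z.1, τ) = z.2 := by
    rintro ⟨s, y⟩
    by_cases hs : s ∈ O
    swap
    · exact ⟨0, fun h => absurd h hs⟩
    have hc : Continuous fun x => Y (s, x) := hY.continuous.comp (by fun_prop)
    set M := 2 * |y - Y (s, 0)| with hM
    have hM0 : 0 ≤ M := by positivity
    have h1 := hgrow s hs 0 M hM0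
    have h2 := hgrow s hs (-M) 0 (by linarith)
    have h3 := le_abs_self (y - Y (s, 0))
    have h4 := neg_abs_le (y - Y (s, 0))
    obtain ⟨τ, -, h5⟩ := intermediate_value_Icc (show -M ≤ M by linarith) hc.continuousOn
      (show y ∈ Icc (Y (s, -M)) (Y (s, M)) from ⟨by linarith, by linarith⟩)
    exact ⟨τ, fun _ => h5⟩
  choose T hT using hsur
  refine ⟨T, fun z hz => ⟨?_, hT z hz, fun τ hτ => hinj _ hz _ _ ((hT z hz).trans hτ.symm)⟩⟩
  let H : ℝ × ℝ → ℝ × ℝ := fun q => (q.1, Y q)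
  have hH : ContDiff ℝ ∞ H := contDiff_fst.prodMk hY
  set a : ℝ × ℝ := (z.1, T z) with ha
  have hYa := (hY.differentiable (by simp) a).hasFDerivAt
  have hHa : HasFDerivAt H ((ContinuousLinearMap.fst ℝ ℝ ℝ).prod (fderiv ℝ Y a)) a :=
    hasFDerivAt_fst.prodMk hYa
  obtain ⟨d, hd, hd'⟩ := h z.1 hz (T z)
  have hd2 : fderiv ℝ Y a (0, 1) = d := by
    have h1 : HasDerivAt (fun x : ℝ => ((z.1, x) : ℝ × ℝ)) (0, 1) (T z) :=
      (hasDerivAt_const _ _).prodMk (hasDerivAt_id _)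
    exact (hYa.comp_hasDerivAt (T z) h1).unique hd'
  have hi : Function.Injective
      ((ContinuousLinearMap.fst ℝ ℝ ℝ).prod (fderiv ℝ Y a)).toLinearMap := by
    rw [injective_iff_map_eq_zero]
    rintro ⟨v, u⟩ hv
    have h1 : v = 0 := congrArg Prod.fst hv
    have h2 : fderiv ℝ Y a (v, u) = 0 := congrArg Prod.snd hv
    have h3 : ((v, u) : ℝ × ℝ) = u • (0, 1) := by simp [h1]
    rw [h3, map_smul, hd2, smul_eq_mul] at h2
    have h4 : u = 0 := (mul_eq_zero.1 h2).resolve_right (by linarith)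
    simp [h1, h4]
  let e : (ℝ × ℝ) ≃L[ℝ] (ℝ × ℝ) := (LinearEquiv.ofInjectiveEndo _ hi).toContinuousLinearEquiv
  have he : HasFDerivAt H (e : (ℝ × ℝ) →L[ℝ] (ℝ × ℝ)) a := hHa
  have h1 := hH.contDiffAt.to_localInverse he (by simp)
  have h2 := (hH.contDiffAt.hasStrictFDerivAt' he (by simp)).eventually_right_inverse
  have h3 : H a = z := Prod.ext rfl (hT z hz)
  rw [h3] at h1 h2
  refine (contDiffAt_snd.comp z h1).congr_of_eventuallyEq ?_
  filter_upwards [h2, (hO.preimage continuous_fst).mem_nhds hz] with y hy hy1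
  have h4 := congrArg Prod.fst hy
  have h5 := congrArg Prod.snd hy
  refine hinj _ hy1 _ _ ((hT y hy1).trans ?_)
  rw [← h5, ← h4]
  rfl

theorem max_right_deriv {u : ℝ → ℝ} {u' t : ℝ} (h : HasDerivAt u u' t) (c : ℝ) :
    ∃ r, HasDerivWithinAt (fun s => max (u s) c) r (Ioi t) t ∧
      ((c ≤ u t ∧ r = u') ∨ (u t ≤ c ∧ r = 0)) := by
  rcases lt_trichotomy (u t) c with h1 | h1 | h1
  · refine ⟨0, ?_, Or.inr ⟨h1.le, rfl⟩⟩
    refine ((hasDerivAt_const t c).congr_of_eventuallyEq ?_).hasDerivWithinAt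
    filter_upwards [h.continuousAt.eventually (gt_mem_nhds h1)] with s hs using max_eq_right hs.le
  · refine ⟨max u' 0, ?_, ?_⟩
    · have h2 := h.hasDerivWithinAt (s := Ioi t)
      rw [hasDerivWithinAt_iff_tendsto_slope' (by simp)] at h2 ⊢
      refine (h2.max tendsto_const_nhds).congr' ?_
      filter_upwards [self_mem_nhdsWithin] with s hs
      have h3 : 0 < s - t := sub_pos.2 hs
      simp only [slope_def_field, h1, max_self]
      rcases le_total (u s) c with h4 | h4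
      · rw [max_eq_right h4, max_eq_right (div_nonpos_of_nonpos_of_nonneg (by linarith) h3.le)]
        simp
      · rw [max_eq_left h4, max_eq_left (div_nonneg (by linarith) h3.le)]
    · rcases le_total u' 0 with h4 | h4
      · exact Or.inr ⟨h1.le, max_eq_right h4⟩
      · exact Or.inl ⟨h1.ge, max_eq_left h4⟩
  · refine ⟨u', ?_, Or.inl ⟨h1.le, rfl⟩⟩
    refine (h.congr_of_eventuallyEq ?_).hasDerivWithinAt
    filter_upwards [h.continuousAt.eventually (lt_mem_nhds h1)] with s hs using max_eq_left hs.le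

/-- a metric that dominates the norm outside a ball dominates a multiple of it everywhere -/
theorem exists_lower {g : ℝ × ℝ → ℝ × ℝ →L[ℝ] ℝ × ℝ →L[ℝ] ℝ} (hg : IsMetric g) {R : ℝ}
    (h : ∀ z v, R ≤ ‖z‖ → ‖v‖ ^ 2 ≤ g z v v) : ∃ c, 0 < c ∧ ∀ z v, c * ‖v‖ ^ 2 ≤ g z v v := by
  have hc : Continuous fun q : (ℝ × ℝ) × (ℝ × ℝ) => g q.1 q.2 q.2 :=
    ((hg.smooth.continuous.comp continuous_fst).clm_apply continuous_snd).clm_apply continuous_snd
  have hK : IsCompact (Metric.closedBall (0 : ℝ × ℝ) |R| ×ˢ Metric.sphere (0 : ℝ × ℝ) 1) :=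
    (isCompact_closedBall _ _).prod (isCompact_sphere _ _)
  obtain ⟨q, hq, hm⟩ := hK.exists_isMinOn ⟨(0, (1, 0)), by simp, by simp⟩ hc.continuousOn
  have h1 : ‖q.2‖ = 1 := by simpa using hq.2
  have h2 : 0 < g q.1 q.2 q.2 := hg.pos _ _ (by rintro h0; simp [h0] at h1)
  refine ⟨min 1 (g q.1 q.2 q.2), lt_min one_pos h2, fun z v => ?_⟩
  rcases le_total R ‖z‖ with h3 | h3
  · exact (mul_le_of_le_one_left (by positivity) (min_le_left _ _)).trans (h z v h3)
  by_cases hv : v = 0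
  · simp [hv]
  have h4 : 0 < ‖v‖ := norm_pos_iff.2 hv
  have h5 : g q.1 q.2 q.2 ≤ g z (‖v‖⁻¹ • v) (‖v‖⁻¹ • v) :=
    hm (a := (z, ‖v‖⁻¹ • v)) ⟨by simpa using h3.trans (le_abs_self R), by
      simp [norm_smul, h4.ne']⟩
  simp only [map_smul, smul_apply, smul_eq_mul] at h5
  have h6 : g z v v = ‖v‖ ^ 2 * (‖v‖⁻¹ * (‖v‖⁻¹ * g z v v)) := by field_simp
  rw [h6, mul_comm]
  exact mul_le_mul_of_nonneg_left ((min_le_right _ _).trans h5) (by positivity)

theorem exists_fam_small : ∃ φ ε, Fam φ ε ∧ ∀ t, |t| ≤ 2 →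
    |deriv φ t| ≤ 1 / 4 ∧ |deriv (deriv φ) t| ≤ 1 / 4 := by
  obtain ⟨φ, ε, h⟩ := exists_fam
  have h1 : ContDiff ℝ ∞ (deriv φ) := h.smooth.deriv'
  have h2 : Continuous (deriv (deriv φ)) := h1.continuous_deriv (by norm_cast)
  obtain ⟨M, hM⟩ := (isCompact_Icc (a := (-2 : ℝ)) (b := 2)).exists_bound_of_continuousOn
    (h1.continuous.prodMk h2).continuousOn
  have hM0 : 0 ≤ M := (norm_nonneg _).trans (hM 0 ⟨by norm_num, by norm_num⟩)
  have hη : 0 < 1 / (4 * (M + 1)) := by positivity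
  refine ⟨_, _, h.smul hη, fun t ht => ?_⟩
  have h3 := hM t (abs_le.1 ht)
  rw [Prod.norm_def, max_le_iff, norm_eq_abs, norm_eq_abs] at h3
  have h4 : deriv (fun t => 1 / (4 * (M + 1)) * φ t) = fun t => 1 / (4 * (M + 1)) * deriv φ t :=
    funext fun t => deriv_const_mul_field _
  have h5 : ∀ x, |x| ≤ M → |1 / (4 * (M + 1)) * x| ≤ 1 / 4 := by
    intro x hx
    rw [abs_mul, abs_of_pos hη, one_div_mul_eq_div, div_le_iff₀ (by positivity)]
    linarith
  rw [h4, deriv_const_mul_field]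
  exact ⟨h5 _ h3.1, h5 _ h3.2⟩

end Pool.Agent.H253Z.Bi
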