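import Mathlib
import Pool.Agent.H253Z.BiC

set_option autoImplicit false
set_option maxHeartbeats 400000
set_option maxSynthPendingDepth 3

open scoped ContDiff Topology
open Set Filter Real

namespace Pool.Agent.H253Z.Bi

/-- the Euclidean metric -/
noncomputable def gE : ℝ × ℝ →L[ℝ] ℝ × ℝ →L[ℝ] ℝ :=
  (ContinuousLinearMap.fst ℝ ℝ ℝ).smulRight (ContinuousLinearMap.fst ℝ ℝ ℝ) +
    (ContinuousLinearMap.snd ℝ ℝ ℝ).smulRight (ContinuousLinearMap.snd ℝ ℝ ℝ)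

theorem gE_apply (v u : ℝ × ℝ) : gE v u = v.1 * u.1 + v.2 * u.2 := by simp [gE]

theorem norm_sq_le_gE (v : ℝ × ℝ) : ‖v‖ ^ 2 ≤ gE v v := by
  rw [gE_apply, Prod.norm_def, norm_eq_abs, norm_eq_abs]
  rcases le_total |v.1| |v.2| with h | h
  · rw [max_eq_right h, sq_abs]; nlinarith
  · rw [max_eq_left h, sq_abs]; nlinarith

/-- `sqrt (1 + τ ^ 2)` -/
noncomputable def ww (τ : ℝ) : ℝ := √(1 + τ ^ 2)

theorem ww_sq (τ : ℝ) : ww τ ^ 2 = 1 + τ ^ 2 := sq_sqrt (by positivity)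

theorem one_le_ww (τ : ℝ) : 1 ≤ ww τ := one_le_sqrt.2 (by nlinarith)

theorem ww_pos (τ : ℝ) : 0 < ww τ := one_pos.trans_le (one_le_ww τ)

theorem contDiff_ww : ContDiff ℝ ∞ ww := ContDiff.sqrt (by fun_prop) fun τ => by positivity

theorem hasDerivAt_ww (τ : ℝ) : HasDerivAt ww (τ / ww τ) τ := by
  have h := ((hasDerivAt_pow 2 τ).const_add 1).sqrt (by positivity)
  refine HasDerivAt.congr_deriv h ?_
  have := (ww_pos τ).ne'
  change _ / (2 * ww τ) = _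
  field_simp
  norm_num

theorem abs_le_ww (τ : ℝ) : |τ| ≤ ww τ :=
  abs_le_of_sq_le_sq' (by rw [ww_sq, sq_abs]; linarith) (ww_pos τ).le |>.2

/-- the cutoff -/
noncomputable def ch (s : ℝ) : ℝ := smoothTransition (4 - s)

theorem contDiff_ch : ContDiff ℝ ∞ ch := smoothTransition.contDiff.comp (by fun_prop)

theorem ch_one {s : ℝ} (h : s ≤ 3) : ch s = 1 := smoothTransition.one_of_one_le (by linarith)

theorem ch_zero {s : ℝ} (h : 4 ≤ s) : ch s = 0 := smoothTransition.zero_of_nonpos (by linarith)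

theorem ch_nonneg (s : ℝ) : 0 ≤ ch s := smoothTransition.nonneg _

theorem ch_le (s : ℝ) : ch s ≤ 1 := smoothTransition.le_one _

theorem deriv_ch_nonpos (s : ℝ) : deriv ch s ≤ 0 :=
  Antitone.deriv_nonpos fun _ _ h => smoothTransition.monotone (by linarith)

theorem hasDerivAt_ch (s : ℝ) : HasDerivAt ch (deriv ch s) s :=
  (contDiff_ch.differentiable (by simp) s).hasDerivAt

theorem deriv_ch_zero {s : ℝ} (h : s < 3 ∨ 4 < s) : deriv ch s = 0 := by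
  rcases h with h | h
  · have : ch =ᶠ[𝓝 s] fun _ => 1 := by
      filter_upwards [Iio_mem_nhds h] with x hx using ch_one (le_of_lt hx)
    rw [this.deriv_eq, deriv_const]
  · have : ch =ᶠ[𝓝 s] fun _ => 0 := by
      filter_upwards [Ioi_mem_nhds h] with x hx using ch_zero (le_of_lt hx)
    rw [this.deriv_eq, deriv_const]

/-- the width of the pencil of rays -/
noncomputable def bb (s : ℝ) : ℝ := ch s * s + (1 - ch s) * (10 - s)

theorem contDiff_bb : ContDiff ℝ ∞ bb :=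
  (contDiff_ch.mul contDiff_id).add ((contDiff_const.sub contDiff_ch).mul (by fun_prop))

theorem hasDerivAt_bb (s : ℝ) :
    HasDerivAt bb (deriv ch s * (2 * s - 10) + 2 * ch s - 1) s := by
  have h := ((hasDerivAt_ch s).mul (hasDerivAt_id s)).add
    (((hasDerivAt_ch s).const_sub 1).mul ((hasDerivAt_id s).const_sub 10))
  exact HasDerivAt.congr_deriv h (by simp only [id]; ring)

theorem one_le_bb {s : ℝ} (h : s ∈ Ioo (1 : ℝ) 9) : 1 ≤ bb s := by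
  have := ch_nonneg s
  have := ch_le s
  unfold bb
  nlinarith [h.1, h.2]

/-- smallness of the perturbation -/
structure Sm (φ : ℝ → ℝ) : Prop where
  smooth : ContDiff ℝ ∞ φ
  nonneg : ∀ t, 0 ≤ φ t
  bd : ∀ t, |t| ≤ 2 → |deriv φ t| ≤ 1 / 4 ∧ |deriv (deriv φ) t| ≤ 1 / 4

/-- offset of the rays -/
noncomputable def ps (φ : ℝ → ℝ) (τ : ℝ) : ℝ := ww τ * deriv φ (arctan τ)

/-- delay of the rays -/
noncomputable def DD (φ : ℝ → ℝ) (τ : ℝ) : ℝ :=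
  16 + φ (arctan τ) - τ * deriv φ (arctan τ) - 10 * ww τ

/-- second coordinate of the rays -/
noncomputable def YY (φ : ℝ → ℝ) (q : ℝ × ℝ) : ℝ := bb q.1 * q.2 + ch q.1 * ps φ q.2

/-- arclength along the rays -/
noncomputable def AA (φ : ℝ → ℝ) (q : ℝ × ℝ) : ℝ := (10 - q.1) * ww q.2 + ch q.1 * DD φ q.2

variable {φ : ℝ → ℝ}

theorem abs_arctan_le (τ : ℝ) : |arctan τ| ≤ 2 := by
  have := arctan_lt_pi_div_two τ
  have := neg_pi_div_two_lt_arctan τ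
  rw [abs_le]; constructor <;> linarith [pi_le_four]

theorem Sm.smooth' (h : Sm φ) : ContDiff ℝ ∞ (deriv φ) := h.smooth.deriv'

theorem Sm.contDiff_ps (h : Sm φ) : ContDiff ℝ ∞ (ps φ) :=
  contDiff_ww.mul (h.smooth'.comp contDiff_arctan)

theorem Sm.contDiff_DD (h : Sm φ) : ContDiff ℝ ∞ (DD φ) :=
  ((contDiff_const.add (h.smooth.comp contDiff_arctan)).sub
    (contDiff_id.mul (h.smooth'.comp contDiff_arctan))).sub (contDiff_const.mul contDiff_ww)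

theorem Sm.contDiff_YY (h : Sm φ) : ContDiff ℝ ∞ (YY φ) :=
  ((contDiff_bb.comp contDiff_fst).mul contDiff_snd).add
    ((contDiff_ch.comp contDiff_fst).mul (h.contDiff_ps.comp contDiff_snd))

theorem Sm.contDiff_AA (h : Sm φ) : ContDiff ℝ ∞ (AA φ) :=
  ((contDiff_const.sub contDiff_fst).mul (contDiff_ww.comp contDiff_snd)).add
    ((contDiff_ch.comp contDiff_fst).mul (h.contDiff_DD.comp contDiff_snd))

theorem Sm.hasDerivAt_ps' (h : Sm φ) (τ : ℝ) : HasDerivAt (ps φ)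
    ((τ * deriv φ (arctan τ) + deriv (deriv φ) (arctan τ)) / ww τ) τ := by
  have h1 := ((h.smooth'.differentiable (by simp) (arctan τ)).hasDerivAt).comp τ
    (hasDerivAt_arctan τ)
  refine HasDerivAt.congr_deriv ((hasDerivAt_ww τ).mul h1) ?_
  have := (ww_pos τ).ne'
  rw [← ww_sq]
  field_simp

theorem Sm.hasDerivAt_ps (h : Sm φ) (τ : ℝ) : HasDerivAt (ps φ) (deriv (ps φ) τ) τ :=
  (h.hasDerivAt_ps' τ).differentiableAt.hasDerivAt

theorem Sm.abs_ps' (h : Sm φ) (τ : ℝ) : |deriv (ps φ) τ| ≤ 1 / 2 := by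
  obtain ⟨h1, h2⟩ := h.bd _ (abs_arctan_le τ)
  rw [(h.hasDerivAt_ps' τ).deriv, abs_div, abs_of_pos (ww_pos τ), div_le_iff₀ (ww_pos τ)]
  have h3 := abs_add_le (τ * deriv φ (arctan τ)) (deriv (deriv φ) (arctan τ))
  rw [abs_mul] at h3
  have h4 := mul_le_mul (abs_le_ww τ) h1 (abs_nonneg _) (ww_pos τ).le
  linarith [one_le_ww τ]

theorem Sm.hasDerivAt_DD (h : Sm φ) (τ : ℝ) :
    HasDerivAt (DD φ) (-(τ / ww τ) * (deriv (ps φ) τ + 10)) τ := by
  have h0 := ((h.smooth.differentiable (by simp) (arctan τ)).hasDerivAt).comp τ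
    (hasDerivAt_arctan τ)
  have h1 := ((h.smooth'.differentiable (by simp) (arctan τ)).hasDerivAt).comp τ
    (hasDerivAt_arctan τ)
  refine HasDerivAt.congr_deriv (((h0.const_add 16).sub ((hasDerivAt_id τ).mul h1)).sub
    ((hasDerivAt_ww τ).const_mul 10)) ?_
  have := (ww_pos τ).ne'
  have h2 := ww_sq τ
  rw [(h.hasDerivAt_ps' τ).deriv, ← h2]
  simp only [Function.comp, id]
  field_simp
  rw [h2]
  ring

theorem Sm.DD_nonneg (h : Sm φ) {τ : ℝ} (hτ : |τ| ≤ 1) : 0 ≤ DD φ τ := by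
  have h1 := (h.bd _ (abs_arctan_le τ)).1
  have h2 : ww τ ≤ 3 / 2 :=
    abs_le_of_sq_le_sq' (by rw [ww_sq, ← sq_abs]; nlinarith [abs_nonneg τ]) (by norm_num) |>.2
  have h3 := le_abs_self (τ * deriv φ (arctan τ))
  rw [abs_mul] at h3
  have h4 := mul_le_mul hτ h1 (abs_nonneg _) zero_le_one
  have := h.nonneg (arctan τ)
  unfold DD
  linarith

theorem Sm.Ytau (h : Sm φ) {s : ℝ} (hs : s ∈ Ioo (1 : ℝ) 9) (τ : ℝ) :
    1 / 2 ≤ bb s + ch s * deriv (ps φ) τ := by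
  have h1 := one_le_bb hs
  have h2 := abs_le.1 (h.abs_ps' τ)
  nlinarith [ch_nonneg s, ch_le s]

/-- the ray coordinate -/
def IsT (φ : ℝ → ℝ) (T : ℝ × ℝ → ℝ) : Prop := ∀ z : ℝ × ℝ, z.1 ∈ Ioo (1 : ℝ) 9 →
  ContDiffAt ℝ ∞ T z ∧ YY φ (z.1, T z) = z.2 ∧ ∀ τ, YY φ (z.1, τ) = z.2 → T z = τ

theorem Sm.exists_T (h : Sm φ) : ∃ T, IsT φ T := by
  refine exists_inv h.contDiff_YY isOpen_Ioo fun s hs τ => ⟨_, h.Ytau hs τ, ?_⟩
  have := ((hasDerivAt_id τ).const_mul (bb s)).add ((h.hasDerivAt_ps τ).const_mul (ch s))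
  exact HasDerivAt.congr_deriv this (by ring)

theorem Sm.exists_xi (h : Sm φ) {τ : ℝ} (hτ : |τ| ≤ 1) : ∃ ξ : ℝ → ℝ, ContDiff ℝ ∞ ξ ∧
    ∀ t, AA φ (ξ t, τ) = t ∧ ∀ s, AA φ (s, τ) = t → ξ t = s := by
  obtain ⟨T, hT⟩ := exists_inv (Y := fun q => -AA φ (q.2, τ))
    (h.contDiff_AA.comp (contDiff_snd.prodMk contDiff_const)).neg isOpen_univ
    (fun _ _ s => ⟨ww τ - deriv ch s * DD φ τ, by
      nlinarith [one_le_ww τ, h.DD_nonneg hτ, deriv_ch_nonpos s], by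
      have := ((((hasDerivAt_id s).const_sub 10).mul_const (ww τ)).add
        ((hasDerivAt_ch s).mul_const (DD φ τ))).neg
      exact HasDerivAt.congr_deriv this (by ring)⟩)
  refine ⟨fun t => T (0, -t), contDiff_iff_contDiffAt.2 fun t =>
    (hT (0, -t) trivial).1.comp t (by fun_prop), fun t => ⟨?_, fun s hs => ?_⟩⟩
  · exact neg_injective (hT (0, -t) trivial).2.1
  · exact (hT (0, -t) trivial).2.2 s (congrArg Neg.neg hs)

variable {T : ℝ × ℝ → ℝ}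

/-- the calibration in the middle strip -/
noncomputable def Um (φ : ℝ → ℝ) (T : ℝ × ℝ → ℝ) (z : ℝ × ℝ) : ℝ := AA φ (z.1, T z)

theorem Um_smooth (h : Sm φ) (hT : IsT φ T) {z : ℝ × ℝ} (hz : z.1 ∈ Ioo (1 : ℝ) 9) :
    ContDiffAt ℝ ∞ (Um φ T) z :=
  h.contDiff_AA.contDiffAt.comp z (contDiffAt_fst.prodMk (hT z hz).1)

theorem key1 (h : Sm φ) (hT : IsT φ T) {z : ℝ × ℝ} (hz : z.1 ∈ Ioo (1 : ℝ) 9) (v : ℝ × ℝ) :
    ((deriv ch z.1 * (2 * z.1 - 10) + 2 * ch z.1 - 1) * T z + deriv ch z.1 * ps φ (T z)) * v.1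
      + (bb z.1 + ch z.1 * deriv (ps φ) (T z)) * fderiv ℝ T z v = v.2 := by
  have h1 := ((hT z hz).1.differentiableAt (by simp)).hasFDerivAt
  have h2 : HasFDerivAt (fun z : ℝ × ℝ => z.1) (ContinuousLinearMap.fst ℝ ℝ ℝ) z :=
    hasFDerivAt_fst
  have h3 := (((hasDerivAt_bb z.1).comp_hasFDerivAt z h2).mul h1).add
    (((hasDerivAt_ch z.1).comp_hasFDerivAt z h2).mul
      ((h.hasDerivAt_ps (T z)).comp_hasFDerivAt z h1))
  have h4 : HasFDerivAt (fun z : ℝ × ℝ => YY φ (z.1, T z)) (ContinuousLinearMap.snd ℝ ℝ ℝ) z := by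
    refine (hasFDerivAt_snd (p := z)).congr_of_eventuallyEq ?_
    filter_upwards [(isOpen_Ioo.preimage continuous_fst).mem_nhds hz] with y hy
    exact (hT y hy).2.1
  have h5 := congrArg (fun L : ℝ × ℝ →L[ℝ] ℝ => L v) (HasFDerivAt.unique h3 h4)
  simp at h5
  linarith

theorem key2 (h : Sm φ) (hT : IsT φ T) {z : ℝ × ℝ} (hz : z.1 ∈ Ioo (1 : ℝ) 9) (v : ℝ × ℝ) :
    fderiv ℝ (Um φ T) z v = (-ww (T z) + deriv ch z.1 * DD φ (T z)) * v.1
      + T z / ww (T z) * (10 - z.1 - ch z.1 * (deriv (ps φ) (T z) + 10)) * fderiv ℝ T z v := by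
  have h1 := ((hT z hz).1.differentiableAt (by simp)).hasFDerivAt
  have h2 : HasFDerivAt (fun z : ℝ × ℝ => z.1) (ContinuousLinearMap.fst ℝ ℝ ℝ) z :=
    hasFDerivAt_fst
  have h3 := ((h2.const_sub 10).mul ((hasDerivAt_ww (T z)).comp_hasFDerivAt z h1)).add
    (((hasDerivAt_ch z.1).comp_hasFDerivAt z h2).mul
      ((h.hasDerivAt_DD (T z)).comp_hasFDerivAt z h1))
  have h4 : fderiv ℝ (Um φ T) z = _ := h3.fderiv
  rw [h4]
  simp
  ring

/-- the transversal coefficient -/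
noncomputable def Ee (φ : ℝ → ℝ) (T : ℝ × ℝ → ℝ) (z : ℝ × ℝ) : ℝ :=
  (bb z.1 + ch z.1 * deriv (ps φ) (T z)) / ww (T z)

theorem key3 (h : Sm φ) (hT : IsT φ T) {z : ℝ × ℝ} (hz : z.1 ∈ Ioo (1 : ℝ) 9)
    (hz' : z.1 < 3 ∨ 4 < z.1) (v u : ℝ × ℝ) :
    fderiv ℝ (Um φ T) z v * fderiv ℝ (Um φ T) z u
      + Ee φ T z ^ 2 * (fderiv ℝ T z v * fderiv ℝ T z u) = gE v u := by
  have h1 := key1 h hT hz v
  have h2 := key1 h hT hz u
  have h3 := ww_sq (T z)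
  have h4 := (ww_pos (T z)).ne'
  have e : ww (T z) * (-ww (T z) + 0 * DD φ (T z)) = -(1 + T z ^ 2) := by rw [← h3]; ring
  rw [key2 h hT hz, key2 h hT hz, Ee, gE_apply]
  rw [deriv_ch_zero hz'] at *
  rw [← h1, ← h2]
  rcases hz' with h5 | h5
  · simp only [bb, ch_one h5.le]
    field_simp
    rw [e, h3]
    ring
  · simp only [bb, ch_zero h5.le]
    field_simp
    rw [e, h3]
    ring

end Pool.Agent.H253Z.Bi
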