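import Mathlib
import Pool.Agent.H253Z.BiD

set_option autoImplicit false
set_option maxHeartbeats 400000
set_option maxSynthPendingDepth 3

open scoped ContDiff Topology
open Set Filter Real

namespace Pool.Agent.H253Z.Bi

variable {φ : ℝ → ℝ} {T : ℝ × ℝ → ℝ}

/-- the weight of the Euclidean term -/
noncomputable def lam (T : ℝ × ℝ → ℝ) (z : ℝ × ℝ) : ℝ :=
  smoothTransition (2 * z.1 - 5) * smoothTransition (9 - 2 * z.1) *
    smoothTransition (T z ^ 2 - 1)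

theorem lam_nonneg (z : ℝ × ℝ) : 0 ≤ lam T z :=
  mul_nonneg (mul_nonneg (smoothTransition.nonneg _) (smoothTransition.nonneg _))
    (smoothTransition.nonneg _)

theorem lam_zero {z : ℝ × ℝ} (h : z.1 ≤ 5 / 2 ∨ 9 / 2 ≤ z.1) : lam T z = 0 := by
  rcases h with h | h
  · rw [lam, smoothTransition.zero_of_nonpos (x := 2 * z.1 - 5) (by linarith)]; ring
  · rw [lam, smoothTransition.zero_of_nonpos (x := 9 - 2 * z.1) (by linarith)]; ring

theorem lam_zero' {z : ℝ × ℝ} (h : |T z| ≤ 1) : lam T z = 0 := by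
  rw [lam, smoothTransition.zero_of_nonpos (x := T z ^ 2 - 1)
    (by rw [← sq_abs]; nlinarith [abs_nonneg (T z)])]; ring

theorem lam_mid {z : ℝ × ℝ} (h1 : 3 ≤ z.1) (h2 : z.1 ≤ 4) :
    lam T z = smoothTransition (T z ^ 2 - 1) := by
  rw [lam, smoothTransition.one_of_one_le (x := 2 * z.1 - 5) (by linarith),
    smoothTransition.one_of_one_le (x := 9 - 2 * z.1) (by linarith)]; ring

/-- the metric in the middle strip -/
noncomputable def gm (φ : ℝ → ℝ) (T : ℝ × ℝ → ℝ) (z : ℝ × ℝ) : ℝ × ℝ →L[ℝ] ℝ × ℝ →L[ℝ] ℝ :=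
  (fderiv ℝ (Um φ T) z).smulRight (fderiv ℝ (Um φ T) z) +
    Ee φ T z ^ 2 • (fderiv ℝ T z).smulRight (fderiv ℝ T z) + lam T z • gE

theorem gm_apply (z v u : ℝ × ℝ) : gm φ T z v u = fderiv ℝ (Um φ T) z v * fderiv ℝ (Um φ T) z u
    + Ee φ T z ^ 2 * (fderiv ℝ T z v * fderiv ℝ T z u) + lam T z * gE v u := by
  simp [gm]

theorem gE_nonneg (v : ℝ × ℝ) : 0 ≤ gE v v := (sq_nonneg _).trans (norm_sq_le_gE v)

theorem gm_smooth (h : Sm φ) (hT : IsT φ T) {z : ℝ × ℝ} (hz : z.1 ∈ Ioo (1 : ℝ) 9) :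
    ContDiffAt ℝ ∞ (gm φ T) z := by
  have h1 := (hT z hz).1
  have h2 : ContDiffAt ℝ ∞ (fderiv ℝ T) z := h1.fderiv_right (by norm_cast)
  have h3 : ContDiffAt ℝ ∞ (fderiv ℝ (Um φ T)) z := (Um_smooth h hT hz).fderiv_right (by norm_cast)
  have h4 : ContDiff ℝ ∞ (deriv (ps φ)) := h.contDiff_ps.deriv'
  have h5 : ContDiffAt ℝ ∞ (Ee φ T) z :=
    ((contDiff_bb.comp contDiff_fst).contDiffAt.add ((contDiff_ch.comp contDiff_fst).contDiffAt.mul
      (h4.contDiffAt.comp z h1))).div (contDiff_ww.contDiffAt.comp z h1) (ww_pos _).ne'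
  have hS : ContDiff ℝ ∞ smoothTransition := smoothTransition.contDiff
  have h6 : ContDiffAt ℝ ∞ (lam T) z :=
    ((hS.comp (by fun_prop)).contDiffAt.mul (hS.comp (by fun_prop)).contDiffAt).mul
      (hS.contDiffAt.comp z ((h1.pow 2).sub contDiffAt_const))
  exact ((h3.smulRight h3).add ((h5.pow 2).smul (h2.smulRight h2))).add (h6.smul contDiffAt_const)

open Classical in
/-- the metric -/
noncomputable def gg (φ : ℝ → ℝ) (T : ℝ × ℝ → ℝ) (z : ℝ × ℝ) : ℝ × ℝ →L[ℝ] ℝ × ℝ →L[ℝ] ℝ :=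
  if z.1 ∈ Ioo (2 : ℝ) 5 then gm φ T z else gE

theorem sub25 {s : ℝ} (h : s ∈ Ioo (2 : ℝ) 5) : s ∈ Ioo (1 : ℝ) 9 :=
  ⟨by linarith [h.1], by linarith [h.2]⟩

theorem gg_mid {z : ℝ × ℝ} (hz : z.1 ∈ Ioo (2 : ℝ) 5) : gg φ T z = gm φ T z := if_pos hz

theorem gg_side (h : Sm φ) (hT : IsT φ T) {z : ℝ × ℝ} (hz : z.1 < 3 ∨ 4 < z.1) (v : ℝ × ℝ) :
    gE v v ≤ gg φ T z v v := by
  by_cases h1 : z.1 ∈ Ioo (2 : ℝ) 5
  · rw [gg_mid h1, gm_apply, key3 h hT (sub25 h1) hz]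
    nlinarith [lam_nonneg (T := T) z, gE_nonneg v]
  · rw [gg, if_neg h1]

theorem gg_flat (h : Sm φ) (hT : IsT φ T) {z : ℝ × ℝ} (hz : z.1 ≤ 5 / 2 ∨ 9 / 2 ≤ z.1) :
    gg φ T z = gE := by
  by_cases h1 : z.1 ∈ Ioo (2 : ℝ) 5
  · refine ContinuousLinearMap.ext fun v => ContinuousLinearMap.ext fun u => ?_
    rw [gg_mid h1, gm_apply, lam_zero hz, key3 h hT (sub25 h1)
      (hz.imp (fun _ => by linarith) fun _ => by linarith)]
    ring
  · rw [gg, if_neg h1]

theorem calib_mid {z : ℝ × ℝ} (hz : z.1 ∈ Ioo (2 : ℝ) 5) (v : ℝ × ℝ) :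
    fderiv ℝ (Um φ T) z v ^ 2 ≤ gg φ T z v v := by
  rw [gg_mid hz, gm_apply]
  nlinarith [mul_nonneg (lam_nonneg (T := T) z) (gE_nonneg v),
    mul_nonneg (sq_nonneg (Ee φ T z)) (mul_self_nonneg (fderiv ℝ T z v))]

theorem isMetric_gg (h : Sm φ) (hT : IsT φ T) : IsMetric (gg φ T) where
  smooth := by
    rw [contDiff_iff_contDiffAt]
    intro z
    by_cases h1 : z.1 ∈ Ioo (2 : ℝ) 5
    · refine (gm_smooth h hT (sub25 h1)).congr_of_eventuallyEq ?_
      filter_upwards [(isOpen_Ioo.preimage continuous_fst).mem_nhds h1] with y hy using gg_mid hy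
    · refine (contDiffAt_const (c := gE)).congr_of_eventuallyEq ?_
      have h2 : z ∈ {y : ℝ × ℝ | y.1 < 5 / 2} ∪ {y : ℝ × ℝ | 9 / 2 < y.1} := by
        rw [mem_Ioo, not_and_or, not_lt, not_lt] at h1
        exact h1.imp (fun _ => by simp only [mem_ofPred]; linarith)
          fun _ => by simp only [mem_ofPred]; linarith
      filter_upwards [((isOpen_lt continuous_fst continuous_const).union
        (isOpen_lt continuous_const continuous_fst)).mem_nhds h2] with y hy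
      exact gg_flat h hT (hy.imp le_of_lt le_of_lt)
  symm z v u := by
    by_cases h1 : z.1 ∈ Ioo (2 : ℝ) 5
    · rw [gg_mid h1, gm_apply, gm_apply, gE_apply, gE_apply]; ring
    · rw [gg, if_neg h1, gE_apply, gE_apply]; ring
  pos z v hv := by
    have h0 : 0 < gE v v := (pow_pos (norm_pos_iff.2 hv) 2).trans_le (norm_sq_le_gE v)
    by_cases h1 : z.1 < 3 ∨ 4 < z.1
    · exact h0.trans_le (gg_side h hT h1 v)
    rw [not_or, not_lt, not_lt] at h1
    have h2 : z.1 ∈ Ioo (2 : ℝ) 5 := ⟨by linarith [h1.1], by linarith [h1.2]⟩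
    rw [gg_mid h2, gm_apply]
    have h3 := mul_self_nonneg (fderiv ℝ (Um φ T) z v)
    have h4 := mul_nonneg (sq_nonneg (Ee φ T z)) (mul_self_nonneg (fderiv ℝ T z v))
    rcases le_or_gt |T z| 1 with h5 | h5
    · rw [lam_zero' h5]
      by_cases h6 : fderiv ℝ T z v = 0
      · have h7 := key1 h hT (sub25 h2) v
        have h8 := key2 h hT (sub25 h2) v
        have h9 : v.1 ≠ 0 := by
          intro h9
          rw [h6, h9] at h7
          exact hv (Prod.ext h9 (by simpa using h7.symm))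
        have h10 : -ww (T z) + deriv ch z.1 * DD φ (T z) < 0 := by
          nlinarith [one_le_ww (T z), h.DD_nonneg h5, deriv_ch_nonpos z.1]
        have h11 : fderiv ℝ (Um φ T) z v ≠ 0 := by
          rw [h8, h6, mul_zero, add_zero]
          exact mul_ne_zero h10.ne h9
        have := mul_self_pos.2 h11
        linarith
      · have h7 : 0 < Ee φ T z := div_pos (by linarith [h.Ytau (sub25 h2) (T z)]) (ww_pos _)
        have := mul_pos (pow_pos h7 2) (mul_self_pos.2 h6)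
        linarith
    · rw [lam_mid h1.1 h1.2]
      have := mul_pos (smoothTransition.pos_of_pos (x := T z ^ 2 - 1)
        (by rw [← sq_abs]; nlinarith)) h0
      linarith

theorem abs_ps_le (h : Sm φ) (τ : ℝ) : |ps φ τ| ≤ (1 + |τ|) / 4 := by
  have h1 := (h.bd _ (abs_arctan_le τ)).1
  have h2 : ww τ ≤ 1 + |τ| :=
    abs_le_of_sq_le_sq' (by rw [ww_sq, ← sq_abs τ]; nlinarith [abs_nonneg τ]) (by positivity) |>.2
  rw [ps, abs_mul, abs_of_pos (ww_pos τ)]
  nlinarith [ww_pos τ, abs_nonneg (deriv φ (arctan τ))]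

theorem gg_lower (h : Sm φ) (hT : IsT φ T) : ∃ c, 0 < c ∧ ∀ z v, c * ‖v‖ ^ 2 ≤ gg φ T z v v := by
  refine exists_lower (isMetric_gg h hT) (R := 100) fun z v hz => (norm_sq_le_gE v).trans ?_
  by_cases h1 : z.1 < 3 ∨ 4 < z.1
  · exact gg_side h hT h1 v
  rw [not_or, not_lt, not_lt] at h1
  have h2 : z.1 ∈ Ioo (2 : ℝ) 5 := ⟨by linarith [h1.1], by linarith [h1.2]⟩
  have h3 : 100 ≤ |z.2| := by
    rw [Prod.norm_def, le_max_iff, norm_eq_abs, norm_eq_abs] at hz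
    refine hz.resolve_left ?_
    rw [not_le, abs_lt]; constructor <;> linarith [h1.1, h1.2]
  have h4 : 2 ≤ |T z| := by
    by_contra h4
    have h5 := (hT z (sub25 h2)).2.1
    have h6 := abs_ps_le h (T z)
    have h7 : bb z.1 ≤ 7 := by
      have := ch_nonneg z.1
      have := ch_le z.1
      unfold bb
      nlinarith [h1.1, h1.2]
    have h8 := abs_add_le (bb z.1 * T z) (ch z.1 * ps φ (T z))
    rw [abs_mul, abs_mul, abs_of_nonneg (ch_nonneg _),
      abs_of_pos (one_pos.trans_le (one_le_bb (sub25 h2)))] at h8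
    rw [← h5, YY] at h3
    nlinarith [ch_nonneg z.1, ch_le z.1, abs_nonneg (T z), abs_nonneg (ps φ (T z)),
      one_le_bb (sub25 h2)]
  rw [gg_mid h2, gm_apply, lam_mid h1.1 h1.2, smoothTransition.one_of_one_le
    (by rw [← sq_abs]; nlinarith)]
  nlinarith [mul_self_nonneg (fderiv ℝ (Um φ T) z v),
    mul_nonneg (sq_nonneg (Ee φ T z)) (mul_self_nonneg (fderiv ℝ T z v))]

/-- Euclidean distance to the base point -/
noncomputable def NN (z : ℝ × ℝ) : ℝ := √((z.1 - 10) ^ 2 + z.2 ^ 2)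

open Classical in
/-- the calibration -/
noncomputable def UU (φ : ℝ → ℝ) (T : ℝ × ℝ → ℝ) (z : ℝ × ℝ) : ℝ :=
  if z.1 < 5 then Um φ T z else NN z

theorem UU_right (hT : IsT φ T) {z : ℝ × ℝ} (hz : 4 < z.1) : UU φ T z = NN z := by
  by_cases h1 : z.1 < 5
  · have h2 := (hT z ⟨by linarith, by linarith⟩).2.1
    simp only [YY, bb, ch_zero hz.le] at h2
    rw [UU, if_pos h1, Um, AA, NN, ← h2, ch_zero hz.le, eq_comm, sqrt_eq_iff_mul_self_eq_of_pos
      (by nlinarith [ww_pos (T z)])]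
    linear_combination (10 - z.1) ^ 2 * ww_sq (T z)
  · rw [UU, if_neg h1]

theorem UU_ev_right (hT : IsT φ T) {z : ℝ × ℝ} (hz : 4 < z.1) : UU φ T =ᶠ[𝓝 z] NN := by
  filter_upwards [(isOpen_lt continuous_const continuous_fst).mem_nhds hz] with y hy
  exact UU_right hT hy

theorem UU_ev_left {z : ℝ × ℝ} (hz : z.1 < 5) : UU φ T =ᶠ[𝓝 z] Um φ T := by
  filter_upwards [(isOpen_lt continuous_fst continuous_const).mem_nhds hz] with y hy
  exact if_pos hy

theorem UU_cont (h : Sm φ) (hT : IsT φ T) {z : ℝ × ℝ} (hz : 2 < z.1) :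
    ContinuousAt (UU φ T) z := by
  rcases lt_or_ge z.1 5 with h1 | h1
  · exact (Um_smooth h hT (sub25 ⟨hz, h1⟩)).continuousAt.congr (UU_ev_left h1).symm
  · refine ContinuousAt.congr ?_ (UU_ev_right hT (by linarith)).symm
    unfold NN
    fun_prop

theorem UU_calib (h : Sm φ) (hT : IsT φ T) {z : ℝ × ℝ} (hz : 2 < z.1) (hp : z ≠ (10, 0)) :
    ∃ L : ℝ × ℝ →L[ℝ] ℝ, HasFDerivAt (UU φ T) L z ∧ ∀ v, L v ^ 2 ≤ gg φ T z v v := by
  rcases lt_or_ge z.1 5 with h1 | h1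
  · exact ⟨_, ((Um_smooth h hT (sub25 ⟨hz, h1⟩)).differentiableAt
      (by simp)).hasFDerivAt.congr_of_eventuallyEq (UU_ev_left h1), calib_mid ⟨hz, h1⟩⟩
  · have h2 : 0 < (z.1 - 10) ^ 2 + z.2 ^ 2 := by
      by_contra h2
      exact hp (Prod.ext (by nlinarith [sq_nonneg (z.1 - 10), sq_nonneg z.2])
        (by nlinarith [sq_nonneg (z.1 - 10), sq_nonneg z.2]))
    have h3 := ((((hasFDerivAt_fst (𝕜 := ℝ) (p := z)).sub_const 10).pow 2).add
      ((hasFDerivAt_snd (𝕜 := ℝ) (p := z)).pow 2)).sqrt h2.ne'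
    refine ⟨_, h3.congr_of_eventuallyEq (UU_ev_right hT (by linarith)), fun v => ?_⟩
    rw [gg_flat h hT (Or.inr (by linarith)), gE_apply]
    have h4 := sq_sqrt h2.le
    have h5 := sqrt_pos.2 h2
    simp
    field_simp
    rw [h4]
    nlinarith [sq_nonneg ((z.1 - 10) * v.2 - z.2 * v.1)]

end Pool.Agent.H253Z.Bi
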