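import Mathlib
import Pool.Agent.H253Z.BiE

set_option autoImplicit false
set_option maxHeartbeats 400000
set_option maxSynthPendingDepth 3

open scoped ContDiff Topology
open Set Filter Real

namespace Pool.Agent.H253Z.Bi

variable {φ : ℝ → ℝ} {T : ℝ × ℝ → ℝ}

/-- the linear form with coefficients `a`, `b` -/
noncomputable def LL (a b : ℝ) : ℝ × ℝ →L[ℝ] ℝ :=
  a • ContinuousLinearMap.fst ℝ ℝ ℝ + b • ContinuousLinearMap.snd ℝ ℝ ℝ

theorem LL_apply (a b : ℝ) (v : ℝ × ℝ) : LL a b v = a * v.1 + b * v.2 := by simp [LL]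

theorem LL_sq_le {a b : ℝ} (h : a ^ 2 + b ^ 2 = 1) (v : ℝ × ℝ) : LL a b v ^ 2 ≤ gE v v := by
  rw [LL_apply, gE_apply]
  have : v.1 * v.1 + v.2 * v.2 - (a * v.1 + b * v.2) ^ 2 = (a * v.2 - b * v.1) ^ 2 := by
    linear_combination -(v.1 * v.1 + v.2 * v.2) * h
  nlinarith [sq_nonneg (a * v.2 - b * v.1)]

theorem geod_case {g : ℝ × ℝ → ℝ × ℝ →L[ℝ] ℝ × ℝ →L[ℝ] ℝ} (hg : IsMetric g) {γ : ℝ → ℝ × ℝ}
    (hγ : ContDiff ℝ ∞ γ) {O : Set ℝ} (hO : IsOpen O) {U : ℝ × ℝ → ℝ}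
    (hU : ∀ z : ℝ × ℝ, z.1 ∈ O → ContDiffAt ℝ 2 U z ∧ ∀ v, fderiv ℝ U z v ^ 2 ≤ g z v v)
    (h : ∀ t, (γ t).1 ∈ O → g (γ t) (deriv γ t) (deriv γ t) = 1 ∧
      fderiv ℝ U (γ t) (deriv γ t) = 1) {t : ℝ} (ht : (γ t).1 ∈ O) (c : ℝ × ℝ) :
    g (γ t) (deriv (deriv γ) t) c + koszul g (γ t) (deriv γ t) (deriv γ t) c = 0 := by
  refine geod_of_calib hg hγ (hU _ ht).1 ?_ ?_ c
  · filter_upwards [(hO.preimage continuous_fst).mem_nhds ht] with z hz using (hU z hz).2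
  · filter_upwards [(hO.preimage (continuous_fst.comp hγ.continuous)).mem_nhds ht] with s hs
    exact h s hs

theorem exists_ray (h : Sm φ) (hT : IsT φ T) {τ : ℝ} (hτ : |τ| ≤ 1) : ∃ γ : ℝ → ℝ × ℝ,
    IsGeodOn (gg φ T) γ univ ∧ γ 0 = (10, 0) ∧ deriv γ 0 = (-(1 / ww τ), τ / ww τ) ∧
    (∀ t, gg φ T (γ t) (deriv γ t) (deriv γ t) = 1) ∧
    ∀ t, 10 + (DD φ τ - t) / ww τ ≤ 3 →
      γ t = (10 + (DD φ τ - t) / ww τ, (10 + (DD φ τ - t) / ww τ) * τ + ps φ τ) := by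
  obtain ⟨ξ, hξ, hA⟩ := h.exists_xi hτ
  have hw := (ww_pos τ).ne'
  have hw2 := ww_sq τ
  have hg := isMetric_gg h hT
  set γ : ℝ → ℝ × ℝ := fun t => (ξ t, YY φ (ξ t, τ)) with hγd
  have hγ : ContDiff ℝ ∞ γ := hξ.prodMk (h.contDiff_YY.comp (hξ.prodMk contDiff_const))
  have hl : ∀ t, ξ t ≤ 3 →
      γ t = (10 + (DD φ τ - t) / ww τ, (10 + (DD φ τ - t) / ww τ) * τ + ps φ τ) := by
    intro t ht
    have h1 := (hA t).1
    simp only [AA, ch_one ht] at h1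
    have h2 : 10 + (DD φ τ - t) / ww τ = ξ t := by field_simp; linarith
    simp only [hγd, h2, YY, bb, ch_one ht]
    congr 1; ring
  have hr : ∀ t, 4 ≤ ξ t → γ t = (10 - t / ww τ, t / ww τ * τ) := by
    intro t ht
    have h1 := (hA t).1
    simp only [AA, ch_zero ht] at h1
    have h2 : t / ww τ = 10 - ξ t := by field_simp; linarith
    simp only [hγd, h2, YY, bb, ch_zero ht]
    congr 1 <;> ring
  have hl' : ∀ t, ξ t < 3 → deriv γ t = (-(1 / ww τ), -(τ / ww τ)) := by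
    intro t ht
    have h1 := (((hasDerivAt_id t).const_sub (DD φ τ)).div_const (ww τ)).const_add 10
    have h2 := (h1.prodMk ((h1.mul_const τ).add_const (ps φ τ))).congr_of_eventuallyEq
      (f₁ := γ) (by
        filter_upwards [hξ.continuous.continuousAt.eventually (gt_mem_nhds ht)] with s hs
        exact hl s hs.le)
    rw [h2.deriv]
    congr 1 <;> ring
  have hr' : ∀ t, 4 < ξ t → deriv γ t = (-(1 / ww τ), τ / ww τ) := by
    intro t ht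
    have h1 := (hasDerivAt_id t).div_const (ww τ)
    have h2 := ((h1.const_sub 10).prodMk (h1.mul_const τ)).congr_of_eventuallyEq
      (f₁ := γ) (by
        filter_upwards [hξ.continuous.continuousAt.eventually (lt_mem_nhds ht)] with s hs
        exact hr s hs.le)
    rw [h2.deriv]
    congr 1; ring
  have e1 : (-(1 / ww τ)) ^ 2 + (-(τ / ww τ)) ^ 2 = 1 := by field_simp; linarith
  have e2 : (-(1 / ww τ)) ^ 2 + (τ / ww τ) ^ 2 = 1 := by field_simp; linarith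
  have c1 : ∀ t, (γ t).1 ∈ Iio (5 / 2 : ℝ) → gg φ T (γ t) (deriv γ t) (deriv γ t) = 1 ∧
      fderiv ℝ (LL (-(1 / ww τ)) (-(τ / ww τ))) (γ t) (deriv γ t) = 1 := by
    intro t ht
    have h1 : ξ t < 5 / 2 := ht
    rw [gg_flat h hT (Or.inl h1.le), hl' t (by linarith), ContinuousLinearMap.fderiv, gE_apply,
      LL_apply]
    exact ⟨by linarith, by linarith⟩
  have c2 : ∀ t, (γ t).1 ∈ Ioi (9 / 2 : ℝ) → gg φ T (γ t) (deriv γ t) (deriv γ t) = 1 ∧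
      fderiv ℝ (LL (-(1 / ww τ)) (τ / ww τ)) (γ t) (deriv γ t) = 1 := by
    intro t ht
    have h1 : 9 / 2 < ξ t := ht
    rw [gg_flat h hT (Or.inr h1.le), hr' t (by linarith), ContinuousLinearMap.fderiv, gE_apply,
      LL_apply]
    exact ⟨by linarith, by linarith⟩
  have c3 : ∀ t, (γ t).1 ∈ Ioo (2 : ℝ) 5 → gg φ T (γ t) (deriv γ t) (deriv γ t) = 1 ∧
      fderiv ℝ (Um φ T) (γ t) (deriv γ t) = 1 := by
    intro t ht
    have hd := (hγ.differentiable (by simp) t).hasDerivAt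
    have h0 : ∀ᶠ s in 𝓝 t, T (γ s) = τ := by
      filter_upwards [(isOpen_Ioo.preimage (continuous_fst.comp hγ.continuous)).mem_nhds ht]
        with s hs using (hT _ (sub25 hs)).2.2 τ rfl
    have h1 : fderiv ℝ T (γ t) (deriv γ t) = 0 :=
      (((hT _ (sub25 ht)).1.differentiableAt (by simp)).hasFDerivAt.comp_hasDerivAt t hd).unique
        ((hasDerivAt_const t τ).congr_of_eventuallyEq h0)
    have h2 : fderiv ℝ (Um φ T) (γ t) (deriv γ t) = 1 :=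
      (((Um_smooth h hT (sub25 ht)).differentiableAt
        (by simp)).hasFDerivAt.comp_hasDerivAt t hd).unique
        ((hasDerivAt_id t).congr_of_eventuallyEq (by
          filter_upwards [h0] with s hs
          simp only [Function.comp, Um, hs]
          exact (hA s).1))
    refine ⟨?_, h2⟩
    rw [gg_mid ht, gm_apply, h1, h2, lam_zero' (by rwa [h0.self_of_nhds])]
    ring
  have hcov : ∀ t, (γ t).1 ∈ Iio (5 / 2 : ℝ) ∨ (γ t).1 ∈ Ioi (9 / 2 : ℝ) ∨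
      (γ t).1 ∈ Ioo (2 : ℝ) 5 := by
    intro t
    rw [mem_Iio, mem_Ioi, mem_Ioo]
    by_contra! h1
    linarith [h1.1, h1.2.1, h1.2.2 (by linarith [h1.1])]
  have hξ0 : ξ 0 = 10 := (hA 0).2 10 (by simp [AA, ch_zero (show (4 : ℝ) ≤ 10 by norm_num)])
  refine ⟨γ, ⟨hγ, fun t _ c => ?_⟩, ?_, hr' 0 (by linarith), fun t => ?_, fun t ht => hl t ?_⟩
  · rcases hcov t with h1 | h1 | h1
    · refine geod_case hg hγ isOpen_Iio (fun z hz => ⟨(LL _ _).contDiff.contDiffAt, ?_⟩) c1 h1 c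
      rw [gg_flat h hT (Or.inl (le_of_lt hz)), ContinuousLinearMap.fderiv]
      exact LL_sq_le e1
    · refine geod_case hg hγ isOpen_Ioi (fun z hz => ⟨(LL _ _).contDiff.contDiffAt, ?_⟩) c2 h1 c
      rw [gg_flat h hT (Or.inr (le_of_lt hz)), ContinuousLinearMap.fderiv]
      exact LL_sq_le e2
    · exact geod_case hg hγ isOpen_Ioo (fun z hz =>
        ⟨(Um_smooth h hT (sub25 hz)).of_le (by norm_cast), calib_mid hz⟩) c3 h1 c
  · rw [hr 0 (by linarith)]; simp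
  · rcases hcov t with h1 | h1 | h1
    exacts [(c1 t h1).1, (c2 t h1).1, (c3 t h1).1]
  · rw [(hA t).2 (10 + (DD φ τ - t) / ww τ) (by simp only [AA, ch_one ht]; field_simp; ring)]
    exact ht

theorem lower_bound (h : Sm φ) (hT : IsT φ T) {σ : ℝ → ℝ × ℝ} (hσ : ContDiff ℝ 1 σ) {a b : ℝ}
    (hab : a ≤ b) (ha : σ a = (10, 0)) (hb : (σ b).1 < 2) :
    ∃ t ∈ Ico a b, ∃ θ ∈ Ioo (-(π / 2)) (π / 2), (∀ s ∈ Icc t b, (σ s).1 ≤ 9 / 4) ∧
      16 + φ θ - (cos θ * (σ t).1 + sin θ * (σ t).2) ≤ len (gg φ T) σ a t := by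
  have hg := isMetric_gg h hT
  have hc := hσ.continuous
  obtain ⟨t₀, h0, h0p, h0'⟩ := last_time hc (isClosed_singleton (x := (10, 0))) hab ha
  rw [mem_singleton_iff] at h0p
  obtain ⟨t, ht, ht1, ht'⟩ := last_time hc (isClosed_le (continuous_const (y := (9 / 4 : ℝ)))
    continuous_fst) h0.2 (by rw [h0p]; norm_num)
  have ht2 : 9 / 4 ≤ (σ t).1 := ht1
  have htb : t < b := lt_of_le_of_ne ht.2 (by rintro rfl; linarith)
  have hle : ∀ s ∈ Icc t b, (σ s).1 ≤ 9 / 4 := by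
    rw [← closure_Ioc htb.ne]
    exact closure_minimal (t := {s | (σ s).1 ≤ 9 / 4})
      (fun s hs => show (σ s).1 ≤ 9 / 4 from (not_le.1 (show ¬ 9 / 4 ≤ (σ s).1 from ht' s hs)).le)
      (isClosed_le (continuous_fst.comp hc) continuous_const)
  have ht3 : (σ t).1 = 9 / 4 := le_antisymm (hle t ⟨le_rfl, ht.2⟩) ht2
  refine ⟨t, ⟨h0.1.trans ht.1, htb⟩, arctan (T (σ t)),
    ⟨neg_pi_div_two_lt_arctan _, arctan_lt_pi_div_two _⟩, hle, ?_⟩
  let ρ : ℝ → ℝ × ℝ := fun s => (max (σ s).1 (9 / 4), (σ s).2)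
  have hρ : Continuous ρ := by fun_prop
  have hρ2 : ∀ s, 2 < (ρ s).1 := fun s => lt_max_of_lt_right (by norm_num)
  have h1 := sub_le_len hg hσ ht.1 (u := fun s => UU φ T (ρ s))
    (fun s _ => ((UU_cont h hT (hρ2 s)).comp hρ.continuousAt).continuousWithinAt) (by
    intro s hs
    have hd := (hσ.differentiable one_ne_zero s).hasDerivAt
    have hd1 : HasDerivAt (fun s => (σ s).1) (deriv σ s).1 s := hd.fst
    have hd2 : HasDerivAt (fun s => (σ s).2) (deriv σ s).2 s := hd.snd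
    obtain ⟨r, h2, h3⟩ := max_right_deriv hd1 (9 / 4)
    have h4 : ρ s ≠ (10, 0) := by
      intro h4
      refine h0' s ⟨hs.1, hs.2.le.trans ht.2⟩ (Prod.ext ?_ (congrArg Prod.snd h4 :))
      have h5 : max (σ s).1 (9 / 4) = 10 := congrArg Prod.fst h4
      rcases max_eq_iff.1 h5 with h6 | h6
      · exact h6.1
      · norm_num at h6
    obtain ⟨L, h5, h6⟩ := UU_calib h hT (hρ2 s) h4
    refine ⟨_, h5.comp_hasDerivWithinAt s (h2.prodMk hd2.hasDerivWithinAt), (h6 _).trans ?_⟩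
    rcases h3 with ⟨h7, rfl⟩ | ⟨h7, rfl⟩
    · simp only [ρ, max_eq_left h7, le_refl]
    · rw [gg_flat h hT (Or.inl (max_le (by linarith) (by norm_num))),
        gg_flat h hT (Or.inl (by linarith)), gE_apply, gE_apply]
      nlinarith [mul_self_nonneg (deriv σ s).1])
  have h2 : UU φ T (ρ t₀) = 0 := by
    have : ρ t₀ = (10, 0) := by simp only [ρ, h0p]; norm_num
    rw [this, UU_right hT (by norm_num)]
    simp [NN]
  have h3 : ρ t = σ t := by simp only [ρ, max_eq_left ht2]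
  have h4 := (hT (σ t) (by rw [ht3]; norm_num)).2.1
  have h5 := len_add hg hσ a t₀ t
  have h6 := len_nonneg (g := gg φ T) σ h0.1
  have h7 : UU φ T (σ t) = 16 + φ (arctan (T (σ t))) -
      (cos (arctan (T (σ t))) * (σ t).1 + sin (arctan (T (σ t))) * (σ t).2) := by
    have h8 : ch (9 / 4) = 1 := ch_one (by norm_num)
    have hw := (ww_pos (T (σ t))).ne'
    rw [UU, if_pos (by rw [ht3]; norm_num), cos_arctan, sin_arctan, ← h4]
    simp only [Um, AA, YY, bb, ht3, h8, DD, ps]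
    change _ = _ - (1 / ww _ * _ + _ / ww _ * _)
    field_simp
    linear_combination (-9) * ww_sq (T (σ t))
  simp only [h2, h3] at h1
  linarith

/-- the properties of the surface that the cut locus analysis uses -/
structure Model (φ : ℝ → ℝ) (g : ℝ × ℝ → ℝ × ℝ →L[ℝ] ℝ × ℝ →L[ℝ] ℝ) (γ : ℝ → ℝ → ℝ × ℝ) :
    Prop where
  metric : IsMetric g
  lower : ∃ c, 0 < c ∧ ∀ z v, c * ‖v‖ ^ 2 ≤ g z v v
  flat : ∀ z : ℝ × ℝ, z.1 ≤ 5 / 2 → g z = gE
  geod : ∀ θ, |θ| ≤ 3 / 4 → IsGeodOn g (γ θ) univ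
  start : ∀ θ, |θ| ≤ 3 / 4 → γ θ 0 = (10, 0) ∧ deriv (γ θ) 0 = (-cos θ, sin θ)
  unit : ∀ θ, |θ| ≤ 3 / 4 → ∀ t, g (γ θ t) (deriv (γ θ) t) (deriv (γ θ) t) = 1
  line : ∀ θ, |θ| ≤ 3 / 4 → ∀ r, r ≤ 1 → γ θ (16 + φ θ - r) =
    (r * cos θ - deriv φ θ * sin θ, r * sin θ + deriv φ θ * cos θ)
  lb : ∀ (σ : ℝ → ℝ × ℝ) (a b : ℝ), ContDiff ℝ 1 σ → a ≤ b → σ a = (10, 0) → (σ b).1 < 2 →
    ∃ t ∈ Ico a b, ∃ θ ∈ Ioo (-(π / 2)) (π / 2), (∀ s ∈ Icc t b, (σ s).1 ≤ 9 / 4) ∧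
      16 + φ θ - (cos θ * (σ t).1 + sin θ * (σ t).2) ≤ len g σ a t

theorem exists_model (h : Sm φ) : ∃ g γ, Model φ g γ := by
  obtain ⟨T, hT⟩ := h.exists_T
  have h1 : ∀ θ, |θ| ≤ 3 / 4 → |tan θ| ≤ 1 ∧ arctan (tan θ) = θ := by
    intro θ hθ
    rw [abs_le] at hθ
    have hπ := pi_gt_three
    refine ⟨abs_le.2 ⟨?_, ?_⟩, arctan_tan (by linarith) (by linarith)⟩
    · rw [← tan_pi_div_four, ← tan_neg]
      exact (tan_lt_tan_of_lt_of_lt_pi_div_two (by linarith) (by linarith) (by linarith)).le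
    · rw [← tan_pi_div_four]
      exact (tan_lt_tan_of_lt_of_lt_pi_div_two (by linarith) (by linarith) (by linarith)).le
  have h2 : ∀ θ, |θ| ≤ 3 / 4 → cos θ = 1 / ww (tan θ) ∧ sin θ = tan θ / ww (tan θ) := by
    intro θ hθ
    have h3 := cos_arctan (tan θ)
    have h4 := sin_arctan (tan θ)
    rw [(h1 θ hθ).2] at h3 h4
    exact ⟨h3, h4⟩
  choose! γ hγ using fun θ (hθ : |θ| ≤ 3 / 4) => exists_ray h hT (h1 θ hθ).1
  refine ⟨gg φ T, γ, isMetric_gg h hT, gg_lower h hT, fun z hz => gg_flat h hT (Or.inl hz),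
    fun θ hθ => (hγ θ hθ).1, fun θ hθ => ⟨(hγ θ hθ).2.1, ?_⟩, fun θ hθ => (hγ θ hθ).2.2.2.1,
    fun θ hθ r hr => ?_, fun σ a b h3 h4 h5 h6 => lower_bound h hT h3 h4 h5 h6⟩
  · rw [(hγ θ hθ).2.2.1, (h2 θ hθ).1, (h2 θ hθ).2]
  · have hw := (ww_pos (tan θ)).ne'
    have h3 : 10 + (DD φ (tan θ) - (16 + φ θ - r)) / ww (tan θ)
        = r * cos θ - deriv φ θ * sin θ := by
      rw [(h2 θ hθ).1, (h2 θ hθ).2, DD, (h1 θ hθ).2]
      field_simp
      ring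
    have h4 := (h.bd θ (by linarith)).1
    have h5 := neg_abs_le (deriv φ θ * sin θ)
    rw [abs_mul] at h5
    have h6 : 0 < cos θ := by rw [(h2 θ hθ).1]; exact one_div_pos.2 (ww_pos _)
    rw [(hγ θ hθ).2.2.2.2 _ (by
      rw [h3]
      nlinarith [cos_le_one θ, abs_sin_le_one θ, abs_nonneg (sin θ), abs_nonneg (deriv φ θ)]), h3]
    congr 1
    rw [(h2 θ hθ).1, (h2 θ hθ).2, ps, (h1 θ hθ).2]
    field_simp
    linear_combination (deriv φ θ) * ww_sq (tan θ)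

end Pool.Agent.H253Z.Bi
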