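import Mathlib
import Pool.Agent.H253Z.BiF

set_option autoImplicit false
set_option maxHeartbeats 400000
set_option maxSynthPendingDepth 3

open scoped ContDiff Topology
open Set Filter Real

namespace Pool.Agent.H253Z.Bi

variable {φ : ℝ → ℝ} {ε : ℕ → ℝ} {g : ℝ × ℝ → ℝ × ℝ →L[ℝ] ℝ × ℝ →L[ℝ] ℝ} {γ : ℝ → ℝ → ℝ × ℝ}

/-- the plane waves -/
noncomputable def FF (φ : ℝ → ℝ) (x : ℝ × ℝ) (θ : ℝ) : ℝ :=
  16 + φ θ - (cos θ * x.1 + sin θ * x.2)

theorem e_cs (θ : ℝ) : (-cos θ) ^ 2 + (-sin θ) ^ 2 = 1 := by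
  linarith [cos_sq_add_sin_sq θ]

theorem Model.ray_le (M : Model φ g γ) {θ : ℝ} (hθ : |θ| ≤ 3 / 4) {a b : ℝ} (h : a ≤ b) :
    rdist g (γ θ a) (γ θ b) ≤ b - a := by
  rw [← len_of_unit (g := g) h fun t _ => M.unit θ hθ t]
  exact rdist_le_len ((M.geod θ hθ).1.of_le (by norm_cast)) h

theorem Model.ray_le' (M : Model φ g γ) {θ : ℝ} (hθ : |θ| ≤ 3 / 4) {b : ℝ} (h : 0 ≤ b) :
    rdist g (10, 0) (γ θ b) ≤ b := by
  have := M.ray_le hθ h
  rwa [(M.start θ hθ).1, sub_zero] at this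

theorem Model.flat_le (M : Model φ g γ) {σ : ℝ → ℝ × ℝ} (hσ : ContDiff ℝ 1 σ) {t b : ℝ}
    (h : t ≤ b) (h1 : ∀ s ∈ Icc t b, (σ s).1 ≤ 9 / 4) (θ : ℝ) :
    LL (-cos θ) (-sin θ) (σ b) - LL (-cos θ) (-sin θ) (σ t) ≤ len g σ t b := by
  refine sub_le_len M.metric hσ h (u := fun s => LL (-cos θ) (-sin θ) (σ s))
    ((LL _ _).continuous.comp hσ.continuous).continuousOn fun s hs => ⟨_,
      ((LL _ _).hasFDerivAt.comp_hasDerivAt s
        (hσ.differentiable one_ne_zero s).hasDerivAt).hasDerivWithinAt, ?_⟩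
  rw [M.flat _ (by linarith [h1 s (Ioo_subset_Icc_self hs)])]
  exact LL_sq_le (e_cs θ) _

theorem Model.le_dist (M : Model φ g γ) {x : ℝ × ℝ} (hx : x.1 < 2) {r : ℝ}
    (h : ∀ θ ∈ Ioo (-(π / 2)) (π / 2), r ≤ FF φ x θ) : r ≤ rdist g (10, 0) x := by
  refine le_rdist fun σ a b h1 h2 h3 h4 => ?_
  subst h4
  obtain ⟨t, ht, θ, hθ, h5, h6⟩ := M.lb σ a b h1 h2 h3 hx
  have h7 := M.flat_le h1 ht.2.le h5 θ
  have h8 := len_add M.metric h1 a t b
  have h9 := h θ hθ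
  rw [LL_apply, LL_apply] at h7
  unfold FF at h9
  linarith

theorem Model.deriv_line (M : Model φ g γ) {θ : ℝ} (hθ : |θ| ≤ 3 / 4) {r : ℝ} (hr : r < 1) :
    deriv (γ θ) (16 + φ θ - r) = (-cos θ, -sin θ) := by
  have h1 := (hasDerivAt_id (16 + φ θ - r)).const_sub (16 + φ θ)
  have h2 := (((h1.mul_const (cos θ)).sub_const (deriv φ θ * sin θ)).prodMk
    ((h1.mul_const (sin θ)).add_const (deriv φ θ * cos θ))).congr_of_eventuallyEq (f₁ := γ θ) (by
      filter_upwards [Ioi_mem_nhds (show 16 + φ θ - 1 < 16 + φ θ - r by linarith)] with s hs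
      have h3 := M.line θ hθ (16 + φ θ - s) (by linarith [mem_Ioi.1 hs])
      rw [sub_sub_cancel] at h3
      exact h3)
  rw [h2.deriv]
  simp

theorem Model.seg_unique (M : Model φ g γ) {θ₀ : ℝ} (h0 : |θ₀| ≤ 3 / 4) {r : ℝ} (hr : r < 1)
    {x : ℝ × ℝ} (hx : x = γ θ₀ (16 + φ θ₀ - r)) (hx1 : x.1 < 2)
    (hmin : ∀ θ ∈ Ioo (-(π / 2)) (π / 2), θ ≠ θ₀ → 16 + φ θ₀ - r < FF φ x θ)
    (hd : rdist g (10, 0) x = 16 + φ θ₀ - r) {η : ℝ → ℝ × ℝ} {l : ℝ}
    (hη : IsSegment g (10, 0) x η l) : EqOn η (γ θ₀) (Icc 0 l) := by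
  obtain ⟨h1, h2, h3, h4, h5, h6⟩ := hη
  have hl : l = 16 + φ θ₀ - r := h6.symm.trans hd
  have hC : ContDiff ℝ 1 η := h2.1.of_le (by norm_cast)
  obtain ⟨t, ht, θ, hθ, h7, h8⟩ := M.lb η 0 l hC h1 h3 (by rwa [h4])
  have h9 := M.flat_le hC ht.2.le h7 θ
  rw [len_of_unit ht.1 fun s hs => h5 s ⟨hs.1, hs.2.trans ht.2.le⟩] at h8
  rw [len_of_unit ht.2.le fun s hs => h5 s ⟨ht.1.trans hs.1, hs.2⟩] at h9
  have h10 : θ = θ₀ := by
    by_contra hne
    have := hmin θ hθ hne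
    rw [LL_apply, LL_apply, h4] at h9
    unfold FF at this
    linarith
  subst h10
  have h11 : cos θ * x.1 + sin θ * x.2 = r := by
    rw [hx, M.line θ h0 r hr.le]
    linear_combination r * cos_sq_add_sin_sq θ
  have h12 : ∀ s ∈ Icc t l, LL (-cos θ) (-sin θ) (deriv η s) ≤ 1 := by
    intro s hs
    have h13 := LL_sq_le (e_cs θ) (deriv η s)
    rw [← M.flat (η s) (by linarith [h7 s hs]), h5 s ⟨ht.1.trans hs.1, hs.2⟩] at h13
    nlinarith
  have h13 := eq_of_len_eq hC ht.2 h12 (le_antisymm h9 (by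
    rw [LL_apply, LL_apply, h4]; linarith))
  refine geod_unique_aux M.metric h2 ((M.geod θ h0).mono (subset_univ _)) (Or.inr ⟨?_, ?_⟩)
  · rw [h4, hx, hl]
  · refine eq_of_calib' M.metric (z := x) (L := LL (-cos θ) (-sin θ)) (fun v => ?_) ?_ h13 ?_ ?_
    · rw [M.flat _ (by linarith)]; exact LL_sq_le (e_cs θ) v
    · rw [← h4]; exact h5 l ⟨h1, le_rfl⟩
    · rw [hx, hl]; exact M.unit θ h0 _
    · rw [hl, M.deriv_line h0 hr, LL_apply]; linarith [e_cs θ]

theorem Model.isCut (M : Model φ g γ) {θ : ℝ} (hθ : |θ| ≤ 3 / 4) {ρ δ : ℝ} (hρ : 0 ≤ ρ)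
    (hδ : 0 < δ) (h1 : ρ ≤ rdist g (10, 0) (γ θ ρ))
    (h2 : ∀ s, 0 < s → s ≤ δ → rdist g (10, 0) (γ θ (ρ + s)) < ρ + s) :
    IsCut g (10, 0) (-cos θ, sin θ) (γ θ) ρ := by
  obtain ⟨h3, h4⟩ := M.start θ hθ
  refine ⟨?_, (M.geod θ hθ).mono (subset_univ _), h3, h4, IsGreatest.isLUB
    ⟨⟨hρ, le_antisymm (M.ray_le' hθ hρ) h1⟩, ?_⟩⟩
  · have := M.unit θ hθ 0
    rwa [h3, h4] at this
  · rintro t ⟨-, ht⟩
    by_contra! h5
    have h6 := h2 (min (t - ρ) δ) (lt_min (by linarith) hδ) (min_le_right _ _)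
    have h7 := M.ray_le hθ (a := ρ + min (t - ρ) δ) (b := t)
      (by linarith [min_le_left (t - ρ) δ])
    have h8 := rdist_triangle M.metric (10, 0) (γ θ (ρ + min (t - ρ) δ)) (γ θ t)
    linarith

theorem Model.segment (M : Model φ g γ) {θ : ℝ} (hθ : |θ| ≤ 3 / 4) {l : ℝ} (hl : 0 ≤ l)
    (h1 : l ≤ rdist g (10, 0) (γ θ l)) : IsSegment g (10, 0) (γ θ l) (γ θ) l :=
  ⟨hl, (M.geod θ hθ).mono (subset_univ _), (M.start θ hθ).1, rfl, fun t _ => M.unit θ hθ t,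
    le_antisymm (M.ray_le' hθ hl) h1⟩

theorem Fam.deriv_zero (h : Fam φ ε) {t : ℝ} (ht : φ t = 0) : deriv φ t = 0 :=
  IsLocalMin.deriv_eq_zero (Eventually.of_forall fun s => ht ▸ h.nonneg s)

theorem Fam.min' (h : Fam φ ε) (k : ℕ) (t : ℝ) :
    φ (th k) - ε k ≤ φ t - ε k * cos (t - th k) := by
  by_cases h1 : cos (t - th k) = 1
  · have hc : Continuous fun s => φ s - ε k * cos (s - th k) := by
      have := h.smooth.continuous
      fun_prop
    refine ge_of_tendsto ((hc.tendsto t).mono_left (nhdsWithin_le_nhds (s := Ioi t))) ?_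
    filter_upwards [Ioo_mem_nhdsGT (show t < t + 1 by linarith)] with s hs
    refine (h.min k s ?_).le
    have h2 : sin (t - th k) = 0 := by nlinarith [cos_sq_add_sin_sq (t - th k)]
    rw [show s - th k = (s - t) + (t - th k) by ring, cos_add, h1, h2]
    have := cos_lt_one_of (t := s - t) (by linarith [hs.1]) (by linarith [hs.2])
    linarith
  · exact (h.min k t h1).le

theorem Fam.deriv_th (h : Fam φ ε) (k : ℕ) : deriv φ (th k) = 0 := by
  have h1 : IsLocalMin (fun s => φ s - ε k * cos (s - th k)) (th k) :=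
    Eventually.of_forall fun s => by simpa using h.min' k s
  have h2 := ((h.smooth.differentiable (by simp) (th k)).hasDerivAt).sub
    ((((hasDerivAt_id (th k)).sub_const (th k)).cos).const_mul (ε k))
  simpa using h1.hasDerivAt_eq_zero h2

theorem th_abs (k : ℕ) : |th k| ≤ 3 / 4 := by
  rw [abs_of_pos (th_pos k)]; linarith [th_le k]

theorem FF_dir (δ t θ : ℝ) : FF φ (δ * cos t, δ * sin t) θ = 16 + φ θ - δ * cos (θ - t) := by
  rw [FF, cos_sub]; ring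

theorem Model.line_th (M : Model φ g γ) (h : Fam φ ε) (k : ℕ) {r : ℝ} (hr : r ≤ 1) :
    γ (th k) (16 + φ (th k) - r) = (r * cos (th k), r * sin (th k)) := by
  rw [M.line _ (th_abs k) r hr, h.deriv_th]; simp

theorem Model.dist_th (M : Model φ g γ) (h : Fam φ ε) {k : ℕ} (hk : ε k < 1) :
    16 + φ (th k) - ε k ≤ rdist g (10, 0) (γ (th k) (16 + φ (th k) - ε k)) := by
  rw [M.line_th h k hk.le]
  refine M.le_dist (by nlinarith [cos_le_one (th k), h.pos k]) fun θ _ => ?_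
  rw [FF_dir]
  linarith [h.min' k θ]

theorem Model.upper (M : Model φ g γ) (h : Fam φ ε) {δ t : ℝ} (h0 : 0 < δ) (h1 : δ < 1)
    (ht0 : 0 < t) (ht : t ≤ 1 / 4) {θ : ℝ} (hθ : |θ| ≤ 3 / 4) :
    rdist g (10, 0) (δ * cos t, δ * sin t) ≤ 16 + φ θ - δ * cos (θ - t) := by
  have hπ := pi_gt_three
  have hd : ∀ s, HasDerivAt (fun s => φ s - δ * cos (s - t)) (deriv φ s + δ * sin (s - t)) s := by
    intro s
    have h2 := ((h.smooth.differentiable (by simp) s).hasDerivAt).sub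
      ((((hasDerivAt_id s).sub_const t).cos).const_mul δ)
    exact HasDerivAt.congr_deriv h2 (by simp)
  obtain ⟨u, hu, hm⟩ := (isCompact_Icc (a := (-(3 / 4) : ℝ)) (b := 3 / 4)).exists_isMinOn
    ⟨0, by norm_num, by norm_num⟩ fun s _ => (hd s).continuousAt.continuousWithinAt
  have h2 : u ≠ -(3 / 4) := by
    rintro rfl
    have h3 : φ _ - δ * cos _ ≤ φ 0 - δ * cos (0 - t) := hm (a := 0) ⟨by norm_num, by norm_num⟩
    rw [h.zero 0 (by simp; linarith) (Or.inl le_rfl),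
      h.zero _ (by rw [abs_le]; constructor <;> linarith) (Or.inl (by norm_num)),
      ← cos_neg (0 - t), ← cos_neg (_ - t)] at h3
    have h4 := cos_lt_cos_of_nonneg_of_le_pi (x := -(0 - t)) (y := -(-(3 / 4) - t))
      (by linarith) (by linarith) (by linarith)
    nlinarith
  have h3 : u ≠ 3 / 4 := by
    rintro rfl
    have h3 : φ _ - δ * cos _ ≤ φ (1 / 2) - δ * cos (1 / 2 - t) :=
      hm (a := 1 / 2) ⟨by norm_num, by norm_num⟩
    rw [h.zero (1 / 2) (by rw [abs_le]; constructor <;> linarith) (Or.inr le_rfl),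
      h.zero _ (by rw [abs_le]; constructor <;> linarith) (Or.inr (by norm_num))] at h3
    have h4 := cos_lt_cos_of_nonneg_of_le_pi (x := 1 / 2 - t) (y := 3 / 4 - t)
      (by linarith) (by linarith) (by linarith)
    nlinarith
  have h4 := (hm.isLocalMin (Icc_mem_nhds (lt_of_le_of_ne hu.1 h2.symm)
    (lt_of_le_of_ne hu.2 h3))).hasDerivAt_eq_zero (hd u)
  have h5 : δ * cos (u - t) ≤ 1 := by nlinarith [cos_le_one (u - t)]
  have h6 := M.line u (abs_le.2 hu) _ h5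
  have h7 := M.ray_le' (abs_le.2 hu) (b := 16 + φ u - δ * cos (u - t)) (by linarith [h.nonneg u])
  have h8 : φ u - δ * cos (u - t) ≤ φ θ - δ * cos (θ - t) := hm (abs_le.1 hθ)
  have h9 : γ u (16 + φ u - δ * cos (u - t)) = (δ * cos t, δ * sin t) := by
    rw [h6, eq_neg_of_add_eq_zero_left h4, cos_sub, sin_sub]
    congr 1
    · linear_combination (δ * cos t) * cos_sq_add_sin_sq u
    · linear_combination (δ * sin t) * cos_sq_add_sin_sq u
  rw [h9] at h7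
  linarith

theorem Model.cut_th (M : Model φ g γ) (h : Fam φ ε) {k : ℕ} (hk : ε k < 1) :
    IsCut g (10, 0) (-cos (th k), sin (th k)) (γ (th k)) (16 + φ (th k) - ε k) := by
  have h0 := h.pos k
  refine M.isCut (th_abs k) (δ := ε k / 2) (by linarith [h.nonneg (th k)]) (by linarith)
    (M.dist_th h hk) fun s hs hs' => ?_
  obtain ⟨t, ht, h1⟩ := h.deg k s hs
  rw [show 16 + φ (th k) - ε k + s = 16 + φ (th k) - (ε k - s) by ring,
    M.line_th h k (by linarith)]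
  have := M.upper h (δ := ε k - s) (by linarith) (by linarith) (th_pos k) (th_le k) (θ := t)
    (by rw [abs_of_pos ht.1]; linarith [ht.2])
  linarith

theorem Model.not_sep (M : Model φ g γ) (h : Fam φ ε) {k : ℕ} (hk : ε k < 1) :
    γ (th k) (16 + φ (th k) - ε k) ∉ Sep g (10, 0) := by
  have h0 := h.pos k
  have h1 : ∀ {η l}, IsSegment g (10, 0) (γ (th k) (16 + φ (th k) - ε k)) η l →
      EqOn η (γ (th k)) (Icc 0 l) := by
    intro η l
    refine M.seg_unique (th_abs k) hk rfl ?_ (fun θ hθ hne => ?_) (le_antisymm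
      (M.ray_le' (th_abs k) (by linarith [h.nonneg (th k)])) (M.dist_th h hk))
    · rw [M.line_th h k hk.le]
      nlinarith [cos_le_one (th k)]
    · rw [M.line_th h k hk.le, FF_dir]
      have h2 : cos (θ - th k) ≠ 1 := by
        rw [Ne, cos_eq_one_iff_of_lt_of_lt (by linarith [hθ.1, th_le k, pi_gt_three])
          (by linarith [hθ.2, th_pos k, pi_gt_three]), sub_eq_zero]
        exact hne
      linarith [h.min k θ h2]
  rintro ⟨η, η', l, h2, h3, t, ht, h4⟩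
  exact h4 ((h1 h2 ht).trans (h1 h3 ht).symm)

theorem Model.line_neg (M : Model φ g γ) (h : Fam φ ε) {θ : ℝ} (h0 : θ ≤ 0) (hθ : |θ| ≤ 3 / 4)
    {r : ℝ} (hr : r ≤ 1) : γ θ (16 - r) = (r * cos θ, r * sin θ) := by
  have h1 := h.zero θ (by linarith [pi_gt_three]) (Or.inl h0)
  have h2 := M.line θ hθ r hr
  rw [h.deriv_zero h1, h1] at h2
  simpa using h2

theorem Model.dist_zero (M : Model φ g γ) (h : Fam φ ε) : 16 ≤ rdist g (10, 0) 0 :=
  M.le_dist (by simp) fun θ _ => by simpa [FF] using h.nonneg θ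

theorem Model.centre (M : Model φ g γ) (h : Fam φ ε) {θ : ℝ} (h0 : θ ≤ 0) (hθ : |θ| ≤ 3 / 4) :
    γ θ 16 = 0 := by
  simpa [Prod.ext_iff] using M.line_neg h h0 hθ (r := 0) zero_le_one

theorem half_abs : |(-(1 / 2) : ℝ)| ≤ 3 / 4 := by rw [abs_neg, abs_of_pos] <;> norm_num

theorem Model.sep_zero (M : Model φ g γ) (h : Fam φ ε) : (0 : ℝ × ℝ) ∈ Sep g (10, 0) := by
  have h1 := M.centre h le_rfl (by norm_num)
  have h2 := M.centre h (by norm_num) half_abs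
  have h3 := M.segment (θ := 0) (by norm_num) (l := 16) (by norm_num) (h1 ▸ M.dist_zero h)
  have h4 := M.segment half_abs (l := 16) (by norm_num) (h2 ▸ M.dist_zero h)
  rw [h1] at h3
  rw [h2] at h4
  refine ⟨_, _, 16, h3, h4, 16 - 1, ⟨by norm_num, by norm_num⟩, fun h5 => ?_⟩
  rw [M.line_neg h le_rfl (by norm_num) le_rfl, M.line_neg h (by norm_num) half_abs le_rfl] at h5
  have h6 := congrArg Prod.fst h5
  have := cos_lt_one_of (t := 1 / 2) (by norm_num) (by norm_num)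
  simp only [cos_zero, cos_neg] at h6
  linarith

theorem Model.dist_flat (M : Model φ g γ) {x y : ℝ × ℝ} (hx : x.1 ≤ 2) (hy : y.1 ≤ 2) :
    rdist g x y ≤ √(gE (y - x) (y - x)) := by
  have h1 := rdist_le_len (g := g) (γ := fun t : ℝ => x + t • (y - x)) (by fun_prop) zero_le_one
  have h2 : ∀ t, deriv (fun t : ℝ => x + t • (y - x)) t = y - x := fun t => by
    simpa using (((hasDerivAt_id t).smul_const (y - x)).const_add x).deriv
  rw [len_of_speed zero_le_one (sqrt_nonneg (gE (y - x) (y - x))) (by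
    intro t ht
    rw [h2, sq_sqrt (gE_nonneg _), M.flat]
    simp only [Prod.fst_add, Prod.smul_fst, Prod.fst_sub, smul_eq_mul]
    nlinarith [ht.1, ht.2])] at h1
  simpa using h1

theorem Model.cut_zero (M : Model φ g γ) (h : Fam φ ε) :
    IsCut g (10, 0) (-cos 0, sin 0) (γ 0) 16 := by
  refine M.isCut (by norm_num) (δ := 1) (by norm_num) one_pos
    (M.centre h le_rfl (by norm_num) ▸ M.dist_zero h) fun s hs _ => ?_
  have h1 := M.line_neg h le_rfl (by norm_num) (r := -s) (by linarith)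
  have h2 := M.ray_le' half_abs (b := 16 - 1) (by norm_num)
  rw [M.line_neg h (by norm_num) half_abs le_rfl] at h2
  rw [← sub_neg_eq_add, h1]
  have h3 := cos_lt_one_of (t := 1 / 2) (by norm_num) (by norm_num)
  have h4 := M.dist_flat (x := (1 * cos (-(1 / 2)), 1 * sin (-(1 / 2))))
    (y := (-s * cos 0, -s * sin 0)) (by simp only [cos_neg]; linarith) (by simp; linarith)
  have h5 := rdist_triangle M.metric (10, 0) (1 * cos (-(1 / 2)), 1 * sin (-(1 / 2)))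
    (-s * cos 0, -s * sin 0)
  have h6 := h4.trans_lt ((sqrt_lt' (show 0 < 1 + s by linarith)).2 (by
    rw [gE_apply]
    simp only [Prod.fst_sub, Prod.snd_sub, cos_zero, sin_zero, cos_neg, sin_neg]
    nlinarith [cos_sq_add_sin_sq (1 / 2 : ℝ)]))
  linarith

theorem IsCut.unique (hg : IsMetric g) {p v v' : ℝ × ℝ} {σ σ' : ℝ → ℝ × ℝ} {ρ ρ' : ℝ}
    (h : IsCut g p v σ ρ) (h' : IsCut g p v' σ' ρ') (h0 : 0 < ρ) (he : ρ • v = ρ' • v') :
    σ ρ = σ' ρ' := by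
  have h1 : 0 ≤ ρ' := h'.2.2.2.2.1 ⟨le_rfl, by rw [h'.2.2.1, rdist_self]⟩
  have h2 : g p (ρ • v) (ρ • v) = g p (ρ' • v') (ρ' • v') := by rw [he]
  simp only [map_smul, smul_apply, smul_eq_mul, h.1, h'.1, mul_one] at h2
  have h3 : ρ = ρ' := by nlinarith
  subst h3
  exact geod_unique hg h.2.1 h'.2.1 (h.2.2.1.trans h'.2.2.1.symm)
    (by rw [h.2.2.2.1, h'.2.2.2.1, smul_right_injective _ h0.ne' he]) h0.le

theorem main : ∃ (g : ℝ × ℝ → ℝ × ℝ →L[ℝ] ℝ × ℝ →L[ℝ] ℝ) (p : ℝ × ℝ), IsMetric g ∧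
    (∃ c, 0 < c ∧ ∀ z v, c * ‖v‖ ^ 2 ≤ g z v v) ∧
    (∃ u ∈ TSep g p, u ∈ closure (TCut g p \ TSep g p)) ∧
    ∃ x ∈ Sep g p ∩ Cut g p, x ∈ closure (Cut g p \ Sep g p) := by
  obtain ⟨φ, ε, h, hb⟩ := exists_fam_small
  obtain ⟨g, γ, M⟩ := exists_model ⟨h.smooth, h.nonneg, hb⟩
  have h0 := M.centre h le_rfl (by norm_num)
  have hε : ∀ᶠ k in atTop, ε k < 1 := h.lim.eventually (gt_mem_nhds one_pos)
  have hc := (continuous_cos.tendsto 0).comp th_lim
  have hs := (continuous_sin.tendsto 0).comp th_lim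
  refine ⟨g, (10, 0), M.metric, M.lower, ⟨(16 : ℝ) • (-cos 0, sin 0),
    ⟨_, _, _, M.cut_zero h, rfl, h0 ▸ M.sep_zero h⟩, ?_⟩,
    0, ⟨M.sep_zero h, _, _, _, M.cut_zero h, h0.symm⟩, ?_⟩
  · have h1 := (((h.smooth.continuous.tendsto 0).comp th_lim).const_add 16).sub h.lim
    rw [h.zero 0 (by simp [pi_pos.le]) (Or.inl le_rfl), add_zero, sub_zero] at h1
    refine mem_closure_of_tendsto (h1.smul (hc.neg.prodMk_nhds hs)) ?_
    filter_upwards [hε] with k hk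
    refine ⟨⟨_, _, _, M.cut_th h hk, rfl⟩, ?_⟩
    rintro ⟨v, σ, ρ, h2, h3, h4⟩
    refine M.not_sep h hk ?_
    rwa [(M.cut_th h hk).unique M.metric h2 (by linarith [h.nonneg (th k)]) h3]
  · have h1 := (h.lim.mul hc).prodMk_nhds (h.lim.mul hs)
    rw [zero_mul, zero_mul] at h1
    refine mem_closure_of_tendsto h1 ?_
    filter_upwards [hε] with k hk
    have h2 := M.line_th h k hk.le
    exact ⟨⟨_, _, _, M.cut_th h hk, h2.symm⟩, fun h3 => M.not_sep h hk (h2 ▸ h3)⟩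

end Pool.Agent.H253Z.Bi
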