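import Mathlib

set_option autoImplicit false

open scoped RealInnerProductSpace Topology ComplexConjugate
open Set Metric

namespace Pool.Agent.H253Z.Gu

/-- an orthogonal complex structure -/
structure CS (W : Type) [NormedAddCommGroup W] [InnerProductSpace ℝ W] where
  J : W →L[ℝ] W
  JJ : ∀ x, J (J x) = -x
  inner_J : ∀ x y, ⟪J x, J y⟫ = ⟪x, y⟫

variable {W : Type} [NormedAddCommGroup W] [InnerProductSpace ℝ W]

namespace CS

variable (c : CS W)

theorem inner_J_left (x y : W) : ⟪c.J x, y⟫ = -⟪x, c.J y⟫ := by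
  rw [← c.inner_J x (c.J y), c.JJ, inner_neg_right, neg_neg]

theorem inner_J_self (x : W) : ⟪c.J x, x⟫ = 0 := by
  have h := c.inner_J_left x x
  rw [real_inner_comm (c.J x) x] at h
  linarith

/-- complex scalar multiplication -/
noncomputable def sm (ζ : ℂ) : W →L[ℝ] W := ζ.re • ContinuousLinearMap.id ℝ W + ζ.im • c.J

theorem sm_apply (ζ : ℂ) (x : W) : c.sm ζ x = ζ.re • x + ζ.im • c.J x := by
  simp [sm]

theorem sm_one (x : W) : c.sm 1 x = x := by simp [sm_apply]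

theorem sm_sm (ζ ξ : ℂ) (x : W) : c.sm ζ (c.sm ξ x) = c.sm (ζ * ξ) x := by
  simp only [sm_apply, map_add, map_smul, c.JJ, Complex.mul_re, Complex.mul_im]
  module

theorem sm_sub (ζ ξ : ℂ) (x : W) : c.sm ζ x - c.sm ξ x = c.sm (ζ - ξ) x := by
  simp only [sm_apply, Complex.sub_re, Complex.sub_im]
  module

/-- the hermitian product -/
noncomputable def hh (x y : W) : ℂ := ⟨⟪x, y⟫, ⟪c.J x, y⟫⟩

@[simp] theorem hh_re (x y : W) : (c.hh x y).re = ⟪x, y⟫ := rfl

@[simp] theorem hh_im (x y : W) : (c.hh x y).im = ⟪c.J x, y⟫ := rfl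

theorem hh_sm_right (ζ : ℂ) (x y : W) : c.hh x (c.sm ζ y) = ζ * c.hh x y := by
  apply Complex.ext
  · simp only [hh_re, hh_im, sm_apply, inner_add_right, inner_smul_right, Complex.mul_re]
    rw [c.inner_J_left]; ring
  · simp only [hh_re, hh_im, sm_apply, inner_add_right, inner_smul_right, Complex.mul_im,
      c.inner_J]

theorem hh_symm (x y : W) : c.hh y x = conj (c.hh x y) := by
  apply Complex.ext
  · simp [real_inner_comm]
  · simp only [hh_im, Complex.conj_im]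
    rw [c.inner_J_left, real_inner_comm]

theorem hh_sm_left (ζ : ℂ) (x y : W) : c.hh (c.sm ζ x) y = conj ζ * c.hh x y := by
  rw [c.hh_symm, c.hh_sm_right, map_mul, ← c.hh_symm]

theorem hh_self (x : W) : c.hh x x = ((‖x‖ ^ 2 : ℝ) : ℂ) := by
  apply Complex.ext
  · rw [hh_re, Complex.ofReal_re, real_inner_self_eq_norm_sq]
  · rw [hh_im, Complex.ofReal_im, c.inner_J_self]

theorem inner_sm_sm (ζ : ℂ) (x y : W) : ⟪c.sm ζ x, c.sm ζ y⟫ = ‖ζ‖ ^ 2 * ⟪x, y⟫ := by
  rw [← hh_re c, hh_sm_left, hh_sm_right, ← mul_assoc, Complex.conj_mul', ← hh_re c]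
  have : ((‖ζ‖ : ℂ) ^ 2) = ((‖ζ‖ ^ 2 : ℝ) : ℂ) := by push_cast; ring
  rw [this, Complex.re_ofReal_mul]

theorem norm_sm (ζ : ℂ) (x : W) : ‖c.sm ζ x‖ = ‖ζ‖ * ‖x‖ := by
  have h := c.inner_sm_sm ζ x x
  rw [real_inner_self_eq_norm_sq, real_inner_self_eq_norm_sq, ← mul_pow] at h
  exact (pow_left_inj₀ (norm_nonneg _) (by positivity) two_ne_zero).1 h

theorem norm_hh_le (x y : W) : ‖c.hh x y‖ ≤ ‖x‖ * ‖y‖ := by
  have h1 : ⟪x, c.sm (conj (c.hh x y)) y⟫ = ‖c.hh x y‖ ^ 2 := by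
    rw [← hh_re c, hh_sm_right, Complex.conj_mul']
    have : ((‖c.hh x y‖ : ℂ) ^ 2) = ((‖c.hh x y‖ ^ 2 : ℝ) : ℂ) := by push_cast; ring
    rw [this, Complex.ofReal_re]
  have h2 := real_inner_le_norm x (c.sm (conj (c.hh x y)) y)
  rw [h1, norm_sm, Complex.norm_conj] at h2
  rcases (norm_nonneg (c.hh x y)).eq_or_lt with h | h
  · rw [← h]; positivity
  · nlinarith

theorem continuous_hh : Continuous (fun q : W × W => c.hh q.1 q.2) := by
  have : (fun q : W × W => c.hh q.1 q.2) =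
      fun q => ((⟪q.1, q.2⟫ : ℝ) : ℂ) + ((⟪c.J q.1, q.2⟫ : ℝ) : ℂ) * Complex.I := by
    funext q
    apply Complex.ext <;> simp
  rw [this]
  have hJ := c.J.continuous
  fun_prop

theorem eq_sm_of_hh {x y : W} (hx : ‖x‖ = 1) (hy : ‖y‖ = 1) (h : ‖c.hh x y‖ = 1) :
    y = c.sm (c.hh x y) x := by
  have h1 : ⟪c.sm (c.hh x y) x, y⟫ = 1 := by
    rw [← hh_re c, hh_sm_left, Complex.conj_mul', h]; simp
  have h2 : ‖c.sm (c.hh x y) x‖ = 1 := by rw [norm_sm, h, hx, one_mul]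
  exact ((inner_eq_one_iff_of_norm_eq_one (𝕜 := ℝ) h2 hy).1 h1).symm

end CS

theorem norm_of_pow {p : ℕ} [NeZero p] {ζ : ℂ} (h : ζ ^ p = 1) : ‖ζ‖ = 1 :=
  Complex.norm_eq_one_of_pow_eq_one h (NeZero.ne p)

theorem conj_pow_eq {p : ℕ} {ζ : ℂ} (h : ζ ^ p = 1) : (conj ζ) ^ p = 1 := by
  rw [← map_pow, h, map_one]

theorem conj_mul_self_eq {p : ℕ} [NeZero p] {ζ : ℂ} (h : ζ ^ p = 1) : conj ζ * ζ = 1 := by
  rw [Complex.conj_mul', norm_of_pow h]; simp

/-- the `p`-th roots of unity -/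
noncomputable def roots (p : ℕ) : Finset ℂ := Polynomial.nthRootsFinset p 1

theorem mem_roots {p : ℕ} [NeZero p] {ζ : ℂ} : ζ ∈ roots p ↔ ζ ^ p = 1 :=
  Polynomial.mem_nthRootsFinset (Nat.pos_of_ne_zero (NeZero.ne p)) 1

theorem card_roots (p : ℕ) [NeZero p] : (roots p).card = p :=
  (Complex.isPrimitiveRoot_exp p (NeZero.ne p)).card_nthRootsFinset

theorem exists_rho (p : ℕ) [NeZero p] :
    ∃ ρ : ℝ, 0 < ρ ∧ ρ ≤ 1 ∧ ∀ ζ : ℂ, ζ ^ p = 1 → ζ ≠ 1 → 2 * ρ ≤ ‖ζ - 1‖ := by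
  classical
  have hfin : ((roots p).erase 1 : Set ℂ).Finite := Finset.finite_toSet _
  have h1 : (1 : ℂ) ∉ ((roots p).erase 1 : Set ℂ) := by simp
  obtain ⟨r, hr, hb⟩ := Metric.isOpen_iff.1 hfin.isClosed.isOpen_compl 1 h1
  refine ⟨min (r / 2) 1, by positivity, min_le_right _ _, fun ζ hζ hne => ?_⟩
  by_contra hlt
  have h2 : ζ ∈ ball (1 : ℂ) r := by
    rw [mem_ball, dist_eq_norm]
    have := min_le_left (r / 2) 1
    linarith
  exact hb h2 (by simp [hne, mem_roots, hζ])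

/-- radius of injectivity of the charts -/
noncomputable def rho (p : ℕ) [NeZero p] : ℝ := (exists_rho p).choose

theorem rho_pos (p : ℕ) [NeZero p] : 0 < rho p := (exists_rho p).choose_spec.1
theorem rho_le (p : ℕ) [NeZero p] : rho p ≤ 1 := (exists_rho p).choose_spec.2.1
theorem rho_sep {p : ℕ} [NeZero p] {ζ : ℂ} (h : ζ ^ p = 1) (h1 : ζ ≠ 1) :
    2 * rho p ≤ ‖ζ - 1‖ := (exists_rho p).choose_spec.2.2 ζ h h1

/-- the orbit relation on the unit sphere -/
def lensSetoid (c : CS W) (p : ℕ) [NeZero p] : Setoid (sphere (0 : W) 1) where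
  r x y := ∃ ζ : ℂ, ζ ^ p = 1 ∧ (y : W) = c.sm ζ x
  iseqv := by
    constructor
    · intro x
      exact ⟨1, one_pow _, (c.sm_one _).symm⟩
    · rintro x y ⟨ζ, hζ, h⟩
      refine ⟨conj ζ, conj_pow_eq hζ, ?_⟩
      rw [h, c.sm_sm, conj_mul_self_eq hζ, c.sm_one]
    · rintro x y z ⟨ζ, hζ, h⟩ ⟨ξ, hξ, k⟩
      refine ⟨ξ * ζ, by rw [mul_pow, hζ, hξ, one_mul], ?_⟩
      rw [k, h, c.sm_sm]

/-- the lens space -/
def Lens (c : CS W) (p : ℕ) [NeZero p] : Type := Quotient (lensSetoid c p)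

variable (c : CS W) (p : ℕ) [NeZero p]

instance : TopologicalSpace (Lens c p) :=
  inferInstanceAs (TopologicalSpace (Quotient (lensSetoid c p)))

/-- the projection -/
def pr (x : sphere (0 : W) 1) : Lens c p := Quotient.mk (lensSetoid c p) x

theorem pr_eq_iff {x y : sphere (0 : W) 1} :
    pr c p x = pr c p y ↔ ∃ ζ : ℂ, ζ ^ p = 1 ∧ (y : W) = c.sm ζ x :=
  Quotient.eq (r := lensSetoid c p)

theorem pr_surj : Function.Surjective (pr c p) := Quotient.mk_surjective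

theorem isQuotientMap_pr : Topology.IsQuotientMap (pr c p) := isQuotientMap_quotient_mk'

theorem continuous_pr : Continuous (pr c p) := (isQuotientMap_pr c p).continuous

theorem norm_coe (x : sphere (0 : W) 1) : ‖(x : W)‖ = 1 := norm_eq_of_mem_sphere x

variable {p} in
/-- the action of a root of unity on the sphere -/
noncomputable def act {ζ : ℂ} (h : ζ ^ p = 1) (x : sphere (0 : W) 1) : sphere (0 : W) 1 :=
  ⟨c.sm ζ x, by rw [mem_sphere_zero_iff_norm, c.norm_sm, norm_of_pow h, norm_coe, one_mul]⟩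

variable {p} in
theorem pr_act {ζ : ℂ} (h : ζ ^ p = 1) (x : sphere (0 : W) 1) :
    pr c p (act c h x) = pr c p x := ((pr_eq_iff c p).2 ⟨ζ, h, rfl⟩).symm

variable {p} in
theorem continuous_act {ζ : ℂ} (h : ζ ^ p = 1) : Continuous (act c h) :=
  ((c.sm ζ).continuous.comp continuous_subtype_val).subtype_mk _

theorem isOpenMap_pr : IsOpenMap (pr c p) := by
  intro U hU
  rw [← (isQuotientMap_pr c p).isOpen_preimage]
  have : pr c p ⁻¹' (pr c p '' U) = ⋃ (ζ : ℂ) (h : ζ ^ p = 1), act c h ⁻¹' U := by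
    ext x
    simp only [mem_preimage, mem_image, mem_iUnion]
    constructor
    · rintro ⟨y, hy, h⟩
      obtain ⟨ζ, hζ, h⟩ := (pr_eq_iff c p).1 h.symm
      refine ⟨ζ, hζ, ?_⟩
      have : act c hζ x = y := Subtype.ext h.symm
      rwa [this]
    · rintro ⟨ζ, hζ, h⟩
      exact ⟨_, h, pr_act c hζ x⟩
  rw [this]
  exact isOpen_iUnion fun ζ => isOpen_iUnion fun h => hU.preimage (continuous_act c h)

theorem pr_eq_iff_hh {x y : sphere (0 : W) 1} :
    pr c p x = pr c p y ↔ (c.hh x y) ^ p = 1 := by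
  rw [pr_eq_iff]
  constructor
  · rintro ⟨ζ, hζ, h⟩
    rw [h, c.hh_sm_right, c.hh_self, norm_coe]
    simpa using hζ
  · intro h
    exact ⟨_, h, c.eq_sm_of_hh (norm_coe x) (norm_coe y) (norm_of_pow h)⟩

instance : T2Space (Lens c p) := by
  rw [t2Space_iff_of_isOpenQuotientMap
    ⟨pr_surj c p, continuous_pr c p, isOpenMap_pr c p⟩]
  simp only [pr_eq_iff_hh]
  apply isClosed_eq _ continuous_const
  exact (c.continuous_hh.comp ((continuous_subtype_val.comp continuous_fst).prodMk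
    (continuous_subtype_val.comp continuous_snd))).pow p

instance [FiniteDimensional ℝ W] : CompactSpace (Lens c p) :=
  haveI : ProperSpace W := FiniteDimensional.proper ℝ W
  (pr_surj c p).compactSpace (continuous_pr c p)

theorem connectedSpace_lens (h : 1 < Module.rank ℝ W) : ConnectedSpace (Lens c p) :=
  haveI : ConnectedSpace (sphere (0 : W) 1) :=
    isConnected_iff_connectedSpace.1 (isConnected_sphere h 0 zero_le_one)
  (pr_surj c p).connectedSpace (continuous_pr c p)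

end Pool.Agent.H253Z.Gu
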