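import Mathlib
import Pool.Agent.H253Z.GuA

set_option autoImplicit false
set_option linter.unusedSectionVars false

open scoped RealInnerProductSpace Topology ComplexConjugate Manifold ContDiff
open Set Metric Filter

namespace Pool.Agent.H253Z.Gu

/-- the ambient space -/
abbrev WW (E : Type) : Type := WithLp 2 (ℝ × E)

variable {E : Type} [NormedAddCommGroup E] [InnerProductSpace ℝ E]

/-- the base point -/
noncomputable def e0 : WW E := WithLp.toLp 2 (1, 0)

/-- the inclusion of the hyperplane -/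
noncomputable def inc : E →L[ℝ] WW E :=
  (WithLp.prodContinuousLinearEquiv 2 ℝ ℝ E).symm.toContinuousLinearMap ∘L
    ContinuousLinearMap.inr ℝ ℝ E

theorem inc_apply (y : E) : inc y = WithLp.toLp 2 ((0 : ℝ), y) := rfl

theorem inner_WW (v w : WW E) : ⟪v, w⟫ = v.fst * w.fst + ⟪v.snd, w.snd⟫ := by
  rw [WithLp.prod_inner_apply]
  simp [mul_comm]

@[simp] theorem e0_fst : (e0 : WW E).fst = 1 := rfl
@[simp] theorem e0_snd : (e0 : WW E).snd = 0 := rfl
@[simp] theorem inc_fst (y : E) : (inc y).fst = 0 := rfl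
@[simp] theorem inc_snd (y : E) : (inc y).snd = y := rfl

theorem WW_ext {v w : WW E} (h1 : v.fst = w.fst) (h2 : v.snd = w.snd) : v = w := by
  apply WithLp.ofLp_injective
  exact Prod.ext h1 h2

theorem norm_e0 : ‖(e0 : WW E)‖ = 1 := by
  have h := WithLp.prod_norm_sq_eq_of_L2 (e0 : WW E)
  simp only [e0_fst, e0_snd, norm_one, norm_zero] at h
  have h2 := norm_nonneg (e0 : WW E)
  nlinarith

theorem inner_e0 (w : WW E) : ⟪(e0 : WW E), w⟫ = w.fst := by simp

/-- `1 + |y|^2` -/
noncomputable def NN (y : E) : ℝ := 1 + ‖y‖ ^ 2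

theorem NN_pos (y : E) : 0 < NN y := by unfold NN; positivity

theorem contDiff_NN {k : WithTop ℕ∞} : ContDiff ℝ k (NN : E → ℝ) :=
  contDiff_const.add (contDiff_norm_sq ℝ)

/-- the gnomonic parametrization -/
noncomputable def PP (y : E) : WW E := (√(NN y))⁻¹ • (e0 + inc y)

/-- the gnomonic projection -/
noncomputable def QQ (w : WW E) : E := (w.fst)⁻¹ • w.snd

theorem PP_fst (y : E) : (PP y).fst = (√(NN y))⁻¹ := by simp [PP]

theorem PP_snd (y : E) : (PP y).snd = (√(NN y))⁻¹ • y := by simp [PP]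

theorem sqrt_NN_pos (y : E) : 0 < √(NN y) := Real.sqrt_pos.2 (NN_pos y)

theorem PP_fst_pos (y : E) : 0 < (PP y).fst := by
  rw [PP_fst]; exact inv_pos.2 (sqrt_NN_pos y)

theorem QQ_PP (y : E) : QQ (PP y) = y := by
  rw [QQ, PP_fst, PP_snd, smul_smul, inv_inv, mul_inv_cancel₀ (sqrt_NN_pos y).ne', one_smul]

theorem PP_zero : PP (0 : E) = e0 := by simp [PP, NN]

theorem norm_PP (y : E) : ‖PP y‖ = 1 := by
  have h := WithLp.prod_norm_sq_eq_of_L2 (PP y)
  rw [PP_fst, PP_snd, norm_smul, Real.norm_eq_abs, mul_pow, sq_abs, inv_pow,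
    Real.sq_sqrt (NN_pos y).le] at h
  have h1 : (NN y)⁻¹ + (NN y)⁻¹ * ‖y‖ ^ 2 = 1 := by
    have := NN_pos y
    field_simp
    rfl
  rw [h1] at h
  have h2 := norm_nonneg (PP y)
  nlinarith

theorem PP_QQ {w : WW E} (h : ‖w‖ = 1) (h0 : 0 < w.fst) : PP (QQ w) = w := by
  have h1 := WithLp.prod_norm_sq_eq_of_L2 w
  rw [h, Real.norm_eq_abs, sq_abs] at h1
  have h2 : NN (QQ w) = (w.fst⁻¹) ^ 2 := by
    rw [NN, QQ, norm_smul, Real.norm_eq_abs, mul_pow, sq_abs]
    field_simp
    linarith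
  have h3 : (√(NN (QQ w)))⁻¹ = w.fst := by
    rw [h2, Real.sqrt_sq (by positivity), inv_inv]
  apply WW_ext
  · rw [PP_fst, h3]
  · rw [PP_snd, h3, QQ, smul_smul, mul_inv_cancel₀ h0.ne', one_smul]

theorem contDiff_PP {k : WithTop ℕ∞} : ContDiff ℝ k (PP : E → WW E) := by
  unfold PP
  refine ContDiff.smul (ContDiff.inv (contDiff_NN.sqrt fun y => (NN_pos y).ne')
    fun y => (sqrt_NN_pos y).ne') (contDiff_const.add (inc : E →L[ℝ] WW E).contDiff)

theorem continuous_PP : Continuous (PP : E → WW E) := (contDiff_PP (k := 0)).continuous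

theorem contDiffAt_QQ {k : WithTop ℕ∞} {w : WW E} (h : w.fst ≠ 0) : ContDiffAt ℝ k QQ w := by
  unfold QQ
  exact ContDiffAt.smul (ContDiffAt.inv (WithLp.fstL 2 ℝ ℝ E).contDiff.contDiffAt h)
    (WithLp.sndL 2 ℝ ℝ E).contDiff.contDiffAt

theorem fst_pos_of_near {w : WW E} (h : ‖w - e0‖ < 1) : 0 < w.fst := by
  have h1 := abs_real_inner_le_norm (e0 : WW E) (w - e0)
  rw [inner_e0, norm_e0, one_mul] at h1
  have h2 : (w - e0).fst = w.fst - 1 := by simp
  rw [h2] at h1
  have := neg_abs_le (w.fst - 1)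
  linarith

theorem exists_fr (u : sphere (0 : WW E) 1) :
    ∃ A : WW E ≃ₗᵢ[ℝ] WW E, A e0 = u :=
  ⟨_, Submodule.reflection_sub (by rw [norm_e0, norm_coe])⟩

/-- a frame at the point `u` -/
noncomputable def fr (u : sphere (0 : WW E) 1) : WW E ≃ₗᵢ[ℝ] WW E := (exists_fr u).choose

theorem fr_e0 (u : sphere (0 : WW E) 1) : fr u e0 = u := (exists_fr u).choose_spec

/-- the parametrization of the hemisphere centred at `u` -/
noncomputable def hemi (u : sphere (0 : WW E) 1) (y : E) : sphere (0 : WW E) 1 :=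
  ⟨fr u (PP y), by rw [mem_sphere_zero_iff_norm, LinearIsometryEquiv.norm_map, norm_PP]⟩

theorem hemi_coe (u : sphere (0 : WW E) 1) (y : E) : (hemi u y : WW E) = fr u (PP y) := rfl

theorem hemi_zero (u : sphere (0 : WW E) 1) : hemi u (0 : E) = u :=
  Subtype.ext (by rw [hemi_coe, PP_zero, fr_e0])

theorem continuous_hemi (u : sphere (0 : WW E) 1) : Continuous (hemi u) :=
  ((fr u).continuous.comp continuous_PP).subtype_mk _

theorem norm_hemi_sub (u : sphere (0 : WW E) 1) (y : E) :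
    ‖(hemi u y : WW E) - u‖ = ‖PP y - e0‖ := by
  rw [hemi_coe, ← (fr u).norm_map (PP y - e0), map_sub, fr_e0]

theorem hemi_QQ (u w : sphere (0 : WW E) 1) (h : 0 < ((fr u).symm w).fst) :
    hemi u (QQ ((fr u).symm w)) = w :=
  Subtype.ext (by
    rw [hemi_coe, PP_QQ (by rw [LinearIsometryEquiv.norm_map, norm_coe]) h,
      LinearIsometryEquiv.apply_symm_apply])

theorem isOpenMap_hemi (u : sphere (0 : WW E) 1) : IsOpenMap (hemi u) := by
  intro U hU
  have hc : Continuous (fun w : sphere (0 : WW E) 1 => (fr u).symm w) :=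
    (fr u).symm.continuous.comp continuous_subtype_val
  have hf : Continuous (fun w : sphere (0 : WW E) 1 => ((fr u).symm w).fst) :=
    (WithLp.fstL 2 ℝ ℝ E).continuous.comp hc
  have : hemi u '' U = {w : sphere (0 : WW E) 1 | 0 < ((fr u).symm w).fst} ∩
      (fun w : sphere (0 : WW E) 1 => QQ ((fr u).symm w)) ⁻¹' U := by
    ext w
    constructor
    · rintro ⟨y, hy, rfl⟩
      simp only [mem_inter_iff, mem_ofPred_eq, mem_preimage, hemi_coe,
        LinearIsometryEquiv.symm_apply_apply, QQ_PP]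
      exact ⟨PP_fst_pos y, hy⟩
    · rintro ⟨h1, h2⟩
      exact ⟨_, h2, hemi_QQ u w h1⟩
  rw [this]
  refine ContinuousOn.isOpen_inter_preimage ?_ (isOpen_lt continuous_const hf) hU
  intro w hw
  exact ((contDiffAt_QQ (k := 0) (ne_of_gt hw)).continuousAt.comp
    (f := fun w : sphere (0 : WW E) 1 => (fr u).symm w) hc.continuousAt).continuousWithinAt

variable (c : CS (WW E)) (p : ℕ) [NeZero p]

/-- the inverse chart -/
noncomputable def psi (u : sphere (0 : WW E) 1) (y : E) : Lens c p := pr c p (hemi u y)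

/-- the target of the charts -/
def TT (E : Type) [NormedAddCommGroup E] [InnerProductSpace ℝ E] (p : ℕ) [NeZero p] : Set E :=
  {y | ‖PP y - e0‖ < rho p}

theorem isOpen_TT : IsOpen (TT E p) :=
  isOpen_lt ((continuous_PP.sub continuous_const).norm) continuous_const

theorem zero_mem_TT : (0 : E) ∈ TT E p := by
  simp [TT, PP_zero, rho_pos]

variable {p} in
theorem eq_one_of_near {W : Type} [NormedAddCommGroup W] [InnerProductSpace ℝ W] (c : CS W)
    {ζ : ℂ} (hζ : ζ ^ p = 1) {w u : W} (hw : ‖w‖ = 1)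
    (h1 : ‖w - u‖ < rho p) (h2 : ‖c.sm ζ w - u‖ < rho p) : ζ = 1 := by
  by_contra hne
  have h3 := rho_sep hζ hne
  have h4 : ‖c.sm ζ w - w‖ = ‖ζ - 1‖ := by
    conv_lhs => rw [← c.sm_one w, c.sm_sm, mul_one, c.sm_sub]
    rw [c.norm_sm, hw, mul_one]
  have h5 : ‖c.sm ζ w - w‖ ≤ ‖c.sm ζ w - u‖ + ‖w - u‖ := by
    rw [norm_sub_rev w u]
    exact norm_sub_le_norm_sub_add_norm_sub _ _ _
  linarith

theorem injOn_psi (u : sphere (0 : WW E) 1) : InjOn (psi c p u) (TT E p) := by
  intro y hy y' hy' h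
  obtain ⟨ζ, hζ, h⟩ := (pr_eq_iff c p).1 h
  have h1 : ζ = 1 := by
    refine eq_one_of_near c hζ (norm_coe (hemi u y)) (u := u) ?_ ?_
    · rw [norm_hemi_sub]; exact hy
    · rw [← h, norm_hemi_sub]; exact hy'
  rw [h1, c.sm_one, hemi_coe, hemi_coe] at h
  have h2 := (fr u).injective h
  rw [← QQ_PP y, ← QQ_PP y', h2]

theorem continuous_psi (u : sphere (0 : WW E) 1) : Continuous (psi c p u) :=
  (continuous_pr c p).comp (continuous_hemi u)

/-- the chart centred at the image of `u` -/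
noncomputable def chart (u : sphere (0 : WW E) 1) : OpenPartialHomeomorph (Lens c p) E :=
  (OpenPartialHomeomorph.ofContinuousOpen ((injOn_psi c p u).toPartialEquiv _ _)
    (continuous_psi c p u).continuousOn
    ((isOpenMap_pr c p).comp (isOpenMap_hemi u)) (isOpen_TT p)).symm

theorem chart_symm (u : sphere (0 : WW E) 1) : ⇑(chart c p u).symm = psi c p u := rfl

theorem chart_target (u : sphere (0 : WW E) 1) : (chart c p u).target = TT E p := rfl

theorem chart_source (u : sphere (0 : WW E) 1) :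
    (chart c p u).source = psi c p u '' TT E p := rfl

theorem chart_psi (u : sphere (0 : WW E) 1) {y : E} (hy : y ∈ TT E p) :
    chart c p u (psi c p u y) = y := (chart c p u).right_inv hy

variable {p} in
theorem near_aux (u w : sphere (0 : WW E) 1) {ζ : ℂ} (hζ : ζ ^ p = 1)
    (h : ‖c.sm ζ w - u‖ < rho p) :
    0 < ((fr u).symm (c.sm ζ w)).fst ∧ QQ ((fr u).symm (c.sm ζ w)) ∈ TT E p ∧
      psi c p u (QQ ((fr u).symm (c.sm ζ w))) = pr c p w := by
  have h0 : ‖(fr u).symm (c.sm ζ w) - e0‖ < rho p := by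
    rw [← (fr u).norm_map, map_sub, fr_e0, LinearIsometryEquiv.apply_symm_apply]
    exact h
  have h1 : 0 < ((fr u).symm (c.sm ζ w)).fst := fst_pos_of_near (h0.trans_le (rho_le p))
  have h2 := hemi_QQ u (act c hζ w) h1
  refine ⟨h1, ?_, ?_⟩
  · change ‖PP _ - e0‖ < rho p
    rw [← norm_hemi_sub u]
    exact (congrArg (fun z : sphere (0 : WW E) 1 => ‖(z : WW E) - u‖) h2).trans_lt h
  · rw [psi, ← pr_act c hζ w]
    exact congrArg _ h2

variable {p} in
theorem chart_pr (u w : sphere (0 : WW E) 1) {ζ : ℂ} (hζ : ζ ^ p = 1)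
    (h : ‖c.sm ζ w - u‖ < rho p) :
    chart c p u (pr c p w) = QQ ((fr u).symm (c.sm ζ w)) := by
  obtain ⟨-, h2, h3⟩ := near_aux c u w hζ h
  rw [← h3, chart_psi c p u h2]

theorem pr_mem_source (u w : sphere (0 : WW E) 1) :
    pr c p w ∈ (chart c p u).source ↔ ∃ ζ : ℂ, ζ ^ p = 1 ∧ ‖c.sm ζ w - u‖ < rho p := by
  rw [chart_source]
  constructor
  · rintro ⟨y, hy, h⟩
    obtain ⟨ζ, hζ, h⟩ := (pr_eq_iff c p).1 h.symm
    refine ⟨ζ, hζ, ?_⟩
    rw [← h, norm_hemi_sub]; exact hy
  · rintro ⟨ζ, hζ, h⟩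
    obtain ⟨-, h2, h3⟩ := near_aux c u w hζ h
    exact ⟨_, h2, h3⟩

/-- a lift of a point -/
noncomputable def lft (x : Lens c p) : sphere (0 : WW E) 1 := (pr_surj c p x).choose

theorem pr_lft (x : Lens c p) : pr c p (lft c p x) = x := (pr_surj c p x).choose_spec

theorem psi_zero (u : sphere (0 : WW E) 1) : psi c p u (0 : E) = pr c p u := by
  rw [psi, hemi_zero]

noncomputable instance : ChartedSpace E (Lens c p) where
  atlas := range (chart c p)
  chartAt x := chart c p (lft c p x)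
  mem_chart_source x := ⟨0, zero_mem_TT p, by rw [psi_zero, pr_lft]⟩
  chart_mem_atlas x := mem_range_self _

theorem chartAt_eq (x : Lens c p) : chartAt E x = chart c p (lft c p x) := rfl

theorem chartAt_self (x : Lens c p) : chartAt E x x = 0 := by
  have := chart_psi c p (lft c p x) (zero_mem_TT (E := E) p)
  rwa [psi_zero, pr_lft] at this

section Local

variable {F : Type} [NormedAddCommGroup F] [NormedSpace ℝ F]

/-- local formula for a curve or map into the lens space -/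
theorem chart_comp_eventuallyEq (u : sphere (0 : WW E) 1) {f : F → sphere (0 : WW E) 1} {t : F}
    (hf : ContinuousAt (fun s => (f s : WW E)) t) {ζ : ℂ} (hζ : ζ ^ p = 1)
    (h : ‖c.sm ζ (f t) - u‖ < rho p) :
    (fun s => chart c p u (pr c p (f s))) =ᶠ[𝓝 t]
      fun s => QQ ((fr u).symm (c.sm ζ (f s))) := by
  have h1 : ContinuousAt (fun s => ‖c.sm ζ (f s) - u‖) t :=
    (((c.sm ζ).continuous.continuousAt.comp hf).sub continuousAt_const).norm
  filter_upwards [h1.eventually_lt continuousAt_const h] with s hs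
  exact chart_pr c u (f s) hζ hs

theorem contDiffAt_chart_comp {k : WithTop ℕ∞} (u : sphere (0 : WW E) 1)
    {f : F → sphere (0 : WW E) 1} {t : F}
    (hf : ContDiffAt ℝ k (fun s => (f s : WW E)) t) (h : pr c p (f t) ∈ (chart c p u).source) :
    ContDiffAt ℝ k (fun s => chart c p u (pr c p (f s))) t := by
  obtain ⟨ζ, hζ, h⟩ := (pr_mem_source c p u _).1 h
  refine ContDiffAt.congr_of_eventuallyEq ?_ (chart_comp_eventuallyEq c p u hf.continuousAt hζ h)
  have h1 := (near_aux c u (f t) hζ h).1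
  have h2 : ContDiffAt ℝ k (fun s => (fr u).symm (c.sm ζ (f s))) t :=
    (fr u).symm.contDiff.contDiffAt.comp t ((c.sm ζ).contDiff.contDiffAt.comp t hf)
  exact (contDiffAt_QQ h1.ne').comp t h2

end Local

instance : IsManifold 𝓘(ℝ, E) ∞ (Lens c p) := by
  apply isManifold_of_contDiffOn
  rintro _ _ ⟨u, rfl⟩ ⟨u', rfl⟩ y hy
  simp only [modelWithCornersSelf_coe, modelWithCornersSelf_coe_symm, Function.comp_id,
    Function.id_comp, preimage_id_eq, id_eq, range_id, inter_univ] at hy ⊢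
  apply ContDiffAt.contDiffWithinAt
  exact contDiffAt_chart_comp c p u' (f := hemi u)
    ((fr u).contDiff.comp contDiff_PP).contDiffAt hy.2

end Pool.Agent.H253Z.Gu
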