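import Mathlib
import Pool.Agent.H253Z.GuB

set_option autoImplicit false
set_option linter.unusedSectionVars false
set_option maxSynthPendingDepth 3

open scoped RealInnerProductSpace Topology ComplexConjugate Manifold ContDiff Bundle
open Set Metric Filter Bundle

namespace Pool.Agent.H253Z.Gu

variable {E : Type} [NormedAddCommGroup E] [InnerProductSpace ℝ E]
variable (c : CS (WW E)) (p : ℕ) [NeZero p]

section Local

variable {F : Type} [NormedAddCommGroup F] [NormedSpace ℝ F]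

theorem contMDiffAt_pr_comp {k : WithTop ℕ∞} {f : F → sphere (0 : WW E) 1} {t : F}
    (hf : ContDiffAt ℝ k (fun s => (f s : WW E)) t) :
    ContMDiffAt 𝓘(ℝ, F) 𝓘(ℝ, E) k (fun s => pr c p (f s)) t := by
  rw [contMDiffAt_iff]
  refine ⟨(continuous_pr c p).continuousAt.comp
    (Topology.IsInducing.subtypeVal.continuousAt_iff.2 hf.continuousAt), ?_⟩
  simp only [mfld_simps]
  apply ContDiffAt.contDiffWithinAt
  exact contDiffAt_chart_comp c p _ hf (mem_chart_source E (pr c p (f t)))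

theorem hasFDerivAt_QQ_e0 : HasFDerivAt QQ (WithLp.sndL 2 ℝ ℝ E) (e0 : WW E) := by
  have h1 : HasFDerivAt (fun w : WW E => w.fst) (WithLp.fstL 2 ℝ ℝ E) e0 :=
    (WithLp.fstL 2 ℝ ℝ E).hasFDerivAt
  have h2 : HasFDerivAt (fun w : WW E => w.snd) (WithLp.sndL 2 ℝ ℝ E) e0 :=
    (WithLp.sndL 2 ℝ ℝ E).hasFDerivAt
  have h3 := (hasFDerivAt_inv (𝕜 := ℝ) (x := (e0 : WW E).fst) (by simp)).comp e0 h1
  have h4 := h3.smul h2
  refine HasFDerivAt.congr_fderiv h4 ?_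
  refine ContinuousLinearMap.ext fun v => ?_
  simp

theorem key_mfderiv {f : F → sphere (0 : WW E) 1} {t : F} {D : F →L[ℝ] WW E}
    (hf : HasFDerivAt (fun s => (f s : WW E)) D t) :
    ∃ L : F →L[ℝ] E, HasMFDerivAt 𝓘(ℝ, F) 𝓘(ℝ, E) (fun s => pr c p (f s)) t L ∧
      ∀ a b, ⟪L a, L b⟫ = ⟪D a, D b⟫ := by
  set u := lft c p (pr c p (f t)) with hu
  obtain ⟨ζ, hζ, h⟩ := (pr_eq_iff c p).1 (pr_lft c p (pr c p (f t))).symm
  rw [← hu] at h
  have hnear : ‖c.sm ζ (f t) - u‖ < rho p := by rw [← h, sub_self, norm_zero]; exact rho_pos p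
  have he : (fr u).symm (c.sm ζ (f t)) = e0 := by
    rw [← h, ← fr_e0 u, LinearIsometryEquiv.symm_apply_apply]
  set B : WW E →L[ℝ] WW E := (fr u).symm.toContinuousLinearEquiv.toContinuousLinearMap ∘L c.sm ζ
    with hB
  have hBi : ∀ v w, ⟪B v, B w⟫ = ⟪v, w⟫ := by
    intro v w
    change ⟪(fr u).symm (c.sm ζ v), (fr u).symm (c.sm ζ w)⟫ = _
    rw [LinearIsometryEquiv.inner_map_map, c.inner_sm_sm, norm_of_pow hζ]; ring
  have hBe : B (f t) = e0 := he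
  refine ⟨WithLp.sndL 2 ℝ ℝ E ∘L (B ∘L D), ⟨(continuous_pr c p).continuousAt.comp
    (Topology.IsInducing.subtypeVal.continuousAt_iff.2 hf.continuousAt), ?_⟩, ?_⟩
  · simp only [writtenInExtChartAt, mfld_simps]
    rw [hasFDerivWithinAt_univ]
    have h1 : HasFDerivAt (fun s => B (f s)) (B ∘L D) t := B.hasFDerivAt.comp t hf
    have h2 : HasFDerivAt QQ (WithLp.sndL 2 ℝ ℝ E) (B (f t)) := by
      rw [hBe]; exact hasFDerivAt_QQ_e0
    have h3 := h2.comp t h1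
    exact h3.congr_of_eventuallyEq (chart_comp_eventuallyEq c p u hf.continuousAt hζ hnear)
  · have horth : ∀ a, ⟪(f t : WW E), D a⟫ = 0 := by
      intro a
      have h1 := hf.norm_sq
      have h2 : (fun s => ‖(f s : WW E)‖ ^ 2) = fun _ => (1 : ℝ) := by
        funext s; rw [norm_coe]; norm_num
      rw [h2] at h1
      have h3 := h1.unique (hasFDerivAt_const _ _)
      have h4 := congrArg (fun L : F →L[ℝ] ℝ => L a) h3
      simp only [smul_apply, ContinuousLinearMap.comp_apply, innerSL_apply_apply,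
        zero_apply, nsmul_eq_mul] at h4
      simpa using h4
    have hfst : ∀ a, (B (D a)).fst = 0 := by
      intro a
      rw [← inner_e0, ← hBe, hBi, horth]
    intro a b
    rw [← hBi (D a) (D b), inner_WW, hfst a, zero_mul, zero_add]
    rfl

theorem inner_mfderiv_pr {f : F → sphere (0 : WW E) 1} {t : F} {D : F →L[ℝ] WW E}
    (hf : HasFDerivAt (fun s => (f s : WW E)) D t) (a b : F) :
    @inner ℝ E _ (mfderiv 𝓘(ℝ, F) 𝓘(ℝ, E) (fun s => pr c p (f s)) t a)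
      (mfderiv 𝓘(ℝ, F) 𝓘(ℝ, E) (fun s => pr c p (f s)) t b) = ⟪D a, D b⟫ := by
  obtain ⟨L, h1, h2⟩ := key_mfderiv c p hf
  rw [h1.mfderiv]
  exact h2 a b

end Local

/-- the round metric in gnomonic coordinates -/
noncomputable def GG (y a b : E) : ℝ := ⟪a, b⟫ / NN y - ⟪y, a⟫ * ⟪y, b⟫ / NN y ^ 2

theorem hasFDerivAt_NN (y : E) : HasFDerivAt (NN : E → ℝ) (2 • innerSL ℝ y) y :=
  (hasStrictFDerivAt_norm_sq y).hasFDerivAt.const_add 1

theorem exists_deriv_PP (y : E) : ∃ D : E →L[ℝ] WW E, HasFDerivAt PP D y ∧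
    ∀ a b, ⟪D a, D b⟫ = GG y a b := by
  have h1 := (hasFDerivAt_NN y).sqrt (NN_pos y).ne'
  have h2 := (hasFDerivAt_inv (𝕜 := ℝ) (sqrt_NN_pos y).ne').comp y h1
  have h3 : HasFDerivAt (fun z : E => (e0 : WW E) + inc z) (inc : E →L[ℝ] WW E) y :=
    (inc : E →L[ℝ] WW E).hasFDerivAt.const_add _
  refine ⟨_, h2.smul h3, fun a b => ?_⟩
  have hs := sqrt_NN_pos y
  have hq : NN y = √(NN y) ^ 2 := (Real.sq_sqrt (NN_pos y).le).symm
  have hn : ‖y‖ ^ 2 = √(NN y) ^ 2 - 1 := by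
    rw [← hq, NN]; ring
  rw [GG, inner_WW]
  conv_rhs => rw [hq]
  simp [inner_add_left, inner_add_right, inner_smul_left, inner_smul_right, hn,
    real_inner_comm y a]
  field_simp
  ring

theorem inner_mfderiv_psi (u : sphere (0 : WW E) 1) (y a b : E) :
    @inner ℝ E _ (mfderiv 𝓘(ℝ, E) 𝓘(ℝ, E) (psi c p u) y a)
      (mfderiv 𝓘(ℝ, E) 𝓘(ℝ, E) (psi c p u) y b) = GG y a b := by
  obtain ⟨D, h1, h2⟩ := exists_deriv_PP y
  have h3 : HasFDerivAt (fun s => (hemi u s : WW E))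
      ((fr u).toContinuousLinearEquiv.toContinuousLinearMap ∘L D) y :=
    (fr u).toContinuousLinearEquiv.toContinuousLinearMap.hasFDerivAt.comp y h1
  refine (inner_mfderiv_pr c p h3 a b).trans ?_
  rw [← h2]
  exact (fr u).inner_map_map _ _

/-- the inner product as a bilinear map -/
noncomputable def ipL (E : Type) [NormedAddCommGroup E] [InnerProductSpace ℝ E] :
    E →L[ℝ] E →L[ℝ] ℝ := innerSL ℝ

@[simp] theorem ipL_apply (a b : E) : ipL E a b = ⟪a, b⟫ := rfl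

/-- the bilinear form of the round metric in gnomonic coordinates -/
noncomputable def GB (y : E) : E →L[ℝ] E →L[ℝ] ℝ :=
  (NN y)⁻¹ • ipL E - ((NN y) ^ 2)⁻¹ • (ipL E y).smulRight (ipL E y)

theorem GB_apply (y a b : E) : GB y a b = GG y a b := by
  simp [GB, GG]
  ring

theorem contDiff_GB : ContDiff ℝ ∞ (GB : E → E →L[ℝ] E →L[ℝ] ℝ) := by
  unfold GB
  have h1 : ContDiff ℝ ∞ (fun y : E => ipL E y) := (ipL E).contDiff
  refine ContDiff.sub (ContDiff.smul (contDiff_NN.inv fun y => (NN_pos y).ne') contDiff_const)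
    (ContDiff.smul ((contDiff_NN.pow 2).inv fun y => (pow_pos (NN_pos y) 2).ne') ?_)
  exact h1.smulRight h1

theorem symm_triv {x₀ z : Lens c p} (hz : z ∈ (chartAt E x₀).source)
    (v : E) : ((trivializationAt E (TangentSpace 𝓘(ℝ, E)) x₀).symm z v : E)
      = (mfderiv 𝓘(ℝ, E) 𝓘(ℝ, E) (psi c p (lft c p x₀)) (chartAt E x₀ z) v : E) := by
  have h1 := TangentBundle.symmL_trivializationAt (I := 𝓘(ℝ, E)) (x₀ := x₀) (x := z) hz
  have h3 : mfderivWithin 𝓘(ℝ, E) 𝓘(ℝ, E) (extChartAt 𝓘(ℝ, E) x₀).symm (range 𝓘(ℝ, E))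
      (extChartAt 𝓘(ℝ, E) x₀ z) = mfderiv 𝓘(ℝ, E) 𝓘(ℝ, E) (extChartAt 𝓘(ℝ, E) x₀).symm
      (extChartAt 𝓘(ℝ, E) x₀ z) := by
    rw [ModelWithCorners.range_eq_univ, mfderivWithin_univ]
  have h2 : ((trivializationAt E (TangentSpace 𝓘(ℝ, E)) x₀).symmL ℝ z v : E)
      = (mfderiv 𝓘(ℝ, E) 𝓘(ℝ, E) (extChartAt 𝓘(ℝ, E) x₀).symm (extChartAt 𝓘(ℝ, E) x₀ z) v : E) :=
    (congrArg (fun L => (L v : E)) h1).trans (congrArg (fun L => (L v : E)) h3)
  have h4 : ((trivializationAt E (TangentSpace 𝓘(ℝ, E)) x₀).symm z v : E)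
      = ((trivializationAt E (TangentSpace 𝓘(ℝ, E)) x₀).symmL ℝ z v : E) :=
    (Trivialization.symmL_apply (R := ℝ) _ hz v).symm
  exact h4.trans h2

/-- the inner product on the tangent spaces -/
noncomputable def innerQ (x : Lens c p) :
    TangentSpace 𝓘(ℝ, E) x →L[ℝ] TangentSpace 𝓘(ℝ, E) x →L[ℝ] ℝ :=
  ipL E

theorem contMDiff_innerQ :
    ContMDiff 𝓘(ℝ, E) (𝓘(ℝ, E).prod 𝓘(ℝ, E →L[ℝ] E →L[ℝ] ℝ)) ∞
      (fun b : Lens c p => TotalSpace.mk' (E →L[ℝ] E →L[ℝ] ℝ)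
        (E := fun y : Lens c p =>
          TangentSpace 𝓘(ℝ, E) y →L[ℝ] TangentSpace 𝓘(ℝ, E) y →L[ℝ] ℝ) b (innerQ c p b)) := by
  intro x₀
  have hbase : x₀ ∈ (trivializationAt (E →L[ℝ] E →L[ℝ] ℝ)
      (fun y : Lens c p =>
        TangentSpace 𝓘(ℝ, E) y →L[ℝ] TangentSpace 𝓘(ℝ, E) y →L[ℝ] ℝ) x₀).baseSet :=
    mem_baseSet_trivializationAt _ _ x₀
  rw [← contMDiffWithinAt_univ,
    Trivialization.contMDiffWithinAt_section (e := trivializationAt (E →L[ℝ] E →L[ℝ] ℝ)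
      (fun y : Lens c p =>
        TangentSpace 𝓘(ℝ, E) y →L[ℝ] TangentSpace 𝓘(ℝ, E) y →L[ℝ] ℝ) x₀) _ hbase,
    contMDiffWithinAt_univ]
  have h1 : ContMDiffAt 𝓘(ℝ, E) 𝓘(ℝ, E →L[ℝ] E →L[ℝ] ℝ) ∞
      (fun z : Lens c p => GB (chartAt E x₀ z)) x₀ := by
    have h2 : ContMDiffAt 𝓘(ℝ, E) 𝓘(ℝ, E) ∞ (chartAt E x₀) x₀ :=
      contMDiffAt_of_mem_maximalAtlas (IsManifold.chart_mem_maximalAtlas x₀)
        (mem_chart_source E x₀)
    exact (contDiff_GB.contMDiff.contMDiffAt).comp x₀ h2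
  refine h1.congr_of_eventuallyEq ?_
  have hs : (chartAt E x₀).source ∈ 𝓝 x₀ :=
    (chartAt E x₀).open_source.mem_nhds (mem_chart_source E x₀)
  filter_upwards [hs] with z hz
  have hz1 : z ∈ (trivializationAt E (TangentSpace 𝓘(ℝ, E)) x₀).baseSet := hz
  rw [hom_trivializationAt_apply]
  ext v w
  rw [inCoordinates_apply_eq₂ hz1 hz1 (by simp), Trivialization.linearMapAt_apply,
    if_pos (by simp), GB_apply, ← inner_mfderiv_psi c p (lft c p x₀), ← symm_triv c p hz,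
    ← symm_triv c p hz]
  rfl

/-- The round metric on the lens space. -/
noncomputable def lensRM :
    Bundle.ContMDiffRiemannianMetric 𝓘(ℝ, E) ∞ E
      (fun x : Lens c p => TangentSpace 𝓘(ℝ, E) x) where
  inner x := innerQ c p x
  symm _ _ _ := real_inner_comm (F := E) _ _
  pos _ _ hv := (real_inner_self_pos (F := E)).2 hv
  isVonNBounded _ := (riemannianMetricVectorSpace E).isVonNBounded 0
  contMDiff := contMDiff_innerQ c p

theorem lensRM_inner (x : Lens c p) (v w : E) : (lensRM c p).inner x v w = ⟪v, w⟫ := rfl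

end Pool.Agent.H253Z.Gu
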