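import Mathlib

set_option autoImplicit false

open scoped Manifold ContDiff Topology ENNReal
open MeasureTheory Set

namespace Pool.Agent.H253Z.Gu

/-- The model space `ℝ^n`. -/
abbrev Eu (n : ℕ) : Type := EuclideanSpace ℝ (Fin n)

section Coord

variable {E : Type} [NormedAddCommGroup E] [NormedSpace ℝ E]

/-- Christoffel symbols of the first kind of the metric with coefficients `g z a b` (point `z`,
constant vector fields `a`, `b`): the value of `g(∇_a b, c)` at `y` by the Koszul formula. -/
noncomputable def koszul (g : E → E → E → ℝ) (y a b c : E) : ℝ :=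
  (fderiv ℝ (fun z => g z b c) y a + fderiv ℝ (fun z => g z a c) y b
    - fderiv ℝ (fun z => g z a b) y c) / 2

/-- The curvature `R(a, b) c = ∇_a ∇_b c - ∇_b ∇_a c` at `y` (constant vector fields `a`, `b`, `c`)
of the connection with Christoffel symbols `Γ z a b = (∇_a b)(z)`. -/
noncomputable def riem (Γ : E → E → E → E) (y a b c : E) : E :=
  fderiv ℝ (fun z => Γ z b c) y a - fderiv ℝ (fun z => Γ z a c) y b
    + Γ y a (Γ y b c) - Γ y b (Γ y a c)

variable {n : ℕ}

/-- The `i`-th coordinate vector of `ℝ^n`. -/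
noncomputable def ev (i : Fin n) : Eu n := EuclideanSpace.single i 1

/-- The Ricci curvature `Ric(b, c) = trace (a ↦ R(a, b) c)` at `y`. -/
noncomputable def ricci (Γ : Eu n → Eu n → Eu n → Eu n) (y b c : Eu n) : ℝ :=
  ∑ i, riem Γ y (ev i) b c i

/-- The metric with coefficients `g` has positive Ricci curvature at `y`: the Christoffel symbols
`Γ` of its Levi-Civita connection (determined near `y` by the Koszul formula) satisfy
`Ric(b, b) > 0` at `y` for all `b ≠ 0`. -/
def PosRicciAt (g : Eu n → Eu n → Eu n → ℝ) (y : Eu n) : Prop :=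
  ∃ Γ : Eu n → Eu n → Eu n → Eu n, (∀ a b, DifferentiableAt ℝ (fun z => Γ z a b) y) ∧
    (∀ᶠ z in 𝓝 y, ∀ a b c, g z (Γ z a b) c = koszul g z a b c) ∧
    ∀ b, b ≠ 0 → 0 < ricci Γ y b b

end Coord

section Mfd

variable (E : Type) [NormedAddCommGroup E] [NormedSpace ℝ E]
  (M : Type) [TopologicalSpace M] [ChartedSpace E M] [IsManifold 𝓘(ℝ, E) ∞ M]

/-- The smooth Riemannian metrics on the manifold `M` modelled on `E`. -/
abbrev RMetric : Type :=
  Bundle.ContMDiffRiemannianMetric 𝓘(ℝ, E) ∞ E (fun x : M => TangentSpace 𝓘(ℝ, E) x)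

variable {E} {M}

/-- The scalar product of `g` on the tangent space at `x` (a copy of the model space `E`). -/
noncomputable def form (g : RMetric E M) (x : M) : E →L[ℝ] E →L[ℝ] ℝ := g.inner x

variable (E) in
/-- The differential at `t` of a map `f` from a vector space `F` to `M`. -/
noncomputable def dmap {F : Type} [NormedAddCommGroup F] [NormedSpace ℝ F] (f : F → M) (t : F) :
    F →L[ℝ] E := mfderiv 𝓘(ℝ, F) 𝓘(ℝ, E) f t

/-- The value of the pull-back of `g` under `f : F → M` at the point `t` on the vectors `a`, `b`. -/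
noncomputable def pull {F : Type} [NormedAddCommGroup F] [NormedSpace ℝ F] (g : RMetric E M)
    (f : F → M) (t a b : F) : ℝ :=
  form g (f t) (dmap E f t a) (dmap E f t b)

/-- The coefficients of `g` in the chart at `x`: its value on the coordinate vector fields `a`, `b`
at the point with coordinates `y`. -/
noncomputable def chartCoeff (g : RMetric E M) (x : M) (y a b : E) : ℝ :=
  pull g (chartAt E x).symm y a b

/-- The speed `√g(γ'(t), γ'(t))` of a curve. -/
noncomputable def speed (g : RMetric E M) (γ : ℝ → M) (t : ℝ) : ℝ := √(pull g γ t 1 1)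

/-- The Riemannian distance: the infimum of the lengths of the `C^1` curves from `x` to `y`. -/
noncomputable def rdist (g : RMetric E M) (x y : M) : ℝ≥0∞ :=
  ⨅ (γ : ℝ → M) (_ : ContMDiff 𝓘(ℝ, ℝ) 𝓘(ℝ, E) 1 γ ∧ γ 0 = x ∧ γ 1 = y),
    ∫⁻ t in Icc (0 : ℝ) 1, ENNReal.ofReal (speed g γ t)

/-- `γ` restricted to `[0, 1]` is a minimizing geodesic from `x` to `y`: a smooth curve from `x` to
`y` of constant speed equal to the distance from `x` to `y` (so its length is that distance). -/
def IsMinGeodesic (g : RMetric E M) (x y : M) (γ : ℝ → M) : Prop :=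
  ContMDiff 𝓘(ℝ, ℝ) 𝓘(ℝ, E) ∞ γ ∧ γ 0 = x ∧ γ 1 = y ∧
    ∀ t ∈ Icc (0 : ℝ) 1, ENNReal.ofReal (speed g γ t) = rdist g x y

/-- `Γ` is geodesically convex: any two of its points are joined by a unique minimizing geodesic
of `M`, and this geodesic lies in `Γ`. -/
def GeodConvex (g : RMetric E M) (Γ : Set M) : Prop :=
  ∀ x ∈ Γ, ∀ y ∈ Γ, ∃ γ : ℝ → M, IsMinGeodesic g x y γ ∧ (∀ t ∈ Icc (0 : ℝ) 1, γ t ∈ Γ) ∧
    ∀ η : ℝ → M, IsMinGeodesic g x y η → EqOn η γ (Icc 0 1)

end Mfd

section Eucl

variable {n : ℕ} {M : Type} [TopologicalSpace M] [ChartedSpace (Eu n) M] [IsManifold (𝓡 n) ∞ M]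

/-- `g` has strictly positive Ricci curvature at every point (computed in the chart there). -/
def PosRicci (g : RMetric (Eu n) M) : Prop :=
  ∀ x : M, PosRicciAt (chartCoeff g x) (chartAt (Eu n) x x)

/-- `μ` is the Riemannian volume measure of `g`: in every chart it has the density
`√(det g_ij)` with respect to Lebesgue measure. -/
def IsVolume [MeasurableSpace M] (g : RMetric (Eu n) M) (μ : Measure M) : Prop :=
  ∀ (x : M) (s : Set M), MeasurableSet s → s ⊆ (chartAt (Eu n) x).source →
    μ s = ∫⁻ y in chartAt (Eu n) x '' s,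
      ENNReal.ofReal √(Matrix.of fun i j => chartCoeff g x y (ev i) (ev j)).det

end Eucl

end Pool.Agent.H253Z.Gu
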