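import Mathlib
import Pool.Agent.H253Z.GuC
import Pool.Agent.H253Z.GuDefs

set_option autoImplicit false
set_option linter.unusedSectionVars false

open scoped RealInnerProductSpace Topology ComplexConjugate Manifold ContDiff
open Set Metric Filter

namespace Pool.Agent.H253Z.Gu

section Gen

variable {E : Type} [NormedAddCommGroup E] [InnerProductSpace ℝ E]

theorem fderiv_GG (z a b d : E) : fderiv ℝ (fun y => GG y b d) z a =
    -2 * ⟪z, a⟫ * ⟪b, d⟫ / NN z ^ 2 - (⟪a, b⟫ * ⟪z, d⟫ + ⟪z, b⟫ * ⟪a, d⟫) / NN z ^ 2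
      + 4 * ⟪z, a⟫ * ⟪z, b⟫ * ⟪z, d⟫ / NN z ^ 3 := by
  have hN := hasFDerivAt_NN z
  have h0 := (NN_pos z).ne'
  have h1 : ∀ v : E, HasFDerivAt (fun y : E => ⟪y, v⟫) (ipL E v) z := by
    intro v
    have : (fun y : E => ⟪y, v⟫) = fun y => ipL E v y := by
      funext y; rw [ipL_apply, real_inner_comm]
    rw [this]
    exact (ipL E v).hasFDerivAt
  have h2 := (hasFDerivAt_inv (𝕜 := ℝ) h0).comp z hN
  have h3 := (h2.const_mul ⟪b, d⟫).sub (((h1 b).mul (h1 d)).mul (h2.mul h2))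
  have h4 : (fun y => GG y b d) = (fun y => ⟪b, d⟫ * ((fun x : ℝ => x⁻¹) ∘ NN) y) -
      ((fun y : E => ⟪y, b⟫) * fun y : E => ⟪y, d⟫) *
        (((fun x : ℝ => x⁻¹) ∘ NN) * ((fun x : ℝ => x⁻¹) ∘ NN)) := by
    funext y
    simp only [GG, Pi.sub_apply, Pi.mul_apply, Function.comp_apply]
    ring
  rw [h4, h3.fderiv]
  simp [real_inner_comm a b, real_inner_comm a d]
  field_simp
  ring

/-- Christoffel symbols of the round metric in gnomonic coordinates -/
noncomputable def Gam (z a b : E) : E := -(NN z)⁻¹ • (⟪z, a⟫ • b + ⟪z, b⟫ • a)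

theorem hasFDerivAt_Gam (a b : E) : ∃ L : E →L[ℝ] E, HasFDerivAt (fun z => Gam z a b) L 0 ∧
    ∀ v, L v = -(⟪v, a⟫ • b + ⟪v, b⟫ • a) := by
  have hN := hasFDerivAt_NN (0 : E)
  have h0 := (NN_pos (0 : E)).ne'
  have h1 : ∀ v : E, HasFDerivAt (fun y : E => ⟪y, v⟫) (ipL E v) 0 := by
    intro v
    have : (fun y : E => ⟪y, v⟫) = fun y => ipL E v y := by
      funext y; rw [ipL_apply, real_inner_comm]
    rw [this]
    exact (ipL E v).hasFDerivAt
  have h2 := ((hasFDerivAt_inv (𝕜 := ℝ) h0).comp 0 hN).neg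
  have h3 := h2.smul (((h1 a).smul_const b).add ((h1 b).smul_const a))
  refine ⟨_, h3, fun v => ?_⟩
  simp [NN, real_inner_comm v a, real_inner_comm v b, add_comm]

end Gen

variable {n : ℕ} (c : CS (WW (Eu n))) (p : ℕ) [NeZero p]

theorem chartCoeff_lens (x : Lens c p) : chartCoeff (lensRM c p) x = GG := by
  funext y a b
  exact inner_mfderiv_psi c p (lft c p x) y a b

theorem koszul_GG (z a b d : Eu n) : GG z (Gam z a b) d = koszul GG z a b d := by
  rw [koszul, fderiv_GG, fderiv_GG, fderiv_GG, GG, Gam]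
  have h0 := (NN_pos z).ne'
  simp only [inner_smul_left, inner_smul_right, inner_add_left, inner_add_right,
    real_inner_comm a b, real_inner_comm a d, real_inner_comm b d, conj_trivial]
  field_simp
  ring

theorem riem_Gam (a b d : Eu n) : riem Gam 0 a b d = ⟪b, d⟫ • a - ⟪a, d⟫ • b := by
  obtain ⟨L, h1, h2⟩ := hasFDerivAt_Gam b d
  obtain ⟨L', h3, h4⟩ := hasFDerivAt_Gam a d
  rw [riem, h1.fderiv, h3.fderiv, h2, h4]
  simp only [Gam, inner_zero_left, zero_smul, add_zero, smul_zero, real_inner_comm a b]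
  module

theorem ricci_Gam (b : Eu n) : ricci Gam 0 b b = ((n : ℝ) - 1) * ‖b‖ ^ 2 := by
  simp only [ricci, riem_Gam, ev, PiLp.sub_apply, PiLp.smul_apply, smul_eq_mul,
    EuclideanSpace.inner_single_left, Finset.sum_sub_distrib, real_inner_self_eq_norm_sq]
  rw [EuclideanSpace.real_norm_sq_eq]
  simp [sq]
  ring

theorem posRicci_lens (hn : 2 ≤ n) : PosRicci (lensRM c p) := by
  intro x
  rw [chartCoeff_lens, chartAt_self]
  refine ⟨Gam, fun a b => ?_, Eventually.of_forall fun z a b d => koszul_GG z a b d,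
    fun b hb => ?_⟩
  · obtain ⟨L, h, -⟩ := hasFDerivAt_Gam a b
    exact h.differentiableAt
  · rw [ricci_Gam]
    have h1 : (2 : ℝ) ≤ n := by exact_mod_cast hn
    have h2 : 0 < ‖b‖ := norm_pos_iff.2 hb
    have h3 : (0 : ℝ) < n - 1 := by linarith
    positivity

theorem det_GG (y : Eu n) :
    (Matrix.of fun i j => GG y (ev i) (ev j)).det = (NN y)⁻¹ ^ (n + 1) := by
  have h0 := (NN_pos y).ne'
  have h1 : (Matrix.of fun i j => GG y (ev i) (ev j)) = (NN y)⁻¹ •
      (1 + Matrix.replicateCol Unit (fun i => -(NN y)⁻¹ * y i) *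
        Matrix.replicateRow Unit (fun i => y i)) := by
    ext i j
    simp only [GG, ev, Matrix.of_apply, EuclideanSpace.inner_single_right,
      Matrix.smul_apply, Matrix.add_apply, Matrix.mul_apply, Matrix.one_apply]
    by_cases h : i = j
    · subst h
      simp
      field_simp
      ring
    · simp [h, Ne.symm h]
      field_simp
  rw [h1, Matrix.det_smul, Matrix.det_one_add_replicateCol_mul_replicateRow, Fintype.card_fin,
    pow_succ]
  congr 1
  have h2 : NN y = 1 + ∑ i, y i * y i := by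
    rw [NN, EuclideanSpace.real_norm_sq_eq]; simp [sq]
  simp only [dotProduct]
  have h3 : ∑ i, y i * (-(NN y)⁻¹ * y i) = -(NN y)⁻¹ * ∑ i, y i * y i := by
    rw [Finset.mul_sum]; exact Finset.sum_congr rfl fun i _ => by ring
  have h4 : ∑ i, y i * y i = NN y - 1 := by linarith
  rw [h3, h4]
  field_simp
  ring

theorem sqrt_det_GG (y : Eu n) :
    √(Matrix.of fun i j => GG y (ev i) (ev j)).det = (√(NN y))⁻¹ ^ (n + 1) := by
  rw [det_GG]
  have h1 : (NN y)⁻¹ ^ (n + 1) = ((√(NN y))⁻¹ ^ (n + 1)) ^ 2 := by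
    rw [← pow_mul, mul_comm, pow_mul, inv_pow (√(NN y)), Real.sq_sqrt (NN_pos y).le]
  rw [h1, Real.sqrt_sq (pow_nonneg (inv_nonneg.2 (Real.sqrt_nonneg _)) _)]

end Pool.Agent.H253Z.Gu
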