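import Mathlib
import Pool.Agent.H253Z.GuD

set_option autoImplicit false
set_option linter.unusedSectionVars false

open scoped RealInnerProductSpace Topology ComplexConjugate Manifold ContDiff ENNReal
open Set Metric Filter MeasureTheory InnerProductGeometry

namespace Pool.Agent.H253Z.Gu

section Gen

variable {W : Type} [NormedAddCommGroup W] [InnerProductSpace ℝ W]

theorem angle_le_chord {x y : W} (hx : ‖x‖ = 1) (hy : ‖y‖ = 1) {ε : ℝ} (h1 : ε ≤ 1)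
    (h : ‖x - y‖ < ε) : (1 - ε) * angle x y ≤ ‖x - y‖ := by
  set θ := angle x y with hθ
  have h0 : 0 ≤ θ := angle_nonneg x y
  have hπ : θ ≤ Real.pi := angle_le_pi x y
  have hs : 0 ≤ Real.sin (θ / 2) :=
    Real.sin_nonneg_of_nonneg_of_le_pi (by linarith) (by linarith [Real.pi_pos])
  have hc : ‖x - y‖ = 2 * Real.sin (θ / 2) := by
    have h2 : ‖x - y‖ ^ 2 = (2 * Real.sin (θ / 2)) ^ 2 := by
      rw [norm_sub_sq_real, hx, hy, inner_eq_cos_angle_of_norm_eq_one hx hy, ← hθ, mul_pow,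
        Real.sin_sq_eq_half_sub]
      rw [show 2 * (θ / 2) = θ by ring]
      ring
    exact (pow_left_inj₀ (norm_nonneg _) (by positivity) two_ne_zero).1 h2
  have h3 := Real.mul_le_sin (x := θ / 2) (by linarith) (by linarith)
  have h4 := Real.sin_ge_sub_cube (x := θ / 2) (by linarith)
  have h5 : θ ≤ 2 * ε := by
    have h6 : 2 / Real.pi * (θ / 2) = θ / Real.pi := by ring
    rw [h6, div_le_iff₀ Real.pi_pos] at h3
    nlinarith [Real.pi_le_four]
  have hε : 0 ≤ ε := by linarith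
  have h7 : θ ^ 2 ≤ 4 * ε := by nlinarith
  rw [hc]
  nlinarith

theorem angle_sm (c : CS W) {p : ℕ} [NeZero p] {ζ : ℂ} (h : ζ ^ p = 1) (x y : W) :
    angle (c.sm ζ x) (c.sm ζ y) = angle x y := by
  simp only [angle, c.inner_sm_sm, c.norm_sm, norm_of_pow h, one_pow, one_mul]

theorem local_to_global (R : ℝ → ℝ → Prop) (htr : ∀ s t u, s ≤ t → t ≤ u → R s t → R t u → R s u)
    (hloc : ∀ t₀, ∃ δ > 0, ∀ s ∈ ball t₀ δ, ∀ t ∈ ball t₀ δ, s ≤ t → R s t) : R 0 1 := by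
  have h00 : R 0 0 := by
    obtain ⟨δ, hδ, h⟩ := hloc 0
    exact h 0 (mem_ball_self hδ) 0 (mem_ball_self hδ) le_rfl
  have key := (isPreconnected_Icc (a := (0 : ℝ)) (b := 1)).induction₂'
    (fun s t => (∀ r ∈ Icc (0 : ℝ) s, R 0 r) → (∀ r ∈ Icc (0 : ℝ) t, R 0 r)) (x := (0 : ℝ))
    (y := (1 : ℝ)) ?_ (fun _ _ _ _ _ _ h1 h2 h => h2 (h1 h))
    ⟨le_rfl, zero_le_one⟩ ⟨zero_le_one, le_rfl⟩
  · refine key (fun r hr => ?_) 1 ⟨zero_le_one, le_rfl⟩
    rw [le_antisymm hr.2 hr.1]; exact h00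
  · intro x hx
    obtain ⟨δ, hδ, h⟩ := hloc x
    have aux : ∀ s ∈ ball x δ, ∀ t ∈ ball x δ, 0 ≤ s → (∀ r ∈ Icc (0 : ℝ) s, R 0 r) →
        ∀ r ∈ Icc (0 : ℝ) t, R 0 r := by
      intro s hs t ht h0 hR r hr
      rcases le_total r s with h1 | h1
      · exact hR r ⟨hr.1, h1⟩
      · refine htr 0 s r h0 h1 (hR s ⟨h0, le_rfl⟩) (h s hs r ?_ h1)
        rw [Real.ball_eq_Ioo] at hs ht ⊢
        exact ⟨hs.1.trans_le h1, hr.2.trans_lt ht.2⟩
    filter_upwards [mem_nhdsWithin_of_mem_nhds (ball_mem_nhds x hδ), self_mem_nhdsWithin]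
      with y hy hy'
    exact ⟨aux x (mem_ball_self hδ) y hy hx.1, aux y hy x (mem_ball_self hδ) hy'.1⟩

end Gen

variable {n : ℕ} (c : CS (WW (Eu n))) (p : ℕ) [NeZero p]

theorem speed_pr {f : ℝ → sphere (0 : WW (Eu n)) 1} {t : ℝ} {v : WW (Eu n)}
    (hf : HasDerivAt (fun s => (f s : WW (Eu n))) v t) :
    speed (lensRM c p) (fun s => pr c p (f s)) t = ‖v‖ := by
  have h := inner_mfderiv_pr c p hf.hasFDerivAt (1 : ℝ) (1 : ℝ)
  refine (congrArg Real.sqrt h).trans ?_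
  simp

theorem speed_congr {γ γ' : ℝ → Lens c p} {t : ℝ} (h : γ =ᶠ[𝓝 t] γ') :
    speed (lensRM c p) γ t = speed (lensRM c p) γ' t := by
  have h1 : dmap (Eu n) γ t = dmap (Eu n) γ' t := h.mfderiv_eq
  rw [speed, speed, pull, pull, h1, h.eq_of_nhds]

/-- the length of a piece of a curve -/
noncomputable def len (γ : ℝ → Lens c p) (s t : ℝ) : ℝ≥0∞ :=
  ∫⁻ r in Icc s t, ENNReal.ofReal (speed (lensRM c p) γ r)

theorem len_add (γ : ℝ → Lens c p) {s t u : ℝ} (h : s ≤ t) (h' : t ≤ u) :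
    len c p γ s t + len c p γ t u = len c p γ s u := by
  symm
  have : Icc s u = Icc s t ∪ Ioc t u := (Icc_union_Ioc_eq_Icc h h').symm
  rw [len, this, lintegral_union measurableSet_Ioc]; swap
  · exact disjoint_iff_forall_ne.mpr (fun a ha b hb ↦ (ha.2.trans_lt hb.1).ne)
  simp [restrict_Ioc_eq_restrict_Icc, len]

theorem local_lift {γ : ℝ → Lens c p} (hγ : ContMDiff 𝓘(ℝ, ℝ) (𝓡 n) 1 γ) (t₀ : ℝ) {ε : ℝ}
    (hε : 0 < ε) : ∃ δ > 0, ∃ f : ℝ → sphere (0 : WW (Eu n)) 1,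
      (∀ s ∈ ball t₀ δ, pr c p (f s) = γ s) ∧
      (∀ s ∈ ball t₀ δ, ∀ t ∈ ball t₀ δ, ‖(f s : WW (Eu n)) - f t‖ < ε) ∧
      ∀ s ∈ ball t₀ δ, ∀ t ∈ ball t₀ δ, s ≤ t →
        ‖(f t : WW (Eu n)) - f s‖ₑ ≤ len c p γ s t := by
  set x := γ t₀ with hx
  set f : ℝ → sphere (0 : WW (Eu n)) 1 :=
    fun s => hemi (lft c p x) (chartAt (Eu n) x (γ s)) with hf
  have hsrc : ∀ᶠ s in 𝓝 t₀, γ s ∈ (chartAt (Eu n) x).source :=
    hγ.continuous.continuousAt.preimage_mem_nhds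
      ((chartAt (Eu n) x).open_source.mem_nhds (mem_chart_source _ x))
  have hcd : ∀ s, γ s ∈ (chartAt (Eu n) x).source →
      ContDiffAt ℝ 1 (fun s => (f s : WW (Eu n))) s := by
    intro s hs
    have h1 : ContMDiffAt (𝓡 n) (𝓡 n) 1 (chartAt (Eu n) x) (γ s) :=
      contMDiffAt_of_mem_maximalAtlas (IsManifold.chart_mem_maximalAtlas x) hs
    have h2 : ContDiffAt ℝ 1 (fun s => chartAt (Eu n) x (γ s)) s :=
      contMDiffAt_iff_contDiffAt.1 (h1.comp s (hγ s))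
    exact ((fr (lft c p x)).contDiff.comp contDiff_PP).contDiffAt.comp s h2
  have hcl : ∀ᶠ s in 𝓝 t₀, ‖(f s : WW (Eu n)) - f t₀‖ < ε / 2 := by
    have h1 := (hcd t₀ hsrc.self_of_nhds).continuousAt
    have h2 : ContinuousAt (fun s => ‖(f s : WW (Eu n)) - f t₀‖) t₀ :=
      (h1.sub continuousAt_const).norm
    exact h2.eventually_lt continuousAt_const (by simpa using hε)
  obtain ⟨δ, hδ, hb⟩ := Metric.eventually_nhds_iff_ball.1 (hsrc.and hcl)
  have hpr : ∀ s ∈ ball t₀ δ, pr c p (f s) = γ s := fun s hs =>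
    (chartAt (Eu n) x).left_inv (hb s hs).1
  refine ⟨δ, hδ, f, hpr, fun s hs t ht => ?_, fun s hs t ht hst => ?_⟩
  · have h1 := norm_sub_le_norm_sub_add_norm_sub (f s : WW (Eu n)) (f t₀) (f t)
    have h2 := (hb s hs).2
    have h3 := (hb t ht).2
    rw [norm_sub_rev] at h3
    linarith
  · have hsub : Icc s t ⊆ ball t₀ δ := by
      intro r hr
      rw [Real.ball_eq_Ioo] at hs ht ⊢
      exact ⟨hs.1.trans_le hr.1, hr.2.trans_lt ht.2⟩
    refine (enorm_sub_le_lintegral_deriv_of_contDiffOn_Icc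
      (f := fun s => (f s : WW (Eu n)))
      (fun r hr => (hcd r (hb r (hsub hr)).1).contDiffWithinAt) hst).trans_eq ?_
    apply setLIntegral_congr_fun measurableSet_Icc
    intro r hr
    have h1 := ((hcd r (hb r (hsub hr)).1).differentiableAt one_ne_zero).hasDerivAt
    have h2 : γ =ᶠ[𝓝 r] fun s => pr c p (f s) := by
      filter_upwards [isOpen_ball.mem_nhds (hsub hr)] with s hs
      exact (hpr s hs).symm
    simp only
    rw [speed_congr c p h2, speed_pr c p h1, ofReal_norm]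

theorem exists_lift_le {γ : ℝ → Lens c p} (hγ : ContMDiff 𝓘(ℝ, ℝ) (𝓡 n) 1 γ) {ε : ℝ}
    (hε : 0 < ε) (h1 : ε ≤ 1) (x : sphere (0 : WW (Eu n)) 1) (hx : pr c p x = γ 0) :
    ∃ y, pr c p y = γ 1 ∧
      ENNReal.ofReal ((1 - ε) * angle (x : WW (Eu n)) y) ≤ len c p γ 0 1 := by
  refine local_to_global (fun s t => ∀ x : sphere (0 : WW (Eu n)) 1, pr c p x = γ s →
    ∃ y, pr c p y = γ t ∧ ENNReal.ofReal ((1 - ε) * angle (x : WW (Eu n)) y) ≤ len c p γ s t)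
    ?_ ?_ x hx
  · intro s t u hst htu h2 h3 x hx
    obtain ⟨y, hy, h4⟩ := h2 x hx
    obtain ⟨z, hz, h5⟩ := h3 y hy
    refine ⟨z, hz, ?_⟩
    rw [← len_add c p γ hst htu]
    refine le_trans ?_ (add_le_add h4 h5)
    refine le_trans ?_ ENNReal.ofReal_add_le
    apply ENNReal.ofReal_le_ofReal
    rw [← mul_add]
    exact mul_le_mul_of_nonneg_left (angle_le_angle_add_angle _ _ _) (by linarith)
  · intro t₀
    obtain ⟨δ, hδ, f, h2, h3, h4⟩ := local_lift c p hγ t₀ hε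
    refine ⟨δ, hδ, fun s hs t ht hst x hx => ?_⟩
    obtain ⟨ζ, hζ, h5⟩ := (pr_eq_iff c p).1 ((h2 s hs).trans hx.symm)
    refine ⟨act c hζ (f t), (pr_act c hζ _).trans (h2 t ht), ?_⟩
    refine le_trans ?_ (h4 s hs t ht hst)
    rw [← ofReal_norm, h5]
    apply ENNReal.ofReal_le_ofReal
    change (1 - ε) * angle (c.sm ζ (f s)) (c.sm ζ (f t)) ≤ _
    rw [angle_sm c hζ, norm_sub_rev]
    exact angle_le_chord (norm_coe _) (norm_coe _) h1 (h3 s hs t ht)

/-- `y` is a nearest point of its orbit to `x` -/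
def Near {W : Type} [NormedAddCommGroup W] [InnerProductSpace ℝ W] (c : CS W) (p : ℕ)
    (x y : W) : Prop :=
  ∀ ζ : ℂ, ζ ^ p = 1 → (ζ * c.hh x y).re ≤ (c.hh x y).re

theorem angle_le_len {γ : ℝ → Lens c p} (hγ : ContMDiff 𝓘(ℝ, ℝ) (𝓡 n) 1 γ)
    {x y : sphere (0 : WW (Eu n)) 1} (hx : γ 0 = pr c p x) (hy : γ 1 = pr c p y)
    (h : Near c p (x : WW (Eu n)) y) :
    ENNReal.ofReal (angle (x : WW (Eu n)) y) ≤ len c p γ 0 1 := by
  have h1 : Tendsto (fun ε : ℝ => ENNReal.ofReal ((1 - ε) * angle (x : WW (Eu n)) y)) (𝓝[>] 0)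
      (𝓝 (ENNReal.ofReal ((1 - 0) * angle (x : WW (Eu n)) y))) := by
    apply Tendsto.mono_left _ nhdsWithin_le_nhds
    exact (ENNReal.continuous_ofReal.comp (by fun_prop)).tendsto 0
  rw [sub_zero, one_mul] at h1
  refine le_of_tendsto h1 ?_
  filter_upwards [Ioc_mem_nhdsGT zero_lt_one] with ε hε
  obtain ⟨z, hz, h2⟩ := exists_lift_le c p hγ hε.1 hε.2 x hx.symm
  refine le_trans (ENNReal.ofReal_le_ofReal ?_) h2
  refine mul_le_mul_of_nonneg_left ?_ (by linarith [hε.2])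
  obtain ⟨ζ, hζ, h3⟩ := (pr_eq_iff c p).1 (hz.trans hy).symm
  have h4 := h ζ hζ
  rw [← c.hh_sm_right, ← h3, CS.hh_re, CS.hh_re] at h4
  simp only [angle, norm_coe, mul_one, div_one]
  exact Real.arccos_le_arccos h4

/-- the great arc -/
noncomputable def arcF {W : Type} [NormedAddCommGroup W] [InnerProductSpace ℝ W]
    (x v : W) (θ t : ℝ) : W := Real.cos (t * θ) • x + Real.sin (t * θ) • v

section Arc

variable {W : Type} [NormedAddCommGroup W] [InnerProductSpace ℝ W]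

theorem norm_comb {x v : W} (hx : ‖x‖ = 1) (hv : ‖v‖ = 1) (h : ⟪x, v⟫ = 0) (a b : ℝ) :
    ‖a • x + b • v‖ ^ 2 = a ^ 2 + b ^ 2 := by
  rw [norm_add_sq_real, norm_smul, norm_smul, hx, hv, inner_smul_left, inner_smul_right, h]
  simp

theorem norm_arcF {x v : W} (hx : ‖x‖ = 1) (hv : ‖v‖ = 1) (h : ⟪x, v⟫ = 0) (θ t : ℝ) :
    ‖arcF x v θ t‖ = 1 := by
  have h1 := norm_comb hx hv h (Real.cos (t * θ)) (Real.sin (t * θ))
  rw [Real.cos_sq_add_sin_sq] at h1
  exact (pow_eq_one_iff_of_nonneg (norm_nonneg _) two_ne_zero).1 h1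

theorem contDiff_arcF {k : WithTop ℕ∞} (x v : W) (θ : ℝ) : ContDiff ℝ k (arcF x v θ) := by
  unfold arcF
  fun_prop

theorem hasDerivAt_arcF (x v : W) (θ t : ℝ) : HasDerivAt (arcF x v θ)
    ((-Real.sin (t * θ) * θ) • x + (Real.cos (t * θ) * θ) • v) t := by
  have h1 : HasDerivAt (fun t : ℝ => t * θ) θ t := by simpa using (hasDerivAt_id t).mul_const θ
  exact (h1.cos.smul_const x).add (h1.sin.smul_const v)

theorem exists_dir (c : CS W) {x y : W} (hx : ‖x‖ = 1) (hy : ‖y‖ = 1) :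
    ∃ v : W, ‖v‖ = 1 ∧ ⟪x, v⟫ = 0 ∧ arcF x v (angle x y) 1 = y := by
  have hc := inner_eq_cos_angle_of_norm_eq_one hx hy
  set w := y - Real.cos (angle x y) • x with hw
  have hxw : ⟪x, w⟫ = 0 := by
    rw [hw, inner_sub_right, inner_smul_right, real_inner_self_eq_norm_sq, hx, hc]; ring
  have hn : ‖w‖ = Real.sin (angle x y) := by
    have h1 : ‖w‖ ^ 2 = Real.sin (angle x y) ^ 2 := by
      rw [hw, norm_sub_sq_real, inner_smul_right, real_inner_comm, hc, norm_smul, hx, hy,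
        Real.sin_sq, Real.norm_eq_abs, mul_one, sq_abs]
      ring
    exact (pow_left_inj₀ (norm_nonneg _) (sin_angle_nonneg x y) two_ne_zero).1 h1
  by_cases h0 : w = 0
  · refine ⟨c.J x, ?_, ?_, ?_⟩
    · have h1 := c.inner_J x x
      rw [real_inner_self_eq_norm_sq, real_inner_self_eq_norm_sq, hx] at h1
      exact (pow_left_inj₀ (norm_nonneg _) zero_le_one two_ne_zero).1 h1
    · rw [real_inner_comm, c.inner_J_self]
    · rw [arcF, one_mul, ← hn, h0, norm_zero, zero_smul, add_zero]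
      exact (sub_eq_zero.1 h0).symm
  · have h1 : ‖w‖ ≠ 0 := norm_ne_zero_iff.2 h0
    refine ⟨‖w‖⁻¹ • w, ?_, ?_, ?_⟩
    · rw [norm_smul, norm_inv, norm_norm, inv_mul_cancel₀ h1]
    · rw [inner_smul_right, hxw, mul_zero]
    · rw [arcF, one_mul, ← hn, smul_smul, mul_inv_cancel₀ h1, one_smul, hw]
      abel

end Arc

theorem exists_geodesic {x y : sphere (0 : WW (Eu n)) 1} (h : Near c p (x : WW (Eu n)) y) :
    ∃ f : ℝ → sphere (0 : WW (Eu n)) 1, Continuous f ∧ f 0 = x ∧ f 1 = y ∧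
      IsMinGeodesic (lensRM c p) (pr c p x) (pr c p y) (fun t => pr c p (f t)) := by
  obtain ⟨v, hv, hxv, h1⟩ := exists_dir c (norm_coe x) (norm_coe y)
  set θ := angle (x : WW (Eu n)) y with hθ
  let f : ℝ → sphere (0 : WW (Eu n)) 1 := fun t =>
    ⟨arcF (x : WW (Eu n)) v θ t, by
      rw [mem_sphere_zero_iff_norm]; exact norm_arcF (norm_coe x) hv hxv θ t⟩
  have hf0 : f 0 = x := Subtype.ext (by simp [f, arcF])
  have hf1 : f 1 = y := Subtype.ext h1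
  have hsm : ∀ k : WithTop ℕ∞, ContMDiff 𝓘(ℝ, ℝ) (𝓡 n) k (fun t => pr c p (f t)) := fun k t =>
    contMDiffAt_pr_comp c p (f := f) (contDiff_arcF _ _ _).contDiffAt
  have hsp : ∀ t, speed (lensRM c p) (fun t => pr c p (f t)) t = θ := by
    intro t
    rw [speed_pr c p (f := f) (hasDerivAt_arcF _ v θ t)]
    have h2 := norm_comb (norm_coe x) hv hxv (-Real.sin (t * θ) * θ) (Real.cos (t * θ) * θ)
    have h3 : (-Real.sin (t * θ) * θ) ^ 2 + (Real.cos (t * θ) * θ) ^ 2 = θ ^ 2 := by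
      have := Real.sin_sq_add_cos_sq (t * θ)
      linear_combination θ ^ 2 * this
    rw [h3] at h2
    exact (pow_left_inj₀ (norm_nonneg _) (angle_nonneg _ _) two_ne_zero).1 h2
  refine ⟨f, (contDiff_arcF (k := 0) _ _ _).continuous.subtype_mk _, hf0, hf1, hsm ∞,
    by simp only [hf0], by simp only [hf1], fun t _ => ?_⟩
  rw [hsp]
  apply le_antisymm
  · refine le_iInf₂ fun γ hγ => ?_
    exact angle_le_len c p hγ.1 hγ.2.1 hγ.2.2 h
  · refine (iInf₂_le (fun t => pr c p (f t)) ⟨hsm 1, by simp only [hf0], by simp only [hf1]⟩).trans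
      ?_
    simp [hsp]

end Pool.Agent.H253Z.Gu
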