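import Mathlib
import Pool.Agent.H253Z.GuE

set_option autoImplicit false
set_option linter.unusedSectionVars false
set_option maxHeartbeats 400000

open scoped RealInnerProductSpace Topology ComplexConjugate Manifold ContDiff ENNReal
open Set Metric Filter

namespace Pool.Agent.H253Z.Gu

section Gen

variable {W : Type} [NormedAddCommGroup W] [InnerProductSpace ℝ W] (c : CS W)

theorem exists_near (p : ℕ) [NeZero p] (x y : W) :
    ∃ ζ : ℂ, ζ ^ p = 1 ∧ Near c p x (c.sm ζ y) := by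
  obtain ⟨ζ, hζ, h⟩ := (roots p).exists_max_image (fun ζ => (ζ * c.hh x y).re)
    ⟨1, mem_roots.2 (one_pow _)⟩
  refine ⟨ζ, mem_roots.1 hζ, fun ξ hξ => ?_⟩
  rw [c.hh_sm_right, ← mul_assoc]
  exact h _ (mem_roots.2 (by rw [mul_pow, hξ, mem_roots.1 hζ, one_mul]))

/-- strictly nearest point -/
def SN (p : ℕ) (x y : W) : Prop :=
  ∀ ζ : ℂ, ζ ^ p = 1 → ζ ≠ 1 → (ζ * c.hh x y).re < (c.hh x y).re

theorem SN.near {p : ℕ} {x y : W} (h : SN c p x y) : Near c p x y := by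
  intro ζ hζ
  by_cases h1 : ζ = 1
  · rw [h1, one_mul]
  · exact (h ζ hζ h1).le

theorem eq_one_of_SN {p : ℕ} [NeZero p] {x y : W} {ζ : ℂ} (hζ : ζ ^ p = 1) (h : Near c p x y)
    (h' : SN c p x (c.sm ζ y)) : ζ = 1 := by
  by_contra hne
  have h1 : conj ζ ≠ 1 := by
    intro h2
    apply hne
    rw [← Complex.conj_conj ζ, h2, map_one]
  have h2 := h' _ (conj_pow_eq hζ) h1
  rw [c.hh_sm_right, ← mul_assoc, conj_mul_self_eq hζ, one_mul] at h2
  exact absurd (h ζ hζ) (not_le.2 h2)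

theorem SN.eventually {p : ℕ} [NeZero p] {f : ℝ → W} (hf : Continuous f) {t : ℝ} {z : W}
    (h : SN c p (f t) z) : ∀ᶠ s in 𝓝 t, SN c p (f s) z := by
  have h1 : Continuous fun s => c.hh (f s) z :=
    c.continuous_hh.comp (hf.prodMk continuous_const)
  have h2 : ∀ᶠ s in 𝓝 t, ∀ ζ ∈ roots p, ζ ≠ 1 →
      (ζ * c.hh (f s) z).re < (c.hh (f s) z).re := by
    rw [Finset.eventually_all]
    intro ζ hζ
    by_cases h3 : ζ = 1
    · exact Eventually.of_forall fun s h4 => absurd h3 h4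
    · have h4 : ContinuousAt (fun s => (ζ * c.hh (f s) z).re) t :=
        (Complex.continuous_re.comp (continuous_const.mul h1)).continuousAt
      have h5 : ContinuousAt (fun s => (c.hh (f s) z).re) t :=
        (Complex.continuous_re.comp h1).continuousAt
      filter_upwards [h4.eventually_lt h5 (h ζ (mem_roots.1 hζ) h3)] with s hs _
      exact hs
  filter_upwards [h2] with s hs ζ hζ
  exact hs ζ (mem_roots.2 hζ)

/-- imaginary part of the triple product -/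
noncomputable def FF (x y z : W) : ℝ := (c.hh x y * c.hh y z * c.hh z x).im

theorem FF_sm {p : ℕ} [NeZero p] {ζ ξ : ℂ} (hζ : ζ ^ p = 1) (hξ : ξ ^ p = 1) (x y z : W) :
    FF c x (c.sm ζ y) (c.sm ξ z) = FF c x y z := by
  simp only [FF, c.hh_sm_left, c.hh_sm_right]
  congr 1
  have h1 := conj_mul_self_eq hζ
  have h2 := conj_mul_self_eq hξ
  linear_combination (c.hh x y * c.hh y z * c.hh z x * (conj ξ * ξ)) * h1
    + (c.hh x y * c.hh y z * c.hh z x) * h2

theorem continuous_FF : Continuous (fun q : W × W × W => FF c q.1 q.2.1 q.2.2) := by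
  unfold FF
  have h := c.continuous_hh
  refine Complex.continuous_im.comp (Continuous.mul (Continuous.mul ?_ ?_) ?_)
  · exact h.comp (f := fun q : W × W × W => (q.1, q.2.1)) (by fun_prop)
  · exact h.comp (f := fun q : W × W × W => (q.2.1, q.2.2)) (by fun_prop)
  · exact h.comp (f := fun q : W × W × W => (q.2.2, q.1)) (by fun_prop)

/-- triples with small invariant -/
def FS (r : ℝ) : Set (sphere (0 : W) 1 × sphere (0 : W) 1 × sphere (0 : W) 1) :=
  {q | |FF c (q.1 : W) q.2.1 q.2.2| ≤ r}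

theorem isClosed_FS (r : ℝ) : IsClosed (FS c r) := by
  refine isClosed_le (Continuous.abs ?_) continuous_const
  exact (continuous_FF c).comp (f := fun q : sphere (0 : W) 1 ×
    sphere (0 : W) 1 × sphere (0 : W) 1 => ((q.1 : W), (q.2.1 : W), (q.2.2 : W))) (by fun_prop)

theorem FF_closure {A : Set (sphere (0 : W) 1)} {r : ℝ}
    (h : ∀ x ∈ A, ∀ y ∈ A, ∀ z ∈ A, |FF c (x : W) y z| ≤ r) {x y z : sphere (0 : W) 1}
    (hx : x ∈ closure A) (hy : y ∈ closure A) (hz : z ∈ closure A) : |FF c (x : W) y z| ≤ r := by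
  have h2 : (x, y, z) ∈ closure (A ×ˢ A ×ˢ A) := by
    rw [closure_prod_eq, closure_prod_eq]
    exact ⟨hx, hy, hz⟩
  have h4 : A ×ˢ A ×ˢ A ⊆ FS c r := by
    rintro ⟨a, b, d⟩ ⟨ha, hb, hd⟩
    exact h a ha b hb d hd
  exact closure_minimal h4 (isClosed_FS c r) h2

theorem abs_im_mul_le (u v : ℂ) : |(u * v).im| ≤ ‖u‖ * |v.im| + |u.im| * ‖v‖ := by
  rw [Complex.mul_im]
  refine (abs_add_le _ _).trans ?_
  rw [abs_mul, abs_mul]
  gcongr
  · exact Complex.abs_re_le_norm u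
  · exact Complex.abs_re_le_norm v

theorem abs_im_triple {u v w : ℂ} {ε : ℝ} (hu : ‖u‖ ≤ 1) (hv : ‖v‖ ≤ 1) (hw : ‖w‖ ≤ 1)
    (iu : |u.im| ≤ ε) (iv : |v.im| ≤ ε) (iw : |w.im| ≤ ε) : |(u * v * w).im| ≤ 3 * ε := by
  have h1 := abs_im_mul_le u v
  have h2 := abs_im_mul_le (u * v) w
  have h3 : ‖u * v‖ ≤ 1 := by rw [norm_mul]; exact mul_le_one₀ hu (norm_nonneg _) hv
  have h4 : ‖u‖ * |v.im| ≤ |v.im| := mul_le_of_le_one_left (abs_nonneg _) hu
  have h5 : |u.im| * ‖v‖ ≤ |u.im| := mul_le_of_le_one_right (abs_nonneg _) hv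
  have h6 : ‖u * v‖ * |w.im| ≤ |w.im| := mul_le_of_le_one_left (abs_nonneg _) h3
  have h7 : |(u * v).im| * ‖w‖ ≤ |(u * v).im| := mul_le_of_le_one_right (abs_nonneg _) hw
  linarith

theorem abs_im_le_of_near {p : ℕ} (hp : 4 ≤ p) {h : ℂ} (h1 : ‖h‖ ≤ 1)
    (h2 : ∀ ζ : ℂ, ζ ^ p = 1 → (ζ * h).re ≤ h.re) : |h.im| ≤ 8 / p := by
  have hp' : (4 : ℝ) ≤ p := by exact_mod_cast hp
  set α : ℝ := 2 * Real.pi / p with hα
  have hα0 : 0 < α := by have := Real.pi_pos; positivity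
  have hα1 : α ≤ Real.pi / 2 := by
    rw [hα, div_le_div_iff₀ (by linarith) two_pos]
    nlinarith [Real.pi_pos]
  have hα2 : α ≤ 8 / p := by
    rw [hα]; gcongr; linarith [Real.pi_le_four]
  have hζ : Complex.exp (α * Complex.I) ^ p = 1 := by
    rw [← Complex.exp_nat_mul, hα]
    have : (p : ℂ) ≠ 0 := by exact_mod_cast (show p ≠ 0 by omega)
    rw [← Complex.exp_two_pi_mul_I]
    congr 1
    push_cast
    field_simp
  have h3 := h2 _ hζ
  have h4 := h2 _ (conj_pow_eq hζ)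
  simp only [Complex.mul_re, Complex.conj_re, Complex.conj_im, Complex.exp_ofReal_mul_I_re,
    Complex.exp_ofReal_mul_I_im] at h3 h4
  have h5 := Real.mul_le_sin hα0.le hα1
  have h6 := Real.one_sub_sq_div_two_le_cos (x := α)
  have h7 : h.re ≤ 1 := (Complex.re_le_norm h).trans h1
  have h8 : |h.im| * Real.sin α ≤ h.re * (1 - Real.cos α) := by
    rcases abs_cases h.im with h9 | h9 <;> rw [h9.1] <;> linarith
  have h9 : 0 ≤ 1 - Real.cos α := by linarith [Real.cos_le_one α]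
  have h10 : h.re * (1 - Real.cos α) ≤ α ^ 2 / 2 := by nlinarith
  have h11 : α / 2 ≤ Real.sin α := by
    refine le_trans ?_ h5
    have : 1 / 2 ≤ 2 / Real.pi := by
      rw [div_le_div_iff₀ two_pos Real.pi_pos]; linarith [Real.pi_le_four]
    nlinarith
  have h12 : |h.im| * (α / 2) ≤ α * (α / 2) := by
    have := mul_le_mul_of_nonneg_left h11 (abs_nonneg h.im)
    nlinarith
  exact (le_of_mul_le_mul_right h12 (by positivity)).trans hα2

end Gen

variable {n : ℕ} (c : CS (WW (Eu n))) (p : ℕ) [NeZero p] {Γ : Set (Lens c p)}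

theorem SN_of_near (hΓ : GeodConvex (lensRM c p) Γ) {x y : sphere (0 : WW (Eu n)) 1}
    (hx : pr c p x ∈ Γ) (hy : pr c p y ∈ Γ) (h : Near c p (x : WW (Eu n)) y) :
    SN c p (x : WW (Eu n)) y := by
  intro ζ hζ hne
  by_contra hlt
  have h1 : Near c p (x : WW (Eu n)) (act c hζ y) := by
    intro ξ hξ
    change (ξ * c.hh x (c.sm ζ y)).re ≤ (c.hh x (c.sm ζ y)).re
    rw [c.hh_sm_right, ← mul_assoc]
    exact (h _ (by rw [mul_pow, hξ, hζ, one_mul])).trans (not_lt.1 hlt)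
  obtain ⟨f, hf, f0, f1, hg⟩ := exists_geodesic c p h
  obtain ⟨f', hf', f0', f1', hg'⟩ := exists_geodesic c p h1
  rw [pr_act] at hg'
  obtain ⟨γ, -, -, hu⟩ := hΓ _ hx _ hy
  have h2 : MapsTo (fun t => c.hh (f t) (f' t)) (Icc (0 : ℝ) 1) (roots p : Set ℂ) := by
    intro t ht
    exact mem_roots.2 ((pr_eq_iff_hh c p).1 ((hu _ hg ht).trans (hu _ hg' ht).symm))
  have h3 : Continuous fun t => c.hh (f t) (f' t) :=
    c.continuous_hh.comp ((continuous_subtype_val.comp hf).prodMk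
      (continuous_subtype_val.comp hf'))
  have h4 := isPreconnected_Icc.constant_of_mapsTo (roots p).finite_toSet.isDiscrete
    h3.continuousOn h2 (x := 0) (y := 1) ⟨le_rfl, zero_le_one⟩ ⟨zero_le_one, le_rfl⟩
  simp only [f0, f1, f0', f1'] at h4
  change c.hh x x = c.hh y (c.sm ζ y) at h4
  rw [c.hh_sm_right, c.hh_self, c.hh_self, norm_coe, norm_coe] at h4
  apply hne
  simpa using h4.symm

theorem near_trans (hΓ : GeodConvex (lensRM c p) Γ) {x y z : sphere (0 : WW (Eu n)) 1}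
    (hx : pr c p x ∈ Γ) (hy : pr c p y ∈ Γ) (hz : pr c p z ∈ Γ)
    (h : Near c p (x : WW (Eu n)) y) (h' : Near c p (x : WW (Eu n)) z) :
    Near c p (y : WW (Eu n)) z := by
  obtain ⟨f, hf, f0, f1, hg⟩ := exists_geodesic c p h
  obtain ⟨γ, -, hin, hu⟩ := hΓ _ hx _ hy
  have hmem : ∀ t ∈ Icc (0 : ℝ) 1, pr c p (f t) ∈ Γ := fun t ht => by
    have : pr c p (f t) = γ t := hu _ hg ht
    rw [this]; exact hin t ht
  have key := (isPreconnected_Icc (a := (0 : ℝ)) (b := 1)).induction₂'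
    (fun s t => Near c p (f s : WW (Eu n)) z → Near c p (f t : WW (Eu n)) z) (x := (0 : ℝ))
    (y := (1 : ℝ)) ?_ (fun _ _ _ _ _ _ h1 h2 h => h2 (h1 h))
    ⟨le_rfl, zero_le_one⟩ ⟨zero_le_one, le_rfl⟩
  · rw [f0, f1] at key
    exact key h'
  · intro t ht
    obtain ⟨ζ, hζ, h1⟩ := exists_near c p (f t : WW (Eu n)) z
    have h2 : SN c p (f t : WW (Eu n)) (c.sm ζ z) :=
      SN_of_near c p hΓ (y := act c hζ z) (hmem t ht) (by rwa [pr_act]) h1
    have h3 := SN.eventually c (f := fun s => (f s : WW (Eu n)))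
      (continuous_subtype_val.comp hf) h2
    filter_upwards [mem_nhdsWithin_of_mem_nhds h3] with s hs
    constructor
    · intro h4
      have h5 := eq_one_of_SN c hζ h4 h2
      rw [h5, c.sm_one] at hs
      exact hs.near
    · intro h4
      have h5 := eq_one_of_SN c hζ h4 hs
      rw [h5, c.sm_one] at h2
      exact h2.near

theorem FF_le (hp : 4 ≤ p) (hΓ : GeodConvex (lensRM c p) Γ) {x y z : sphere (0 : WW (Eu n)) 1}
    (hx : pr c p x ∈ Γ) (hy : pr c p y ∈ Γ) (hz : pr c p z ∈ Γ) :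
    |FF c (x : WW (Eu n)) y z| ≤ 3 * (8 / p) := by
  obtain ⟨ζ, hζ, h1⟩ := exists_near c p (x : WW (Eu n)) y
  obtain ⟨ξ, hξ, h2⟩ := exists_near c p (x : WW (Eu n)) z
  have h3 := near_trans c p hΓ (y := act c hζ y) (z := act c hξ z) hx (by rwa [pr_act])
    (by rwa [pr_act]) h1 h2
  rw [← FF_sm c hζ hξ]
  have hn : ∀ a b : sphere (0 : WW (Eu n)) 1, ‖c.hh a b‖ ≤ 1 := fun a b => by
    have := c.norm_hh_le a b
    rwa [norm_coe, norm_coe, mul_one] at this
  refine abs_im_triple (hn x (act c hζ y)) (hn (act c hζ y) (act c hξ z)) (hn (act c hξ z) x)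
    (abs_im_le_of_near hp (hn x (act c hζ y)) h1)
    (abs_im_le_of_near hp (hn (act c hζ y) (act c hξ z)) h3) ?_
  rw [c.hh_symm, Complex.conj_im, abs_neg]
  exact abs_im_le_of_near hp (hn x (act c hξ z)) h2

theorem FF_le_closure (hp : 4 ≤ p) (hΓ : GeodConvex (lensRM c p) Γ)
    {x y z : sphere (0 : WW (Eu n)) 1}
    (hx : pr c p x ∈ closure Γ) (hy : pr c p y ∈ closure Γ) (hz : pr c p z ∈ closure Γ) :
    |FF c (x : WW (Eu n)) y z| ≤ 3 * (8 / p) := by
  have h1 := (isOpenMap_pr c p).preimage_closure_eq_closure_preimage (continuous_pr c p) Γ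
  refine FF_closure c (A := pr c p ⁻¹' Γ) (fun a ha b hb d hd => FF_le c p hp hΓ ha hb hd)
    ?_ ?_ ?_
  · rw [← h1]; exact hx
  · rw [← h1]; exact hy
  · rw [← h1]; exact hz

end Pool.Agent.H253Z.Gu
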