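import Mathlib
import Pool.Agent.H253Z.GuF

set_option autoImplicit false
set_option linter.unusedSectionVars false
set_option maxHeartbeats 400000

open scoped RealInnerProductSpace Topology ComplexConjugate Manifold ContDiff ENNReal Pointwise
open Set Metric Filter MeasureTheory

namespace Pool.Agent.H253Z.Gu

theorem null_of_lines {V : Type} [NormedAddCommGroup V] [NormedSpace ℝ V]
    [SecondCountableTopology V] [MeasurableSpace V] [BorelSpace V] (ν : Measure V) [SFinite ν]
    [ν.IsAddRightInvariant] {S : Set V} (hS : MeasurableSet S) (v : V)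
    (h : ∀ z, ∀ᵐ t : ℝ, z + t • v ∉ S) : ν S = 0 := by
  have hm : MeasurableSet {x : V × ℝ | x.1 + x.2 • v ∉ S} := by
    have : Measurable fun x : V × ℝ => x.1 + x.2 • v := by fun_prop
    exact this hS.compl
  have h1 := (Measure.ae_ae_comm (μ := ν) (ν := (volume : Measure ℝ))
    (p := fun z t => z + t • v ∉ S) hm).1 (Eventually.of_forall h)
  obtain ⟨t, ht⟩ := h1.exists
  rw [← measure_preimage_add_right ν (t • v) S]
  rw [ae_iff] at ht
  simp only [not_not] at ht
  exact ht

section Gen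

variable {W : Type} [NormedAddCommGroup W] [InnerProductSpace ℝ W] (c : CS W)

theorem hh_smul (a b : ℝ) (x y : W) : c.hh (a • x) (b • y) = ((a * b : ℝ) : ℂ) * c.hh x y := by
  apply Complex.ext
  · rw [Complex.re_ofReal_mul]
    simp only [CS.hh_re, inner_smul_left, inner_smul_right, conj_trivial]; ring
  · rw [Complex.im_ofReal_mul]
    simp only [CS.hh_im, map_smul, inner_smul_left, inner_smul_right, conj_trivial]; ring

theorem FF_smul (a b d : ℝ) (x y z : W) :
    FF c (a • x) (b • y) (d • z) = (a * b * d) ^ 2 * FF c x y z := by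
  simp only [FF, hh_smul]
  rw [← Complex.im_ofReal_mul]
  congr 1
  push_cast
  ring

theorem contDiff_hh {F : Type} [NormedAddCommGroup F] [NormedSpace ℝ F] {f g : F → W}
    (hf : ContDiff ℝ ω f) (hg : ContDiff ℝ ω g) : ContDiff ℝ ω (fun t => c.hh (f t) (g t)) := by
  have : (fun t => c.hh (f t) (g t)) = fun t => Complex.ofRealCLM ⟪f t, g t⟫ +
      Complex.ofRealCLM ⟪c.J (f t), g t⟫ * Complex.I := by
    funext q
    apply Complex.ext <;> simp
  rw [this]
  exact (Complex.ofRealCLM.contDiff.comp (hf.inner ℝ hg)).add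
    ((Complex.ofRealCLM.contDiff.comp ((c.J.contDiff.comp hf).inner ℝ hg)).mul contDiff_const)

theorem ae_FF_ne {v : W × W × W} (hv : FF c v.1 v.2.1 v.2.2 ≠ 0) (z : W × W × W) :
    ∀ᵐ t : ℝ, FF c (z + t • v).1 (z + t • v).2.1 (z + t • v).2.2 ≠ 0 := by
  have h0 : ContDiff ℝ ω (fun t : ℝ => z + t • v) := by fun_prop
  have h1 : ContDiff ℝ ω (fun t : ℝ => (z + t • v).1) := h0.fst
  have h2 : ContDiff ℝ ω (fun t : ℝ => (z + t • v).2.1) := h0.snd.fst
  have h3 : ContDiff ℝ ω (fun t : ℝ => (z + t • v).2.2) := h0.snd.snd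
  have h4 : ContDiff ℝ ω (fun t : ℝ => FF c (z + t • v).1 (z + t • v).2.1 (z + t • v).2.2) :=
    Complex.imCLM.contDiff.comp
      (((contDiff_hh c h1 h2).mul (contDiff_hh c h2 h3)).mul (contDiff_hh c h3 h1))
  rcases (h4.analyticOnNhd (s := univ)).eqOn_zero_or_eventually_ne_zero_of_preconnected
    isPreconnected_univ with h | h
  · exfalso
    apply hv
    have h5 : Continuous fun s : ℝ => FF c (s • z + v).1 (s • z + v).2.1 (s • z + v).2.2 :=
      (continuous_FF c).comp (f := fun s : ℝ => s • z + v) (by fun_prop)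
    have h6 : ∀ s : ℝ, s ≠ 0 → FF c (s • z + v).1 (s • z + v).2.1 (s • z + v).2.2 = 0 := by
      intro s hs
      have h7 : s • z + v = s • (z + s⁻¹ • v) := by
        rw [smul_add, smul_smul, mul_inv_cancel₀ hs, one_smul]
      have h8 : FF c (z + s⁻¹ • v).1 (z + s⁻¹ • v).2.1 (z + s⁻¹ • v).2.2 = 0 := h (mem_univ s⁻¹)
      rw [h7]
      change FF c (s • (z + s⁻¹ • v).1) (s • (z + s⁻¹ • v).2.1) (s • (z + s⁻¹ • v).2.2) = 0
      rw [FF_smul, h8, mul_zero]
    have h9 := h5.ext_on (dense_compl_singleton (0 : ℝ)) continuous_const h6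
    have h10 := congrFun h9 0
    simpa using h10
  · have := ae_restrict_le_codiscreteWithin (μ := (volume : Measure ℝ)) MeasurableSet.univ h
    rwa [Measure.restrict_univ] at this

theorem exists_FF_ne [FiniteDimensional ℝ W] (h : 3 ≤ Module.finrank ℝ W) :
    ∃ v : W × W × W, FF c v.1 v.2.1 v.2.2 ≠ 0 := by
  have : Nontrivial W := Module.nontrivial_of_finrank_pos (R := ℝ) (by omega)
  obtain ⟨x, hx⟩ := exists_norm_eq W zero_le_one
  have h1 : Module.finrank ℝ (Submodule.span ℝ (range ![x, c.J x])) ≤ 2 := by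
    have := finrank_range_le_card (R := ℝ) ![x, c.J x]
    rwa [Fintype.card_fin] at this
  have h2 := Submodule.finrank_add_finrank_orthogonal (Submodule.span ℝ (range ![x, c.J x]))
  have : Nontrivial (Submodule.span ℝ (range ![x, c.J x]))ᗮ :=
    Module.nontrivial_of_finrank_pos (R := ℝ) (by omega)
  obtain ⟨y, hy⟩ := exists_norm_eq (Submodule.span ℝ (range ![x, c.J x]))ᗮ zero_le_one
  have h3 : ⟪x, (y : W)⟫ = 0 :=
    Submodule.inner_right_of_mem_orthogonal (Submodule.subset_span (mem_range_self (f := ![x, c.J x]) 0)) y.2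
  have h4 : ⟪c.J x, (y : W)⟫ = 0 :=
    Submodule.inner_right_of_mem_orthogonal (Submodule.subset_span (mem_range_self (f := ![x, c.J x]) 1)) y.2
  have hy' : ‖(y : W)‖ = 1 := hy
  have hxx : ⟪x, x⟫ = 1 := by rw [real_inner_self_eq_norm_sq, hx]; norm_num
  have hyy : ⟪(y : W), y⟫ = 1 := by rw [real_inner_self_eq_norm_sq, hy']; norm_num
  have h5 : ⟪x, c.J y⟫ = 0 := by have := c.inner_J_left x y; linarith
  have h6 : ⟪(y : W), c.J y⟫ = 0 := by rw [real_inner_comm, c.inner_J_self]
  have h7 : ⟪(y : W), x⟫ = 0 := by rw [real_inner_comm, h3]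
  have h8 : ⟪c.J y, x⟫ = 0 := by rw [real_inner_comm, h5]
  have e1 : c.hh x (x + y) = 1 := by
    apply Complex.ext
    · rw [CS.hh_re, inner_add_right, hxx, h3]; simp
    · rw [CS.hh_im, inner_add_right, c.inner_J_self, h4]; simp
  have e2 : c.hh (x + y) (x + c.J y) = 1 + Complex.I := by
    apply Complex.ext
    · rw [CS.hh_re, inner_add_right, inner_add_left, inner_add_left, hxx, h5, h6, h7]; simp
    · rw [CS.hh_im, map_add, inner_add_right, inner_add_left, inner_add_left, c.inner_J_self,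
        c.inner_J, c.inner_J, h8, h3, hyy]; simp
  have e3 : c.hh (x + c.J y) x = 1 := by
    apply Complex.ext
    · rw [CS.hh_re, inner_add_left, hxx, h8]; simp
    · rw [CS.hh_im, map_add, inner_add_left, c.inner_J_self, c.JJ, inner_neg_left, h7]; simp
  refine ⟨(x, x + y, x + c.J y), ?_⟩
  simp [FF, e1, e2, e3]

variable [FiniteDimensional ℝ W] [MeasurableSpace W] [BorelSpace W]

theorem exists_small (h : 3 ≤ Module.finrank ℝ W) {η : ℝ≥0∞} (hη : 0 < η) :
    ∃ τ : ℝ, 0 < τ ∧ ∀ C : Set W, C ⊆ closedBall 0 1 →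
      (∀ x ∈ C, ∀ y ∈ C, ∀ z ∈ C, |FF c x y z| ≤ τ) → volume C ^ 3 < η := by
  set ν : Measure (W × W × W) := (volume : Measure W).prod
    ((volume : Measure W).prod (volume : Measure W)) with hν
  set T : ℝ → Set (W × W × W) := fun τ => {q | |FF c q.1 q.2.1 q.2.2| ≤ τ} ∩ closedBall 0 1
    with hT
  have hcl : ∀ τ, IsClosed (T τ) := fun τ =>
    (isClosed_le (continuous_FF c).abs continuous_const).inter isClosed_closedBall
  have h1 := tendsto_measure_biInter_gt (μ := ν) (s := T) (a := 0)
    (fun r _ => (hcl r).measurableSet.nullMeasurableSet)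
    (fun i j _ hij q hq => ⟨le_trans hq.1 hij, hq.2⟩)
    ⟨1, one_pos, ((measure_mono inter_subset_right).trans_lt measure_closedBall_lt_top).ne⟩
  have h2 : ν (⋂ r > (0 : ℝ), T r) = 0 := by
    obtain ⟨v, hv⟩ := exists_FF_ne c h
    have i1 : MeasurableAdd (W × W) := inferInstance
    have i2 : ((volume : Measure W).prod (volume : Measure W)).IsAddRightInvariant :=
      Measure.prod.instIsAddRightInvariant
    have i3 : ν.IsAddRightInvariant := Measure.prod.instIsAddRightInvariant
    have h3 : ν {q | FF c q.1 q.2.1 q.2.2 = 0} = 0 :=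
      null_of_lines ν (isClosed_eq (continuous_FF c) continuous_const).measurableSet v
        (ae_FF_ne c hv)
    refine measure_mono_null (fun q hq => ?_) h3
    simp only [mem_iInter] at hq
    exact abs_nonpos_iff.1 (le_of_forall_gt_imp_ge_of_dense fun r hr => (hq r hr).1)
  rw [h2] at h1
  obtain ⟨τ, h4, h5⟩ := ((h1.eventually (gt_mem_nhds hη)).and self_mem_nhdsWithin).exists
  refine ⟨τ, h5, fun C hC hF => lt_of_le_of_lt ?_ h4⟩
  have h6 : volume C ^ 3 = ν (C ×ˢ C ×ˢ C) := by
    rw [hν, Measure.prod_prod, Measure.prod_prod]; ring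
  rw [h6]
  refine measure_mono ?_
  rintro ⟨x, y, z⟩ ⟨hx, hy, hz⟩
  refine ⟨hF x hx y hy z hz, ?_⟩
  have a1 := hC hx
  have a2 := hC hy
  have a3 := hC hz
  rw [mem_closedBall_zero_iff] at a1 a2 a3 ⊢
  simp only [Prod.norm_mk, max_le_iff]
  exact ⟨a1, a2, a3⟩

end Gen

section Cone

variable {E : Type} [NormedAddCommGroup E] [InnerProductSpace ℝ E] [FiniteDimensional ℝ E]
  [MeasurableSpace E] [BorelSpace E]

/-- the cone over a set given in gnomonic coordinates -/
def CB (B : Set E) : Set (WW E) := {w | 0 < w.fst ∧ ‖w‖ < 1 ∧ QQ w ∈ B}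

theorem measurable_QQ : Measurable (QQ : WW E → E) := by
  unfold QQ
  have h1 : Measurable fun w : WW E => w.fst := (WithLp.fstL 2 ℝ ℝ E).continuous.measurable
  have h2 : Measurable fun w : WW E => w.snd := (WithLp.sndL 2 ℝ ℝ E).continuous.measurable
  exact h1.inv.smul h2

theorem measurableSet_CB {B : Set E} (hB : MeasurableSet B) : MeasurableSet (CB B) := by
  have h1 : Measurable fun w : WW E => w.fst := (WithLp.fstL 2 ℝ ℝ E).continuous.measurable
  exact (measurableSet_lt measurable_const h1).inter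
    ((measurableSet_lt continuous_norm.measurable measurable_const).inter (measurable_QQ hB))

theorem lintegral_pow_Ioo (n : ℕ) {a : ℝ} (ha : 0 ≤ a) :
    ∫⁻ r in Ioo 0 a, ENNReal.ofReal (r ^ n) = ENNReal.ofReal (a ^ (n + 1) / (n + 1)) := by
  rw [← ofReal_integral_eq_lintegral_ofReal, ← integral_Ioc_eq_integral_Ioo,
    ← intervalIntegral.integral_of_le ha, integral_pow]
  · simp
  · exact ((continuous_pow n).integrableOn_Icc (a := 0) (b := a)).mono_set Ioo_subset_Icc_self
  · filter_upwards [ae_restrict_mem measurableSet_Ioo] with r hr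
    exact pow_nonneg hr.1.le n

theorem volume_CB {B : Set E} (hB : MeasurableSet B) :
    volume (CB B) = ∫⁻ y in B, ENNReal.ofReal ((√(NN y))⁻¹ ^ (Module.finrank ℝ E + 1) /
      (Module.finrank ℝ E + 1)) := by
  set n := Module.finrank ℝ E with hn
  have hmp := WithLp.volume_preserving_toLp ℝ E
  rw [← hmp.measure_preimage (measurableSet_CB hB).nullMeasurableSet, Measure.volume_eq_prod,
    Measure.prod_apply (hmp.measurable (measurableSet_CB hB))]
  have ha : Continuous fun y : E => (√(NN y))⁻¹ :=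
    ((contDiff_NN (k := 0)).continuous.sqrt).inv₀ fun y => (sqrt_NN_pos y).ne'
  have h1 : ∀ r : ℝ, volume (Prod.mk r ⁻¹' (WithLp.toLp 2 ⁻¹' CB B)) =
      ∫⁻ y in B, (Ioo 0 (√(NN y))⁻¹).indicator (fun r : ℝ => ENNReal.ofReal (r ^ n)) r := by
    intro r
    rcases le_or_gt r 0 with hr | hr
    · have h2 : Prod.mk r ⁻¹' (WithLp.toLp 2 ⁻¹' CB B) = ∅ := by
        ext v
        simp only [mem_preimage, mem_empty_iff_false, iff_false]
        intro h
        exact absurd h.1 (not_lt.2 hr)
      rw [h2, measure_empty]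
      symm
      rw [← lintegral_zero]
      congr 1
      funext y
      exact indicator_of_notMem (fun h => absurd h.1 (not_lt.2 hr)) _
    · have h2 : Prod.mk r ⁻¹' (WithLp.toLp 2 ⁻¹' CB B) =
          r • ({y : E | r < (√(NN y))⁻¹} ∩ B) := by
        ext v
        rw [mem_smul_set_iff_inv_smul_mem₀ hr.ne']
        have h3 : ‖(WithLp.toLp 2 (r, v) : WW E)‖ = r * √(NN (r⁻¹ • v)) := by
          have h4 := WithLp.prod_norm_sq_eq_of_L2 (WithLp.toLp 2 (r, v) : WW E)
          refine (pow_left_inj₀ (norm_nonneg _) (by positivity) two_ne_zero).1 ?_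
          rw [h4, mul_pow, Real.sq_sqrt (NN_pos _).le, NN, norm_smul, mul_pow]
          simp only [WithLp.toLp_fst, WithLp.toLp_snd, Real.norm_eq_abs, sq_abs]
          field_simp
        have h5 : r * √(NN (r⁻¹ • v)) < 1 ↔ r < (√(NN (r⁻¹ • v)))⁻¹ := by
          rw [← one_div (√(NN (r⁻¹ • v))), lt_div_iff₀ (sqrt_NN_pos _)]
        simp only [mem_preimage, CB, mem_ofPred_eq, mem_inter_iff, h3, h5]
        exact ⟨fun h => h.2, fun h => ⟨hr, h⟩⟩
      have h6 : MeasurableSet {y : E | r < (√(NN y))⁻¹} :=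
        measurableSet_lt measurable_const ha.measurable
      rw [h2, Measure.addHaar_smul_of_nonneg _ hr.le, ← Measure.restrict_apply h6,
        ← lintegral_indicator_const h6]
      congr 1
      funext y
      by_cases h7 : r < (√(NN y))⁻¹
      · rw [indicator_of_mem (show y ∈ {y : E | r < (√(NN y))⁻¹} from h7),
          indicator_of_mem (show r ∈ Ioo 0 (√(NN y))⁻¹ from ⟨hr, h7⟩)]
      · rw [indicator_of_notMem (show y ∉ {y : E | r < (√(NN y))⁻¹} from h7),
          indicator_of_notMem (show r ∉ Ioo 0 (√(NN y))⁻¹ from fun h => h7 h.2)]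
  simp_rw [h1]
  rw [lintegral_lintegral_swap]
  · congr 1
    funext y
    rw [lintegral_indicator measurableSet_Ioo,
      lintegral_pow_Ioo n (inv_nonneg.2 (Real.sqrt_nonneg _))]
  · apply Measurable.aemeasurable
    have h8 : (Function.uncurry fun (r : ℝ) (y : E) =>
        (Ioo 0 (√(NN y))⁻¹).indicator (fun r : ℝ => ENNReal.ofReal (r ^ n)) r) =
        {q : ℝ × E | 0 < q.1 ∧ q.1 < (√(NN q.2))⁻¹}.indicator
          (fun q => ENNReal.ofReal (q.1 ^ n)) := by
      funext q
      rfl
    rw [h8]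
    refine Measurable.indicator (by fun_prop) ?_
    exact (measurableSet_lt measurable_const measurable_fst).inter
      (measurableSet_lt measurable_fst (ha.measurable.comp measurable_snd))

end Cone

end Pool.Agent.H253Z.Gu
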