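import Mathlib
import Pool.Agent.H253Z.GuG

set_option autoImplicit false
set_option linter.unusedSectionVars false
set_option maxHeartbeats 400000

open scoped RealInnerProductSpace Topology ComplexConjugate Manifold ContDiff ENNReal Pointwise
open Set Metric Filter MeasureTheory

namespace Pool.Agent.H253Z.Gu

section Gen

variable {W : Type} [NormedAddCommGroup W] [InnerProductSpace ℝ W]

open Classical in
/-- radial projection to the sphere -/
noncomputable def nrm (x₀ : sphere (0 : W) 1) (w : W) : sphere (0 : W) 1 :=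
  if h : w = 0 then x₀ else ⟨‖w‖⁻¹ • w, by
    rw [mem_sphere_zero_iff_norm, norm_smul, norm_inv, norm_norm,
      inv_mul_cancel₀ (norm_ne_zero_iff.2 h)]⟩

theorem nrm_coe (x₀ : sphere (0 : W) 1) {w : W} (h : w ≠ 0) : (nrm x₀ w : W) = ‖w‖⁻¹ • w := by
  rw [nrm, dif_neg h]

theorem smul_nrm (x₀ : sphere (0 : W) 1) {w : W} (h : w ≠ 0) : ‖w‖ • (nrm x₀ w : W) = w := by
  rw [nrm_coe x₀ h, smul_smul, mul_inv_cancel₀ (norm_ne_zero_iff.2 h), one_smul]

theorem continuousOn_nrm (x₀ : sphere (0 : W) 1) : ContinuousOn (nrm x₀) {0}ᶜ := by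
  rw [Topology.IsInducing.subtypeVal.continuousOn_iff]
  refine ContinuousOn.congr (f := fun w : W => ‖w‖⁻¹ • w) ?_ fun w hw => nrm_coe x₀ hw
  exact (continuous_norm.continuousOn.inv₀ fun w hw => norm_ne_zero_iff.2 hw).smul continuousOn_id

/-- multiplication by a root of unity as an isometry -/
noncomputable def smE (c : CS W) {p : ℕ} [NeZero p] {ζ : ℂ} (h : ζ ^ p = 1) : W ≃ₗᵢ[ℝ] W :=
  LinearIsometryEquiv.ofSurjective
    ⟨(c.sm ζ).toLinearMap, fun x => by
      change ‖c.sm ζ x‖ = _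
      rw [c.norm_sm, norm_of_pow h, one_mul]⟩
    (fun x => ⟨c.sm (conj ζ) x, by
      change c.sm ζ (c.sm (conj ζ) x) = x
      rw [c.sm_sm, mul_comm, conj_mul_self_eq h, c.sm_one]⟩)

theorem exists_CS [FiniteDimensional ℝ W] {m : ℕ} (h : Module.finrank ℝ W = m + m) :
    Nonempty (CS W) := by
  let V := WithLp 2 (Eu m × Eu m)
  have hV : Module.finrank ℝ V = m + m := by
    rw [(WithLp.linearEquiv 2 ℝ (Eu m × Eu m)).finrank_eq, Module.finrank_prod]
    simp
  let e : W ≃ₗᵢ[ℝ] V := (stdOrthonormalBasis ℝ W).equiv (stdOrthonormalBasis ℝ V)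
    (finCongr (h.trans hV.symm))
  let j : V →L[ℝ] V :=
    (WithLp.prodContinuousLinearEquiv 2 ℝ (Eu m) (Eu m)).symm.toContinuousLinearMap ∘L
      ((-WithLp.sndL 2 ℝ (Eu m) (Eu m)).prod (WithLp.fstL 2 ℝ (Eu m) (Eu m)))
  have hj : ∀ v : V, j v = WithLp.toLp 2 (-v.snd, v.fst) := fun v => rfl
  refine ⟨⟨e.symm.toContinuousLinearEquiv.toContinuousLinearMap ∘L j ∘L
    e.toContinuousLinearEquiv.toContinuousLinearMap, fun x => ?_, fun x y => ?_⟩⟩
  · change e.symm (j (e (e.symm (j (e x))))) = -x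
    rw [e.apply_symm_apply]
    have : j (j (e x)) = -e x := by
      rw [hj, hj]
      apply WithLp.ofLp_injective
      exact Prod.ext rfl rfl
    rw [this, map_neg, e.symm_apply_apply]
  · change ⟪e.symm (j (e x)), e.symm (j (e y))⟫ = _
    rw [e.symm.inner_map_map, ← e.inner_map_map x y, hj, hj, WithLp.prod_inner_apply,
      WithLp.prod_inner_apply]
    simp only [inner_neg_neg]
    exact add_comm _ _

end Gen

variable {n : ℕ} (c : CS (WW (Eu n))) (p : ℕ) [NeZero p]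

theorem finrank_WW : Module.finrank ℝ (WW (Eu n)) = n + 1 := by
  rw [(WithLp.linearEquiv 2 ℝ (ℝ × Eu n)).finrank_eq, Module.finrank_prod]
  simp [add_comm]

noncomputable instance : MeasurableSpace (Lens c p) := borel _

instance : BorelSpace (Lens c p) := ⟨rfl⟩

/-- base point -/
noncomputable def s0 (n : ℕ) : sphere (0 : WW (Eu n)) 1 :=
  ⟨e0, mem_sphere_zero_iff_norm.2 norm_e0⟩

/-- radial projection to the lens space -/
noncomputable def rp (w : WW (Eu n)) : Lens c p := pr c p (nrm (s0 n) w)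

theorem measurable_rp : Measurable (rp c p) :=
  measurable_of_continuousOn_compl_singleton 0
    ((continuous_pr c p).comp_continuousOn (continuousOn_nrm _))

/-- the punctured ball -/
def B0 (n : ℕ) : Set (WW (Eu n)) := ball 0 1 \ {0}

/-- the volume measure of the lens space -/
noncomputable def lensVol : Measure (Lens c p) :=
  (((n + 1 : ℕ) : ℝ≥0∞) / p) • Measure.map (rp c p) (volume.restrict (B0 n))

theorem lensVol_apply {s : Set (Lens c p)} (hs : MeasurableSet s) :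
    lensVol c p s = (((n + 1 : ℕ) : ℝ≥0∞) / p) * volume (rp c p ⁻¹' s ∩ B0 n) := by
  rw [lensVol, Measure.smul_apply, Measure.map_apply (measurable_rp c p) hs,
    Measure.restrict_apply (measurable_rp c p hs), smul_eq_mul]

theorem QQ_smul {E : Type} [NormedAddCommGroup E] [InnerProductSpace ℝ E] {r : ℝ} (hr : r ≠ 0)
    (w : WW E) : QQ (r • w) = QQ w := by
  simp only [QQ, WithLp.smul_fst, WithLp.smul_snd, smul_eq_mul, smul_smul]
  congr 1
  rw [mul_inv, mul_comm r⁻¹, mul_assoc, inv_mul_cancel₀ hr, mul_one]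

variable {p} in
theorem scale_aux (u : sphere (0 : WW (Eu n)) 1) (ζ : ℂ) {w : WW (Eu n)} (hw : w ≠ 0) :
    (fr u).symm (c.sm ζ w) = ‖w‖ • (fr u).symm (c.sm ζ (nrm (s0 n) w)) := by
  rw [← map_smul, ← map_smul, smul_nrm _ hw]

variable {p} in
theorem hemi_aux (u : sphere (0 : WW (Eu n)) 1) {ζ : ℂ} (hζ : ζ ^ p = 1) {w : WW (Eu n)}
    (h : 0 < ((fr u).symm (c.sm ζ w)).fst) :
    w ≠ 0 ∧ hemi u (QQ ((fr u).symm (c.sm ζ w))) = act c hζ (nrm (s0 n) w) := by
  have hw : w ≠ 0 := by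
    rintro rfl
    simp at h
  have h0 : 0 < ‖w‖ := norm_pos_iff.2 hw
  refine ⟨hw, ?_⟩
  rw [scale_aux c u ζ hw] at h ⊢
  rw [QQ_smul h0.ne']
  refine hemi_QQ u (act c hζ (nrm (s0 n) w)) ?_
  rw [WithLp.smul_fst, smul_eq_mul] at h
  exact (mul_pos_iff_of_pos_left h0).1 h

theorem isVolume_lens : IsVolume (lensRM c p) (lensVol c p) := by
  intro x s hs hsub
  set u := lft c p x with hu
  rw [chartAt_eq, ← hu] at hsub ⊢
  have hB : chart c p u '' s = TT (Eu n) p ∩ psi c p u ⁻¹' s :=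
    (chart c p u).image_eq_target_inter_inv_preimage hsub
  have hBm : MeasurableSet (chart c p u '' s) := by
    rw [hB]
    exact (isOpen_TT p).measurableSet.inter ((continuous_psi c p u).measurable hs)
  set B := chart c p u '' s with hBd
  have hnorm : ∀ ζ : ℂ, ζ ^ p = 1 → ∀ w, ‖(fr u).symm (c.sm ζ w)‖ = ‖w‖ := fun ζ hζ w => by
    rw [LinearIsometryEquiv.norm_map, c.norm_sm, norm_of_pow hζ, one_mul]
  have h1 : rp c p ⁻¹' s ∩ B0 n =
      ⋃ ζ ∈ roots p, (fun w => (fr u).symm (c.sm ζ w)) ⁻¹' CB B := by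
    ext w
    simp only [mem_iUnion, mem_inter_iff, mem_preimage]
    constructor
    · rintro ⟨h2, h3, hw⟩
      have hw' : w ≠ 0 := hw
      have h0 : 0 < ‖w‖ := norm_pos_iff.2 hw'
      obtain ⟨ζ, hζ, h4⟩ := (pr_mem_source c p u _).1 (hsub h2)
      obtain ⟨h5, h6, h7⟩ := near_aux c u _ hζ h4
      refine ⟨ζ, mem_roots.2 hζ, ?_, ?_, ?_⟩
      · rw [scale_aux c u ζ hw', WithLp.smul_fst, smul_eq_mul]
        exact mul_pos h0 h5
      · rw [hnorm ζ hζ]; exact mem_ball_zero_iff.1 h3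
      · rw [scale_aux c u ζ hw', QQ_smul h0.ne', hB]
        refine ⟨h6, ?_⟩
        rw [mem_preimage, h7]; exact h2
    · rintro ⟨ζ, hζ, h2, h3, h4⟩
      have hζ' := mem_roots.1 hζ
      obtain ⟨hw, h5⟩ := hemi_aux c u hζ' h2
      rw [hB] at h4
      refine ⟨?_, mem_ball_zero_iff.2 (by rwa [hnorm ζ hζ'] at h3), hw⟩
      have h6 := h4.2
      rw [mem_preimage, psi, h5, pr_act] at h6
      exact h6
  have hmp : ∀ ζ : ℂ, ζ ^ p = 1 → MeasurePreserving (fun w => (fr u).symm (c.sm ζ w)) :=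
    fun ζ hζ => ((smE c hζ).trans (fr u).symm).measurePreserving
  have h2 : (roots p : Set ℂ).PairwiseDisjoint
      fun ζ => (fun w => (fr u).symm (c.sm ζ w)) ⁻¹' CB B := by
    intro ζ hζ ξ hξ hne
    have hζ' := mem_roots.1 hζ
    have hξ' := mem_roots.1 hξ
    refine Set.disjoint_left.2 fun w h3 h4 => hne ?_
    have key : ∀ θ : ℂ, (hθ : θ ^ p = 1) → (fr u).symm (c.sm θ w) ∈ CB B →
        ‖c.sm θ (nrm (s0 n) w) - u‖ < rho p := by
      intro θ hθ h5
      obtain ⟨-, h6⟩ := hemi_aux c u hθ h5.1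
      have h7 := h5.2.2
      rw [hB] at h7
      have h8 := norm_hemi_sub u (QQ ((fr u).symm (c.sm θ w)))
      rw [h6] at h8
      exact h8.trans_lt h7.1
    have h9 := key ζ hζ' h3
    have h10 := key ξ hξ' h4
    have h11 : ξ * conj ζ = 1 := by
      refine eq_one_of_near c (p := p) (by rw [mul_pow, hξ', conj_pow_eq hζ', one_mul])
        (norm_coe (act c hζ' (nrm (s0 n) w))) h9 ?_
      change ‖c.sm (ξ * conj ζ) (c.sm ζ _) - u‖ < _
      rwa [c.sm_sm, mul_assoc, conj_mul_self_eq hζ', mul_one]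
    have h12 := conj_mul_self_eq hζ'
    linear_combination (-ζ) * h11 + ξ * h12
  rw [lensVol_apply c p hs, h1, measure_biUnion_finset h2
    (fun ζ hζ => (hmp ζ (mem_roots.1 hζ)).measurable (measurableSet_CB hBm)),
    Finset.sum_congr rfl fun ζ hζ =>
      (hmp ζ (mem_roots.1 hζ)).measure_preimage (measurableSet_CB hBm).nullMeasurableSet,
    Finset.sum_const, card_roots, nsmul_eq_mul, ← mul_assoc,
    ENNReal.div_mul_cancel (by exact_mod_cast NeZero.ne p) (by simp), volume_CB hBm,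
    ← lintegral_const_mul' _ _ (by simp), chartCoeff_lens]
  congr 1
  funext y
  rw [sqrt_det_GG, finrank_euclideanSpace_fin, ← ENNReal.ofReal_natCast,
    ← ENNReal.ofReal_mul (Nat.cast_nonneg _)]
  congr 1
  push_cast
  field_simp

theorem small_convex (hn : 2 ≤ n) {κ : ℝ} (hκ : 0 < κ) :
    ∃ p : ℕ, ∃ _ : NeZero p, ∀ Γ : Set (Lens c p), GeodConvex (lensRM c p) Γ →
      lensVol c p Γ < ENNReal.ofReal κ * lensVol c p univ := by
  have hB : 0 < volume (B0 n) := by
    have : Nontrivial (WW (Eu n)) :=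
      Module.nontrivial_of_finrank_pos (R := ℝ) (by rw [finrank_WW]; omega)
    rw [B0, measure_sdiff_null (measure_singleton _)]
    exact measure_ball_pos _ _ one_pos
  have hη : 0 < (ENNReal.ofReal κ * volume (B0 n)) ^ 3 :=
    ENNReal.pow_pos (ENNReal.mul_pos (ENNReal.ofReal_pos.2 hκ).ne' hB.ne') 3
  obtain ⟨τ, hτ, h⟩ := exists_small c (by rw [finrank_WW]; omega) hη
  obtain ⟨p, hp⟩ := exists_nat_ge (max 4 (24 / τ))
  have hp4 : 4 ≤ p := by exact_mod_cast (le_max_left _ _).trans hp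
  have hp0 : (0 : ℝ) < p := by exact_mod_cast (show 0 < p by omega)
  have hpτ : 3 * (8 / (p : ℝ)) ≤ τ := by
    have h1 := (le_max_right _ _).trans hp
    rw [div_le_iff₀ hτ] at h1
    rw [← mul_div_assoc, div_le_iff₀ hp0]
    linarith
  have : NeZero p := ⟨by omega⟩
  refine ⟨p, this, fun Γ hΓ => ?_⟩
  refine (measure_mono subset_closure).trans_lt ?_
  rw [lensVol_apply c p isClosed_closure.measurableSet, lensVol_apply c p MeasurableSet.univ,
    preimage_univ, univ_inter, mul_left_comm]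
  refine ENNReal.mul_lt_mul_right ?_ ?_ ?_
  · exact (ENNReal.div_pos (by simp) (by simp)).ne'
  · exact ENNReal.div_ne_top (by simp) (by exact_mod_cast NeZero.ne p)
  refine lt_of_not_ge fun hge => absurd (h _ ?_ ?_) (not_lt.2 (pow_le_pow_left' hge 3))
  · exact fun w hw => ball_subset_closedBall hw.2.1
  · intro x hx y hy z hz
    have h1 := FF_le_closure c p hp4 hΓ hx.1 hy.1 hz.1
    have h2 := FF_smul c ‖x‖ ‖y‖ ‖z‖ (nrm (s0 n) x) (nrm (s0 n) y) (nrm (s0 n) z)
    rw [smul_nrm _ hx.2.2, smul_nrm _ hy.2.2, smul_nrm _ hz.2.2] at h2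
    have a1 := (mem_ball_zero_iff.1 hx.2.1).le
    have a2 := (mem_ball_zero_iff.1 hy.2.1).le
    have a3 := (mem_ball_zero_iff.1 hz.2.1).le
    have h3 : (‖x‖ * ‖y‖ * ‖z‖) ^ 2 ≤ 1 :=
      pow_le_one₀ (by positivity) (mul_le_one₀ (mul_le_one₀ a1 (norm_nonneg _) a2)
        (norm_nonneg _) a3)
    rw [h2, abs_mul, abs_of_nonneg (sq_nonneg _)]
    exact (mul_le_of_le_one_left (abs_nonneg _) h3).trans (h1.trans hpτ)

end Pool.Agent.H253Z.Gu
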