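import Mathlib
import Pool.Agent.H97Z.JE.Defs

set_option autoImplicit false
set_option maxHeartbeats 400000

open Filter Finset Polynomial Asymptotics
open scoped BigOperators Topology
open Pool.Agent.H97Z.JE

namespace Pool.Agent.H253Z.JE

theorem choose_succ (r : ℝ) (l : ℕ) :
    ((l : ℝ) + 1) * Ring.choose r (l + 1) = (r - l) * Ring.choose r l := by
  have h1 := Ring.descPochhammer_eq_factorial_smul_choose r (l + 1)
  rw [descPochhammer_succ_right, smeval_mul, Ring.descPochhammer_eq_factorial_smul_choose,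
    smeval_sub, smeval_X, smeval_natCast, Nat.factorial_succ] at h1
  simp only [nsmul_eq_mul, pow_one, pow_zero, mul_one, Nat.cast_mul, Nat.cast_add,
    Nat.cast_one] at h1
  have h2 : (l.factorial : ℝ) ≠ 0 := by positivity
  apply mul_left_cancel₀ h2
  linarith

theorem choose_ne {r : ℝ} (h : ∀ m : ℕ, r ≠ m) (l : ℕ) : Ring.choose r l ≠ 0 := by
  induction l with
  | zero => simp
  | succ l ih =>
    intro h0
    have h1 := choose_succ r l
    rw [h0, mul_zero] at h1
    exact mul_ne_zero (sub_ne_zero.2 (h l)) ih h1.symm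

theorem indep (E : Finset ℝ) (hE : ∀ r ∈ E, ∀ m : ℕ, r ≠ m) (l0 : ℕ) (b : ℝ → ℝ)
    (h : ∀ l, l0 ≤ l → ∑ r ∈ E, b r * Ring.choose r l = 0) : ∀ r ∈ E, b r = 0 := by
  induction E using Finset.induction_on generalizing b with
  | empty => simp
  | insert r0 E hr ih =>
    have h1 : ∀ r ∈ E, b r = 0 := by
      intro r hrE
      have h2 := ih (fun r hr => hE r (mem_insert_of_mem hr)) (fun r => b r * (r - r0))
        (fun l hl => by
          have h3 := h l hl
          have h4 := h (l + 1) (by omega)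
          have h5 : ∑ r ∈ insert r0 E, b r * (r - r0) * Ring.choose r l
              = ((l : ℝ) + 1) * ∑ r ∈ insert r0 E, b r * Ring.choose r (l + 1)
                + (l - r0) * ∑ r ∈ insert r0 E, b r * Ring.choose r l := by
            rw [mul_sum, mul_sum, ← sum_add_distrib]
            refine sum_congr rfl fun r _ => ?_
            linear_combination (-b r) * choose_succ r l
          rw [h3, h4, sum_insert hr] at h5
          simpa using h5) r hrE
      exact (mul_eq_zero.1 h2).resolve_right (sub_ne_zero.2 (by rintro rfl; exact hr hrE))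
    intro r hr'
    rcases mem_insert.1 hr' with rfl | hr'
    · have h2 := h l0 le_rfl
      rw [sum_insert hr, sum_eq_zero (fun s hs => by rw [h1 s hs, zero_mul]), add_zero] at h2
      exact (mul_eq_zero.1 h2).resolve_right (choose_ne (hE r (mem_insert_self _ _)) l0)
    · exact h1 r hr'

theorem exists_deg {A : Type} [Fintype A] (e lam : A → ℝ) (he : ∀ a (m : ℕ), e a ≠ m)
    (h : ∃ a0, ∑ a with e a = e a0, lam a ≠ 0) (l0 : ℕ) :
    ∃ l, l0 ≤ l ∧ ∑ a, lam a * Ring.choose (e a) l ≠ 0 := by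
  by_contra! h1
  obtain ⟨a0, h0⟩ := h
  refine h0 (indep (univ.image e) ?_ l0 (fun r => ∑ a with e a = r, lam a) (fun l hl => ?_)
    (e a0) (mem_image_of_mem e (mem_univ _)))
  · intro r hr m
    obtain ⟨a, -, rfl⟩ := mem_image.1 hr
    exact he a m
  · rw [← h1 l hl, ← sum_fiberwise_of_maps_to (g := e) (t := univ.image e)
      (fun a _ => mem_image_of_mem e (mem_univ a))]
    refine sum_congr rfl fun r _ => ?_
    rw [sum_mul]
    refine sum_congr rfl fun a ha => ?_
    rw [(mem_filter.1 ha).2]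

theorem ee_eq (x : ℝ) : ee x = Complex.exp (Complex.I * (2 * Real.pi * x : ℝ)) := by
  rw [ee]; congr 1; push_cast; ring

theorem norm_ee (x : ℝ) : ‖ee x‖ = 1 := by rw [ee_eq, Complex.norm_exp_I_mul_ofReal]

theorem ee_add (x y : ℝ) : ee (x + y) = ee x * ee y := by
  rw [ee, ee, ee, ← Complex.exp_add]; congr 1; push_cast; ring

theorem ee_mul (x : ℝ) (s : ℕ) : ee (x * s) = ee x ^ s := by
  rw [ee, ee, ← Complex.exp_nat_mul]; congr 1; push_cast; ring

theorem norm_ee_sub (x y : ℝ) : ‖ee x - ee y‖ ≤ 8 * |x - y| := by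
  have h1 : ee x - ee y = ee y * (ee (x - y) - 1) := by
    rw [mul_sub, ← ee_add, add_sub_cancel, mul_one]
  rw [h1, norm_mul, norm_ee, one_mul, ee_eq]
  refine Real.norm_exp_I_mul_ofReal_sub_one_le.trans ?_
  rw [Real.norm_eq_abs, abs_mul, abs_of_pos Real.two_pi_pos]
  nlinarith [Real.pi_le_four, abs_nonneg (x - y)]

theorem norm_expect_eq (S : ℕ) (f : ℕ → ℂ) :
    ‖𝔼 s ∈ range S, f s‖ = ‖∑ s ∈ range S, f s‖ / S := by
  rw [expect_eq_sum_div_card, card_range, norm_div, Complex.norm_natCast]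

theorem geom_le {θ : ℝ} (h0 : 0 < |θ|) (h1 : |θ| ≤ 1 / 2) (S : ℕ) :
    ‖𝔼 s ∈ range S, ee (θ * s)‖ ≤ 1 / (2 * |θ|) / S := by
  have h2 : 4 * |θ| ≤ ‖ee θ - 1‖ := by
    have hπ := Real.pi_pos
    rw [ee_eq, Complex.norm_exp_I_mul_ofReal_sub_one, norm_mul, Real.norm_eq_abs,
      Real.norm_eq_abs, abs_two, show 2 * Real.pi * θ / 2 = Real.pi * θ by ring]
    have h3 := Real.mul_abs_le_abs_sin (x := Real.pi * θ)
      (by rw [abs_mul, abs_of_pos hπ]; nlinarith)
    rw [abs_mul, abs_of_pos hπ, ← mul_assoc, div_mul_cancel₀ _ hπ.ne'] at h3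
    linarith
  have h3 : ee θ ≠ 1 := fun h => by rw [h, sub_self, norm_zero] at h2; linarith
  rw [norm_expect_eq]
  gcongr
  simp only [ee_mul]
  rw [geom_sum_eq h3, norm_div, div_le_div_iff₀ (by linarith) (by linarith)]
  have h4 := norm_sub_le (ee θ ^ S) 1
  rw [norm_pow, norm_ee, one_pow, norm_one] at h4
  nlinarith

theorem weyl_small (h : S_weyl) (d : ℕ) {δ : ℝ} (hδ : 0 < δ) : ∃ a0 : ℝ, 0 < a0 ∧ ∃ S : ℕ,
    0 < S ∧ ∀ P : ℝ[X], P.natDegree ≤ d + 1 → a0 / 2 ≤ |P.coeff (d + 1)| →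
      |P.coeff (d + 1)| ≤ 2 * a0 → ‖𝔼 s ∈ range S, ee (P.eval (s : ℝ))‖ < δ := by
  obtain ⟨T, hT, δ', hδ', S0, hS⟩ := h d δ hδ
  set M : ℕ := T.sup Prod.fst + 1 with hM
  have hM0 : (0 : ℝ) < M := by positivity
  obtain ⟨S1, hS1⟩ := exists_nat_gt (4 * M / δ')
  refine ⟨1 / (4 * M), by positivity, S0 + S1 + 1, by omega, fun P h1 h2 h3 => ?_⟩
  by_contra! h4
  obtain ⟨τ, hτ, h5⟩ := hS (S0 + S1 + 1) (by omega) 1 (by simp) P h1 (by simpa using h4)
  have h6 : (1 : ℝ) ≤ τ.1 := by exact_mod_cast (hT τ hτ).1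
  have h7 : (τ.1 : ℝ) ≤ M := by
    have : τ.1 ≤ T.sup Prod.fst := le_sup (f := Prod.fst) hτ
    exact_mod_cast this.trans (Nat.le_succ _)
  have h8 : |τ.1 * P.coeff (d + 1)| = τ.1 * |P.coeff (d + 1)| := by
    rw [abs_mul, abs_of_pos (by linarith)]
  have h9 : 1 / (8 * M) ≤ |τ.1 * P.coeff (d + 1)| := by
    rw [h8, show 1 / (8 * (M : ℝ)) = 1 / (4 * M) / 2 by ring]
    nlinarith [abs_nonneg (P.coeff (d + 1))]
  have h10 : |τ.1 * P.coeff (d + 1)| ≤ 1 / 2 := by
    rw [h8]
    refine (mul_le_mul h7 h3 (abs_nonneg _) hM0.le).trans (le_of_eq ?_)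
    field_simp
    norm_num
  have h11 : 0 < |τ.1 * P.coeff (d + 1)| := lt_of_lt_of_le (by positivity) h9
  rw [(hT τ hτ).2.1] at h5
  simp only [Pi.one_apply, one_mul] at h5
  have h12 := h5.trans (geom_le h11 h10 _)
  have h13 : 1 / (2 * |τ.1 * P.coeff (d + 1)|) ≤ 4 * M := by
    rw [div_le_iff₀ (by positivity)]
    rw [div_le_iff₀ (by positivity)] at h9
    linarith
  rw [le_div_iff₀ (by positivity)] at h12
  rw [div_lt_iff₀ hδ'] at hS1
  push_cast at h12
  nlinarith [(Nat.cast_nonneg S0 : (0 : ℝ) ≤ S0)]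

theorem shift_le {V : ℕ → ℂ} (hV : ∀ n, ‖V n‖ ≤ 1) (L k : ℕ) :
    ‖∑ t ∈ range L, V t - ∑ t ∈ range L, V (t + k)‖ ≤ 2 * k := by
  have h1 := sum_range_add V L k
  have h2 := sum_range_add V k L
  rw [add_comm k L, h1] at h2
  simp only [add_comm k] at h2
  have h3 : ∀ f : ℕ → ℕ, ‖∑ t ∈ range k, V (f t)‖ ≤ k := fun f =>
    (norm_sum_le _ _).trans ((sum_le_sum fun t _ => hV (f t)).trans (by simp))
  rw [show ∑ t ∈ range L, V t - ∑ t ∈ range L, V (t + k)
    = ∑ t ∈ range k, V t - ∑ t ∈ range k, V (L + t) by linear_combination h2]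
  have h4 : ‖∑ t ∈ range k, V t‖ ≤ k := h3 fun t => t
  linarith [norm_sub_le (∑ t ∈ range k, V t) (∑ t ∈ range k, V (L + t)), h3 (L + ·)]

theorem avg_le {V : ℕ → ℂ} (hV : ∀ n, ‖V n‖ ≤ 1) {L S : ℕ} (hL : 0 < L) (hS : 0 < S) (D : ℕ)
    {δ : ℝ} (h : ∀ t < L, ‖𝔼 s ∈ range S, V (t + D * s)‖ ≤ δ) :
    ‖𝔼 t ∈ range L, V t‖ ≤ δ + 2 * S * ((D : ℝ) / L) := by
  have hL' : (0 : ℝ) < L := by exact_mod_cast hL
  have hS' : (0 : ℝ) < S := by exact_mod_cast hS
  have h1 : (S : ℂ) * ∑ t ∈ range L, V t = ∑ t ∈ range L, ∑ s ∈ range S, V (t + D * s)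
      + ∑ s ∈ range S, (∑ t ∈ range L, V t - ∑ t ∈ range L, V (t + D * s)) := by
    rw [sum_sub_distrib, sum_comm (s := range L) (t := range S)]
    simp
  have h2 : ‖∑ t ∈ range L, ∑ s ∈ range S, V (t + D * s)‖ ≤ L * (δ * S) := by
    refine (norm_sum_le _ _).trans ((sum_le_sum (g := fun _ => δ * S) fun t ht => ?_).trans
      (by simp))
    have := h t (mem_range.1 ht)
    rwa [norm_expect_eq, div_le_iff₀ hS'] at this
  have h3 : ‖∑ s ∈ range S, (∑ t ∈ range L, V t - ∑ t ∈ range L, V (t + D * s))‖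
      ≤ S * (2 * (D * S)) := by
    refine (norm_sum_le _ _).trans ((sum_le_sum (g := fun _ => 2 * ((D : ℝ) * S))
      fun s hs => (shift_le hV L _).trans ?_).trans (by simp))
    have : (s : ℝ) ≤ S := by exact_mod_cast (mem_range.1 hs).le
    push_cast
    gcongr
  have h4 := (congrArg norm h1).trans_le (norm_add_le _ _)
  rw [norm_mul, Complex.norm_natCast] at h4
  rw [norm_expect_eq, div_le_iff₀ hL', add_mul, mul_assoc _ _ (L : ℝ), div_mul_cancel₀ _ hL'.ne']
  refine le_of_mul_le_mul_left ?_ hS'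
  nlinarith

theorem taylor_o (e : ℝ) (l : ℕ) :
    (fun z : ℝ => (1 + z) ^ e - ∑ j ∈ range (l + 1), Ring.choose e j * z ^ j) =o[𝓝 0]
      fun z => z ^ l := by
  have h1 := (Real.one_add_rpow_hasFPowerSeriesAt_zero (a := e)).isBigO_sub_partialSum_pow (l + 1)
  have h2 : (fun z : ℝ => ‖z‖ ^ (l + 1)) =o[𝓝 0] fun z => z ^ l := by
    simp only [← norm_pow, isLittleO_norm_left]
    exact isLittleO_pow_pow (Nat.lt_succ_self l)
  refine (h1.congr_left fun z => ?_).trans_isLittleO h2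
  simp [FormalMultilinearSeries.partialSum, binomialSeries, mul_comm]

theorem thm_e3 (h : S_weyl) : S_e3 := by
  intro ι F x L hB A _ e κ y γ lam hγ he hy hκ h0
  obtain ⟨l, hl, hΛ⟩ := exists_deg e lam he h0 (⌊γ⌋₊ + 1)
  obtain ⟨d, rfl⟩ : ∃ d, l = d + 1 := ⟨l - 1, by omega⟩
  set Λ := ∑ a, lam a * Ring.choose (e a) (d + 1) with hΛd
  have hl' : γ < (d + 1 : ℕ) := (Nat.lt_floor_add_one γ).trans_le (by exact_mod_cast hl)
  have hl0 : (0 : ℝ) < (d + 1 : ℕ) := by positivity
  set η : ℝ := γ / (d + 1 : ℕ) with hη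
  have hη0 : 0 < η := div_pos hγ hl0
  have hη1 : 0 < 1 - η := by rw [sub_pos, hη, div_lt_one hl0]; exact hl'
  rw [NormedAddGroup.tendsto_nhds_zero]
  intro ε hε
  obtain ⟨a0, ha0, S, hS, hW⟩ := weyl_small h d (show 0 < ε / 3 by positivity)
  have hΛ0 : 0 < |Λ| := abs_pos.2 hΛ
  set c : ℝ := (a0 / |Λ|) ^ (((d + 1 : ℕ) : ℝ)⁻¹) with hc
  have hc0 : 0 < c := by positivity
  have hcl : c ^ (d + 1) = a0 / |Λ| := Real.rpow_inv_natCast_pow (by positivity) (by omega)
  have hx : Tendsto (fun i => (x i : ℝ)) F atTop := tendsto_natCast_atTop_atTop.comp hB.hx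
  let D : ι → ℕ := fun i => ⌊c * (x i : ℝ) ^ (1 - η)⌋₊
  have hu : Tendsto (fun i => (D i : ℝ) / (x i : ℝ) ^ (1 - η)) F (𝓝 c) :=
    (tendsto_nat_floor_mul_div_atTop hc0.le).comp ((tendsto_rpow_atTop hη1).comp hx)
  have hx0 : ∀ᶠ i in F, (0 : ℝ) < x i := hx.eventually_gt_atTop 0
  have hDL : Tendsto (fun i => (D i : ℝ) / L i) F (𝓝 0) := by
    have h1 := hu.mul (hB.big η hη0)
    rw [mul_zero] at h1
    refine h1.congr' ?_
    filter_upwards [hx0] with i hi
    have := (Real.rpow_pos_of_pos hi (1 - η)).ne'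
    field_simp
  have hDx : Tendsto (fun i => (D i : ℝ) / x i) F (𝓝 0) := by
    have h1 := hDL.mul hB.small
    rw [mul_zero] at h1
    refine h1.congr' ?_
    filter_upwards [hB.pos] with i hi
    have : (L i : ℝ) ≠ 0 := by positivity
    field_simp
  let G : Filter (ι × ℕ) := comap Prod.fst F ⊓ 𝓟 {p | p.2 < L p.1}
  have hG : Tendsto Prod.fst G F := tendsto_comap.mono_left inf_le_left
  have hG2 : ∀ᶠ p in G, p.2 < L p.1 := mem_inf_of_right (mem_principal_self _)
  let n : A → ι × ℕ → ℝ := fun a p => ((x p.1 + p.2 + y a p.1 : ℕ) : ℝ)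
  have hρ : ∀ a, Tendsto (fun p => n a p / x p.1) G (𝓝 1) := by
    intro a
    have h1 : Tendsto (fun p : ι × ℕ => (p.2 : ℝ) / x p.1) G (𝓝 0) := by
      refine squeeze_zero' (Eventually.of_forall fun p => by positivity) ?_ (hB.small.comp hG)
      filter_upwards [hG2] with p hp
      have : (p.2 : ℝ) ≤ L p.1 := by exact_mod_cast hp.le
      simp only [Function.comp]
      gcongr
    have h2 := (h1.const_add 1).add ((hy a).comp hG)
    rw [add_zero, add_zero] at h2
    refine h2.congr' ?_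
    filter_upwards [hG.eventually hx0] with p hp
    simp only [n, Function.comp]
    push_cast
    field_simp
  have hn0 : ∀ᶠ p in G, ∀ a, 0 < n a p := by
    filter_upwards [hG.eventually hx0] with p hp a
    simp only [n]
    push_cast
    positivity
  have htop : ∀ a, Tendsto (fun p => κ a p.1 * n a p ^ e a * ((D p.1 : ℝ) / n a p) ^ (d + 1)) G
      (𝓝 (lam a * c ^ (d + 1))) := by
    intro a
    have h1 := (((hκ a).comp hG).mul ((hu.comp hG).pow (d + 1))).mul
      (((hρ a).rpow_const (p := e a) (Or.inl one_ne_zero)).div ((hρ a).pow (d + 1)) (by simp))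
    rw [Real.one_rpow, one_pow, div_one, mul_one] at h1
    refine h1.congr' ?_
    filter_upwards [hG.eventually hx0, hn0] with p hp hn
    have h2 := hn a
    have h3 : ((x p.1 : ℝ) ^ (1 - η)) ^ (d + 1) * (x p.1 : ℝ) ^ γ = (x p.1 : ℝ) ^ (d + 1) := by
      rw [← Real.rpow_natCast, ← Real.rpow_mul hp.le, ← Real.rpow_add hp, ← Real.rpow_natCast]
      congr 1
      rw [hη]
      field_simp
      ring
    have h4 := (Real.rpow_pos_of_pos hp (e a)).ne'
    have h5 := (Real.rpow_pos_of_pos hp γ).ne'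
    have h6 := (Real.rpow_pos_of_pos hp (1 - η)).ne'
    simp only [Function.comp, Pi.div_apply, Real.div_rpow h2.le hp.le, div_pow, ← h3]
    field_simp
  let cf : ι × ℕ → ℕ → ℝ := fun p j =>
    ∑ a, κ a p.1 * n a p ^ e a * (Ring.choose (e a) j * ((D p.1 : ℝ) / n a p) ^ j)
  have hcf : Tendsto (fun p => |cf p (d + 1)|) G (𝓝 a0) := by
    have h1 := (tendsto_finsetSum univ fun a _ =>
      (htop a).mul_const (Ring.choose (e a) (d + 1))).abs
    have h2 : |∑ a, lam a * c ^ (d + 1) * Ring.choose (e a) (d + 1)| = a0 := by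
      rw [show ∑ a, lam a * c ^ (d + 1) * Ring.choose (e a) (d + 1) = c ^ (d + 1) * Λ by
        rw [hΛd, mul_sum]; exact sum_congr rfl fun a _ => by ring, abs_mul, hcl,
        abs_of_pos (by positivity), div_mul_cancel₀ _ hΛ0.ne']
    rw [h2] at h1
    refine h1.congr fun p => ?_
    congr 1
    exact sum_congr rfl fun a _ => by ring
  have herr : ∀ s : ℕ, Tendsto (fun p => ∑ a, κ a p.1 * (n a p + D p.1 * s) ^ e a
      - ∑ j ∈ range (d + 1 + 1), cf p j * (s : ℝ) ^ j) G (𝓝 0) := by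
    intro s
    have h1 : ∀ a, Tendsto (fun p => κ a p.1 * n a p ^ e a * ((1 + D p.1 / n a p * s) ^ e a -
        ∑ j ∈ range (d + 1 + 1), Ring.choose (e a) j * (D p.1 / n a p * s) ^ j)) G (𝓝 0) := by
      intro a
      have h2 : Tendsto (fun p => (D p.1 : ℝ) / n a p * s) G (𝓝 0) := by
        have h3 := ((hDx.comp hG).div (hρ a) one_ne_zero).mul_const (s : ℝ)
        rw [zero_div, zero_mul] at h3
        refine h3.congr' ?_
        filter_upwards [hG.eventually hx0] with p hp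
        simp only [Function.comp, Pi.div_apply]
        rw [div_div_div_cancel_right₀ hp.ne']
      have h3 := (isBigO_refl (fun p => κ a p.1 * n a p ^ e a) G).mul_isLittleO
        ((taylor_o (e a) (d + 1)).comp_tendsto h2)
      refine (isLittleO_one_iff ℝ).1 (h3.trans_isBigO (Tendsto.isBigO_one ℝ
        (((htop a).mul_const ((s : ℝ) ^ (d + 1))).congr fun p => ?_)))
      simp only [Function.comp, mul_pow]
      ring
    have h2 := tendsto_finsetSum univ fun a _ => h1 a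
    rw [sum_const_zero] at h2
    refine h2.congr' ?_
    filter_upwards [hn0] with p hp
    simp only [cf, sum_mul]
    rw [sum_comm, ← sum_sub_distrib]
    refine sum_congr rfl fun a _ => ?_
    have h3 := hp a
    rw [mul_sub, mul_sum, mul_assoc, ← Real.mul_rpow h3.le (by positivity)]
    congr 1
    · congr 2; field_simp
    · exact sum_congr rfl fun j _ => by rw [mul_pow]; ring
  have hmain : ∀ᶠ p in G, ‖𝔼 s ∈ range S,
      ee (∑ a, κ a p.1 * ((x p.1 + (p.2 + D p.1 * s) + y a p.1 : ℕ) : ℝ) ^ e a)‖ ≤ 2 * ε / 3 := by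
    have h1 : ∀ᶠ p in G, ∀ s ∈ range S, |∑ a, κ a p.1 * (n a p + D p.1 * s) ^ e a
        - ∑ j ∈ range (d + 1 + 1), cf p j * (s : ℝ) ^ j| < ε / 24 :=
      (eventually_all_finset _).2 fun s _ =>
        (herr s).abs.eventually (gt_mem_nhds (by rw [abs_zero]; positivity))
    filter_upwards [h1, hcf.eventually (Icc_mem_nhds (show a0 / 2 < a0 by linarith)
      (show a0 < 2 * a0 by linarith))] with p h2 h3
    let P : ℝ[X] := ∑ j ∈ range (d + 1 + 1), monomial j (cf p j)
    have h4 : P.coeff (d + 1) = cf p (d + 1) := by simp [P, coeff_monomial]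
    have h5 := hW P (natDegree_sum_le_of_forall_le _ _ fun j hj =>
      (natDegree_monomial_le _).trans (Nat.lt_succ_iff.1 (mem_range.1 hj)))
      (h4 ▸ h3.1) (h4 ▸ h3.2)
    have h6 : ‖(𝔼 s ∈ range S,
        ee (∑ a, κ a p.1 * ((x p.1 + (p.2 + D p.1 * s) + y a p.1 : ℕ) : ℝ) ^ e a)) -
        𝔼 s ∈ range S, ee (P.eval (s : ℝ))‖ ≤ ε / 3 := by
      have hS' : (0 : ℝ) < S := by exact_mod_cast hS
      rw [← expect_sub_distrib, norm_expect_eq, div_le_iff₀ hS']
      refine (norm_sum_le _ _).trans ((sum_le_sum (g := fun _ => ε / 3) fun s hs =>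
        (norm_ee_sub _ _).trans ?_).trans (by simp [mul_comm]))
      have h7 := h2 s hs
      have h8 : ∀ a, ((x p.1 + (p.2 + D p.1 * s) + y a p.1 : ℕ) : ℝ) = n a p + D p.1 * s := by
        intro a
        simp only [n]
        push_cast
        ring
      simp only [h8, P, eval_finsetSum, eval_monomial]
      linarith
    linarith [norm_sub_norm_le (𝔼 s ∈ range S,
        ee (∑ a, κ a p.1 * ((x p.1 + (p.2 + D p.1 * s) + y a p.1 : ℕ) : ℝ) ^ e a))
        (𝔼 s ∈ range S, ee (P.eval (s : ℝ)))]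
  have h1 := (hDL.const_mul (2 * (S : ℝ)))
  rw [mul_zero] at h1
  rw [eventually_inf_principal, eventually_comap] at hmain
  filter_upwards [hmain, hB.pos, h1.eventually (gt_mem_nhds (show 0 < ε / 3 by positivity))]
    with i h2 h3 h4
  have h5 := avg_le (V := fun t => ee (∑ a, κ a i * ((x i + t + y a i : ℕ) : ℝ) ^ e a))
    (fun t => (norm_ee _).le) h3 hS (D i) fun t ht => h2 (i, t) rfl ht
  linarith

end Pool.Agent.H253Z.JE
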