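import Mathlib

/-! Abstract counting lemmas: Cauchy-Schwarz over fibres, Parseval on matrices, orbit counts. -/

set_option autoImplicit false

namespace Pool.Agent.H253Z

open Finset

/-- Cauchy-Schwarz along the fibres of a map. -/
lemma cs_fibre {J M : Type*} [Fintype J] [Fintype M] [DecidableEq M] (h : J → M) (e : M → ℤ) :
    (∑ j, e (h j)) ^ 2 ≤
      ((univ.filter (fun p : J × J => h p.1 = h p.2)).card : ℤ) * ∑ g, e g ^ 2 := by
  classical
  have h1 : ∑ j, e (h j) = ∑ g, ((univ.filter (fun j => h j = g)).card : ℤ) * e g := by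
    rw [← Finset.sum_fiberwise (s := univ) (g := h) (f := fun j => e (h j))]
    refine Finset.sum_congr rfl fun g _ => ?_
    rw [Finset.sum_congr rfl (g := fun _ => e g)]
    · simp
    · intro j hj
      rw [(Finset.mem_filter.1 hj).2]
  have h2 : ((univ.filter (fun p : J × J => h p.1 = h p.2)).card : ℤ) =
      ∑ g, ((univ.filter (fun j => h j = g)).card : ℤ) ^ 2 := by
    rw [Finset.card_eq_sum_card_fiberwise (f := fun p : J × J => h p.1) (t := univ)
      (fun _ _ => by simp)]
    push_cast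
    refine Finset.sum_congr rfl fun g _ => ?_
    rw [sq, ← Nat.cast_mul, ← Finset.card_product]
    congr 2
    ext p
    simp only [Finset.mem_filter, Finset.mem_univ, true_and, Finset.mem_product]
    constructor
    · rintro ⟨a, b⟩
      exact ⟨b, a ▸ b⟩
    · rintro ⟨a, b⟩
      exact ⟨a.trans b.symm, a⟩
  rw [h1, h2]
  exact Finset.sum_mul_sq_le_sq_mul_sq _ _ _

section Char

variable {F : Type*} [Field F]

lemma sum_char_lin (Ψ : AddChar F ℤ) (hΨ : Ψ ≠ 1) {V : Type*} [AddCommGroup V] [Module F V]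
    [Fintype V] (l : V →ₗ[F] F) (hl : l ≠ 0) : ∑ v, Ψ (l v) = 0 := by
  have hne : Ψ.compAddMonoidHom l.toAddMonoidHom ≠ 1 := by
    obtain ⟨b, hb⟩ := AddChar.ne_one_iff.1 hΨ
    obtain ⟨v, hv⟩ : ∃ v, l v ≠ 0 := by
      by_contra hc
      push Not at hc
      exact hl (LinearMap.ext hc)
    refine AddChar.ne_one_iff.2 ⟨(b / l v) • v, ?_⟩
    simp only [AddChar.compAddMonoidHom_apply, LinearMap.toAddMonoidHom_coe, map_smul, smul_eq_mul]
    rwa [div_mul_cancel₀ _ hv]
  simpa using AddChar.sum_eq_zero_of_ne_one hne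

lemma char_sq (Ψ : AddChar F ℤ) (h2 : (2 : F) = 0) (a : F) : Ψ a * Ψ a = 1 := by
  rw [← AddChar.map_add_eq_mul, ← two_mul, h2, zero_mul, AddChar.map_zero_eq_one]

lemma char_mul_le (Ψ : AddChar F ℤ) (h2 : (2 : F) = 0) (a b : F) : Ψ a * Ψ b ≤ 1 := by
  have h1 := char_sq Ψ h2 a
  have h3 := char_sq Ψ h2 b
  nlinarith [sq_nonneg (Ψ a - Ψ b)]

/-- Parseval bound on the additive group of matrices. -/
lemma parseval [Fintype F] [DecidableEq F] (Ψ : AddChar F ℤ) (hΨ : Ψ ≠ 1) (h2 : (2 : F) = 0)
    {ι : Type*} [Fintype ι] [DecidableEq ι] {I : Type*} [Fintype I]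
    (a : I → Matrix ι ι F) (c : I → F) :
    ∑ g : Matrix ι ι F, (∑ i, Ψ (c i) * Ψ (a i * g).trace) ^ 2 ≤
      (Fintype.card (Matrix ι ι F) : ℤ) *
        ((univ.filter (fun p : I × I => a p.1 = a p.2)).card : ℤ) := by
  have h1 : ∀ g : Matrix ι ι F, (∑ i, Ψ (c i) * Ψ (a i * g).trace) ^ 2 =
      ∑ p : I × I, Ψ (c p.1) * Ψ (c p.2) * Ψ ((a p.1 - a p.2) * g).trace := by
    intro g
    rw [sq, Finset.sum_mul_sum, Fintype.sum_prod_type]
    refine Finset.sum_congr rfl fun i _ => Finset.sum_congr rfl fun j _ => ?_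
    have : ((a i - a j) * g).trace = (a i * g).trace + (a j * g).trace := by
      rw [Matrix.sub_mul, Matrix.trace_sub]
      linear_combination (-(a j * g).trace) * h2
    simp only
    rw [this, AddChar.map_add_eq_mul]
    ring
  simp_rw [h1]
  rw [Finset.sum_comm, Finset.card_filter]
  push_cast
  rw [Finset.mul_sum]
  refine Finset.sum_le_sum fun p _ => ?_
  rw [← Finset.mul_sum]
  split_ifs with h
  · simp only [h, sub_self, Matrix.zero_mul, Matrix.trace_zero, AddChar.map_zero_eq_one,
      Finset.sum_const, Finset.card_univ, nsmul_eq_mul, mul_one]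
    have := char_mul_le Ψ h2 (c p.1) (c p.2)
    have h0 : (0 : ℤ) ≤ (Fintype.card (Matrix ι ι F) : ℤ) := Int.natCast_nonneg _
    nlinarith
  · have hl : (Matrix.traceLinearMap ι F F).comp (LinearMap.mulLeft F (a p.1 - a p.2)) ≠ 0 := by
      intro h0
      apply h
      rw [← sub_eq_zero, Matrix.ext_iff_trace_mul_right]
      intro x
      have := LinearMap.congr_fun h0 x
      simpa using this
    have := sum_char_lin Ψ hΨ _ hl
    simp only [LinearMap.comp_apply, LinearMap.mulLeft_apply, Matrix.traceLinearMap_apply] at this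
    rw [this]
    simp

end Char

section Orbit

/-- For a finite group acting on a finite set and any self-map `f`, the pairs `(x, h)` with `x` in a
fixed orbit and `h • x = f x` number at most the order of the group. -/
lemma orbit_count {H X : Type*} [Group H] [Fintype H] [Fintype X] [DecidableEq X] [MulAction H X]
    (x0 : X) (f : X → X) [DecidablePred (· ∈ MulAction.orbit H x0)] :
    (univ.filter (fun p : X × H => p.1 ∈ MulAction.orbit H x0 ∧ p.2 • p.1 = f p.1)).card ≤
      Fintype.card H := by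
  classical
  set O := univ.filter (fun x : X => x ∈ MulAction.orbit H x0) with hO
  have hOpos : 0 < O.card := Finset.card_pos.2 ⟨x0, by simp [hO]⟩
  have key : ∀ x ∈ O, O.card * (univ.filter (fun h : H => h • x = f x)).card ≤ Fintype.card H := by
    intro x hx
    have hx' : x ∈ MulAction.orbit H x0 := by simpa [hO] using hx
    have e1 : MulAction.orbit H x = MulAction.orbit H x0 := MulAction.orbit_eq_iff.2 hx'
    have e2 := MulAction.card_orbit_mul_card_stabilizer_eq_card_group H x
    have e3 : Fintype.card (MulAction.orbit H x) = O.card := by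
      rw [hO, Fintype.card_subtype]
      congr 1
      ext y
      simp [e1]
    rw [← e2, e3]
    refine Nat.mul_le_mul_left _ ?_
    by_cases hne : (univ.filter (fun h : H => h • x = f x)).Nonempty
    · obtain ⟨h0, hh0⟩ := hne
      have hh0' : h0 • x = f x := by simpa using hh0
      rw [Fintype.card_subtype]
      refine Finset.card_le_card_of_injOn (fun h => h0⁻¹ * h) ?_ ?_
      · intro h hh
        have hh' : h • x = f x := by simpa using hh
        simp only [Finset.coe_filter, Finset.mem_univ, true_and, Set.mem_ofPred_eq,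
          MulAction.mem_stabilizer_iff]
        rw [mul_smul, hh', ← hh0', inv_smul_smul]
      · intro a _ b _ hab
        simpa using hab
    · rw [Finset.not_nonempty_iff_eq_empty.1 hne]
      simp
  have hsum : (univ.filter (fun p : X × H => p.1 ∈ MulAction.orbit H x0 ∧ p.2 • p.1 = f p.1)).card =
      ∑ x ∈ O, (univ.filter (fun h : H => h • x = f x)).card := by
    rw [Finset.card_eq_sum_card_fiberwise (f := fun p : X × H => p.1) (t := O)]
    · refine Finset.sum_congr rfl fun x hx => ?_
      have hx' : x ∈ MulAction.orbit H x0 := by simpa [hO] using hx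
      refine Finset.card_bij (fun p _ => p.2) ?_ ?_ ?_
      · intro p hp
        simp only [Finset.mem_filter, Finset.mem_univ, true_and] at hp ⊢
        obtain ⟨⟨_, h2⟩, h3⟩ := hp
        rw [← h3]
        exact h2
      · intro p hp q hq hpq
        simp only [Finset.mem_filter, Finset.mem_univ, true_and] at hp hq
        exact Prod.ext (hp.2.trans hq.2.symm) hpq
      · intro h hh
        simp only [Finset.mem_filter, Finset.mem_univ, true_and] at hh
        exact ⟨(x, h), by simp [hx', hh], rfl⟩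
    · intro p hp
      simp only [Finset.coe_filter, Finset.mem_univ, true_and, Set.mem_ofPred_eq] at hp
      simp [hO, hp.1]
  rw [hsum]
  refine Nat.le_of_mul_le_mul_left ?_ hOpos
  rw [Finset.mul_sum]
  calc ∑ x ∈ O, O.card * (univ.filter (fun h : H => h • x = f x)).card
      ≤ ∑ _x ∈ O, Fintype.card H := Finset.sum_le_sum key
    _ = O.card * Fintype.card H := by simp

end Orbit

section Groups

variable {G : Type*} [Group G] [Fintype G] [DecidableEq G]

lemma count_fix (φ : G →* G) :
    (univ.filter (fun p : G × G => p.1 * (φ p.1)⁻¹ = p.2 * (φ p.2)⁻¹)).card ≤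
      Fintype.card G * (univ.filter (fun z : G => φ z = z)).card := by
  rw [← Finset.card_univ, ← Finset.card_product]
  refine Finset.card_le_card_of_injOn (fun p => (p.2, p.2⁻¹ * p.1)) ?_ ?_
  · intro p hp
    simp only [Finset.coe_filter, Finset.mem_univ, true_and, Set.mem_ofPred_eq] at hp
    simp only [Finset.coe_product, Finset.coe_univ, Finset.coe_filter, Finset.mem_univ, true_and,
      Set.mem_prod, Set.mem_univ, Set.mem_ofPred_eq, map_mul, map_inv]
    calc (φ p.2)⁻¹ * φ p.1 = p.2⁻¹ * (p.2 * (φ p.2)⁻¹) * φ p.1 := by group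
      _ = p.2⁻¹ * (p.1 * (φ p.1)⁻¹) * φ p.1 := by rw [hp]
      _ = p.2⁻¹ * p.1 := by group
  · intro p _ q _ h
    simp only [Prod.mk.injEq] at h
    obtain ⟨h1, h2⟩ := h
    rw [h1] at h2
    exact Prod.ext (by simpa using h2) h1

lemma count_conj (φ : G →* G) (U : Subgroup G) [Fintype U] :
    (univ.filter (fun p : (G × U) × (G × U) =>
      (φ p.1.1)⁻¹ * p.1.2 * p.1.1 = (φ p.2.1)⁻¹ * p.2.2 * p.2.1)).card ≤
      Fintype.card G *
        (univ.filter (fun p : G × (U × U) => (p.2.1 : G) * p.1 * (p.2.2 : G)⁻¹ = φ p.1)).card := by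
  rw [← Finset.card_univ, ← Finset.card_product]
  refine Finset.card_le_card_of_injOn
    (fun p => (p.2.1, (p.1.1 * p.2.1⁻¹, (p.1.2, p.2.2)))) ?_ ?_
  · intro p hp
    simp only [Finset.coe_filter, Finset.mem_univ, true_and, Set.mem_ofPred_eq] at hp
    simp only [Finset.coe_product, Finset.coe_univ, Finset.coe_filter, Finset.mem_univ, true_and,
      Set.mem_prod, Set.mem_univ, Set.mem_ofPred_eq, map_mul, map_inv]
    calc (p.1.2 : G) * (p.1.1 * p.2.1⁻¹) * (p.2.2 : G)⁻¹
        = φ p.1.1 * ((φ p.1.1)⁻¹ * p.1.2 * p.1.1) * p.2.1⁻¹ * (p.2.2 : G)⁻¹ := by group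
      _ = φ p.1.1 * ((φ p.2.1)⁻¹ * p.2.2 * p.2.1) * p.2.1⁻¹ * (p.2.2 : G)⁻¹ := by rw [hp]
      _ = φ p.1.1 * (φ p.2.1)⁻¹ := by group
  · intro p _ q _ h
    simp only [Prod.mk.injEq] at h
    obtain ⟨h1, h2, h3, h4⟩ := h
    rw [h1] at h2
    exact Prod.ext (Prod.ext (by simpa using h2) h3) (Prod.ext h1 h4)

/-- The two-sided action of `U × U` on `G`. -/
@[reducible] def biAct (U : Subgroup G) : MulAction (U × U) G where
  smul h y := (h.1 : G) * y * (h.2 : G)⁻¹
  one_smul y := by
    show ((1 : U × U).1 : G) * y * ((1 : U × U).2 : G)⁻¹ = y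
    simp
  mul_smul a b y := by
    show ((a * b).1 : G) * y * ((a * b).2 : G)⁻¹ =
      (a.1 : G) * ((b.1 : G) * y * (b.2 : G)⁻¹) * (a.2 : G)⁻¹
    simp only [Prod.fst_mul, Prod.snd_mul, Subgroup.coe_mul]
    group

lemma count_double (φ : G → G) (U : Subgroup G) [Fintype U] {W : Type*} [Fintype W] (P : W → G)
    (hP : ∀ (y : G) (u u' : U), (u : G) * y * (u' : G)⁻¹ = φ y →
      ∃ w, ∃ a b : U, (a : G) * P w * (b : G)⁻¹ = y) :
    (univ.filter (fun p : G × (U × U) => (p.2.1 : G) * p.1 * (p.2.2 : G)⁻¹ = φ p.1)).card ≤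
      Fintype.card W * Fintype.card U ^ 2 := by
  classical
  let _ := biAct U
  have hsub : univ.filter (fun p : G × (U × U) => (p.2.1 : G) * p.1 * (p.2.2 : G)⁻¹ = φ p.1) ⊆
      (univ : Finset W).biUnion (fun w => univ.filter (fun p : G × (U × U) =>
        p.1 ∈ MulAction.orbit (U × U) (P w) ∧ p.2 • p.1 = φ p.1)) := by
    intro p hp
    simp only [Finset.mem_filter, Finset.mem_univ, true_and] at hp
    obtain ⟨w, a, b, hab⟩ := hP p.1 p.2.1 p.2.2 hp
    simp only [Finset.mem_biUnion, Finset.mem_univ, true_and, Finset.mem_filter]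
    exact ⟨w, ⟨(a, b), hab⟩, hp⟩
  refine (Finset.card_le_card hsub).trans ?_
  refine Finset.card_biUnion_le.trans ?_
  calc _ ≤ ∑ _w : W, Fintype.card (U × U) :=
        Finset.sum_le_sum fun w _ => orbit_count (P w) φ
    _ = _ := by simp [sq]

end Groups

end Pool.Agent.H253Z
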