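import Pool.Agent.H253Z.SfA

/-! The unitriangular group and the Bruhat decomposition. -/

set_option autoImplicit false

namespace Pool.Agent.H253Z

open Finset

variable {F : Type*} [Field F] {k : ℕ}

lemma upper_mul {a b : Matrix (Fin k) (Fin k) F} (ha : ∀ i j, j < i → a i j = 0)
    (hb : ∀ i j, j < i → b i j = 0) : ∀ i j, j < i → (a * b) i j = 0 := by
  intro i j hij
  rw [Matrix.mul_apply]
  refine Finset.sum_eq_zero fun l _ => ?_
  by_cases h : l < i
  · rw [ha i l h, zero_mul]
  · rw [hb l j (lt_of_lt_of_le hij (not_lt.1 h)), mul_zero]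

lemma upper_mul_diag {a b : Matrix (Fin k) (Fin k) F} (ha : ∀ i j, j < i → a i j = 0)
    (hb : ∀ i j, j < i → b i j = 0) (i : Fin k) : (a * b) i i = a i i * b i i := by
  rw [Matrix.mul_apply]
  refine Finset.sum_eq_single i ?_ (by simp)
  intro l _ hl
  rcases lt_or_gt_of_ne hl with h | h
  · rw [ha i l h, zero_mul]
  · rw [hb l i h, mul_zero]

/-- Upper unitriangular matrices. -/
def Ut (k : ℕ) (F : Type*) [Field F] : Subgroup (GL (Fin k) F) where
  carrier := {g | (∀ i j, j < i → (g : Matrix (Fin k) (Fin k) F) i j = 0) ∧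
    ∀ i, (g : Matrix (Fin k) (Fin k) F) i i = 1}
  mul_mem' := by
    rintro a b ⟨ha, ha'⟩ ⟨hb, hb'⟩
    refine ⟨?_, fun i => ?_⟩
    · simpa using upper_mul ha hb
    · have := upper_mul_diag ha hb i
      rw [ha', hb', mul_one] at this
      simpa using this
  one_mem' := by
    refine ⟨fun i j h => ?_, fun i => ?_⟩
    · simp [Matrix.one_apply, h.ne']
    · simp
  inv_mem' := by
    rintro a ⟨ha, ha'⟩
    have hinv : ∀ i j, j < i → ((a⁻¹ : GL (Fin k) F) : Matrix (Fin k) (Fin k) F) i j = 0 := by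
      let _ : Invertible (a : Matrix (Fin k) (Fin k) F) := Units.invertible a
      have hb : (a : Matrix (Fin k) (Fin k) F).BlockTriangular id := fun i j h => ha i j h
      have := Matrix.blockTriangular_inv_of_blockTriangular hb
      intro i j h
      rw [Matrix.coe_units_inv]
      exact this h
    refine ⟨hinv, fun i => ?_⟩
    have := upper_mul_diag ha hinv i
    rw [ha', one_mul, ← Units.val_mul, mul_inv_cancel] at this
    simpa using this.symm

lemma Ut_upper (u : Ut k F) : ∀ i j, j < i → ((u : GL (Fin k) F) : Matrix (Fin k) (Fin k) F) i j = 0 :=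
  u.2.1

lemma Ut_diag (u : Ut k F) : ∀ i, ((u : GL (Fin k) F) : Matrix (Fin k) (Fin k) F) i i = 1 :=
  u.2.2

lemma det_unitri {m : Matrix (Fin k) (Fin k) F} (h : ∀ i j, j < i → m i j = 0)
    (h' : ∀ i, m i i = 1) : m.det = 1 := by
  have hb : m.BlockTriangular id := fun i j hij => h i j hij
  rw [Matrix.det_of_upperTriangular hb]
  simp [h']

/-- A unitriangular matrix as an element of `Ut`. -/
noncomputable def mkU (m : Matrix (Fin k) (Fin k) F) (h : ∀ i j, j < i → m i j = 0)
    (h' : ∀ i, m i i = 1) : Ut k F :=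
  ⟨Matrix.GeneralLinearGroup.mkOfDetNeZero m (by rw [det_unitri h h']; exact one_ne_zero), h, h'⟩

lemma mkU_coe (m : Matrix (Fin k) (Fin k) F) (h : ∀ i j, j < i → m i j = 0)
    (h' : ∀ i, m i i = 1) :
    ((mkU m h h' : GL (Fin k) F) : Matrix (Fin k) (Fin k) F) = m := rfl

lemma col_ne_zero (g : GL (Fin k) F) (c : Fin k) :
    ∃ i, (g : Matrix (Fin k) (Fin k) F) i c ≠ 0 := by
  by_contra hc
  push Not at hc
  have h1 : (((g⁻¹ : GL (Fin k) F) : Matrix (Fin k) (Fin k) F) *
    (g : Matrix (Fin k) (Fin k) F)) c c = 0 := by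
    rw [Matrix.mul_apply]
    simp [hc]
  rw [← Units.val_mul, inv_mul_cancel] at h1
  simp at h1

lemma bruhat_aux (g : GL (Fin k) F) (m : ℕ) (hm : m ≤ k) :
    ∃ a b : Ut k F, ∃ w : Fin k → Fin k, ∀ j : Fin k, j.val < m →
      (∀ i, i ≠ w j → (((a : GL (Fin k) F) * g * b : GL (Fin k) F) : Matrix (Fin k) (Fin k) F) i j = 0) ∧
      (∀ j', j' ≠ j →
        (((a : GL (Fin k) F) * g * b : GL (Fin k) F) : Matrix (Fin k) (Fin k) F) (w j) j' = 0) := by
  classical
  induction m with
  | zero => exact ⟨1, 1, id, fun j hj => absurd hj (Nat.not_lt_zero _)⟩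
  | succ m ih =>
    obtain ⟨a, b, w, hw⟩ := ih (Nat.le_of_succ_le hm)
    set g1 : GL (Fin k) F := (a : GL (Fin k) F) * g * b with hg1
    set n : Matrix (Fin k) (Fin k) F := (g1 : Matrix (Fin k) (Fin k) F) with hn
    let c : Fin k := ⟨m, hm⟩
    have hne : (univ.filter (fun i => n i c ≠ 0)).Nonempty := by
      obtain ⟨i, hi⟩ := col_ne_zero g1 c
      exact ⟨i, by simpa using hi⟩
    set i0 := (univ.filter (fun i => n i c ≠ 0)).max' hne with hi0
    have hi0ne : n i0 c ≠ 0 := by
      have := Finset.max'_mem _ hne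
      simpa using this
    have hi0max : ∀ i, i0 < i → n i c = 0 := by
      intro i hi
      by_contra h
      have : i ≤ i0 := Finset.le_max' _ i (by simpa using h)
      exact absurd hi (not_lt.2 this)
    have hcj : ∀ j : Fin k, j.val < m → c ≠ j := by
      intro j hj h
      have : c.val = j.val := congrArg Fin.val h
      simp only [c] at this
      omega
    have hi0w : ∀ j : Fin k, j.val < m → i0 ≠ w j := by
      intro j hj h
      exact hi0ne (h ▸ (hw j hj).2 c (hcj j hj))
    let A : Matrix (Fin k) (Fin k) F := fun i l =>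
      (if i = l then 1 else 0) - (if l = i0 ∧ i < i0 then n i c / n i0 c else 0)
    have hA1 : ∀ i j, j < i → A i j = 0 := by
      intro i j h
      have h1 : ¬ (j = i0 ∧ i < i0) := fun ⟨h1, h2⟩ => absurd (h1 ▸ h) (not_lt.2 h2.le)
      simp [A, h.ne', h1]
    have hA2 : ∀ i, A i i = 1 := by
      intro i
      have h1 : ¬ (i = i0 ∧ i < i0) := fun ⟨h1, h2⟩ => absurd h2 (by rw [h1]; exact lt_irrefl _)
      simp [A, h1]
    have hAn : ∀ i j, (A * n) i j = n i j - (if i < i0 then n i c / n i0 c * n i0 j else 0) := by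
      intro i j
      rw [Matrix.mul_apply]
      simp only [A, sub_mul, Finset.sum_sub_distrib, ite_mul, one_mul, zero_mul,
        Finset.sum_ite_eq, Finset.mem_univ, if_true]
      congr 1
      by_cases h : i < i0
      · simp [h]
      · simp [h]
    set n1 := A * n with hn1
    have hn1c : ∀ i, i ≠ i0 → n1 i c = 0 := by
      intro i hi
      rw [hAn]
      rcases lt_or_gt_of_ne hi with h | h
      · rw [if_pos h, div_mul_cancel₀ _ hi0ne, sub_self]
      · rw [if_neg (not_lt.2 h.le), hi0max i h, sub_zero]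
    have hn1i0 : ∀ j, n1 i0 j = n i0 j := by
      intro j
      rw [hAn, if_neg (lt_irrefl _), sub_zero]
    let B : Matrix (Fin k) (Fin k) F := fun l j =>
      (if l = j then 1 else 0) - (if l = c ∧ c < j then n i0 j / n i0 c else 0)
    have hB1 : ∀ i j, j < i → B i j = 0 := by
      intro i j h
      have h1 : ¬ (i = c ∧ c < j) := fun ⟨h1, h2⟩ => absurd (h1 ▸ h) (not_lt.2 h2.le)
      simp [B, h.ne', h1]
    have hB2 : ∀ i, B i i = 1 := by
      intro i
      have h1 : ¬ (i = c ∧ c < i) := fun ⟨h1, h2⟩ => absurd h2 (by rw [h1]; exact lt_irrefl _)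
      simp [B, h1]
    have hnB : ∀ i j, (n1 * B) i j = n1 i j - (if c < j then n1 i c * (n i0 j / n i0 c) else 0) := by
      intro i j
      rw [Matrix.mul_apply]
      simp only [B, mul_sub, Finset.sum_sub_distrib, mul_ite, mul_one, mul_zero,
        Finset.sum_ite_eq', Finset.mem_univ, if_true]
      congr 1
      by_cases h : c < j
      · simp [h]
      · simp [h]
    refine ⟨mkU A hA1 hA2 * a, b * mkU B hB1 hB2, Function.update w c i0, ?_⟩
    have hcoe : ((((mkU A hA1 hA2 * a : Ut k F) : GL (Fin k) F) * g *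
        ((b * mkU B hB1 hB2 : Ut k F) : GL (Fin k) F) : GL (Fin k) F) : Matrix (Fin k) (Fin k) F) =
        n1 * B := by
      rw [hn1, hn, hg1]
      simp only [Subgroup.coe_mul, Units.val_mul, mkU_coe, Matrix.mul_assoc]
    rw [hcoe]
    intro j hj
    by_cases hjc : j = c
    · subst hjc
      rw [Function.update_self]
      refine ⟨fun i hi => ?_, fun j' hj' => ?_⟩
      · rw [hnB, if_neg (lt_irrefl _), sub_zero, hn1c i hi]
      · rw [hnB, hn1i0, hn1i0]
        rcases lt_or_gt_of_ne hj' with h | h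
        · rw [if_neg (not_lt.2 h.le), sub_zero]
          have hj'm : j'.val < m := h
          exact (hw j' hj'm).1 i0 (hi0w j' hj'm)
        · rw [if_pos h, mul_div_cancel₀ _ hi0ne, sub_self]
    · have hjm : j.val < m := by
        have : j.val ≠ m := fun h => hjc (Fin.ext h)
        omega
      have hjc' : j < c := hjm
      rw [Function.update_of_ne hjc]
      have hz : n i0 j = 0 := (hw j hjm).1 i0 (hi0w j hjm)
      have hz' : n (w j) c = 0 := (hw j hjm).2 c (hcj j hjm)
      refine ⟨fun i hi => ?_, fun j' hj' => ?_⟩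
      · rw [hnB, if_neg (not_lt.2 hjc'.le), sub_zero, hAn, hz, (hw j hjm).1 i hi]
        simp
      · rw [hnB, hn1c _ (hi0w j hjm).symm, hAn, hz', (hw j hjm).2 j' hj']
        simp

lemma map_mem_Ut (σ : F →+* F) (u : Ut k F) :
    Matrix.GeneralLinearGroup.map σ (u : GL (Fin k) F) ∈ Ut k F := by
  refine ⟨fun i j h => ?_, fun i => ?_⟩
  · rw [Matrix.GeneralLinearGroup.map_apply, Ut_upper u i j h, map_zero]
  · rw [Matrix.GeneralLinearGroup.map_apply, Ut_diag u i, map_one]

open Classical in
/-- The permutation matrix of `w` as an invertible matrix. -/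
noncomputable def permG (F : Type*) [Field F] (w : Equiv.Perm (Fin k)) : GL (Fin k) F :=
  if h : ∃ g : GL (Fin k) F, ∀ i j, (g : Matrix (Fin k) (Fin k) F) i j = if i = w j then 1 else 0
  then h.choose else 1

lemma stable_coset (σ : F →+* F) (hσ : ∀ x, σ x = x ^ 2) (y : GL (Fin k) F) (u u' : Ut k F)
    (h : (u : GL (Fin k) F) * y * (u' : GL (Fin k) F)⁻¹ = Matrix.GeneralLinearGroup.map σ y) :
    ∃ w : Equiv.Perm (Fin k), ∃ a b : Ut k F,
      (a : GL (Fin k) F) * permG F w * (b : GL (Fin k) F)⁻¹ = y := by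
  classical
  obtain ⟨a, b, w, hw⟩ := bruhat_aux y k le_rfl
  set n : GL (Fin k) F := (a : GL (Fin k) F) * y * b with hn
  have hw1 : ∀ j i, i ≠ w j → (n : Matrix (Fin k) (Fin k) F) i j = 0 := fun j => (hw j j.2).1
  have hw2 : ∀ j j', j' ≠ j → (n : Matrix (Fin k) (Fin k) F) (w j) j' = 0 := fun j => (hw j j.2).2
  have hnz : ∀ j, (n : Matrix (Fin k) (Fin k) F) (w j) j ≠ 0 := by
    intro j h0
    obtain ⟨i, hi⟩ := col_ne_zero n j
    by_cases hij : i = w j
    · exact hi (hij ▸ h0)
    · exact hi (hw1 j i hij)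
  have hinj : Function.Injective w := by
    intro j j' hjj
    by_contra hne
    exact hnz j' (hjj ▸ hw2 j j' (Ne.symm hne))
  let φ := Matrix.GeneralLinearGroup.map (n := Fin k) σ
  let a1 : Ut k F := a * u⁻¹ * (⟨φ a, map_mem_Ut σ a⟩ : Ut k F)⁻¹
  let b1 : Ut k F := b⁻¹ * u'⁻¹ * (⟨φ b, map_mem_Ut σ b⟩ : Ut k F)
  have hrel : (a1 : GL (Fin k) F) * φ n = n * b1 := by
    have h' : φ y = (u : GL (Fin k) F) * y * (u' : GL (Fin k) F)⁻¹ := h.symm
    simp only [a1, b1, hn, map_mul, h', Subgroup.coe_mul, InvMemClass.coe_inv]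
    group
  have hone : ∀ j, (n : Matrix (Fin k) (Fin k) F) (w j) j = 1 := by
    intro j
    have e := congrArg (fun g : GL (Fin k) F => (g : Matrix (Fin k) (Fin k) F) (w j) j) hrel
    simp only [Units.val_mul, Matrix.mul_apply] at e
    rw [Finset.sum_eq_single (w j), Finset.sum_eq_single j, Ut_diag, Ut_diag, one_mul, mul_one,
      Matrix.GeneralLinearGroup.map_apply, hσ] at e
    · have := hnz j
      rw [sq] at e
      exact mul_left_cancel₀ this (by rw [e, mul_one])
    · intro l _ hl
      rw [hw2 j l hl, zero_mul]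
    · simp
    · intro l _ hl
      rw [Matrix.GeneralLinearGroup.map_apply, hw1 j l hl, map_zero, mul_zero]
    · simp
  let w' : Equiv.Perm (Fin k) := Equiv.ofBijective w (Finite.injective_iff_bijective.1 hinj)
  have hex : ∀ i j, (n : Matrix (Fin k) (Fin k) F) i j = if i = w' j then 1 else 0 := by
    intro i j
    show _ = if i = w j then 1 else 0
    split_ifs with hij
    · rw [hij, hone]
    · exact hw1 j i hij
  have hP : permG F w' = n := by
    have hex' : ∃ g : GL (Fin k) F, ∀ i j, (g : Matrix (Fin k) (Fin k) F) i j =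
      if i = w' j then 1 else 0 := ⟨n, hex⟩
    unfold permG
    rw [dif_pos hex']
    ext i j
    rw [hex'.choose_spec i j, hex]
  refine ⟨w', a⁻¹, b, ?_⟩
  rw [hP, hn]
  simp only [InvMemClass.coe_inv]
  group

lemma card_fix [Fintype F] [DecidableEq F] (σ : F →+* F) (hσ : ∀ x, σ x = x ^ 2) :
    (univ.filter (fun z : GL (Fin k) F => Matrix.GeneralLinearGroup.map σ z = z)).card ≤
      2 ^ (k * k) := by
  classical
  have : 2 ^ (k * k) = (univ : Finset (Fin k → Fin k → Bool)).card := by
    simp [pow_mul]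
  rw [this]
  refine Finset.card_le_card_of_injOn
    (fun z i j => decide ((z : Matrix (Fin k) (Fin k) F) i j = 1)) (fun _ _ => by simp) ?_
  have key : ∀ z : GL (Fin k) F, Matrix.GeneralLinearGroup.map σ z = z → ∀ i j,
      (z : Matrix (Fin k) (Fin k) F) i j = if (z : Matrix (Fin k) (Fin k) F) i j = 1 then 1 else 0 := by
    intro z hz i j
    have e := congrArg (fun g : GL (Fin k) F => (g : Matrix (Fin k) (Fin k) F) i j) hz
    simp only [Matrix.GeneralLinearGroup.map_apply, hσ] at e
    split_ifs with h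
    · exact h
    · by_contra h0
      exact h (mul_left_cancel₀ h0 (by rw [← sq, e, mul_one]))
  intro z hz z' hz' hzz
  simp only [Finset.coe_filter, Finset.mem_univ, true_and, Set.mem_ofPred_eq] at hz hz'
  ext i j
  have e := congrFun (congrFun hzz i) j
  simp only [decide_eq_decide] at e
  rw [key z hz i j, key z' hz' i j]
  simp only [e]

end Pool.Agent.H253Z
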