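import Pool.Agent.H253Z.SfB

/-! The Whittaker-projected additive character and the main second-moment bound. -/

set_option autoImplicit false
set_option linter.unusedSectionVars false

namespace Pool.Agent.H253Z

open Finset

variable {F : Type*} [Field F] {k : ℕ}

/-- The lower shift matrix. -/
def shiftM (k : ℕ) (F : Type*) [Field F] : Matrix (Fin k) (Fin k) F :=
  fun i j => if i.val = j.val + 1 then 1 else 0

/-- Sum of the entries just above the diagonal. -/
def sU (u : Ut k F) : F := (((u : GL (Fin k) F) : Matrix (Fin k) (Fin k) F) * shiftM k F).trace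

/-- Upper Hessenberg with ones below the diagonal. -/
def Hess (g : Matrix (Fin k) (Fin k) F) : Prop := ∀ i j, j < i → g i j = shiftM k F i j

/-- Strictly upper triangular matrices. -/
def Ns (k : ℕ) (F : Type*) [Field F] : Submodule F (Matrix (Fin k) (Fin k) F) where
  carrier := {m | ∀ i j, j ≤ i → m i j = 0}
  add_mem' := by
    intro a b ha hb i j h
    simp [ha i j h, hb i j h]
  zero_mem' := fun _ _ _ => rfl
  smul_mem' := by
    intro c a ha i j h
    simp [ha i j h]

lemma sub_one_mem (u : Ut k F) :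
    ((u : GL (Fin k) F) : Matrix (Fin k) (Fin k) F) - 1 ∈ Ns k F := by
  intro i j h
  rcases lt_or_eq_of_le h with h | h
  · simp [Ut_upper u i j h, h.ne']
  · subst h
    simp [Ut_diag u]

/-- Unitriangular matrices are `1 + m` with `m` strictly upper triangular. -/
noncomputable def utEquiv (k : ℕ) (F : Type*) [Field F] : Ns k F ≃ Ut k F where
  toFun m := mkU (1 + (m : Matrix (Fin k) (Fin k) F))
    (fun i j h => by simp [m.2 i j h.le, h.ne'])
    (fun i => by simp [m.2 i i le_rfl])
  invFun u := ⟨_, sub_one_mem u⟩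
  left_inv m := by
    apply Subtype.ext
    simp [mkU_coe]
  right_inv u := by
    apply Subtype.ext
    ext i j
    simp [mkU_coe]

lemma utEquiv_coe (m : Ns k F) :
    (((utEquiv k F m : Ut k F) : GL (Fin k) F) : Matrix (Fin k) (Fin k) F) = 1 + m := rfl

lemma trace_shift : (shiftM k F).trace = 0 := by
  simp [Matrix.trace, shiftM]

lemma sU_mul (u v : Ut k F) : sU (u * v) = sU u + sU v := by
  have hu := sub_one_mem u
  have hv := sub_one_mem v
  set a := ((u : GL (Fin k) F) : Matrix (Fin k) (Fin k) F) with ha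
  set b := ((v : GL (Fin k) F) : Matrix (Fin k) (Fin k) F) with hb
  have h0 : ((a - 1) * (b - 1) * shiftM k F).trace = 0 := by
    simp only [Matrix.trace, Matrix.diag_apply, Matrix.mul_apply]
    refine Finset.sum_eq_zero fun i _ => Finset.sum_eq_zero fun j _ => ?_
    by_cases h : j.val = i.val + 1
    · rw [Finset.sum_eq_zero, zero_mul]
      intro l _
      by_cases hl : l ≤ i
      · rw [hu i l hl, zero_mul]
      · rw [hv l j, mul_zero]
        have : i.val < l.val := not_le.1 hl
        show j.val ≤ l.val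
        omega
    · simp [shiftM, h]
  have h1 : (a - 1) * (b - 1) * shiftM k F =
      a * b * shiftM k F - a * shiftM k F - b * shiftM k F + shiftM k F := by
    noncomm_ring
  rw [h1] at h0
  simp only [Matrix.trace_add, Matrix.trace_sub, trace_shift] at h0
  simp only [sU, Subgroup.coe_mul, Units.val_mul]
  linear_combination h0

lemma sU_one : sU (1 : Ut k F) = 0 := by
  simp [sU, trace_shift]

lemma sU_inv (u : Ut k F) : sU u⁻¹ = - sU u := by
  have := sU_mul u u⁻¹
  rw [mul_inv_cancel, sU_one] at this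
  linear_combination -this

lemma sU_map (σ : F →+* F) (u : Ut k F) :
    sU (⟨Matrix.GeneralLinearGroup.map σ (u : GL (Fin k) F), map_mem_Ut σ u⟩ : Ut k F) =
      σ (sU u) := by
  simp only [sU, Matrix.trace, Matrix.diag_apply, Matrix.mul_apply, map_sum, map_mul,
    Matrix.GeneralLinearGroup.map_apply, shiftM]
  refine Finset.sum_congr rfl fun i _ => Finset.sum_congr rfl fun j _ => ?_
  split_ifs <;> simp

variable [Fintype F] [DecidableEq F]

noncomputable instance : Fintype (Ut k F) := Fintype.ofFinite _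

noncomputable instance : Fintype (Ns k F) := Fintype.ofFinite _

/-- The Whittaker projection of the additive character. -/
noncomputable def Wf (Ψ : AddChar F ℤ) (g : Matrix (Fin k) (Fin k) F) : ℤ :=
  ∑ u : Ut k F, Ψ (sU u) * Ψ (((u : GL (Fin k) F) : Matrix (Fin k) (Fin k) F) * g).trace

lemma Wf_hess (Ψ : AddChar F ℤ) (h2 : (2 : F) = 0) {g : Matrix (Fin k) (Fin k) F} (hg : Hess g) :
    Wf Ψ g = Fintype.card (Ut k F) * Ψ g.trace := by
  unfold Wf
  rw [Finset.sum_congr rfl (g := fun _ => Ψ g.trace)]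
  · simp
  intro u _
  have hup : ∀ i j, j < i → (g - shiftM k F) i j = 0 := by
    intro i j h
    simp [hg i j h]
  have h1 : (((u : GL (Fin k) F) : Matrix (Fin k) (Fin k) F) * (g - shiftM k F)).trace =
      (g - shiftM k F).trace := by
    simp only [Matrix.trace, Matrix.diag_apply]
    refine Finset.sum_congr rfl fun i _ => ?_
    rw [upper_mul_diag (Ut_upper u) hup, Ut_diag, one_mul]
  rw [Matrix.mul_sub, Matrix.trace_sub, Matrix.trace_sub, trace_shift] at h1
  rw [← AddChar.map_add_eq_mul]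
  congr 1
  unfold sU
  linear_combination h1 +
    (((u : GL (Fin k) F) : Matrix (Fin k) (Fin k) F) * shiftM k F).trace * h2

lemma Wf_not_hess (Ψ : AddChar F ℤ) (hΨ : Ψ ≠ 1) (h2 : (2 : F) = 0)
    {g : Matrix (Fin k) (Fin k) F} (hg : ¬ Hess g) : Wf Ψ g = 0 := by
  unfold Wf
  rw [← (utEquiv k F).sum_comp]
  let l : Ns k F →ₗ[F] F := (Matrix.traceLinearMap (Fin k) F F).comp
    ((LinearMap.mulRight F (g - shiftM k F)).comp (Ns k F).subtype)
  have hl : l ≠ 0 := by
    intro h0
    apply hg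
    intro i j hij
    have hm : Matrix.single j i (1 : F) ∈ Ns k F := by
      intro a b hab
      rw [Matrix.single_apply, if_neg]
      rintro ⟨rfl, rfl⟩
      exact absurd hij (not_lt.2 hab)
    have := LinearMap.congr_fun h0 ⟨_, hm⟩
    simp only [l, LinearMap.comp_apply, Submodule.subtype_apply, LinearMap.mulRight_apply,
      Matrix.traceLinearMap_apply, Matrix.trace_single_mul, LinearMap.zero_apply, smul_eq_mul,
      one_mul, Matrix.sub_apply] at this
    exact sub_eq_zero.1 this
  have h1 := sum_char_lin Ψ hΨ l hl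
  rw [Finset.sum_congr rfl (g := fun m => Ψ g.trace * Ψ (l m)), ← Finset.mul_sum, h1, mul_zero]
  intro m _
  rw [← AddChar.map_add_eq_mul, ← AddChar.map_add_eq_mul]
  congr 1
  simp only [sU, utEquiv_coe, l, LinearMap.comp_apply, Submodule.subtype_apply,
    LinearMap.mulRight_apply, Matrix.traceLinearMap_apply, Matrix.add_mul, Matrix.mul_sub,
    Matrix.one_mul, Matrix.trace_add, Matrix.trace_sub, trace_shift]
  linear_combination ((m : Matrix (Fin k) (Fin k) F) * shiftM k F).trace * h2

lemma Wf_inv (Ψ : AddChar F ℤ) (h2 : (2 : F) = 0) (a b : Ut k F) (g : Matrix (Fin k) (Fin k) F) :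
    Wf Ψ (((a : GL (Fin k) F) : Matrix (Fin k) (Fin k) F) * g *
      ((b : GL (Fin k) F) : Matrix (Fin k) (Fin k) F)) = Ψ (sU a) * Ψ (sU b) * Wf Ψ g := by
  unfold Wf
  rw [Finset.mul_sum]
  rw [← ((Equiv.mulLeft b).trans (Equiv.mulRight a)).sum_comp
    (fun u : Ut k F => Ψ (sU a) * Ψ (sU b) *
      (Ψ (sU u) * Ψ (((u : GL (Fin k) F) : Matrix (Fin k) (Fin k) F) * g).trace))]
  refine Finset.sum_congr rfl fun u _ => ?_
  simp only [Equiv.trans_apply, Equiv.coe_mulLeft, Equiv.coe_mulRight, sU_mul,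
    AddChar.map_add_eq_mul, Subgroup.coe_mul, Units.val_mul]
  have e : (((u : GL (Fin k) F) : Matrix (Fin k) (Fin k) F) *
      (((a : GL (Fin k) F) : Matrix (Fin k) (Fin k) F) * g *
        ((b : GL (Fin k) F) : Matrix (Fin k) (Fin k) F))).trace =
      (((b : GL (Fin k) F) : Matrix (Fin k) (Fin k) F) *
        ((u : GL (Fin k) F) : Matrix (Fin k) (Fin k) F) *
        ((a : GL (Fin k) F) : Matrix (Fin k) (Fin k) F) * g).trace := by
    rw [← Matrix.mul_assoc, Matrix.trace_mul_comm]
    simp only [Matrix.mul_assoc]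
  rw [e]
  have ha := char_sq Ψ h2 (sU a)
  have hb := char_sq Ψ h2 (sU b)
  generalize Ψ (((b : GL (Fin k) F) : Matrix (Fin k) (Fin k) F) *
        ((u : GL (Fin k) F) : Matrix (Fin k) (Fin k) F) *
        ((a : GL (Fin k) F) : Matrix (Fin k) (Fin k) F) * g).trace = t
  linear_combination (-(Ψ (sU u) * t)) * hb - (Ψ (sU u) * t * Ψ (sU b) * Ψ (sU b)) * ha

/-- The main second-moment bound. -/
lemma main_bound (Ψ : AddChar F ℤ) (hΨ : Ψ ≠ 1) (h2 : (2 : F) = 0) (σ : F →+* F)
    (hσ : ∀ x, σ x = x ^ 2) :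
    (∑ Y : GL (Fin k) F, Wf Ψ ((Y * (Matrix.GeneralLinearGroup.map σ Y)⁻¹ : GL (Fin k) F) :
      Matrix (Fin k) (Fin k) F)) ^ 2 ≤
      2 ^ (k * k) * (Fintype.card (Matrix (Fin k) (Fin k) F) : ℤ) *
        (k.factorial * (Fintype.card (Ut k F) : ℤ) ^ 2) := by
  classical
  let φ := Matrix.GeneralLinearGroup.map (n := Fin k) σ
  let h : GL (Fin k) F → Matrix (Fin k) (Fin k) F := fun Y => ((Y * (φ Y)⁻¹ : GL (Fin k) F) :
    Matrix (Fin k) (Fin k) F)
  let a : GL (Fin k) F × Ut k F → Matrix (Fin k) (Fin k) F := fun p =>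
    (((φ p.1)⁻¹ * p.2 * p.1 : GL (Fin k) F) : Matrix (Fin k) (Fin k) F)
  let e : Matrix (Fin k) (Fin k) F → ℤ := fun g => ∑ p, Ψ (sU p.2) * Ψ (a p * g).trace
  set E := ∑ Y : GL (Fin k) F, Wf Ψ (h Y) with hE
  have h1 : (Fintype.card (GL (Fin k) F) : ℤ) * E = ∑ Y, e (h Y) := by
    have : ∀ Z : GL (Fin k) F, E = ∑ Y, ∑ u : Ut k F, Ψ (sU u) * Ψ (a (Z, u) * h Y).trace := by
      intro Z
      rw [hE, ← Equiv.sum_comp (Equiv.mulLeft Z)]
      refine Finset.sum_congr rfl fun Y _ => ?_
      unfold Wf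
      refine Finset.sum_congr rfl fun u _ => ?_
      congr 2
      simp only [h, a, Equiv.coe_mulLeft, map_mul, mul_inv_rev, Units.val_mul]
      rw [← Matrix.mul_assoc, ← Matrix.mul_assoc, ← Matrix.mul_assoc, ← Matrix.mul_assoc,
        Matrix.trace_mul_comm]
      simp only [Matrix.mul_assoc]
    calc (Fintype.card (GL (Fin k) F) : ℤ) * E = ∑ _Z : GL (Fin k) F, E := by simp
      _ = ∑ Z : GL (Fin k) F, ∑ Y, ∑ u : Ut k F, Ψ (sU u) * Ψ (a (Z, u) * h Y).trace :=
        Finset.sum_congr rfl fun Z _ => this Z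
      _ = ∑ Y, e (h Y) := by
        rw [Finset.sum_comm]
        refine Finset.sum_congr rfl fun Y _ => ?_
        simp only [e]
        rw [Fintype.sum_prod_type]
  have h3 := cs_fibre h e
  have h4 := parseval Ψ hΨ h2 a (fun p => sU p.2)
  have h5 : (univ.filter (fun p : GL (Fin k) F × GL (Fin k) F => h p.1 = h p.2)).card ≤
      Fintype.card (GL (Fin k) F) * 2 ^ (k * k) := by
    refine le_trans ?_ ((count_fix φ).trans (Nat.mul_le_mul_left _ (card_fix σ hσ)))
    refine Finset.card_le_card fun p hp => ?_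
    simp only [Finset.mem_filter, Finset.mem_univ, true_and] at hp ⊢
    exact Units.ext hp
  have h6 : (univ.filter (fun p : (GL (Fin k) F × Ut k F) × (GL (Fin k) F × Ut k F) =>
      a p.1 = a p.2)).card ≤
      Fintype.card (GL (Fin k) F) * (k.factorial * Fintype.card (Ut k F) ^ 2) := by
    have h7 := count_double φ (Ut k F) (permG F (k := k)) (stable_coset σ hσ)
    rw [Fintype.card_perm, Fintype.card_fin] at h7
    refine le_trans ?_ ((count_conj φ (Ut k F)).trans (Nat.mul_le_mul_left _ h7))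
    refine Finset.card_le_card fun p hp => ?_
    simp only [Finset.mem_filter, Finset.mem_univ, true_and] at hp ⊢
    exact Units.ext hp
  have hG : (0 : ℤ) < Fintype.card (GL (Fin k) F) := by exact_mod_cast Fintype.card_pos
  rw [← h1] at h3
  have h5' : ((univ.filter (fun p : GL (Fin k) F × GL (Fin k) F => h p.1 = h p.2)).card : ℤ) ≤
      Fintype.card (GL (Fin k) F) * 2 ^ (k * k) := by exact_mod_cast h5
  have h6' : ((univ.filter (fun p : (GL (Fin k) F × Ut k F) × (GL (Fin k) F × Ut k F) =>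
      a p.1 = a p.2)).card : ℤ) ≤
      Fintype.card (GL (Fin k) F) * (k.factorial * (Fintype.card (Ut k F) : ℤ) ^ 2) := by
    exact_mod_cast h6
  have h8 : ∑ g, e g ^ 2 ≤ (Fintype.card (Matrix (Fin k) (Fin k) F) : ℤ) *
      (Fintype.card (GL (Fin k) F) * (k.factorial * (Fintype.card (Ut k F) : ℤ) ^ 2)) :=
    h4.trans (mul_le_mul_of_nonneg_left h6' (Int.natCast_nonneg _))
  have h9 : ((Fintype.card (GL (Fin k) F) : ℤ) * E) ^ 2 ≤
      (Fintype.card (GL (Fin k) F) * 2 ^ (k * k)) * ((Fintype.card (Matrix (Fin k) (Fin k) F) : ℤ) *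
      (Fintype.card (GL (Fin k) F) * (k.factorial * (Fintype.card (Ut k F) : ℤ) ^ 2))) :=
    h3.trans (mul_le_mul h5' h8 (Finset.sum_nonneg fun _ _ => sq_nonneg _) (by positivity))
  have h10 : (Fintype.card (GL (Fin k) F) : ℤ) ^ 2 * E ^ 2 ≤
      (Fintype.card (GL (Fin k) F) : ℤ) ^ 2 *
        (2 ^ (k * k) * (Fintype.card (Matrix (Fin k) (Fin k) F) : ℤ) *
        (k.factorial * (Fintype.card (Ut k F) : ℤ) ^ 2)) := by
    calc _ = ((Fintype.card (GL (Fin k) F) : ℤ) * E) ^ 2 := by ring
      _ ≤ _ := h9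
      _ = _ := by ring
  exact le_of_mul_le_mul_left h10 (by positivity)

lemma card_Ut_ge : Fintype.card (Matrix (Fin k) (Fin k) F) ≤
    Fintype.card (Ut k F) ^ 2 * Fintype.card F ^ k := by
  rw [← Fintype.card_congr (utEquiv k F)]
  have : Fintype.card (Ns k F) ^ 2 * Fintype.card F ^ k =
      Fintype.card (Ns k F × Ns k F × (Fin k → F)) := by
    simp [sq, mul_assoc]
  rw [this]
  let f : Matrix (Fin k) (Fin k) F → Ns k F × Ns k F × (Fin k → F) := fun m =>
    (⟨fun i j => if i < j then m i j else 0, fun i j h => if_neg (not_lt.2 h)⟩,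
     ⟨fun i j => if i < j then m j i else 0, fun i j h => if_neg (not_lt.2 h)⟩,
     fun i => m i i)
  refine Fintype.card_le_of_injective f ?_
  intro m m' hmm
  simp only [f, Prod.mk.injEq, Subtype.mk.injEq] at hmm
  obtain ⟨h1, h2, h3⟩ := hmm
  ext i j
  rcases lt_trichotomy i j with h | h | h
  · have := congrFun (congrFun h1 i) j
    simpa [h] using this
  · subst h
    exact congrFun h3 i
  · have := congrFun (congrFun h2 j) i
    simpa [h] using this

end Pool.Agent.H253Z
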