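import Pool.Agent.H253Z.SfC

/-! Moore matrices and the twisted cross-section. -/

set_option autoImplicit false
set_option linter.unusedSectionVars false

namespace Pool.Agent.H253Z

open Finset

variable {F : Type*} [Field F] {k : ℕ}

/-- The Moore matrix. -/
def moore (x : Fin k → F) : Matrix (Fin k) (Fin k) F := fun i j => x j ^ (2 ^ i.val)

/-- Tuples with invertible Moore matrix. -/
abbrev Ind (k : ℕ) (F : Type*) [Field F] := {x : Fin k → F // (moore x).det ≠ 0}

/-- The Moore matrix as an invertible matrix. -/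
noncomputable def MG (x : Ind k F) : GL (Fin k) F :=
  Matrix.GeneralLinearGroup.mkOfDetNeZero (moore x.1) x.2

lemma MG_coe (x : Ind k F) : (MG x : Matrix (Fin k) (Fin k) F) = moore x.1 := rfl

/-- The companion-type matrix of a tuple. -/
noncomputable def comp (σ : F →+* F) (x : Ind k F) : Matrix (Fin k) (Fin k) F :=
  ((MG x * (Matrix.GeneralLinearGroup.map σ (MG x))⁻¹ : GL (Fin k) F) : Matrix (Fin k) (Fin k) F)

lemma tw_mul (σ : F →+* F) (Y : GL (Fin k) F) :
    ((Y * (Matrix.GeneralLinearGroup.map σ Y)⁻¹ : GL (Fin k) F) : Matrix (Fin k) (Fin k) F) *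
      ((Matrix.GeneralLinearGroup.map σ Y : GL (Fin k) F) : Matrix (Fin k) (Fin k) F) = Y := by
  rw [← Units.val_mul, inv_mul_cancel_right]

lemma comp_rel (σ : F →+* F) (hσ : ∀ x, σ x = x ^ 2) (x : Ind k F) (i j : Fin k) :
    ∑ l, comp σ x i l * x.1 j ^ (2 ^ (l.val + 1)) = x.1 j ^ (2 ^ i.val) := by
  have := congrFun (congrFun (tw_mul σ (MG x)) i) j
  rw [Matrix.mul_apply] at this
  simp only [Matrix.GeneralLinearGroup.map_apply, MG_coe, moore, hσ, ← pow_mul, ← pow_succ] at this
  exact this

lemma comp_row (σ : F →+* F) (hσ : ∀ x, σ x = x ^ 2) (x : Ind k F) (i l : Fin k)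
    (hi : i.val ≠ 0) : comp σ x i l = shiftM k F i l := by
  set P := Matrix.GeneralLinearGroup.map σ (MG x) with hP
  have h1 : comp σ x - shiftM k F = ((comp σ x - shiftM k F) * (P : Matrix (Fin k) (Fin k) F)) *
      ((P⁻¹ : GL (Fin k) F) : Matrix (Fin k) (Fin k) F) := by
    rw [Matrix.mul_assoc, ← Units.val_mul, mul_inv_cancel, Units.val_one, Matrix.mul_one]
  have h2 : ∀ j, ((comp σ x - shiftM k F) * (P : Matrix (Fin k) (Fin k) F)) i j = 0 := by
    intro j
    rw [Matrix.sub_mul, Matrix.sub_apply, Matrix.mul_apply, Matrix.mul_apply]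
    simp only [hP, Matrix.GeneralLinearGroup.map_apply, MG_coe, moore, hσ, ← pow_mul, ← pow_succ]
    rw [comp_rel σ hσ x i j]
    have hlt : i.val - 1 < k := by have := i.2; omega
    rw [Finset.sum_eq_single ⟨i.val - 1, hlt⟩]
    · have : i.val - 1 + 1 = i.val := by omega
      simp [shiftM, this]
    · intro b _ hb
      have : i.val ≠ b.val + 1 := by
        intro h
        apply hb
        apply Fin.ext
        simp only
        omega
      simp [shiftM, this]
    · simp
  have h3 := congrFun (congrFun h1 i) l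
  rw [Matrix.mul_apply] at h3
  simp only [h2, zero_mul, Finset.sum_const_zero, Matrix.sub_apply] at h3
  exact sub_eq_zero.1 h3

lemma comp_hess (σ : F →+* F) (hσ : ∀ x, σ x = x ^ 2) (x : Ind k F) : Hess (comp σ x) := by
  intro i j h
  refine comp_row σ hσ x i j ?_
  have : j.val < i.val := h
  omega

lemma comp_trace {m : ℕ} (σ : F →+* F) (hσ : ∀ x, σ x = x ^ 2) (x : Ind (m + 1) F) :
    (comp σ x).trace = comp σ x 0 0 := by
  simp only [Matrix.trace, Matrix.diag_apply]
  refine Finset.sum_eq_single 0 ?_ (by simp)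
  intro i _ hi
  rw [comp_row σ hσ x i i (fun h => hi (Fin.ext h))]
  simp [shiftM]

lemma exists_root_pow [Finite F] (σ : F →+* F) (hσ : ∀ x, σ x = x ^ 2) (m : ℕ) (y : F) :
    ∃ x : F, x ^ (2 ^ m) = y := by
  have hs : Function.Surjective σ := Finite.injective_iff_surjective.1 σ.injective
  induction m generalizing y with
  | zero => exact ⟨y, by simp⟩
  | succ m ih =>
    obtain ⟨z, hz⟩ := hs y
    obtain ⟨x, hx⟩ := ih z
    exact ⟨x, by rw [pow_succ, pow_mul, hx, ← hσ, hz]⟩

lemma hess_surj [Finite F] {m : ℕ} (σ : F →+* F) (hσ : ∀ x, σ x = x ^ 2) (Y : GL (Fin (m + 1)) F)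
    (hY : Hess ((Y * (Matrix.GeneralLinearGroup.map σ Y)⁻¹ : GL (Fin (m + 1)) F) :
      Matrix (Fin (m + 1)) (Fin (m + 1)) F)) :
    ∃ (u : Ut (m + 1) F) (x : Ind (m + 1) F), (u : GL (Fin (m + 1)) F) * MG x = Y := by
  classical
  let e : F ≃+* F := RingEquiv.ofBijective σ (Finite.injective_iff_bijective.1 σ.injective)
  have he : ∀ a, e.symm (a ^ 2) = a := by
    intro a
    rw [← hσ]
    exact e.symm_apply_apply a
  set g := ((Y * (Matrix.GeneralLinearGroup.map σ Y)⁻¹ : GL (Fin (m + 1)) F) :
      Matrix (Fin (m + 1)) (Fin (m + 1)) F) with hg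
  set y := (Y : Matrix (Fin (m + 1)) (Fin (m + 1)) F) with hy
  have hrel : ∀ r j, y r j = ∑ l, g r l * y l j ^ 2 := by
    intro r j
    have := congrFun (congrFun (tw_mul σ Y) r) j
    rw [Matrix.mul_apply] at this
    simp only [Matrix.GeneralLinearGroup.map_apply, hσ] at this
    exact this.symm
  choose x hx using fun j => exists_root_pow σ hσ m (y (Fin.last m) j)
  let M := moore x
  let W : ℕ → Submodule F (Fin (m + 1) → F) := fun i =>
    Submodule.span F {v | ∃ l : Fin (m + 1), i ≤ l.val ∧ v = M l}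
  have hmono : ∀ i i', i ≤ i' → W i' ≤ W i := by
    intro i i' h
    refine Submodule.span_mono ?_
    rintro v ⟨l, hl, rfl⟩
    exact ⟨l, h.trans hl, rfl⟩
  have hM : ∀ l : Fin (m + 1), M l ∈ W l.val := fun l => Submodule.subset_span ⟨l, le_rfl, rfl⟩
  have hshift : ∀ i v, v ∈ W (i + 1) → (fun j => e.symm (v j)) ∈ W i := by
    intro i v hv
    induction hv using Submodule.span_induction with
    | mem v hv =>
      obtain ⟨l, hl, rfl⟩ := hv
      have hlt : l.val - 1 < m + 1 := by have := l.2; omega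
      refine Submodule.subset_span ⟨⟨l.val - 1, hlt⟩, by simp only; omega, ?_⟩
      funext j
      have : l.val = (l.val - 1) + 1 := by omega
      simp only [M, moore]
      rw [this, pow_succ, pow_mul, he]
      simp
    | zero =>
      have : (fun j => e.symm ((0 : Fin (m + 1) → F) j)) = 0 := by
        funext j
        simp
      rw [this]
      exact Submodule.zero_mem _
    | add a b _ _ ha hb =>
      have : (fun j => e.symm ((a + b) j)) = (fun j => e.symm (a j)) + (fun j => e.symm (b j)) := by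
        funext j
        simp
      rw [this]
      exact Submodule.add_mem _ ha hb
    | smul c a _ ha =>
      have : (fun j => e.symm ((c • a) j)) = e.symm c • (fun j => e.symm (a j)) := by
        funext j
        simp
      rw [this]
      exact Submodule.smul_mem _ _ ha
  have hclaim : ∀ d, ∀ i : Fin (m + 1), m ≤ i.val + d → y i - M i ∈ W (i.val + 1) := by
    intro d
    induction d with
    | zero =>
      intro i hi
      have : i = Fin.last m := Fin.ext (by have := i.2; simp only [Fin.val_last]; omega)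
      subst this
      have : y (Fin.last m) - M (Fin.last m) = 0 := by
        funext j
        simp [M, moore, hx]
      rw [this]
      exact Submodule.zero_mem _
    | succ d ih =>
      intro i hi
      by_cases hi' : m ≤ i.val + d
      · exact ih i hi'
      have hr : i.val + 1 < m + 1 := by omega
      let r : Fin (m + 1) := ⟨i.val + 1, hr⟩
      have hyl : ∀ l : Fin (m + 1), r ≤ l → y l ∈ W (i.val + 1) := by
        intro l hl
        have hl' : i.val + 1 ≤ l.val := hl
        have h1 := hmono (i.val + 1) (l.val + 1) (by omega) (ih l (by omega))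
        have h2 := hmono (i.val + 1) l.val hl' (hM l)
        simpa using Submodule.add_mem _ h1 h2
      have heq : y i - M i = (fun j => e.symm ((y r - M r) j)) -
          ∑ l ∈ univ.filter (fun l => r ≤ l), e.symm (g r l) • y l := by
        funext j
        have h1 := hrel r j
        rw [← Finset.sum_filter_add_sum_filter_not univ (fun l => r ≤ l)] at h1
        have h2 : ∑ l ∈ univ.filter (fun l => ¬ r ≤ l), g r l * y l j ^ 2 = y i j ^ 2 := by
          rw [Finset.sum_eq_single i]
          · rw [hY r i (by show i.val < i.val + 1; omega)]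
            simp [shiftM, r]
          · intro b hb hbi
            have hb' : b < r := not_le.1 (Finset.mem_filter.1 hb).2
            rw [hY r b hb']
            have : ¬ (i.val = b.val) := fun h => hbi (Fin.ext h.symm)
            simp [shiftM, r, this]
          · intro h
            exfalso
            apply h
            simp only [Finset.mem_filter, Finset.mem_univ, true_and, not_le]
            show i.val < i.val + 1
            omega
        rw [h2] at h1
        have h3 : M r j = M i j ^ 2 := by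
          simp only [M, moore, r]
          rw [pow_succ, pow_mul]
        simp only [Pi.sub_apply, Finset.sum_apply, Pi.smul_apply, smul_eq_mul, map_sub]
        rw [h1, h3, map_add, he, he, map_sum]
        simp only [map_mul, he]
        ring
      rw [heq]
      refine Submodule.sub_mem _ (hshift _ _ (ih r (by show m ≤ i.val + 1 + d; omega))) ?_
      refine Submodule.sum_mem _ fun l hl => Submodule.smul_mem _ _ ?_
      exact hyl l (Finset.mem_filter.1 hl).2
  have hext : ∀ i v, v ∈ W i → ∃ c : Fin (m + 1) → F, (∀ l, l.val < i → c l = 0) ∧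
      v = Matrix.vecMul c M := by
    intro i v hv
    induction hv using Submodule.span_induction with
    | mem v hv =>
      obtain ⟨l, hl, rfl⟩ := hv
      refine ⟨Pi.single l 1, fun l' hl' => ?_, ?_⟩
      · rw [Pi.single_eq_of_ne]
        rintro rfl
        omega
      · rw [Matrix.single_vecMul]
        funext j
        simp
    | zero => exact ⟨0, fun _ _ => rfl, by simp⟩
    | add a b _ _ ha hb =>
      obtain ⟨c, hc, rfl⟩ := ha
      obtain ⟨c', hc', rfl⟩ := hb
      exact ⟨c + c', fun l hl => by simp [hc l hl, hc' l hl], by rw [Matrix.add_vecMul]⟩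
    | smul t a _ ha =>
      obtain ⟨c, hc, rfl⟩ := ha
      exact ⟨t • c, fun l hl => by simp [hc l hl], by rw [Matrix.smul_vecMul]⟩
  choose c hc hc' using fun i : Fin (m + 1) => hext _ _ (hclaim m i (by omega))
  let u : Matrix (Fin (m + 1)) (Fin (m + 1)) F := 1 + Matrix.of c
  have hu1 : ∀ i j, j < i → u i j = 0 := by
    intro i j h
    have : j.val < i.val + 1 := Nat.lt_succ_of_lt h
    simp [u, h.ne', hc i j this]
  have hu2 : ∀ i, u i i = 1 := by
    intro i
    simp [u, hc i i (Nat.lt_succ_self _)]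
  have huM : u * M = y := by
    ext i j
    have := congrFun (hc' i) j
    simp only [Pi.sub_apply, Matrix.vecMul, dotProduct] at this
    simp only [u]
    rw [Matrix.add_mul, Matrix.one_mul, Matrix.add_apply, Matrix.mul_apply]
    simp only [Matrix.of_apply]
    linear_combination -this
  have hdet : (moore x).det ≠ 0 := by
    intro h0
    have h1 : y.det = 0 := by
      rw [← huM, Matrix.det_mul]
      simp only [M]
      rw [h0, mul_zero]
    exact (Matrix.GeneralLinearGroup.det_ne_zero Y) h1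
  refine ⟨mkU u hu1 hu2, ⟨x, hdet⟩, ?_⟩
  apply Units.ext
  rw [Units.val_mul, mkU_coe, MG_coe]
  exact huM

variable [Fintype F] [DecidableEq F]

lemma sum_eq_moore {m : ℕ} (Ψ : AddChar F ℤ) (hΨ : Ψ ≠ 1) (h2 : (2 : F) = 0) (σ : F →+* F)
    (hσ : ∀ x, σ x = x ^ 2) (hΨσ : ∀ a, Ψ (σ a) = Ψ a) :
    (∑ Y : GL (Fin (m + 1)) F, Wf Ψ ((Y * (Matrix.GeneralLinearGroup.map σ Y)⁻¹ :
      GL (Fin (m + 1)) F) : Matrix (Fin (m + 1)) (Fin (m + 1)) F)) =
      (Fintype.card (Ut (m + 1) F) : ℤ) ^ 2 * ∑ x : Ind (m + 1) F, Ψ (comp σ x 0 0) := by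
  classical
  let β : Ut (m + 1) F × Ind (m + 1) F → GL (Fin (m + 1)) F := fun p => p.1 * MG p.2
  have hlast : ∀ (u : Ut (m + 1) F) (x : Ind (m + 1) F) (j : Fin (m + 1)),
      (((u : GL (Fin (m + 1)) F) * MG x : GL (Fin (m + 1)) F) :
        Matrix (Fin (m + 1)) (Fin (m + 1)) F) (Fin.last m) j = x.1 j ^ (2 ^ m) := by
    intro u x j
    rw [Units.val_mul, Matrix.mul_apply, Finset.sum_eq_single (Fin.last m), Ut_diag, one_mul]
    · rfl
    · intro l _ hl
      rw [Ut_upper u _ l (lt_of_le_of_ne (Fin.le_last l) hl), zero_mul]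
    · simp
  have hpow : ∀ (n : ℕ) (a b : F), a ^ (2 ^ n) = b ^ (2 ^ n) → a = b := by
    intro n
    induction n with
    | zero => intro a b h; simpa using h
    | succ n ih =>
      intro a b h
      apply ih
      apply σ.injective
      rw [hσ, hσ, ← pow_mul, ← pow_mul, ← pow_succ]
      exact h
  have hβ : Function.Injective β := by
    rintro ⟨u, x⟩ ⟨u', x'⟩ h
    have hx : x = x' := by
      apply Subtype.ext
      funext j
      apply hpow m
      rw [← hlast u x j, ← hlast u' x' j]
      simp only [β] at h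
      rw [h]
    subst hx
    simp only [β, mul_left_inj] at h
    rw [Subtype.ext h]
  rw [← Fintype.sum_of_injective β hβ
    (fun p => (Fintype.card (Ut (m + 1) F) : ℤ) * Ψ (comp σ p.2 0 0))]
  · rw [Fintype.sum_prod_type]
    simp only [Finset.sum_const, Finset.card_univ, nsmul_eq_mul, ← Finset.mul_sum]
    ring
  · intro Y hY
    refine Wf_not_hess Ψ hΨ h2 fun hh => hY ?_
    obtain ⟨u, x, hux⟩ := hess_surj σ hσ Y hh
    exact ⟨(u, x), hux⟩
  · rintro ⟨u, x⟩
    let v : Ut (m + 1) F :=
      (⟨Matrix.GeneralLinearGroup.map σ (u : GL (Fin (m + 1)) F), map_mem_Ut σ u⟩ : Ut (m + 1) F)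
    have e1 : ((β (u, x) * (Matrix.GeneralLinearGroup.map σ (β (u, x)))⁻¹ : GL (Fin (m + 1)) F) :
        Matrix (Fin (m + 1)) (Fin (m + 1)) F) =
        ((u : GL (Fin (m + 1)) F) : Matrix (Fin (m + 1)) (Fin (m + 1)) F) * comp σ x *
          (((v⁻¹ : Ut (m + 1) F) : GL (Fin (m + 1)) F) : Matrix (Fin (m + 1)) (Fin (m + 1)) F) := by
      simp only [β, comp, v, map_mul, mul_inv_rev, InvMemClass.coe_inv, Units.val_mul,
        Matrix.mul_assoc]
    rw [e1, Wf_inv Ψ h2, Wf_hess Ψ h2 (comp_hess σ hσ x), comp_trace σ hσ, sU_inv, sU_map]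
    have e2 : -σ (sU u) = σ (sU u) := by linear_combination (-σ (sU u)) * h2
    rw [e2, hΨσ, char_sq Ψ h2, one_mul]

/-- The second-moment bound for the sum over Moore tuples. -/
lemma moore_bound {m : ℕ} (Ψ : AddChar F ℤ) (hΨ : Ψ ≠ 1) (h2 : (2 : F) = 0) (σ : F →+* F)
    (hσ : ∀ x, σ x = x ^ 2) (hΨσ : ∀ a, Ψ (σ a) = Ψ a) :
    (∑ x : Ind (m + 1) F, Ψ (comp σ x 0 0)) ^ 2 ≤
      2 ^ ((m + 1) * (m + 1)) * ((m + 1).factorial : ℤ) * (Fintype.card F : ℤ) ^ (m + 1) := by
  have h1 := main_bound (k := m + 1) Ψ hΨ h2 σ hσ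
  rw [sum_eq_moore Ψ hΨ h2 σ hσ hΨσ] at h1
  have h3 : (Fintype.card (Matrix (Fin (m + 1)) (Fin (m + 1)) F) : ℤ) ≤
      (Fintype.card (Ut (m + 1) F) : ℤ) ^ 2 * (Fintype.card F : ℤ) ^ (m + 1) := by
    exact_mod_cast card_Ut_ge (k := m + 1) (F := F)
  have hU : (0 : ℤ) < Fintype.card (Ut (m + 1) F) := by exact_mod_cast Fintype.card_pos
  set U : ℤ := (Fintype.card (Ut (m + 1) F) : ℤ)
  set T := ∑ x : Ind (m + 1) F, Ψ (comp σ x 0 0)
  have h4 : U ^ 4 * T ^ 2 ≤ U ^ 4 *
      (2 ^ ((m + 1) * (m + 1)) * ((m + 1).factorial : ℤ) * (Fintype.card F : ℤ) ^ (m + 1)) := by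
    calc U ^ 4 * T ^ 2 = (U ^ 2 * T) ^ 2 := by ring
      _ ≤ _ := h1
      _ ≤ 2 ^ ((m + 1) * (m + 1)) * (U ^ 2 * (Fintype.card F : ℤ) ^ (m + 1)) *
          (((m + 1).factorial : ℤ) * U ^ 2) := by gcongr
      _ = _ := by ring
  exact le_of_mul_le_mul_left h4 (by positivity)

end Pool.Agent.H253Z
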