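import Pool.Agent.H253Z.SfD

/-! Subspace polynomials in characteristic two. -/

set_option autoImplicit false
set_option linter.unusedSectionVars false

namespace Pool.Agent.H253Z

open Finset Polynomial

variable {F : Type*} [Field F] [CharP F 2] [Algebra (ZMod 2) F] {k : ℕ}

lemma two_zero : (2 : F) = 0 := by
  have := CharP.cast_eq_zero F 2
  simpa using this

/-- The iterated Frobenius as a linear map over the prime field. -/
noncomputable def frobL (F : Type*) [Field F] [CharP F 2] [Algebra (ZMod 2) F] (i : ℕ) :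
    F →ₗ[ZMod 2] F :=
  (iterateFrobenius F 2 i).toAddMonoidHom.toZModLinearMap 2

lemma frobL_apply (i : ℕ) (y : F) : frobL F i y = y ^ (2 ^ i) := by
  simp [frobL, iterateFrobenius_def]

/-- A linear combination with coefficients in the prime field. -/
def comb (x : Fin k → F) (ε : Fin k → ZMod 2) : F := ∑ j, ε j • x j

lemma comb_pow (x : Fin k → F) (ε : Fin k → ZMod 2) (i : ℕ) :
    comb x ε ^ (2 ^ i) = ∑ j, ε j • x j ^ (2 ^ i) := by
  rw [← frobL_apply, comb, map_sum]
  simp only [map_smul, frobL_apply]

lemma comb_inj {x : Fin k → F} (hx : LinearIndependent (ZMod 2) x) :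
    Function.Injective (comb x) := by
  intro a b h
  have := Fintype.linearIndependent_iff.1 hx (a - b) (by
    simp only [Pi.sub_apply, sub_smul, Finset.sum_sub_distrib]
    exact sub_eq_zero.2 h)
  funext j
  exact sub_eq_zero.1 (this j)

lemma moore_det_ne {x : Fin k → F} (hx : LinearIndependent (ZMod 2) x) : (moore x).det ≠ 0 := by
  classical
  intro h0
  obtain ⟨c, hc0, hc⟩ := Matrix.exists_vecMul_eq_zero_iff.2 h0
  let p : F[X] := ∑ i : Fin k, C (c i) * X ^ (2 ^ i.val)
  have hp : p = 0 := by
    refine eq_zero_of_natDegree_lt_card_of_eval_eq_zero p (comb_inj hx) ?_ ?_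
    · intro ε
      simp only [p, eval_finset_sum, eval_mul, eval_C, eval_pow, eval_X, comb_pow, Finset.mul_sum]
      rw [Finset.sum_comm]
      refine Finset.sum_eq_zero fun j _ => ?_
      have := congrFun hc j
      simp only [Matrix.vecMul, dotProduct, moore, Pi.zero_apply] at this
      simp only [mul_smul_comm, ← Finset.smul_sum, this, smul_zero]
    · have hk : 0 < 2 ^ k := by positivity
      simp only [Fintype.card_pi, ZMod.card, Finset.prod_const, Finset.card_univ, Fintype.card_fin]
      refine lt_of_le_of_lt (natDegree_sum_le_of_forall_le (n := 2 ^ k - 1) _ _ ?_) (by omega)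
      intro i _
      refine (natDegree_C_mul_X_pow_le _ _).trans ?_
      have : 2 ^ i.val < 2 ^ k := Nat.pow_lt_pow_right (by norm_num) i.2
      omega
  apply hc0
  funext i
  have := congrArg (fun q : F[X] => q.coeff (2 ^ i.val)) hp
  simp only [p, finset_sum_coeff, coeff_C_mul, coeff_X_pow, coeff_zero] at this
  rw [Finset.sum_eq_single i] at this
  · simpa using this
  · intro b _ hb
    rw [if_neg, mul_zero]
    intro h
    exact hb (Fin.ext (Nat.pow_right_injective (le_refl 2) h).symm)
  · simp

lemma linInd_of_det {x : Fin k → F} (hx : (moore x).det ≠ 0) : LinearIndependent (ZMod 2) x := by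
  classical
  rw [Fintype.linearIndependent_iff]
  intro ε hε j
  have h1 : (moore x).mulVec (fun j => algebraMap (ZMod 2) F (ε j)) = 0 := by
    funext i
    have := comb_pow x ε i.val
    rw [show comb x ε = 0 from hε, zero_pow (by positivity)] at this
    simp only [Matrix.mulVec, dotProduct, moore, Pi.zero_apply]
    rw [this]
    refine Finset.sum_congr rfl fun j _ => ?_
    rw [Algebra.smul_def, mul_comm]
  have h2 := congrFun (Matrix.eq_zero_of_mulVec_eq_zero hx h1) j
  exact (algebraMap (ZMod 2) F).injective (by simpa using h2)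

lemma eval_deriv_prod (T : Finset F) (y : F) (hy : y ∉ T) :
    eval y (derivative (∏ v ∈ T, (X - C v))) =
      eval y (∏ v ∈ T, (X - C v)) * ∑ v ∈ T, (y - v)⁻¹ := by
  classical
  induction T using Finset.induction_on with
  | empty => simp
  | insert a T ha ih =>
    have hya : y - a ≠ 0 := sub_ne_zero.2 fun h => hy (h ▸ Finset.mem_insert_self _ _)
    have hyT : y ∉ T := fun h => hy (Finset.mem_insert_of_mem h)
    rw [Finset.prod_insert ha, Finset.sum_insert ha, derivative_mul, eval_add, eval_mul, eval_mul,
      eval_mul, ih hyT]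
    simp only [derivative_sub, derivative_X, derivative_C, sub_zero, eval_one, eval_sub, eval_X,
      eval_C]
    field_simp

/-- The additive map whose kernel is the span of `x`. -/
noncomputable def Lmap {m : ℕ} (x : Ind (m + 1) F) : F →ₗ[ZMod 2] F where
  toFun y := y - ∑ l : Fin (m + 1), comp (frobenius F 2) x 0 l * y ^ (2 ^ (l.val + 1))
  map_add' a b := by
    simp only [← frobL_apply, map_add, mul_add, Finset.sum_add_distrib]
    ring
  map_smul' c a := by
    simp only [← frobL_apply, map_smul, RingHom.id_apply, smul_sub, Finset.smul_sum, mul_smul_comm]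

lemma Lmap_apply {m : ℕ} (x : Ind (m + 1) F) (y : F) : Lmap x y =
    y - ∑ l : Fin (m + 1), comp (frobenius F 2) x 0 l * y ^ (2 ^ (l.val + 1)) := rfl

lemma Lmap_comb {m : ℕ} (x : Ind (m + 1) F) (ε : Fin (m + 1) → ZMod 2) :
    Lmap x (comb x.1 ε) = 0 := by
  rw [comb, map_sum]
  refine Finset.sum_eq_zero fun j _ => ?_
  rw [map_smul, Lmap_apply, comp_rel (frobenius F 2) (fun _ => rfl) x 0 j]
  simp

lemma subspace_poly {m : ℕ} (x : Ind (m + 1) F) :
    (∑ ε, (comb x.1 ε)⁻¹ = comp (frobenius F 2) x 0 0) ∧
    ∀ y : F, (∀ ε, comb x.1 ε ≠ y) → Lmap x y * ∑ ε, (y + comb x.1 ε)⁻¹ = 1 := by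
  classical
  have h2 : (2 : F) = 0 := two_zero
  have hinj := comb_inj (linInd_of_det x.2)
  let c : Fin (m + 1) → F := fun l => comp (frobenius F 2) x 0 l
  let p : F[X] := X - ∑ l : Fin (m + 1), C (c l) * X ^ (2 ^ (l.val + 1))
  have hpe : ∀ y, eval y p = Lmap x y := by
    intro y
    simp only [p, c, eval_sub, eval_X, eval_finset_sum, eval_mul, eval_C, eval_pow, Lmap_apply]
  have hc1 : p.coeff 1 = 1 := by
    simp only [p, coeff_sub, coeff_X_one, finset_sum_coeff, coeff_C_mul, coeff_X_pow]
    rw [Finset.sum_eq_zero, sub_zero]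
    intro l _
    rw [if_neg, mul_zero]
    have : 1 < 2 ^ (l.val + 1) := Nat.one_lt_two_pow (by omega)
    omega
  have hc2 : p.coeff 2 = - c 0 := by
    simp only [p, coeff_sub, finset_sum_coeff, coeff_C_mul, coeff_X_pow]
    rw [Finset.sum_eq_single 0]
    · simp [coeff_X]
    · intro l _ hl
      rw [if_neg, mul_zero]
      intro h
      have h' : 2 ^ 1 = 2 ^ (l.val + 1) := h
      have := Nat.pow_right_injective (le_refl 2) h'
      exact hl (Fin.ext (by simp only [Fin.val_zero]; omega))
    · simp
  have hd : derivative p = 1 := by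
    simp only [p, derivative_sub, derivative_X, derivative_sum, derivative_C_mul,
      derivative_X_pow]
    rw [Finset.sum_eq_zero, sub_zero]
    intro l _
    have : ((2 ^ (l.val + 1) : ℕ) : F) = 0 := by
      push_cast
      rw [pow_succ, h2, mul_zero]
    rw [this]
    simp
  have hp0 : p ≠ 0 := by
    intro h
    rw [h] at hc1
    simp at hc1
  let V : Finset F := univ.image (comb x.1)
  have hV : V.card = 2 ^ (m + 1) := by
    rw [Finset.card_image_of_injective _ hinj]
    simp
  have hdeg : p.natDegree ≤ V.card := by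
    rw [hV]
    refine (natDegree_sub_le _ _).trans (max_le ?_ ?_)
    · exact natDegree_X_le.trans Nat.one_le_two_pow
    · refine natDegree_sum_le_of_forall_le _ _ fun l _ => (natDegree_C_mul_X_pow_le _ _).trans ?_
      exact Nat.pow_le_pow_right (by norm_num) l.2
  have hroots : p.roots = V.val := by
    refine roots_eq_of_natDegree_le_card_of_ne_zero ?_ hdeg hp0
    intro v hv
    obtain ⟨ε, _, rfl⟩ := Finset.mem_image.1 hv
    rw [hpe, Lmap_comb]
  have hfac : C p.leadingCoeff * ∏ v ∈ V, (X - C v) = p := by
    have h1 : Multiset.card p.roots = p.natDegree := by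
      refine le_antisymm (card_roots' p) ?_
      rw [hroots]
      exact hdeg
    have := C_leadingCoeff_mul_prod_multiset_X_sub_C h1
    rw [hroots] at this
    exact this
  set a := p.leadingCoeff
  have hsum : ∀ f : F → F, ∑ v ∈ V, f v = ∑ ε, f (comb x.1 ε) := fun f =>
    Finset.sum_image fun _ _ _ _ h => hinj h
  constructor
  · have h0V : (0 : F) ∈ V := Finset.mem_image.2 ⟨0, Finset.mem_univ _, by simp [comb]⟩
    set r := ∏ v ∈ V.erase 0, (X - C v) with hr
    have hfac' : p = X * (C a * r) := by
      rw [← hfac, ← Finset.mul_prod_erase V _ h0V]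
      simp only [map_zero, sub_zero]
      ring
    have e1 : a * eval 0 r = 1 := by
      rw [← hc1, hfac', coeff_X_mul, coeff_C_mul, coeff_zero_eq_eval_zero]
    have e2 : a * eval 0 (derivative r) = - c 0 := by
      rw [← hc2, hfac', coeff_X_mul, coeff_C_mul, ← coeff_zero_eq_eval_zero, coeff_derivative]
      simp
    rw [hr, eval_deriv_prod _ _ (Finset.notMem_erase 0 V), ← hr, ← mul_assoc, e1, one_mul] at e2
    rw [← hsum (fun v => v⁻¹), ← Finset.add_sum_erase V _ h0V]
    simp only [zero_sub, inv_neg, Finset.sum_neg_distrib, neg_inj] at e2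
    rw [e2]
    simp [c]
  · intro y hy
    have hyV : y ∉ V := by
      intro h
      obtain ⟨ε, _, h'⟩ := Finset.mem_image.1 h
      exact hy ε h'
    have e1 := congrArg (eval y) hd
    rw [← hfac, derivative_C_mul, eval_mul, eval_C, eval_deriv_prod _ _ hyV, eval_one] at e1
    rw [← hpe, ← hfac, eval_mul, eval_C, ← hsum (fun v => (y + v)⁻¹), mul_assoc, ← e1]
    congr 2
    refine Finset.sum_congr rfl fun v _ => ?_
    congr 1
    linear_combination v * h2

end Pool.Agent.H253Z
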