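import Pool.Agent.H253Z.SfE

/-! Subspaces on which the inverse function sums to zero: duality and existence. -/

set_option autoImplicit false
set_option linter.unusedSectionVars false

namespace Pool.Agent.H253Z

open Finset

variable {F : Type*} [Field F] [CharP F 2] [Algebra (ZMod 2) F] {k : ℕ}

lemma finsum_span {x : Fin k → F} (hx : LinearIndependent (ZMod 2) x) (f : F → F) :
    ∑ᶠ v ∈ (Submodule.span (ZMod 2) (Set.range x) : Set F), f v = ∑ ε, f (comb x ε) := by
  classical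
  have : (Submodule.span (ZMod 2) (Set.range x) : Set F) = ↑(univ.image (comb x)) := by
    ext v
    simp only [SetLike.mem_coe, Submodule.mem_span_range_iff_exists_fun, Finset.coe_image,
      Finset.coe_univ, Set.image_univ, Set.mem_range, comb]
  rw [this, finsum_mem_coe_finset, Finset.sum_image fun _ _ _ _ h => comb_inj hx h]

lemma exists_tuple [Finite F] (V : Submodule (ZMod 2) F) (hV : Module.finrank (ZMod 2) V = k) :
    ∃ x : Fin k → F, LinearIndependent (ZMod 2) x ∧ Submodule.span (ZMod 2) (Set.range x) = V := by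
  let b := Module.finBasisOfFinrankEq (ZMod 2) V hV
  refine ⟨fun j => (b j : F), b.linearIndependent.map' V.subtype V.ker_subtype, ?_⟩
  have : Set.range (fun j => (b j : F)) = V.subtype '' Set.range b := by
    rw [← Set.range_comp]
    rfl
  rw [this, ← Submodule.map_span, b.span_eq, Submodule.map_top, Submodule.range_subtype]

/-- There is a `k`-dimensional subspace on which the inverses sum to zero. -/
def Kn (F : Type*) [Field F] [Algebra (ZMod 2) F] (k : ℕ) : Prop :=
  ∃ V : Submodule (ZMod 2) F, Module.finrank (ZMod 2) V = k ∧ ∑ᶠ v ∈ (V : Set F), v⁻¹ = 0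

lemma Kn_iff [Finite F] : Kn F k ↔
    ∃ x : Fin k → F, LinearIndependent (ZMod 2) x ∧ ∑ ε, (comb x ε)⁻¹ = 0 := by
  constructor
  · rintro ⟨V, hV, h⟩
    obtain ⟨x, hx, rfl⟩ := exists_tuple V hV
    exact ⟨x, hx, by rw [← finsum_span hx (fun v => v⁻¹), h]⟩
  · rintro ⟨x, hx, h⟩
    exact ⟨_, by rw [finrank_span_eq_card hx, Fintype.card_fin],
      by rw [finsum_span hx (fun v => v⁻¹), h]⟩

lemma affine_ne [Finite F] (V : Submodule (ZMod 2) F) (hV : 0 < Module.finrank (ZMod 2) V) (a : F)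
    (ha : a ∉ V) : ∑ᶠ v ∈ (V : Set F), (a + v)⁻¹ ≠ 0 := by
  obtain ⟨m, hm⟩ : ∃ m, Module.finrank (ZMod 2) V = m + 1 := ⟨_, (Nat.succ_pred_eq_of_pos hV).symm⟩
  obtain ⟨x, hx, rfl⟩ := exists_tuple V hm
  rw [finsum_span hx (fun v => (a + v)⁻¹)]
  have := (subspace_poly ⟨x, moore_det_ne hx⟩).2 a (by
    intro ε h
    exact ha (Submodule.mem_span_range_iff_exists_fun _ |>.2 ⟨ε, h⟩))
  intro h0
  rw [h0, mul_zero] at this
  exact zero_ne_one this

lemma Kn_dual [Fintype F] (hF : 2 < Fintype.card F) (hk : 0 < k) (h : Kn F k) :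
    Kn F (Module.finrank (ZMod 2) F - k) := by
  classical
  obtain ⟨m, rfl⟩ : ∃ m, k = m + 1 := ⟨_, (Nat.succ_pred_eq_of_pos hk).symm⟩
  obtain ⟨x, hx, h0⟩ := Kn_iff.1 h
  let X : Ind (m + 1) F := ⟨x, moore_det_ne hx⟩
  have hpoly := (subspace_poly X).2
  let L := Lmap X
  have hker : ∀ y, L y = 0 ↔ ∃ ε, comb x ε = y := by
    intro y
    constructor
    · intro hy
      by_contra hc
      push Not at hc
      have := hpoly y hc
      rw [show Lmap X y = 0 from hy, zero_mul] at this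
      exact zero_ne_one this
    · rintro ⟨ε, rfl⟩
      exact Lmap_comb X ε
  have hker' : LinearMap.ker L = Submodule.span (ZMod 2) (Set.range x) := by
    ext y
    rw [LinearMap.mem_ker, hker, Submodule.mem_span_range_iff_exists_fun]
    rfl
  refine ⟨LinearMap.range L, ?_, ?_⟩
  · have := LinearMap.finrank_range_add_finrank_ker L
    rw [hker', finrank_span_eq_card hx, Fintype.card_fin] at this
    omega
  · have e1 : (LinearMap.range L : Set F) = ↑(univ.image L) := by
      ext w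
      simp
    rw [e1, finsum_mem_coe_finset]
    have e2 : ∑ y : F, y⁻¹ = 0 := by
      refine (Equiv.sum_comp (Equiv.inv F) (fun y => y)).trans ?_
      simpa using FiniteField.sum_pow_lt_card_sub_one F 1 (by omega)
    rw [← Finset.sum_fiberwise_of_maps_to (s := univ) (t := univ.image L) (g := L)
      (fun y _ => Finset.mem_image_of_mem _ (Finset.mem_univ y))] at e2
    rw [← e2]
    refine Finset.sum_congr rfl fun w hw => ?_
    obtain ⟨y, _, rfl⟩ := Finset.mem_image.1 hw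
    have e3 : univ.filter (fun z => L z = L y) = univ.image (fun ε => y + comb x ε) := by
      ext z
      simp only [Finset.mem_filter, Finset.mem_univ, true_and, Finset.mem_image]
      constructor
      · intro hz
        obtain ⟨ε, hε⟩ := (hker (z - y)).1 (by rw [map_sub, hz, sub_self])
        exact ⟨ε, by rw [hε]; ring⟩
      · rintro ⟨ε, rfl⟩
        rw [map_add, (hker _).2 ⟨ε, rfl⟩, add_zero]
    rw [e3, Finset.sum_image fun _ _ _ _ h => comb_inj hx (add_left_cancel h)]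
    by_cases hy : L y = 0
    · rw [hy, inv_zero]
      obtain ⟨δ, rfl⟩ := (hker y).1 hy
      rw [← h0, ← Equiv.sum_comp (Equiv.addLeft δ) (fun ε => (comb x ε)⁻¹)]
      refine Finset.sum_congr rfl fun ε _ => ?_
      simp [comb, add_smul, Finset.sum_add_distrib]
    · have := hpoly y (fun ε hε => hy ((hker y).2 ⟨ε, hε⟩))
      exact (eq_inv_of_mul_eq_one_right this).symm

lemma exists_char [Finite F] :
    ∃ Ψ : AddChar F ℤ, Ψ ≠ 1 ∧ ∀ a, Ψ (frobenius F 2 a) = Ψ a := by
  let χ : AddChar (ZMod 2) ℤ := AddChar.zmodChar 2 (ζ := -1) (by norm_num)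
  let t := Algebra.trace (ZMod 2) F
  refine ⟨χ.compAddMonoidHom t.toAddMonoidHom, ?_, ?_⟩
  · obtain ⟨b, hb⟩ := Algebra.trace_surjective (ZMod 2) F 1
    refine AddChar.ne_one_iff.2 ⟨b, ?_⟩
    simp only [AddChar.compAddMonoidHom_apply, LinearMap.toAddMonoidHom_coe, t, hb, χ,
      AddChar.zmodChar_apply]
    decide
  · intro a
    let e0 : F →ₐ[ZMod 2] F :=
      { frobenius F 2 with
        commutes' := fun r => by
          show frobenius F 2 (algebraMap (ZMod 2) F r) = _
          rw [frobenius_def, ← map_pow, ZMod.pow_card] }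
    let e : F ≃ₐ[ZMod 2] F :=
      AlgEquiv.ofBijective e0 (Finite.injective_iff_bijective.1 (frobenius F 2).injective)
    have := Algebra.trace_eq_of_algEquiv e a
    simp only [AddChar.compAddMonoidHom_apply, LinearMap.toAddMonoidHom_coe, t]
    exact congrArg χ this

lemma not_Kn_bound [Fintype F] {m : ℕ} (hm : m + 1 ≤ Module.finrank (ZMod 2) F)
    (h : ¬ Kn F (m + 1)) :
    (∏ i : Fin m, (Fintype.card F - 2 ^ (i.val + 1))) ^ 2 ≤
      2 ^ ((m + 1) * (m + 1)) * (m + 1).factorial * Fintype.card F ^ (m + 1) := by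
  classical
  obtain ⟨Ψ, hΨ, hΨσ⟩ := exists_char (F := F)
  have h2 : (2 : F) = 0 := two_zero
  have hb := moore_bound (m := m) Ψ hΨ h2 (frobenius F 2) (fun _ => rfl) hΨσ
  let S : Ind (m + 1) F → F := fun x => ∑ ε, (comb x.1 ε)⁻¹
  have hS : ∀ x : Ind (m + 1) F, comp (frobenius F 2) x 0 0 = S x :=
    fun x => (subspace_poly x).1.symm
  simp only [hS] at hb
  have hne : ∀ x, S x ≠ 0 := fun x hx => h (Kn_iff.2 ⟨x.1, linInd_of_det x.2, hx⟩)
  have hcomb : ∀ (c : F) (x : Fin (m + 1) → F) ε, comb (fun j => c * x j) ε = c * comb x ε := by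
    intro c x ε
    simp [comb, Finset.mul_sum]
  have hsc : ∀ c : F, c ≠ 0 → ∀ x : Ind (m + 1) F, (moore (fun j => c * x.1 j)).det ≠ 0 := by
    intro c hc x
    refine moore_det_ne (Fintype.linearIndependent_iff.2 fun ε hε => ?_)
    have h1 : c * comb x.1 ε = 0 := by rw [← hcomb]; exact hε
    exact Fintype.linearIndependent_iff.1 (linInd_of_det x.2) ε
      ((mul_eq_zero.1 h1).resolve_left hc)
  set T := ∑ x, Ψ (S x) with hT
  have hTc : ∀ c : F, c ≠ 0 → T = ∑ x, Ψ (c * S x) := by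
    intro c hc
    let e : Ind (m + 1) F ≃ Ind (m + 1) F :=
      { toFun := fun x => ⟨fun j => c⁻¹ * x.1 j, hsc _ (inv_ne_zero hc) x⟩
        invFun := fun x => ⟨fun j => c * x.1 j, hsc _ hc x⟩
        left_inv := fun x => Subtype.ext (funext fun j => by simp [hc])
        right_inv := fun x => Subtype.ext (funext fun j => by simp [hc]) }
    rw [hT, ← Equiv.sum_comp e]
    refine Finset.sum_congr rfl fun x _ => ?_
    congr 1
    simp only [S, e, Equiv.coe_fn_mk, hcomb, mul_inv, inv_inv, Finset.mul_sum]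
  have hsum : ((Fintype.card F : ℤ) - 1) * T = - (Fintype.card (Ind (m + 1) F) : ℤ) := by
    have e1 : ∑ c ∈ (univ : Finset F).erase 0, T = ((Fintype.card F : ℤ) - 1) * T := by
      rw [Finset.sum_const, Finset.card_erase_of_mem (Finset.mem_univ _), Finset.card_univ,
        nsmul_eq_mul, Nat.cast_sub Fintype.card_pos]
      simp
    rw [← e1, Finset.sum_congr rfl fun c hc => hTc c (Finset.ne_of_mem_erase hc), Finset.sum_comm]
    rw [Finset.sum_congr rfl (g := fun _ => (-1 : ℤ))]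
    · simp
    intro x _
    have hl : LinearMap.mulRight F (S x) ≠ 0 := by
      intro h0
      have := LinearMap.congr_fun h0 1
      simp [hne x] at this
    have e2 := sum_char_lin Ψ hΨ _ hl
    rw [← Finset.add_sum_erase _ _ (Finset.mem_univ (0 : F))] at e2
    simp only [LinearMap.mulRight_apply, zero_mul, AddChar.map_zero_eq_one] at e2
    linarith
  have hcard : Fintype.card (Ind (m + 1) F) =
      (Fintype.card F - 1) * ∏ i : Fin m, (Fintype.card F - 2 ^ (i.val + 1)) := by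
    have e1 := card_linearIndependent (K := ZMod 2) (V := F) hm
    have e2 : Fintype.card F = 2 ^ Module.finrank (ZMod 2) F := by
      rw [Module.card_eq_pow_finrank (K := ZMod 2), ZMod.card]
    rw [ZMod.card, ← e2, Fin.prod_univ_succ] at e1
    rw [← Nat.card_eq_fintype_card, Nat.card_congr (Equiv.subtypeEquivRight
      (q := fun s => LinearIndependent (ZMod 2) s) fun x => ⟨linInd_of_det, moore_det_ne⟩), e1]
    simp
  have hQ : (1 : ℤ) < Fintype.card F := by exact_mod_cast Fintype.one_lt_card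
  rw [hcard, Nat.cast_mul, Nat.cast_sub Fintype.card_pos] at hsum
  set P := ∏ i : Fin m, (Fintype.card F - 2 ^ (i.val + 1))
  have hTP : T = - (P : ℤ) := by
    have : ((Fintype.card F : ℤ) - 1) * T = ((Fintype.card F : ℤ) - 1) * (- (P : ℤ)) := by
      rw [hsum]
      push_cast
      ring
    exact mul_left_cancel₀ (by linarith) this
  rw [hTP, neg_sq] at hb
  exact_mod_cast hb

lemma prod_lower (Q m : ℕ) : Q ^ m * (Q - 2 ^ (m + 2)) ≤ ∏ i : Fin (m + 1), (Q - 2 ^ (i.val + 1)) := by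
  induction m with
  | zero =>
    rw [Fin.prod_univ_succ]
    simp only [pow_zero, one_mul, zero_add, Finset.univ_eq_empty, Finset.prod_empty, mul_one,
      Fin.val_zero]
    exact Nat.sub_le_sub_left (by norm_num) _
  | succ m ih =>
    rw [Fin.prod_univ_castSucc]
    simp only [Fin.val_castSucc, Fin.val_last]
    refine le_trans ?_ (Nat.mul_le_mul_right _ ih)
    rw [pow_succ, mul_assoc, mul_assoc]
    refine Nat.mul_le_mul_left _ ?_
    have e : 2 ^ (m + 1 + 2) = 2 * 2 ^ (m + 2) := by ring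
    rw [e, show m + 1 + 1 = m + 2 from rfl]
    generalize 2 ^ (m + 2) = t
    by_cases h : 2 * t ≤ Q
    · obtain ⟨d, rfl⟩ := Nat.exists_eq_add_of_le h
      have e1 : 2 * t + d - 2 * t = d := by omega
      have e2 : 2 * t + d - t = t + d := by omega
      rw [e1, e2]
      nlinarith [Nat.zero_le (t * t)]
    · have : Q - 2 * t = 0 := by omega
      simp [this]

lemma fact_le (j : ℕ) : 2 * (j + 5).factorial ≤ 2 ^ (j * j + 7 * j + 8) := by
  induction j with
  | zero => decide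
  | succ j ih =>
    have e1 : (j + 1 + 5).factorial = (j + 6) * (j + 5).factorial := Nat.factorial_succ (j + 5)
    have e2 : 2 ^ ((j + 1) * (j + 1) + 7 * (j + 1) + 8) =
      2 ^ (2 * j + 8) * 2 ^ (j * j + 7 * j + 8) := by ring
    have e3 : j + 6 ≤ 2 ^ (2 * j + 8) := by
      have := Nat.lt_two_pow_self (n := 2 * j + 8)
      omega
    rw [e1, e2]
    calc 2 * ((j + 6) * (j + 5).factorial) = (j + 6) * (2 * (j + 5).factorial) := by ring
      _ ≤ _ := Nat.mul_le_mul e3 ih

lemma numeric (n m : ℕ) (hn : 2 * (m + 3) + 1 ≤ n)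
    (hc : 2 ≤ m ∨ (m = 1 ∧ 11 ≤ n) ∨ (m = 0 ∧ 13 ≤ n)) :
    2 ^ ((m + 2 + 1) * (m + 2 + 1)) * (m + 2 + 1).factorial * (2 ^ n) ^ (m + 2 + 1) <
      (∏ i : Fin (m + 2), (2 ^ n - 2 ^ (i.val + 1))) ^ 2 := by
  have h1 := prod_lower (2 ^ n) (m + 1)
  have h2 : 2 * (2 ^ ((m + 2 + 1) * (m + 2 + 1)) * (m + 2 + 1).factorial) ≤ (2 ^ n) ^ (m + 1) := by
    rw [← pow_mul]
    rcases hc with h | ⟨rfl, h⟩ | ⟨rfl, h⟩
    · obtain ⟨j, rfl⟩ := Nat.exists_eq_add_of_le' h
      have := fact_le j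
      calc 2 * (2 ^ ((j + 2 + 2 + 1) * (j + 2 + 2 + 1)) * (j + 2 + 2 + 1).factorial)
          = 2 ^ ((j + 5) * (j + 5)) * (2 * (j + 5).factorial) := by ring
        _ ≤ 2 ^ ((j + 5) * (j + 5)) * 2 ^ (j * j + 7 * j + 8) := Nat.mul_le_mul_left _ this
        _ = 2 ^ ((2 * (j + 2 + 3) + 1) * (j + 2 + 1)) := by ring
        _ ≤ _ := Nat.pow_le_pow_right (by norm_num) (Nat.mul_le_mul_right _ hn)
    · calc _ ≤ 2 ^ (11 * (1 + 1)) := by decide
        _ ≤ _ := Nat.pow_le_pow_right (by norm_num) (Nat.mul_le_mul_right _ h)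
    · calc _ ≤ 2 ^ (13 * (0 + 1)) := by decide
        _ ≤ _ := Nat.pow_le_pow_right (by norm_num) (Nat.mul_le_mul_right _ h)
  have h3 : 4 * 2 ^ (m + 1 + 2) ≤ 2 ^ n := by
    calc 4 * 2 ^ (m + 1 + 2) = 2 ^ (m + 5) := by ring
      _ ≤ _ := Nat.pow_le_pow_right (by norm_num) (by omega)
  have hQ : 0 < 2 ^ n := by positivity
  generalize 2 ^ ((m + 2 + 1) * (m + 2 + 1)) * (m + 2 + 1).factorial = A at *
  generalize (∏ i : Fin (m + 2), (2 ^ n - 2 ^ (i.val + 1))) = P at *
  generalize 2 ^ (m + 1 + 2) = t at *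
  generalize 2 ^ n = Q at *
  have h4 : 3 * Q ≤ 4 * (Q - t) := by omega
  generalize Q - t = D at *
  have h5 : Q ^ (m + 2 + 1) = Q ^ (m + 1) * Q ^ 2 := by ring
  have hR : 0 < Q ^ (m + 1) := by positivity
  rw [h5]
  generalize Q ^ (m + 1) = R at *
  have h6 : (R * D) ^ 2 ≤ P ^ 2 := Nat.pow_le_pow_left h1 2
  have h7 : (3 * Q) ^ 2 ≤ (4 * D) ^ 2 := Nat.pow_le_pow_left h4 2
  have h8 : 2 * A * (R * Q ^ 2) ≤ R * (R * Q ^ 2) := Nat.mul_le_mul_right _ h2
  have h9 : R ^ 2 * (3 * Q) ^ 2 ≤ R ^ 2 * (4 * D) ^ 2 := Nat.mul_le_mul_left _ h7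
  have h10 : 0 < R ^ 2 * Q ^ 2 := by positivity
  nlinarith

lemma Kn_large [Fintype F] (n m : ℕ) (hF : Module.finrank (ZMod 2) F = n)
    (hn : 2 * (m + 3) + 1 ≤ n) (hc : 2 ≤ m ∨ (m = 1 ∧ 11 ≤ n) ∨ (m = 0 ∧ 13 ≤ n)) :
    Kn F (m + 3) := by
  by_contra h
  have h1 := not_Kn_bound (F := F) (m := m + 2) (by omega) h
  have e2 : Fintype.card F = 2 ^ n := by
    rw [Module.card_eq_pow_finrank (K := ZMod 2), ZMod.card, hF]
  rw [e2] at h1
  exact absurd (numeric n m hn hc) (not_lt.2 h1)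

lemma sum_cons {M : Type*} [AddCommMonoid M] (f : (Fin (k + 1) → ZMod 2) → M) :
    ∑ ε, f ε = ∑ ε, f (Fin.cons 0 ε) + ∑ ε, f (Fin.cons 1 ε) := by
  rw [← Equiv.sum_comp (Fin.consEquiv fun _ => ZMod 2), Fintype.sum_prod_type]
  exact Fin.sum_univ_two (fun a : Fin 2 => ∑ ε : Fin k → ZMod 2, f (Fin.cons a ε))

lemma comb_cons (x : Fin (k + 1) → F) (a : ZMod 2) (ε : Fin k → ZMod 2) :
    comb x (Fin.cons a ε) = a • x 0 + comb (fun j => x j.succ) ε := by
  simp [comb, Fin.sum_univ_succ]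

lemma comb_nil (x : Fin 0 → F) (ε : Fin 0 → ZMod 2) : comb x ε = 0 := by
  simp [comb]

lemma comb_ne {x : Fin k → F} (hx : LinearIndependent (ZMod 2) x) {ε : Fin k → ZMod 2}
    (hε : ε ≠ 0) : comb x ε ≠ 0 := by
  intro h
  exact hε (funext (Fintype.linearIndependent_iff.1 hx ε h))

lemma not_Kn_one [Finite F] : ¬ Kn F 1 := by
  intro h
  obtain ⟨x, hx, h0⟩ := Kn_iff.1 h
  simp only [sum_cons, comb_cons, comb_nil, Finset.univ_unique, Finset.sum_singleton, zero_smul,
    one_smul, add_zero, zero_add, inv_zero, inv_eq_zero] at h0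
  exact hx.ne_zero 0 h0

lemma not_Kn_two [Fintype F] (j : ℕ) (hF : Fintype.card F = 2 ^ (2 * j + 1)) : ¬ Kn F 2 := by
  intro h
  have h2 : (2 : F) = 0 := two_zero
  obtain ⟨x, hx, h0⟩ := Kn_iff.1 h
  simp only [sum_cons, comb_cons, comb_nil, Finset.univ_unique, Finset.sum_singleton, zero_smul,
    one_smul, add_zero, zero_add, inv_zero] at h0
  have ha : x 0 ≠ 0 := hx.ne_zero 0
  have hb : x (Fin.succ 0) ≠ 0 := hx.ne_zero _
  have hab : x 0 + x (Fin.succ 0) ≠ 0 := by
    have := comb_ne hx (ε := Fin.cons 1 (Fin.cons 1 0)) (fun h => by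
      have := congrFun h 0
      simp at this)
    rwa [comb_cons, comb_cons, comb_nil, one_smul, one_smul, add_zero] at this
  set a := x 0
  set b := x (Fin.succ 0)
  have h1 : (a / b) ^ 2 + a / b + 1 = 0 := by
    field_simp at h0 ⊢
    linear_combination h0 - (a * b) * h2
  set t := a / b
  have h4 : t ^ 4 = t := by linear_combination (t ^ 2 - t) * h1
  have h5 : ∀ i, t ^ (2 ^ (2 * i + 1)) = t ^ 2 := by
    intro i
    induction i with
    | zero => simp
    | succ i ih =>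
      have : 2 ^ (2 * (i + 1) + 1) = 2 ^ (2 * i + 1) * 4 := by ring
      rw [this, pow_mul, ih, ← pow_mul, mul_comm, pow_mul, h4]
  have h6 := FiniteField.pow_card t
  rw [hF, h5] at h6
  have : (1 : F) = 0 := by linear_combination h1 - h6 - t * h2
  exact one_ne_zero this

end Pool.Agent.H253Z
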