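import Pool.Agent.H253Z.SfF

/-! Explicit subspaces in small fields. -/

set_option autoImplicit false
set_option linter.unusedSectionVars false

namespace Pool.Agent.H253Z

open Finset Polynomial

variable {F : Type*} [Field F] [CharP F 2] [Algebra (ZMod 2) F]

lemma two_poly : (2 : F[X]) = 0 := by
  have := CharP.cast_eq_zero F[X] 2
  simpa using this

lemma sq_step {p r r' s : F[X]} {i : ℕ} (h : p ∣ X ^ (2 ^ i) - r) (h' : r ^ 2 - r' = p * s) :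
    p ∣ X ^ (2 ^ (i + 1)) - r' := by
  have : X ^ (2 ^ (i + 1)) - r' = (X ^ (2 ^ i) - r) * (X ^ (2 ^ i) + r) + p * s := by
    rw [← h', pow_succ, pow_mul]
    ring
  rw [this]
  exact dvd_add (h.mul_right _) (dvd_mul_right _ _)

lemma root_of_dvd [Fintype F] {p : F[X]} {q n : ℕ} (hF : Fintype.card F = q)
    (h : p ∣ X ^ q - X) (hd : p.natDegree = n) (hn : n ≠ 0) : ∃ w : F, eval w p = 0 := by
  subst hF
  have hne := FiniteField.X_pow_card_sub_X_ne_zero F (Fintype.one_lt_card (α := F))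
  have hs : (X ^ Fintype.card F - X : F[X]).Splits := by
    rw [splits_iff_card_roots, FiniteField.roots_X_pow_card_sub_X,
      FiniteField.X_pow_card_sub_X_natDegree_eq F Fintype.one_lt_card]
    rfl
  have hp : p.Splits := hs.of_dvd hne h
  refine hp.exists_eval_eq_zero ?_
  intro h0
  rw [natDegree_eq_of_degree_eq_some (n := 0) h0] at hd
  exact hn hd.symm

lemma Kn_of3 [Finite F] (a b c ia ib iab ic iac ibc iabc : F)
    (ha : (a) * ia = 1)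
    (hb : (b) * ib = 1)
    (hab : (a + b) * iab = 1)
    (hc : (c) * ic = 1)
    (hac : (a + c) * iac = 1)
    (hbc : (b + c) * ibc = 1)
    (habc : (a + b + c) * iabc = 1)
    (hs : ia + ib + iab + ic + iac + ibc + iabc = 0) : Kn F 3 := by
  refine Kn_iff.2 ⟨![a, b, c], ?_, ?_⟩
  · rw [Fintype.linearIndependent_iff]
    intro g hg
    have hz : ∀ t : ZMod 2, t = 0 ∨ t = 1 := by decide
    simp only [Fin.sum_univ_succ, Finset.univ_eq_empty, Finset.sum_empty, add_zero,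
      Matrix.cons_val_zero, Matrix.cons_val_succ, ← add_assoc] at hg
    have key : g 0 = 0 ∧ g (Fin.succ 0) = 0 ∧ g (Fin.succ (Fin.succ 0)) = 0 := by
      rcases hz (g 0) with e0 | e0 <;> rcases hz (g (Fin.succ 0)) with e1 | e1 <;> rcases hz (g (Fin.succ (Fin.succ 0))) with e2 | e2 <;>
      simp only [e0, e1, e2, zero_smul, one_smul, zero_add, add_zero] at hg <;>
      first
      | exact ⟨e0, e1, e2⟩
      | (rw [hg, zero_mul] at ha; exact absurd ha zero_ne_one)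
      | (rw [hg, zero_mul] at hb; exact absurd hb zero_ne_one)
      | (rw [hg, zero_mul] at hab; exact absurd hab zero_ne_one)
      | (rw [hg, zero_mul] at hc; exact absurd hc zero_ne_one)
      | (rw [hg, zero_mul] at hac; exact absurd hac zero_ne_one)
      | (rw [hg, zero_mul] at hbc; exact absurd hbc zero_ne_one)
      | (rw [hg, zero_mul] at habc; exact absurd habc zero_ne_one)
    intro i
    obtain ⟨e0, e1, e2⟩ := key
    fin_cases i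
    · exact e0
    · exact e1
    · exact e2
  · simp only [sum_cons, comb_cons, comb_nil, Finset.univ_unique, Finset.sum_singleton, zero_smul,
      one_smul, add_zero, zero_add, inv_zero, Matrix.cons_val_zero, Matrix.cons_val_succ, ← add_assoc]
    rw [inv_eq_of_mul_eq_one_right ha, inv_eq_of_mul_eq_one_right hb, inv_eq_of_mul_eq_one_right hab, inv_eq_of_mul_eq_one_right hc, inv_eq_of_mul_eq_one_right hac, inv_eq_of_mul_eq_one_right hbc, inv_eq_of_mul_eq_one_right habc]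
    linear_combination hs

lemma Kn_of4 [Finite F] (a b c d ia ib iab ic iac ibc iabc id iad ibd iabd icd iacd ibcd iabcd : F)
    (ha : (a) * ia = 1)
    (hb : (b) * ib = 1)
    (hab : (a + b) * iab = 1)
    (hc : (c) * ic = 1)
    (hac : (a + c) * iac = 1)
    (hbc : (b + c) * ibc = 1)
    (habc : (a + b + c) * iabc = 1)
    (hd : (d) * id = 1)
    (had : (a + d) * iad = 1)
    (hbd : (b + d) * ibd = 1)
    (habd : (a + b + d) * iabd = 1)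
    (hcd : (c + d) * icd = 1)
    (hacd : (a + c + d) * iacd = 1)
    (hbcd : (b + c + d) * ibcd = 1)
    (habcd : (a + b + c + d) * iabcd = 1)
    (hs : ia + ib + iab + ic + iac + ibc + iabc + id + iad + ibd + iabd + icd + iacd + ibcd + iabcd = 0) : Kn F 4 := by
  refine Kn_iff.2 ⟨![a, b, c, d], ?_, ?_⟩
  · rw [Fintype.linearIndependent_iff]
    intro g hg
    have hz : ∀ t : ZMod 2, t = 0 ∨ t = 1 := by decide
    simp only [Fin.sum_univ_succ, Finset.univ_eq_empty, Finset.sum_empty, add_zero,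
      Matrix.cons_val_zero, Matrix.cons_val_succ, ← add_assoc] at hg
    have key : g 0 = 0 ∧ g (Fin.succ 0) = 0 ∧ g (Fin.succ (Fin.succ 0)) = 0 ∧ g (Fin.succ (Fin.succ (Fin.succ 0))) = 0 := by
      rcases hz (g 0) with e0 | e0 <;> rcases hz (g (Fin.succ 0)) with e1 | e1 <;> rcases hz (g (Fin.succ (Fin.succ 0))) with e2 | e2 <;> rcases hz (g (Fin.succ (Fin.succ (Fin.succ 0)))) with e3 | e3 <;>
      simp only [e0, e1, e2, e3, zero_smul, one_smul, zero_add, add_zero] at hg <;>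
      first
      | exact ⟨e0, e1, e2, e3⟩
      | (rw [hg, zero_mul] at ha; exact absurd ha zero_ne_one)
      | (rw [hg, zero_mul] at hb; exact absurd hb zero_ne_one)
      | (rw [hg, zero_mul] at hab; exact absurd hab zero_ne_one)
      | (rw [hg, zero_mul] at hc; exact absurd hc zero_ne_one)
      | (rw [hg, zero_mul] at hac; exact absurd hac zero_ne_one)
      | (rw [hg, zero_mul] at hbc; exact absurd hbc zero_ne_one)
      | (rw [hg, zero_mul] at habc; exact absurd habc zero_ne_one)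
      | (rw [hg, zero_mul] at hd; exact absurd hd zero_ne_one)
      | (rw [hg, zero_mul] at had; exact absurd had zero_ne_one)
      | (rw [hg, zero_mul] at hbd; exact absurd hbd zero_ne_one)
      | (rw [hg, zero_mul] at habd; exact absurd habd zero_ne_one)
      | (rw [hg, zero_mul] at hcd; exact absurd hcd zero_ne_one)
      | (rw [hg, zero_mul] at hacd; exact absurd hacd zero_ne_one)
      | (rw [hg, zero_mul] at hbcd; exact absurd hbcd zero_ne_one)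
      | (rw [hg, zero_mul] at habcd; exact absurd habcd zero_ne_one)
    intro i
    obtain ⟨e0, e1, e2, e3⟩ := key
    fin_cases i
    · exact e0
    · exact e1
    · exact e2
    · exact e3
  · simp only [sum_cons, comb_cons, comb_nil, Finset.univ_unique, Finset.sum_singleton, zero_smul,
      one_smul, add_zero, zero_add, inv_zero, Matrix.cons_val_zero, Matrix.cons_val_succ, ← add_assoc]
    rw [inv_eq_of_mul_eq_one_right ha, inv_eq_of_mul_eq_one_right hb, inv_eq_of_mul_eq_one_right hab, inv_eq_of_mul_eq_one_right hc, inv_eq_of_mul_eq_one_right hac, inv_eq_of_mul_eq_one_right hbc, inv_eq_of_mul_eq_one_right habc, inv_eq_of_mul_eq_one_right hd, inv_eq_of_mul_eq_one_right had, inv_eq_of_mul_eq_one_right hbd, inv_eq_of_mul_eq_one_right habd, inv_eq_of_mul_eq_one_right hcd, inv_eq_of_mul_eq_one_right hacd, inv_eq_of_mul_eq_one_right hbcd, inv_eq_of_mul_eq_one_right habcd]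
    linear_combination hs

lemma root_7 [Fintype F] (hF : Fintype.card F = 2 ^ 7) : ∃ w : F, (1 + w + w ^ 7) = 0 := by
  have h2 : (2 : F[X]) = 0 := two_poly
  have h0 : ((1 + X + X ^ 7) : F[X]) ∣ X ^ (2 ^ 0) - X := by simp
  have h1 := sq_step h0 (r' := (X ^ 2)) (s := (0)) (by linear_combination (0) * h2)
  have h2a := sq_step h1 (r' := (X ^ 4)) (s := (0)) (by linear_combination (0) * h2)
  have h3 := sq_step h2a (r' := (X + X ^ 2)) (s := (X)) (by linear_combination ((-1) * X + (-1) * X ^ 2) * h2)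
  have h4 := sq_step h3 (r' := (X ^ 2 + X ^ 4)) (s := (0)) (by linear_combination (X ^ 3) * h2)
  have h5 := sq_step h4 (r' := (X + X ^ 2 + X ^ 4)) (s := (X)) (by linear_combination ((-1) * X + (-1) * X ^ 2 + X ^ 6) * h2)
  have h6 := sq_step h5 (r' := (X + X ^ 4)) (s := (X)) (by linear_combination ((-1) * X + X ^ 3 + X ^ 5 + X ^ 6) * h2)
  have h7 := sq_step h6 (r' := (X)) (s := (X)) (by linear_combination ((-1) * X + X ^ 5) * h2)
  have := root_of_dvd hF (by simpa using h7) (n := 7) (by compute_degree!) (by norm_num)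
  simpa using this

lemma root_9 [Fintype F] (hF : Fintype.card F = 2 ^ 9) : ∃ w : F, (1 + w ^ 4 + w ^ 9) = 0 := by
  have h2 : (2 : F[X]) = 0 := two_poly
  have h0 : ((1 + X ^ 4 + X ^ 9) : F[X]) ∣ X ^ (2 ^ 0) - X := by simp
  have h1 := sq_step h0 (r' := (X ^ 2)) (s := (0)) (by linear_combination (0) * h2)
  have h2a := sq_step h1 (r' := (X ^ 4)) (s := (0)) (by linear_combination (0) * h2)
  have h3 := sq_step h2a (r' := (X ^ 8)) (s := (0)) (by linear_combination (0) * h2)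
  have h4 := sq_step h3 (r' := (X ^ 2 + X ^ 6 + X ^ 7)) (s := (X ^ 2 + X ^ 7)) (by linear_combination ((-1) * X ^ 2 + (-1) * X ^ 6 + (-1) * X ^ 7 + (-1) * X ^ 11) * h2)
  have h5 := sq_step h4 (r' := (1 + X ^ 3 + X ^ 5 + X ^ 7)) (s := (1 + X ^ 3 + X ^ 5)) (by linear_combination ((-1) + (-1) * X ^ 3 + (-1) * X ^ 5 + (-1) * X ^ 7 + X ^ 8 + X ^ 13) * h2)
  have h6 := sq_step h5 (r' := (X + X ^ 4 + X ^ 6)) (s := (1 + X + X ^ 5)) (by linear_combination ((-1) * X + X ^ 3 + (-1) * X ^ 4 + X ^ 7 + X ^ 8 + (-1) * X ^ 9 + X ^ 10 + X ^ 12) * h2)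
  have h7 := sq_step h6 (r' := (X ^ 2 + X ^ 3 + X ^ 7 + X ^ 8)) (s := (X ^ 3)) (by linear_combination ((-1) * X ^ 3 + X ^ 5 + X ^ 10) * h2)
  have h8 := sq_step h7 (r' := (1 + X ^ 2 + X ^ 5 + X ^ 7)) (s := (1 + X ^ 2 + X ^ 5 + X ^ 7)) (by linear_combination ((-1) + (-1) * X ^ 2 + (-1) * X ^ 7 + (2) * X ^ 10 + X ^ 15) * h2)
  have h9 := sq_step h8 (r' := (X)) (s := (1 + X + X ^ 5)) (by linear_combination ((-1) * X + X ^ 2 + (2) * X ^ 7 + X ^ 12) * h2)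
  have := root_of_dvd hF (by simpa using h9) (n := 9) (by compute_degree!) (by norm_num)
  simpa using this

lemma root_11 [Fintype F] (hF : Fintype.card F = 2 ^ 11) : ∃ w : F, (1 + w ^ 2 + w ^ 11) = 0 := by
  have h2 : (2 : F[X]) = 0 := two_poly
  have h0 : ((1 + X ^ 2 + X ^ 11) : F[X]) ∣ X ^ (2 ^ 0) - X := by simp
  have h1 := sq_step h0 (r' := (X ^ 2)) (s := (0)) (by linear_combination (0) * h2)
  have h2a := sq_step h1 (r' := (X ^ 4)) (s := (0)) (by linear_combination (0) * h2)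
  have h3 := sq_step h2a (r' := (X ^ 8)) (s := (0)) (by linear_combination (0) * h2)
  have h4 := sq_step h3 (r' := (X ^ 5 + X ^ 7)) (s := (X ^ 5)) (by linear_combination ((-1) * X ^ 5 + (-1) * X ^ 7) * h2)
  have h5 := sq_step h4 (r' := (X ^ 3 + X ^ 5 + X ^ 10)) (s := (X ^ 3)) (by linear_combination ((-1) * X ^ 3 + (-1) * X ^ 5 + X ^ 12) * h2)
  have h6 := sq_step h5 (r' := (1 + X ^ 2 + X ^ 6 + X ^ 9 + X ^ 10)) (s := (1 + X ^ 9)) (by linear_combination ((-1) + (-1) * X ^ 2 + X ^ 8 + (-1) * X ^ 9 + (-1) * X ^ 11 + X ^ 13 + X ^ 15) * h2)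
  have h7 := sq_step h6 (r' := (X + X ^ 2 + X ^ 3 + X ^ 4 + X ^ 7)) (s := (1 + X + X ^ 7 + X ^ 9)) (by linear_combination ((-1) * X + (-1) * X ^ 3 + X ^ 6 + (-1) * X ^ 7 + X ^ 8 + X ^ 10 + X ^ 12 + X ^ 15 + X ^ 16 + X ^ 19) * h2)
  have h8 := sq_step h7 (r' := (X ^ 2 + X ^ 3 + X ^ 4 + X ^ 5 + X ^ 6 + X ^ 8)) (s := (X ^ 3)) (by linear_combination (X ^ 4 + X ^ 5 + X ^ 6 + X ^ 7 + X ^ 8 + X ^ 9 + X ^ 10 + X ^ 11) * h2)
  have h9 := sq_step h8 (r' := (X + X ^ 3 + X ^ 4 + X ^ 5 + X ^ 6 + X ^ 7 + X ^ 8 + X ^ 10)) (s := (X + X ^ 5)) (by linear_combination ((-1) * X + (-1) * X ^ 3 + X ^ 6 + X ^ 7 + (2) * X ^ 8 + (2) * X ^ 9 + (2) * X ^ 10 + (2) * X ^ 11 + X ^ 12 + X ^ 13 + X ^ 14) * h2)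
  have h10 := sq_step h9 (r' := (1 + X + X ^ 6 + X ^ 7 + X ^ 8 + X ^ 9 + X ^ 10)) (s := (1 + X + X ^ 3 + X ^ 5 + X ^ 9)) (by linear_combination ((-1) + (-1) * X + (-1) * X ^ 3 + X ^ 4 + X ^ 6 + X ^ 7 + (2) * X ^ 8 + (2) * X ^ 9 + (2) * X ^ 10 + (3) * X ^ 11 + (2) * X ^ 12 + (3) * X ^ 13 + (2) * X ^ 14 + (2) * X ^ 15 + X ^ 16 + X ^ 17 + X ^ 18) * h2)
  have h11 := sq_step h10 (r' := (X)) (s := (1 + X + X ^ 3 + X ^ 5 + X ^ 7 + X ^ 9)) (by linear_combination ((-1) * X ^ 3 + (-1) * X ^ 5 + X ^ 6 + X ^ 7 + (2) * X ^ 8 + X ^ 9 + (2) * X ^ 10 + X ^ 13 + X ^ 14 + (2) * X ^ 15 + (2) * X ^ 16 + (2) * X ^ 17 + X ^ 18 + X ^ 19) * h2)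
  have := root_of_dvd hF (by simpa using h11) (n := 11) (by compute_degree!) (by norm_num)
  simpa using this

lemma Kn_7_3 [Fintype F] (hF : Fintype.card F = 2 ^ 7) : Kn F 3 := by
  obtain ⟨w, hw⟩ := root_7 hF
  have h2 : (2 : F) = 0 := two_zero
  exact Kn_of3 (1) (w ^ 5) (w + w ^ 4 + w ^ 6)
    (1)
    (1 + w ^ 2 + w ^ 3 + w ^ 4 + w ^ 5 + w ^ 6)
    (1 + w + w ^ 3 + w ^ 4 + w ^ 6)
    (w + w ^ 3 + w ^ 4 + w ^ 5 + w ^ 6)
    (w ^ 2 + w ^ 3 + w ^ 5)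
    (w + w ^ 2 + w ^ 3 + w ^ 4)
    (1 + w + w ^ 2 + w ^ 3 + w ^ 5 + w ^ 6)
    (by linear_combination (0) * hw + (0) * h2)
    (by linear_combination (1 + w + w ^ 2 + w ^ 3 + w ^ 4) * hw + ((-1) + (-1) * w + (-1) * w ^ 2 + (-1) * w ^ 3 + (-1) * w ^ 4) * h2)
    (by linear_combination (w + w ^ 2 + w ^ 4) * hw + ((-1) * w ^ 2 + w ^ 6) * h2)
    (by linear_combination (1 + w + w ^ 4 + w ^ 5) * hw + ((-1) + (-1) * w + w ^ 7 + w ^ 9 + w ^ 10) * h2)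
    (by linear_combination (1 + w + w ^ 4) * hw + ((-1) + (-1) * w + w ^ 3 + w ^ 6 + w ^ 9) * h2)
    (by linear_combination (1 + w + w ^ 3) * hw + ((-1) + (-1) * w + w ^ 5 + w ^ 6 + w ^ 7 + w ^ 8 + w ^ 9) * h2)
    (by linear_combination (w ^ 5) * hw + (w + w ^ 2 + w ^ 3 + w ^ 4 + w ^ 5 + (2) * w ^ 6 + (2) * w ^ 7 + w ^ 8 + w ^ 9 + w ^ 10 + w ^ 11) * h2)
    (by linear_combination ((2) + (2) * w + (2) * w ^ 2 + (3) * w ^ 3 + (2) * w ^ 4 + (2) * w ^ 5 + (2) * w ^ 6) * h2)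

lemma Kn_9_3 [Fintype F] (hF : Fintype.card F = 2 ^ 9) : Kn F 3 := by
  obtain ⟨w, hw⟩ := root_9 hF
  have h2 : (2 : F) = 0 := two_zero
  exact Kn_of3 (1) (w ^ 3 + w ^ 4 + w ^ 6) (w ^ 2 + w ^ 8)
    (1)
    (w + w ^ 4 + w ^ 5 + w ^ 6 + w ^ 8)
    (1 + w + w ^ 2 + w ^ 5 + w ^ 6)
    (1 + w ^ 5 + w ^ 7 + w ^ 8)
    (1 + w ^ 3 + w ^ 4 + w ^ 5)
    (w + w ^ 2 + w ^ 3 + w ^ 5 + w ^ 6)
    (w + w ^ 5 + w ^ 6 + w ^ 7)
    (by linear_combination (0) * hw + (0) * h2)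
    (by linear_combination (1 + w ^ 5) * hw + ((-1) + w ^ 7 + w ^ 8 + w ^ 10 + w ^ 11 + w ^ 12) * h2)
    (by linear_combination (w + w ^ 2 + w ^ 3) * hw + (w ^ 4 + w ^ 5 + w ^ 6 + w ^ 8 + w ^ 9) * h2)
    (by linear_combination (1 + w ^ 2 + w ^ 4 + w ^ 6 + w ^ 7) * hw + ((-1) + (-1) * w ^ 4 + (-1) * w ^ 6 + (-1) * w ^ 11) * h2)
    (by linear_combination (w ^ 2 + w ^ 3 + w ^ 4) * hw + (w ^ 5) * h2)
    (by linear_combination (1 + w ^ 3 + w ^ 4 + w ^ 5) * hw + ((-1) + w ^ 5 + w ^ 6 + w ^ 7 + w ^ 8 + w ^ 9 + w ^ 10 + w ^ 11) * h2)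
    (by linear_combination (1 + w + w ^ 3 + w ^ 5 + w ^ 6) * hw + ((-1) + w ^ 7 + w ^ 8 + w ^ 9 + w ^ 11 + w ^ 13) * h2)
    (by linear_combination ((2) + (2) * w + w ^ 2 + w ^ 3 + w ^ 4 + (3) * w ^ 5 + (2) * w ^ 6 + w ^ 7 + w ^ 8) * h2)

lemma Kn_9_4 [Fintype F] (hF : Fintype.card F = 2 ^ 9) : Kn F 4 := by
  obtain ⟨w, hw⟩ := root_9 hF
  have h2 : (2 : F) = 0 := two_zero
  exact Kn_of4 (1) (w ^ 5 + w ^ 6 + w ^ 8) (w ^ 3 + w ^ 8) (1 + w ^ 2)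
    (1)
    (w ^ 2 + w ^ 4 + w ^ 6 + w ^ 8)
    (1 + w + w ^ 5 + w ^ 8)
    (w)
    (1 + w ^ 4 + w ^ 5 + w ^ 6 + w ^ 7 + w ^ 8)
    (w ^ 5 + w ^ 6 + w ^ 7)
    (1 + w + w ^ 4 + w ^ 5 + w ^ 7 + w ^ 8)
    (1 + w + w ^ 2 + w ^ 3 + w ^ 4 + w ^ 6 + w ^ 8)
    (w ^ 2 + w ^ 7)
    (w + w ^ 2 + w ^ 3 + w ^ 6 + w ^ 7 + w ^ 8)
    (1 + w ^ 2 + w ^ 4 + w ^ 7 + w ^ 8)
    (1 + w + w ^ 3 + w ^ 4 + w ^ 7 + w ^ 8)
    (1 + w + w ^ 3 + w ^ 6)
    (1 + w + w ^ 6 + w ^ 7)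
    (1 + w ^ 2 + w ^ 6)
    (by linear_combination (0) * hw + (0) * h2)
    (by linear_combination (1 + w ^ 4 + w ^ 7) * hw + ((-1) + (-1) * w ^ 4 + w ^ 10 + w ^ 12 + w ^ 14) * h2)
    (by linear_combination (w + w ^ 5 + w ^ 7) * hw + (w ^ 6 + w ^ 8 + w ^ 13) * h2)
    (by linear_combination (1) * hw + ((-1)) * h2)
    (by linear_combination (w ^ 3 + w ^ 4 + w ^ 5 + w ^ 6 + w ^ 7) * hw + (w ^ 8) * h2)
    (by linear_combination (1 + w ^ 4) * hw + ((-1) + (-1) * w ^ 4 + w ^ 10 + w ^ 11 + w ^ 12 + w ^ 13 + w ^ 14 + w ^ 15) * h2)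
    (by linear_combination (w + w ^ 3 + w ^ 5) * hw + (w ^ 4 + w ^ 6 + w ^ 7 + (2) * w ^ 8 + w ^ 9 + w ^ 10 + w ^ 11 + w ^ 12 + (2) * w ^ 13 + w ^ 15 + w ^ 16) * h2)
    (by linear_combination (w) * hw + (w ^ 2 + w ^ 3 + w ^ 4 + w ^ 6 + w ^ 8) * h2)
    (by linear_combination (1) * hw + ((-1) + w ^ 2 + w ^ 7) * h2)
    (by linear_combination (1 + w + w ^ 2 + w ^ 6 + w ^ 7) * hw + ((-1) + w ^ 3 + w ^ 7 + (2) * w ^ 8 + w ^ 9 + w ^ 12 + w ^ 13 + w ^ 14) * h2)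
    (by linear_combination (1 + w ^ 2 + w ^ 5 + w ^ 6 + w ^ 7) * hw + (w ^ 2 + w ^ 4 + w ^ 7 + (2) * w ^ 8 + w ^ 10 + (-1) * w ^ 11 + w ^ 12 + w ^ 13) * h2)
    (by linear_combination (w + w ^ 2 + w ^ 3 + w ^ 6 + w ^ 7) * hw + (w ^ 3 + w ^ 4 + w ^ 8 + w ^ 9) * h2)
    (by linear_combination (1 + w ^ 2 + w ^ 5) * hw + (w + (2) * w ^ 3 + w ^ 6 + w ^ 8) * h2)
    (by linear_combination (w + w ^ 2 + w ^ 4) * hw + (w ^ 3 + w ^ 6 + w ^ 7 + w ^ 8 + (2) * w ^ 9 + w ^ 12 + w ^ 14 + w ^ 15) * h2)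
    (by linear_combination (1 + w ^ 2 + w ^ 3) * hw + (w ^ 2 + w ^ 5 + w ^ 6 + (2) * w ^ 8 + w ^ 10 + w ^ 14) * h2)
    (by linear_combination ((5) + (4) * w + (3) * w ^ 2 + (2) * w ^ 3 + (3) * w ^ 4 + (2) * w ^ 5 + (4) * w ^ 6 + (4) * w ^ 7 + (4) * w ^ 8) * h2)

lemma Kn_11_3 [Fintype F] (hF : Fintype.card F = 2 ^ 11) : Kn F 3 := by
  obtain ⟨w, hw⟩ := root_11 hF
  have h2 : (2 : F) = 0 := two_zero
  exact Kn_of3 (1) (w ^ 6 + w ^ 8) (w ^ 4 + w ^ 5 + w ^ 8 + w ^ 10)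
    (1)
    (w + w ^ 2 + w ^ 4 + w ^ 5 + w ^ 6 + w ^ 8 + w ^ 9 + w ^ 10)
    (w ^ 2 + w ^ 4 + w ^ 5 + w ^ 6 + w ^ 7 + w ^ 8)
    (1 + w + w ^ 4 + w ^ 5 + w ^ 6 + w ^ 8 + w ^ 9 + w ^ 10)
    (w ^ 2 + w ^ 3 + w ^ 4 + w ^ 5)
    (w ^ 4 + w ^ 6 + w ^ 7 + w ^ 10)
    (w ^ 2 + w ^ 3 + w ^ 4 + w ^ 8 + w ^ 10)
    (by linear_combination (0) * hw + (0) * h2)
    (by linear_combination (1 + w ^ 2 + w ^ 4 + w ^ 6 + w ^ 7) * hw + ((-1) + (-1) * w ^ 2 + (-1) * w ^ 4 + (-1) * w ^ 6 + w ^ 10 + w ^ 12 + w ^ 14 + w ^ 16) * h2)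
    (by linear_combination (1 + w ^ 4 + w ^ 5) * hw + ((-1) + w ^ 8 + w ^ 10 + w ^ 12 + w ^ 13 + w ^ 14) * h2)
    (by linear_combination (1 + w ^ 2 + w ^ 6 + w ^ 8 + w ^ 9) * hw + ((-1) + (-1) * w ^ 2 + w ^ 5 + w ^ 9 + w ^ 10 + w ^ 12 + w ^ 13 + (2) * w ^ 14 + w ^ 15 + w ^ 16 + w ^ 18) * h2)
    (by linear_combination (1 + w ^ 3 + w ^ 4) * hw + ((-1) + w ^ 7 + w ^ 8 + w ^ 9 + w ^ 10 + w ^ 12 + w ^ 13) * h2)
    (by linear_combination (1 + w ^ 2 + w ^ 4 + w ^ 6 + w ^ 9) * hw + ((-1) + (-1) * w ^ 2 + (-1) * w ^ 4 + (-1) * w ^ 6 + w ^ 10 + (2) * w ^ 12 + (2) * w ^ 14 + w ^ 15 + w ^ 16 + w ^ 18) * h2)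
    (by linear_combination (1 + w ^ 3 + w ^ 4 + w ^ 5 + w ^ 7 + w ^ 9) * hw + ((-1) + (-1) * w ^ 5 + (2) * w ^ 8 + (2) * w ^ 10 + (2) * w ^ 12 + w ^ 13 + w ^ 14 + w ^ 16 + w ^ 18) * h2)
    (by linear_combination (1 + w + (2) * w ^ 2 + w ^ 3 + (3) * w ^ 4 + (2) * w ^ 5 + (2) * w ^ 6 + w ^ 7 + (2) * w ^ 8 + w ^ 9 + (2) * w ^ 10) * h2)

end Pool.Agent.H253Z
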