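import Pool.Agent.H253Z.SfG

/-! The dimensions in which the inverse function sums to zero on some subspace. -/

set_option autoImplicit false
set_option linter.unusedSectionVars false

namespace Pool.Agent.H253Z

variable {F : Type*} [Field F] [CharP F 2] [Algebra (ZMod 2) F]

lemma Kn_half [Fintype F] (n k : ℕ) (hF : Module.finrank (ZMod 2) F = n) (hn : Odd n)
    (h3 : 3 ≤ k) (hk : 2 * k ≤ n) : Kn F k := by
  have e2 : Fintype.card F = 2 ^ n := by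
    rw [Module.card_eq_pow_finrank (K := ZMod 2), ZMod.card, hF]
  obtain ⟨j, hj⟩ := hn
  obtain ⟨m, rfl⟩ := Nat.exists_eq_add_of_le' h3
  by_cases hc : 2 ≤ m ∨ (m = 1 ∧ 11 ≤ n) ∨ (m = 0 ∧ 13 ≤ n)
  · exact Kn_large n m hF (by omega) hc
  · have : (m = 0 ∧ n = 7) ∨ (m = 0 ∧ n = 9) ∨ (m = 0 ∧ n = 11) ∨ (m = 1 ∧ n = 9) := by omega
    rcases this with ⟨rfl, h⟩ | ⟨rfl, h⟩ | ⟨rfl, h⟩ | ⟨rfl, h⟩
    · exact Kn_7_3 (by rw [e2, h])
    · exact Kn_9_3 (by rw [e2, h])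
    · exact Kn_11_3 (by rw [e2, h])
    · exact Kn_9_4 (by rw [e2, h])

theorem Kn_char [Fintype F] (n k : ℕ) (hF : Module.finrank (ZMod 2) F = n) (hn : Odd n)
    (hn3 : 3 ≤ n) (h1 : 1 ≤ k) (hk : k ≤ n - 1) : Kn F k ↔ 3 ≤ k ∧ k ≤ n - 3 := by
  have e2 : Fintype.card F = 2 ^ n := by
    rw [Module.card_eq_pow_finrank (K := ZMod 2), ZMod.card, hF]
  have hc : 2 < Fintype.card F := by
    rw [e2]
    calc 2 < 2 ^ 3 := by norm_num
      _ ≤ _ := Nat.pow_le_pow_right (by norm_num) hn3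
  obtain ⟨j, hj⟩ := hn
  have n1 : ¬ Kn F 1 := not_Kn_one
  have n2 : ¬ Kn F 2 := not_Kn_two j (by rw [e2, hj])
  constructor
  · intro h
    have hd := Kn_dual hc h1 h
    rw [hF] at hd
    by_contra hcon
    have : k = 1 ∨ k = 2 ∨ n - k = 1 ∨ n - k = 2 := by omega
    rcases this with e | e | e | e
    · exact n1 (e ▸ h)
    · exact n2 (e ▸ h)
    · exact n1 (e ▸ hd)
    · exact n2 (e ▸ hd)
  · rintro ⟨h3, h4⟩
    by_cases h : 2 * k ≤ n
    · exact Kn_half n k hF ⟨j, hj⟩ h3 h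
    · have := Kn_dual hc (by omega) (Kn_half n (n - k) hF ⟨j, hj⟩ (by omega) (by omega))
      rwa [hF, show n - (n - k) = k by omega] at this

lemma finsum_shift (V : Submodule (ZMod 2) F) (a : F) (ha : a ∈ V) :
    ∑ᶠ x ∈ (V : Set F), (a + x)⁻¹ = ∑ᶠ x ∈ (V : Set F), x⁻¹ := by
  refine finsum_mem_eq_of_bijOn (fun x => a + x) ⟨?_, ?_, ?_⟩ (fun _ _ => rfl)
  · intro x hx
    exact V.add_mem ha hx
  · intro x _ y _ h
    exact add_left_cancel h
  · intro y hy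
    exact ⟨y - a, V.sub_mem hy ha, by simp⟩

theorem sumfree_char [Fintype F] (n k : ℕ) (hF : Module.finrank (ZMod 2) F = n) (hn : Odd n)
    (hn3 : 3 ≤ n) (h1 : 1 ≤ k) (hk : k ≤ n - 1) :
    (∀ V : Submodule (ZMod 2) F, Module.finrank (ZMod 2) V = k →
      ∀ a : F, ∑ᶠ x ∈ (V : Set F), (a + x)⁻¹ ≠ 0) ↔
      (k = 1 ∨ k = 2 ∨ k = n - 2 ∨ k = n - 1) := by
  have key := Kn_char n k hF hn hn3 h1 hk
  constructor
  · intro h
    by_contra hc
    obtain ⟨V, hV, h0⟩ := key.2 (by omega)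
    exact h V hV 0 (by rw [finsum_shift V 0 V.zero_mem, h0])
  · intro h V hV a
    by_cases ha : a ∈ V
    · rw [finsum_shift V a ha]
      intro h0
      have := key.1 ⟨V, hV, h0⟩
      omega
    · exact affine_ne V (by omega) a ha

end Pool.Agent.H253Z
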